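import Pool.Agent.R459.Eq2

/-! Random integers whose characteristic function decays: the second moment of sums over primes. -/

set_option autoImplicit false

namespace Pool.Agent.R459.Eq
open Finset
open Pool.Agent.H807R2.Dav
open Pool.Agent.TH872.Mir (Far farCount)

/-- the characteristic function is small at the frequencies with many places far from the integers -/
structure Decays (b F A k : ℕ) (γ : ℝ) (κ : ℤ) {ι : Type} (Ω : Finset ι) (w : ι → ℝ) (v : ι → ℤ) : Prop where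
  nonneg : ∀ i ∈ Ω, 0 ≤ w i
  sum : ∑ i ∈ Ω, w i = 1
  char : ∀ (θ : ℝ) (N : ℕ), A * (N + 1) ≤ farCount b F k (κ * θ) → A * N ≤ k →
    ‖∑ i ∈ Ω, (w i : ℂ) * ee ((v i : ℝ) * θ)‖ ≤ γ ^ N

lemma far_eq (b F k : ℕ) (κ : ℤ) (θ : ℝ) : far b (F * κ) k θ = farCount b F k (κ * θ) := by
  classical
  unfold far farCount
  congr 1
  ext j
  rw [mem_filter, mem_filter]
  have : (b : ℝ) ^ j * (((F * κ : ℤ) : ℝ) * θ) = (F : ℝ) * ((b : ℝ) ^ j * (κ * θ)) := by
    push_cast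
    ring
  rw [this]

theorem ms (b : ℕ) (hb : 2 ≤ b) (A : ℕ) (γ : ℝ) (hγ0 : 0 < γ) (hγ1 : γ < 1) : ∃ W : ℕ, 1 ≤ W ∧
    ∀ (F : ℕ) (κ : ℤ), 1 ≤ F → κ ≠ 0 → ∃ C : ℝ, 0 < C ∧ ∀ (k x : ℕ), b ≤ x → x ^ W ≤ b ^ k →
    ∀ (ι : Type) (Ω : Finset ι) (w : ι → ℝ) (v : ι → ℤ), Decays b F A k γ κ Ω w v →
    ∀ P : Finset ℕ, (∀ p ∈ P, p.Prime ∧ p ≤ x ∧ ¬ p ∣ b) → ∀ f : ℕ → ℤ → ℝ, (∀ p n, 0 ≤ f p n ∧ f p n ≤ 1) →
      (∀ p ∈ P, Per p (f p)) →
      ∑ i ∈ Ω, w i * (∑ p ∈ P, (f p (v i) - mean p (f p))) ^ 2 ≤ P.card + C * √x := by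
  classical
  have hb0 : (0 : ℝ) < b := by exact_mod_cast (by omega : 0 < b)
  have hb1 : (1 : ℝ) < b := by exact_mod_cast (by omega : 1 < b)
  obtain ⟨β, hβ1, hβ⟩ : ∃ β : ℝ, 1 < β ∧ β ^ 16 = b := by
    refine ⟨(b : ℝ) ^ (1 / 16 : ℝ), Real.one_lt_rpow hb1 (by norm_num), ?_⟩
    rw [← Real.rpow_natCast, ← Real.rpow_mul hb0.le]
    norm_num
  have hβ0 : 0 < β := by linarith
  have hβb : β ≤ b := by
    rw [← hβ]
    exact le_self_pow₀ hβ1.le (by norm_num)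
  obtain ⟨z, hz⟩ : ∃ z : ℝ, z = (β - 1) / (2 * b) := ⟨_, rfl⟩
  have hz0 : 0 < z := by rw [hz]; exact div_pos (by linarith) (by linarith)
  have hz1 : z ≤ 1 := by
    rw [hz, div_le_one (by linarith)]
    linarith
  have hz2 : 1 + 2 * b * z = β := by
    rw [hz]
    field_simp
    ring
  obtain ⟨R, hR⟩ := pow_unbounded_of_one_lt (1 / z) hβ1
  have hR1 : 1 ≤ z * β ^ (R + 1) := by
    have h1 : β ^ R ≤ β ^ (R + 1) := pow_le_pow_right₀ hβ1.le (by omega)
    have h2 : 1 / z < β ^ (R + 1) := lt_of_lt_of_le hR h1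
    rw [div_lt_iff₀ hz0] at h2
    linarith
  obtain ⟨g, hg⟩ := exists_pow_lt_of_lt_one (show (0 : ℝ) < 1 / b by positivity) hγ1
  obtain ⟨W, hW⟩ : ∃ W, W = (A + 1) * (g + 1) * (R + 1) := ⟨_, rfl⟩
  have hW1 : 1 ≤ W := by rw [hW]; exact Nat.mul_pos (Nat.mul_pos (by omega) (by omega)) (by omega)
  refine ⟨5 * W, by omega, fun F κ hF hκ => ?_⟩
  obtain ⟨G, hG⟩ : ∃ G : ℤ, G = F * κ := ⟨_, rfl⟩
  have hG0 : G ≠ 0 := by
    rw [hG]
    exact mul_ne_zero (by exact_mod_cast (by omega : F ≠ 0)) hκ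
  have hGn : (0 : ℝ) ≤ ((2 * |G| + 1 : ℤ) : ℝ) := by
    have : (0 : ℤ) ≤ 2 * |G| + 1 := by positivity
    exact_mod_cast this
  refine ⟨2 * ((2 * |G| + 1 : ℤ) : ℝ) * b + 1, by positivity, fun k x hbx hxW ι Ω w v hdec P hP f hf hper => ?_⟩
  have hx1 : 1 ≤ x := by omega
  have hxr : (1 : ℝ) ≤ x := by exact_mod_cast hx1
  obtain ⟨K, hK⟩ : ∃ K, K = Nat.clog b (x ^ 4 + 1) := ⟨_, rfl⟩
  have hK1 : x ^ 4 < b ^ K := by
    have := Nat.le_pow_clog (by omega : 1 < b) (x ^ 4 + 1)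
    rw [← hK] at this
    omega
  have hK0 : 1 ≤ K := by
    rcases Nat.eq_zero_or_pos K with h | h
    · rw [h, pow_zero] at hK1
      have : 1 ≤ x ^ 4 := Nat.one_le_pow _ _ hx1
      omega
    · exact h
  have hK2 : b ^ K ≤ b * x ^ 4 := by
    have h1 := Nat.pow_pred_clog_lt_self (by omega : 1 < b) (show 1 < x ^ 4 + 1 by
      have : 1 ≤ x ^ 4 := Nat.one_le_pow _ _ hx1
      omega)
    rw [← hK] at h1
    have h2 : b ^ K = b * b ^ (K.pred) := by
      rw [← pow_succ', Nat.pred_eq_sub_one, Nat.sub_add_cancel hK0]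
    rw [h2]
    exact Nat.mul_le_mul_left _ (by omega)
  have hWK : W * K ≤ k := by
    have h1 : b ^ (W * K) ≤ b ^ k := by
      calc b ^ (W * K) = (b ^ K) ^ W := by rw [← pow_mul, mul_comm]
        _ ≤ (x ^ 5) ^ W := Nat.pow_le_pow_left (hK2.trans (by
            calc b * x ^ 4 ≤ x * x ^ 4 := Nat.mul_le_mul_right _ hbx
              _ = x ^ 5 := by ring)) _
        _ = x ^ (5 * W) := by rw [← pow_mul]
        _ ≤ b ^ k := hxW
    exact (Nat.pow_le_pow_iff_right (by omega)).1 h1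
  obtain ⟨L, hL⟩ : ∃ L, L = K / (R + 1) := ⟨_, rfl⟩
  have hL1 : K ≤ (R + 1) * (L + 1) := by
    rw [hL]
    exact (Nat.lt_mul_div_succ K (by omega : 0 < R + 1)).le
  have hL2 : (R + 1) * L ≤ K := by
    rw [hL]
    exact Nat.mul_div_le K (R + 1)
  obtain ⟨T, hT⟩ : ∃ T : Finset ℕ, T = (Icc 1 (x ^ 2)).filter (fun m => Bad b G K L m) := ⟨_, rfl⟩
  have hTc : (T.card : ℝ) ≤ ((2 * |G| + 1 : ℤ) : ℝ) * (b * √x) := by
    have h1 := bad_card b hb G hG0 K L (x ^ 2) (by rw [← pow_mul]; exact hK1) z hz0 hz1 T (by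
      intro m hm
      rw [hT, mem_filter, mem_Icc] at hm
      exact ⟨hm.1.1, hm.1.2, hm.2⟩)
    rw [hz2] at h1
    have h2 : 1 ≤ z ^ L * β ^ K := by
      calc (1 : ℝ) ≤ (z * β ^ (R + 1)) ^ L := one_le_pow₀ hR1
        _ = z ^ L * β ^ ((R + 1) * L) := by rw [mul_pow, ← pow_mul]
        _ ≤ z ^ L * β ^ K := mul_le_mul_of_nonneg_left (pow_le_pow_right₀ hβ1.le hL2) (by positivity)
    have h3 : β ^ (2 * K) ≤ b * √x := by
      apply le_of_pow_le_pow_left₀ (show (8 : ℕ) ≠ 0 by norm_num) (by positivity)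
      have e1 : (β ^ (2 * K)) ^ 8 = (b : ℝ) ^ K := by
        rw [← hβ, ← pow_mul, ← pow_mul]
        congr 1
        ring
      have e2 : ((b : ℝ) * √x) ^ 8 = (b : ℝ) ^ 8 * (x : ℝ) ^ 4 := by
        rw [mul_pow]
        congr 1
        calc (√(x : ℝ)) ^ 8 = ((√(x : ℝ)) ^ 2) ^ 4 := by ring
          _ = _ := by rw [Real.sq_sqrt (by linarith)]
      rw [e1, e2]
      calc (b : ℝ) ^ K ≤ b * (x : ℝ) ^ 4 := by exact_mod_cast hK2
        _ ≤ (b : ℝ) ^ 8 * (x : ℝ) ^ 4 := by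
            apply mul_le_mul_of_nonneg_right _ (by positivity)
            exact le_self_pow₀ hb1.le (by norm_num)
    calc (T.card : ℝ) = T.card * 1 := by ring
      _ ≤ T.card * (z ^ L * β ^ K) := mul_le_mul_of_nonneg_left h2 (Nat.cast_nonneg _)
      _ = (T.card * z ^ L) * β ^ K := by ring
      _ ≤ (((2 * |G| + 1 : ℤ) : ℝ) * β ^ K) * β ^ K := mul_le_mul_of_nonneg_right h1 (by positivity)
      _ = ((2 * |G| + 1 : ℤ) : ℝ) * β ^ (2 * K) := by
          have : β ^ (2 * K) = β ^ K * β ^ K := by rw [← pow_add]; congr 1; ring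
          rw [this]; ring
      _ ≤ _ := mul_le_mul_of_nonneg_left h3 hGn
  have hτ : γ ^ (g * K) ≤ 1 / (x : ℝ) ^ 4 := by
    rw [pow_mul]
    calc (γ ^ g) ^ K ≤ (1 / (b : ℝ)) ^ K := pow_le_pow_left₀ (by positivity) hg.le _
      _ = 1 / (b : ℝ) ^ K := by rw [div_pow, one_pow]
      _ ≤ _ := by
          apply one_div_le_one_div_of_le (by positivity)
          exact_mod_cast hK1.le
  have hvar := variance Ω w hdec.nonneg hdec.sum v x P (fun p hp => ⟨(hP p hp).1, (hP p hp).2.1⟩) f hf hper (γ ^ (g * K))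
    (by positivity) T (by
      intro p hp q hq hpq hin a ha
      have hpp := (hP p hp).1
      have hqp := (hP q hq).1
      have hm1 : 1 ≤ p * q := Nat.mul_pos hpp.pos hqp.pos
      have hm2 : p * q ≤ x ^ 2 := by
        rw [sq]
        exact Nat.mul_le_mul (hP p hp).2.1 (hP q hq).2.1
      have hnb : ¬ Bad b G K L (p * q) := by
        intro h
        apply hin
        rw [hT, mem_filter, mem_Icc]
        exact ⟨⟨hm1, hm2⟩, h⟩
      have hcb : Nat.Coprime b (p * q) := by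
        apply Nat.Coprime.mul_right
        · exact ((Nat.Prime.coprime_iff_not_dvd hpp).2 (hP p hp).2.2).symm
        · exact ((Nat.Prime.coprime_iff_not_dvd hqp).2 (hP q hq).2.2).symm
      have h1 := far_many b G K L W k (p * q) hm1 hcb hnb hWK a ha
      rw [hG, far_eq] at h1
      apply hdec.char _ (g * K)
      · refine le_trans ?_ h1
        calc A * (g * K + 1) ≤ (A + 1) * ((g + 1) * K) := by
              apply Nat.mul_le_mul (by omega)
              nlinarith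
          _ = (A + 1) * (g + 1) * K := by ring
          _ ≤ (A + 1) * (g + 1) * ((R + 1) * (L + 1)) := Nat.mul_le_mul_left _ hL1
          _ = W * (L + 1) := by rw [hW]; ring
      · refine le_trans ?_ hWK
        rw [hW]
        calc A * (g * K) = (A * g) * K := by ring
          _ ≤ (A + 1) * (g + 1) * (R + 1) * K := by
              apply Nat.mul_le_mul_right
              calc A * g ≤ (A + 1) * (g + 1) := Nat.mul_le_mul (by omega) (by omega)
                _ ≤ _ := Nat.le_mul_of_pos_right _ (by omega))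
  refine hvar.trans ?_
  have hPc : (P.card : ℝ) ≤ x := by
    have h1 : P ⊆ Icc 1 x := by
      intro p hp
      rw [mem_Icc]
      exact ⟨(hP p hp).1.one_le, (hP p hp).2.1⟩
    have h2 := card_le_card h1
    rw [Nat.card_Icc, Nat.add_sub_cancel] at h2
    exact_mod_cast h2
  have h1 : (P.card : ℝ) ^ 2 * (x : ℝ) ^ 2 * γ ^ (g * K) ≤ 1 := by
    calc (P.card : ℝ) ^ 2 * (x : ℝ) ^ 2 * γ ^ (g * K) ≤ (x : ℝ) ^ 2 * (x : ℝ) ^ 2 * (1 / (x : ℝ) ^ 4) := by
          apply mul_le_mul _ hτ (by positivity) (by positivity)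
          apply mul_le_mul_of_nonneg_right _ (by positivity)
          exact pow_le_pow_left₀ (Nat.cast_nonneg _) hPc _
      _ = 1 := by field_simp
  have h2 : (1 : ℝ) ≤ √x := by
    rw [Real.one_le_sqrt]
    exact hxr
  have h3 : (2 * ((2 * |G| + 1 : ℤ) : ℝ) * b + 1) * √x = 2 * (((2 * |G| + 1 : ℤ) : ℝ) * (b * √x)) + √x := by ring
  rw [h3]
  linarith

end Pool.Agent.R459.Eq
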