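import Pool.Agent.R459.Eq17

/-! Two parameters: the counts of the primes with a given property. -/

set_option autoImplicit false

namespace Pool.Agent.R459.Eq
open Finset
open Pool.Agent.H807R2.Dav

open Classical in
/-- the number of the primes `p ≤ x` with the property -/
noncomputable def cntR (R : ℕ → ℤ → ℤ → Prop) (a n : ℤ) (x : ℕ) : ℕ := ((pri x).filter (fun p => R p a n)).card

open Classical in
/-- the proportion of the residues with the property -/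
noncomputable def dens (R : ℕ → ℤ → ℤ → Prop) (a : ℤ) (p : ℕ) : ℝ := (((range p).filter (fun t : ℕ => R p a t)).card : ℝ) / p

open Classical in
/-- the proportion of the pairs of residues with the property -/
noncomputable def dens2 (R : ℕ → ℤ → ℤ → Prop) (p : ℕ) : ℝ :=
  (((range p ×ˢ range p).filter (fun z : ℕ × ℕ => R p z.1 z.2)).card : ℝ) / (p : ℝ) ^ 2

open Classical in
/-- the indicator function -/
noncomputable def indR (R : ℕ → ℤ → ℤ → Prop) (p : ℕ) (a n : ℤ) : ℝ := if R p a n then 1 else 0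

lemma ind_sum (R : ℕ → ℤ → ℤ → Prop) (a n : ℤ) (x : ℕ) : ∑ p ∈ pri x, indR R p a n = cntR R a n x := by
  unfold indR cntR
  rw [sum_boole]

lemma ind_av (R : ℕ → ℤ → ℤ → Prop) (p : ℕ) (a : ℤ) : Av (indR R) p a = dens R a p := by
  unfold Av mean indR dens
  rw [sum_boole]

lemma ind_av2 (R : ℕ → ℤ → ℤ → Prop) (p : ℕ) : mean p (Av (indR R) p) = dens2 R p := by
  classical
  unfold mean
  simp only [ind_av]
  unfold dens dens2
  rw [← sum_div, div_div, ← sq]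
  congr 1
  rw [← Nat.cast_sum]
  congr 1
  rw [card_filter, sum_product]
  apply sum_congr rfl
  intro t _
  rw [card_filter]

/-- **two parameters** -/
theorem two_count (b : ℕ) (hb : 2 ≤ b) (η : ℝ) (hη : 0 < η) (δ : ℝ) (hδ : 0 < δ) (hδ1 : δ ≤ 1 / 2) : ∃ W : ℕ, 1 ≤ W ∧
    ∀ κ : ℤ, κ ≠ 0 → ∃ X₀ : ℕ, ∀ X : ℕ, X₀ ≤ X → ∀ k : ℕ, 2 ≤ k → ∀ c : ℤ, ∀ R : ℕ → ℕ → ℤ → ℤ → Prop,
    (∀ j p : ℕ, p.Prime → ∀ a a' n n' : ℤ, (p : ℤ) ∣ a - a' → (p : ℤ) ∣ n - n' → (R j p a n ↔ R j p a' n')) →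
    (∀ p : ℕ, p.Prime → ∀ (a n : ℤ) (Q : Finset ℕ), (∀ j ∈ Q, R j p a n) → Q.card ≤ Nat.log 2 p + 3) →
    (∀ a : ℤ, Almost b k κ c η (2 * (X : ℝ) ^ (-(δ / 2))) (fun n => ∀ x : ℕ, X ≤ x → x ^ W ≤ b ^ k →
      (∀ j : ℕ, j ≤ x → |(cntR (R j) a n x : ℝ) - ∑ p ∈ pri x, dens (R j) a p| ≤ (x : ℝ) ^ (1 / 2 + δ)) ∧
      (∀ j : ℕ, (j : ℝ) ≤ (x : ℝ) ^ (δ / 2) → |(cntR (R j) a n x : ℝ) - ∑ p ∈ pri x, dens (R j) a p| ≤
        √(max 1 (∑ p ∈ pri (2 * x), dens (R j) a p)) * (x : ℝ) ^ δ))) ∧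
    Almost b k κ c η (2 * (X : ℝ) ^ (-(δ / 2))) (fun a => ∀ x : ℕ, X ≤ x → x ^ W ≤ b ^ k →
      (∀ j : ℕ, j ≤ x → |∑ p ∈ pri x, dens (R j) a p - ∑ p ∈ pri x, dens2 (R j) p| ≤ (x : ℝ) ^ (1 / 2 + δ)) ∧
      (∀ j : ℕ, (j : ℝ) ≤ (x : ℝ) ^ (δ / 2) → |∑ p ∈ pri x, dens (R j) a p - ∑ p ∈ pri x, dens2 (R j) p| ≤
        √(max 1 (∑ p ∈ pri (2 * x), dens2 (R j) p)) * (x : ℝ) ^ δ)) := by
  classical
  obtain ⟨W, hW, H⟩ := two_param b hb η hη δ hδ hδ1
  refine ⟨W, hW, fun κ hκ => ?_⟩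
  obtain ⟨X₀, J⟩ := H κ hκ
  refine ⟨X₀, fun X hX k hk c R hper hfew => ?_⟩
  have h1 := J X hX k hk c (fun j => indR (R j)) (by
    intro j
    constructor
    · intro p hp a a' n n' h h'
      unfold indR
      simp only [hper j p hp a a' n n' h h']
    · intro p _ a n
      unfold indR
      split_ifs <;> norm_num) (by
    intro a p hp n M
    have e : ∀ j, (indR (R j) p a n) ^ 2 = if R j p a n then 1 else 0 := by
      intro j
      unfold indR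
      split_ifs <;> norm_num
    simp only [e]
    rw [sum_boole]
    have h2 := hfew p hp a n ((range M).filter (fun j => R j p a n)) (by
      intro j hj
      exact (mem_filter.1 hj).2)
    exact_mod_cast h2)
  simp only [ind_sum, ind_av, ind_av2] at h1
  exact h1

end Pool.Agent.R459.Eq
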