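import Pool.Agent.R459.Eq3
import Pool.Agent.H730R2.AA.Grid
import Pool.Agent.H730R2.AA.OneX
import Pool.Agent.H730R2.AA.MainTerm

/-! Primitive roots: one `x`. -/

set_option autoImplicit false

namespace Pool.Agent.R459.Eq
open Finset Filter
open Pool.Agent.H730R2.AA

/-- `1` if `D n ^ 2` is a primitive root modulo `p`, and `0` otherwise -/
noncomputable def ind (D : ℤ) (p : ℕ) (n : ℤ) : ℝ := by
  classical
  exact if orderOf (((D * n ^ 2 : ℤ)) : ZMod p) = p - 1 then 1 else 0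

lemma ind_mem (D : ℤ) (p : ℕ) (n : ℤ) : 0 ≤ ind D p n ∧ ind D p n ≤ 1 := by
  unfold ind
  split_ifs <;> norm_num

lemma ind_per (D : ℤ) (p : ℕ) : Per p (ind D p) := by
  intro m n h
  unfold ind
  have h1 : (n : ZMod p) = (m : ZMod p) := (ZMod.intCast_eq_intCast_iff_dvd_sub n m p).2 h
  have : ((D * m ^ 2 : ℤ) : ZMod p) = ((D * n ^ 2 : ℤ) : ZMod p) := by
    push_cast
    rw [h1]
  rw [this]

lemma sum_char (p : ℕ) [Fact p.Prime] (χ : DirichletCharacter ℂ p) (hχ : χ ≠ 1) :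
    ∑ t ∈ range p, χ ((t : ℕ) : ZMod p) = 0 := by
  have hp0 : 0 < p := (Fact.out (p := p.Prime)).pos
  have h1 : ∑ t ∈ range p, χ ((t : ℕ) : ZMod p) = ∑ a : ZMod p, χ a := by
    apply sum_nbij' (fun t => ((t : ℕ) : ZMod p)) (fun a => a.val)
    · intro t _; exact mem_univ _
    · intro a _; exact mem_range.2 (ZMod.val_lt a)
    · intro t ht; exact ZMod.val_cast_of_lt (mem_range.1 ht)
    · intro a _; exact ZMod.natCast_zmod_val a
    · intro t _; rfl
  rw [h1]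
  exact MulChar.sum_eq_zero_of_ne_one hχ

/-- the expected proportion at `p` -/
noncomputable def cc (D : ℤ) (p : ℕ) : ℝ := rho p * (1 - (jacobiSym D p : ℝ))

lemma cc_mem (D : ℤ) (p : ℕ) : 0 ≤ cc D p ∧ cc D p ≤ 2 := by
  have h1 := ox_rho0 p
  have h2 := ox_rho1 p
  have h3 := ox_jac D p
  unfold cc
  constructor
  · exact mul_nonneg h1 h3.1
  · calc rho p * (1 - (jacobiSym D p : ℝ)) ≤ 1 * 2 := mul_le_mul h2 h3.2 h3.1 zero_le_one
      _ = 2 := one_mul _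

lemma mean_ind (p : ℕ) (hpp : p.Prime) (hp : p ≠ 2) (D : ℤ) (hD : ¬ (p : ℤ) ∣ D) :
    mean p (ind D p) = (1 - 1 / (p : ℝ)) * cc D p := by
  classical
  have : Fact p.Prime := ⟨hpp⟩
  have hp0 : (p : ℝ) ≠ 0 := by exact_mod_cast hpp.ne_zero
  obtain ⟨β, h1, _, _⟩ := expand p hp D hD
  have h2 : ((∑ t ∈ range p, ind D p t : ℝ) : ℂ) = ((((p : ℝ) - 1) * cc D p : ℝ) : ℂ) := by
    have e0 : ∀ t ∈ range p, ((ind D p t : ℝ) : ℂ) =
        (if p ∣ t then 0 else ((rho p * (1 - (jacobiSym D p : ℝ)) : ℝ) : ℂ)) + ∑ χ ∈ NT p, β χ * χ ((t : ℕ) : ZMod p) := by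
      intro t _
      rw [← h1 t]
      unfold ind
      split_ifs <;> simp
    rw [Complex.ofReal_sum, sum_congr rfl e0, sum_add_distrib, sum_comm]
    have e1 : ∑ χ ∈ NT p, ∑ t ∈ range p, β χ * χ ((t : ℕ) : ZMod p) = 0 := by
      apply sum_eq_zero
      intro χ hχ
      have hχ1 : χ ≠ 1 := by
        simp only [NT, mem_filter] at hχ
        exact hχ.2
      rw [← mul_sum, sum_char p χ hχ1, mul_zero]
    have e2 : ∑ t ∈ range p, (if p ∣ t then (0 : ℂ) else ((rho p * (1 - (jacobiSym D p : ℝ)) : ℝ) : ℂ)) =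
        ((((p : ℝ) - 1) * cc D p : ℝ) : ℂ) := by
      rw [range_eq_Ico, sum_eq_sum_Ico_succ_bot hpp.pos, if_pos (dvd_zero p), zero_add]
      have e3 : ∀ t ∈ Ico (0 + 1) p, (if p ∣ t then (0 : ℂ) else ((rho p * (1 - (jacobiSym D p : ℝ)) : ℝ) : ℂ)) =
          ((rho p * (1 - (jacobiSym D p : ℝ)) : ℝ) : ℂ) := by
        intro t ht
        rw [mem_Ico] at ht
        rw [if_neg]
        intro h
        have := Nat.le_of_dvd (by omega) h
        omega
      rw [sum_congr rfl e3, sum_const, Nat.card_Ico, nsmul_eq_mul, zero_add]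
      unfold cc
      rw [Nat.cast_sub hpp.one_le]
      push_cast
      ring
    rw [e1, e2, add_zero]
  have h3 : ∑ t ∈ range p, ind D p t = ((p : ℝ) - 1) * cc D p := by exact_mod_cast h2
  unfold mean
  rw [h3]
  field_simp

/-- the good primes -/
noncomputable def PP (b : ℕ) (D : ℤ) (x : ℕ) : Finset ℕ := (PR D x).filter (fun p => ¬ p ∣ b)

/-- the number of the remaining primes -/
def K0 (b : ℕ) (D : ℤ) : ℕ := (2 * D.natAbs * b).primeFactors.card

lemma mem_PP (b : ℕ) (D : ℤ) (x p : ℕ) :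
    p ∈ PP b D x ↔ p ≤ x ∧ p.Prime ∧ p ≠ 2 ∧ ¬ (p : ℤ) ∣ D ∧ ¬ p ∣ b := by
  unfold PP PR
  rw [mem_filter, mem_filter, mem_range]
  constructor
  · rintro ⟨⟨h1, h2, h3, h4⟩, h5⟩; exact ⟨by omega, h2, h3, h4, h5⟩
  · rintro ⟨h1, h2, h3, h4, h5⟩; exact ⟨⟨by omega, h2, h3, h4⟩, h5⟩

lemma not_good (b : ℕ) (hb : 2 ≤ b) (D : ℤ) (hD : D ≠ 0) (x p : ℕ) (hp : p.Prime) (hpx : p ≤ x) (h : p ∉ PP b D x) :
    p ∈ (2 * D.natAbs * b).primeFactors := by
  rw [Nat.mem_primeFactors]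
  refine ⟨hp, ?_, ?_⟩
  · rw [mem_PP] at h
    by_contra hcon
    apply h
    refine ⟨hpx, hp, ?_, ?_, ?_⟩
    · rintro rfl
      exact hcon ⟨D.natAbs * b, by ring⟩
    · intro h1
      exact hcon (Dvd.dvd.mul_right (Dvd.dvd.mul_left (Int.natCast_dvd.1 h1) _) _)
    · intro h1
      exact hcon (Dvd.dvd.mul_left h1 _)
  · have : D.natAbs ≠ 0 := Int.natAbs_ne_zero.2 hD
    positivity

lemma cnt_diff (b : ℕ) (hb : 2 ≤ b) (D : ℤ) (hD : D ≠ 0) (v : ℤ) (x : ℕ) :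
    |(cnt (D * v ^ 2) x : ℝ) - ∑ p ∈ PP b D x, ind D p v| ≤ K0 b D := by
  classical
  have h1 : ∑ p ∈ PP b D x, ind D p v =
      (((PP b D x).filter (fun p => orderOf (((D * v ^ 2 : ℤ)) : ZMod p) = p - 1)).card : ℝ) := by
    unfold ind
    rw [← sum_filter, sum_const, nsmul_eq_mul, mul_one]
  obtain ⟨S, hS⟩ : ∃ S, S = (range (x + 1)).filter (fun p : ℕ => p.Prime ∧ orderOf (((D * v ^ 2 : ℤ)) : ZMod p) = p - 1) :=
    ⟨_, rfl⟩
  have h2 : cnt (D * v ^ 2) x = S.card := by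
    rw [hS]
    unfold cnt
    congr!
  have h3 : (PP b D x).filter (fun p => orderOf (((D * v ^ 2 : ℤ)) : ZMod p) = p - 1) ⊆ S := by
    intro p hp
    rw [mem_filter, mem_PP] at hp
    rw [hS, mem_filter, mem_range]
    exact ⟨by omega, hp.1.2.1, hp.2⟩
  have h4 : S ⊆ (PP b D x).filter (fun p => orderOf (((D * v ^ 2 : ℤ)) : ZMod p) = p - 1) ∪ (2 * D.natAbs * b).primeFactors := by
    intro p hp
    rw [hS, mem_filter, mem_range] at hp
    rw [mem_union, mem_filter]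
    by_cases h : p ∈ PP b D x
    · exact Or.inl ⟨h, hp.2.2⟩
    · exact Or.inr (not_good b hb D hD x p hp.2.1 (by omega) h)
  have h5 := card_le_card h3
  have h6 := (card_le_card h4).trans (card_union_le _ _)
  rw [h1, h2, abs_le]
  unfold K0
  have h5' : (((PP b D x).filter (fun p => orderOf (((D * v ^ 2 : ℤ)) : ZMod p) = p - 1)).card : ℝ) ≤ S.card := by
    exact_mod_cast h5
  have h6' : (S.card : ℝ) ≤ (((PP b D x).filter (fun p => orderOf (((D * v ^ 2 : ℤ)) : ZMod p) = p - 1)).card : ℝ) +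
      ((2 * D.natAbs * b).primeFactors.card : ℝ) := by exact_mod_cast h6
  have h7 : (0 : ℝ) ≤ ((2 * D.natAbs * b).primeFactors.card : ℝ) := Nat.cast_nonneg _
  constructor <;> linarith

lemma main_diff (b : ℕ) (hb : 2 ≤ b) (D : ℤ) (hD : D ≠ 0) (x : ℕ) (hx : 1 ≤ x) :
    |∑ p ∈ PP b D x, mean p (ind D p) - mainT D x| ≤ 2 * K0 b D + 2 * (1 + Real.log x) := by
  classical
  have h1 : ∑ p ∈ PP b D x, mean p (ind D p) = ∑ p ∈ PP b D x, cc D p - ∑ p ∈ PP b D x, cc D p / p := by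
    rw [← sum_sub_distrib]
    apply sum_congr rfl
    intro p hp
    rw [mem_PP] at hp
    rw [mean_ind p hp.2.1 hp.2.2.1 D hp.2.2.2.1]
    ring
  have h2 : mainT D x = ∑ p ∈ PP b D x, cc D p + ∑ p ∈ (PR D x).filter (fun p => ¬ ¬ p ∣ b), cc D p := by
    unfold PP
    rw [sum_filter_add_sum_filter_not]
    rfl
  have h3 : 0 ≤ ∑ p ∈ (PR D x).filter (fun p => ¬ ¬ p ∣ b), cc D p := sum_nonneg fun p _ => (cc_mem D p).1
  have h4 : ∑ p ∈ (PR D x).filter (fun p => ¬ ¬ p ∣ b), cc D p ≤ 2 * K0 b D := by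
    have h5 : ((PR D x).filter (fun p => ¬ ¬ p ∣ b)).card ≤ K0 b D := by
      unfold K0
      apply card_le_card
      intro p hp
      rw [mem_filter, PR, mem_filter, mem_range] at hp
      refine not_good b hb D hD x p hp.1.2.1 (by omega) ?_
      intro h
      rw [mem_PP] at h
      exact hp.2 h.2.2.2.2
    calc ∑ p ∈ (PR D x).filter (fun p => ¬ ¬ p ∣ b), cc D p ≤ ((PR D x).filter (fun p => ¬ ¬ p ∣ b)).card • (2 : ℝ) :=
          sum_le_card_nsmul _ _ _ fun p _ => (cc_mem D p).2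
      _ = 2 * ((((PR D x).filter (fun p => ¬ ¬ p ∣ b)).card : ℕ) : ℝ) := by rw [nsmul_eq_mul, mul_comm]
      _ ≤ _ := by
          have : ((((PR D x).filter (fun p => ¬ ¬ p ∣ b)).card : ℕ) : ℝ) ≤ K0 b D := by exact_mod_cast h5
          linarith
  have h5 : 0 ≤ ∑ p ∈ PP b D x, cc D p / p := sum_nonneg fun p _ => div_nonneg (cc_mem D p).1 (Nat.cast_nonneg _)
  have h6 : ∑ p ∈ PP b D x, cc D p / p ≤ 2 * (1 + Real.log x) := by
    calc ∑ p ∈ PP b D x, cc D p / p ≤ ∑ p ∈ PP b D x, 2 * (1 / (p : ℝ)) := by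
          apply sum_le_sum
          intro p _
          rw [mul_one_div]
          exact div_le_div_of_nonneg_right (cc_mem D p).2 (Nat.cast_nonneg _)
      _ ≤ ∑ p ∈ Icc 1 x, 2 * (1 / (p : ℝ)) := by
          apply sum_le_sum_of_subset_of_nonneg
          · intro p hp
            rw [mem_PP] at hp
            rw [mem_Icc]
            exact ⟨hp.2.1.one_le, hp.1⟩
          · intro p _ _
            positivity
      _ = 2 * ∑ p ∈ Icc 1 x, (1 / (p : ℝ)) := by rw [mul_sum]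
      _ ≤ 2 * (1 + Real.log x) := by
          apply mul_le_mul_of_nonneg_left _ (by norm_num)
          have h7 := harmonic_le_one_add_log x
          rw [harmonic_eq_sum_Icc] at h7
          push_cast at h7
          simpa [one_div] using h7
  rw [h1, h2, abs_le]
  have h8 : (0 : ℝ) ≤ K0 b D := Nat.cast_nonneg _
  have h9 : 0 ≤ Real.log x := Real.log_nonneg (by exact_mod_cast hx)
  constructor <;> linarith

lemma pi_lower' (x : ℕ) (hx : 4 ≤ x) : 0 < (Nat.primeCounting x : ℝ) ∧ √x ≤ 8 * (Nat.primeCounting x : ℝ) ∧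
    1 / (Nat.primeCounting x : ℝ) ≤ 4 * Real.log x / x := by
  have h1 := ox_cheb x hx
  have hx4 : (4 : ℝ) ≤ x := by exact_mod_cast hx
  have hx0 : (0 : ℝ) < x := by linarith
  have hlog : 0 < Real.log x := Real.log_pos (by linarith)
  have hpi : 0 < (Nat.primeCounting x : ℝ) := by
    by_contra hcon
    push Not at hcon
    have : (Nat.primeCounting x : ℝ) * Real.log x ≤ 0 := mul_nonpos_of_nonpos_of_nonneg hcon hlog.le
    linarith
  have hs : 0 < √(x : ℝ) := Real.sqrt_pos.2 hx0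
  have hss : √(x : ℝ) * √(x : ℝ) = x := Real.mul_self_sqrt hx0.le
  have hl : Real.log x ≤ 2 * √x := by
    have h2 : Real.log x = 2 * Real.log (√x) := by rw [Real.log_sqrt hx0.le]; ring
    have h3 := Real.log_le_sub_one_of_pos hs
    rw [h2]
    linarith
  refine ⟨hpi, ?_, ?_⟩
  · have h4 : (x : ℝ) / 4 ≤ (Nat.primeCounting x : ℝ) * (2 * √x) := h1.trans (mul_le_mul_of_nonneg_left hl hpi.le)
    have h5 : √(x : ℝ) * √(x : ℝ) ≤ (8 * (Nat.primeCounting x : ℝ)) * √x := by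
      rw [hss]; linarith
    exact le_of_mul_le_mul_right h5 hs
  · rw [div_le_div_iff₀ hpi hx0]
    linarith

lemma small_ev (K : ℝ) (ε : ℝ) (hε : 0 < ε) : ∃ X : ℕ, 4 ≤ X ∧ ∀ x : ℕ, X ≤ x →
    K + 2 * (1 + Real.log x) ≤ ε * (Nat.primeCounting x : ℝ) := by
  have h1 : Tendsto (fun x : ℝ => Real.log x ^ 2 / x) atTop (nhds 0) := by
    have := Real.isLittleO_pow_log_id_atTop (n := 2)
    exact this.tendsto_div_nhds_zero
  have h2 := (h1.comp tendsto_natCast_atTop_atTop).eventually (gt_mem_nhds (show (0 : ℝ) < ε / (4 * (|K| + 4)) by positivity))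
  obtain ⟨X, hX⟩ := h2.exists_forall_of_atTop
  refine ⟨max X 4, le_max_right _ _, fun x hx => ?_⟩
  have h3 := hX x ((le_max_left _ _).trans hx)
  have hx4 : 4 ≤ x := (le_max_right _ _).trans hx
  have hx4' : (4 : ℝ) ≤ x := by exact_mod_cast hx4
  have hx0 : (0 : ℝ) < x := by linarith
  simp only [Function.comp_apply] at h3
  have h4 := ox_cheb x hx4
  have hlog1 : 1 ≤ Real.log x := by
    rw [Real.le_log_iff_exp_le hx0]
    linarith [Real.exp_one_lt_d9]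
  rw [div_lt_div_iff₀ hx0 (by positivity)] at h3
  have h5 : K + 2 * (1 + Real.log x) ≤ (|K| + 4) * Real.log x := by
    have := le_abs_self K
    have h6 : |K| * 1 ≤ |K| * Real.log x := mul_le_mul_of_nonneg_left hlog1 (abs_nonneg _)
    linarith
  refine h5.trans ?_
  have h7 : ((|K| + 4) * Real.log x) * Real.log x ≤ (ε * (Nat.primeCounting x : ℝ)) * Real.log x := by
    calc ((|K| + 4) * Real.log x) * Real.log x = (Real.log x ^ 2 * (4 * (|K| + 4))) / 4 := by ring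
      _ ≤ (ε * x) / 4 := by linarith
      _ = ε * (x / 4) := by ring
      _ ≤ ε * ((Nat.primeCounting x : ℝ) * Real.log x) := mul_le_mul_of_nonneg_left h4 hε.le
      _ = _ := by ring
  exact le_of_mul_le_mul_right h7 (by linarith)

/-- one `x` -/
theorem artin_one (b : ℕ) (hb : 2 ≤ b) (A : ℕ) (γ : ℝ) (hγ0 : 0 < γ) (hγ1 : γ < 1) : ∃ W : ℕ, 1 ≤ W ∧
    ∀ (F : ℕ) (κ : ℤ), 1 ≤ F → κ ≠ 0 → ∀ D : ℤ, D ≠ 0 → ∀ ε : ℝ, 0 < ε →
    ∃ (C : ℝ) (X₀ : ℕ), 0 < C ∧ 4 ≤ X₀ ∧ ∀ (k x : ℕ), X₀ ≤ x → x ^ W ≤ b ^ k →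
    ∀ (ι : Type) (Ω : Finset ι) (w : ι → ℝ) (v : ι → ℤ), Decays b F A k γ κ Ω w v → ∀ E : Finset ι, E ⊆ Ω →
      (∀ i ∈ E, ε * (Nat.primeCounting x : ℝ) < |(cnt (D * v i ^ 2) x : ℝ) - mainT D x|) →
      ∑ i ∈ E, w i ≤ C * (Real.log x / x) := by
  classical
  obtain ⟨W, hW, h⟩ := ms b hb A γ hγ0 hγ1
  refine ⟨W, hW, fun F κ hF hκ D hD ε hε => ?_⟩
  obtain ⟨C, hC, h1⟩ := h F κ hF hκ
  obtain ⟨X, hX4, hX⟩ := small_ev (3 * K0 b D) (ε / 2) (by positivity)
  refine ⟨16 * (1 + 8 * C) / ε ^ 2, X + b, by positivity, by omega, fun k x hx hxW ι Ω w v hdec E hE hbig => ?_⟩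
  have hx4 : 4 ≤ x := by omega
  have hxb : b ≤ x := by omega
  obtain ⟨hpi, hsq, hinv⟩ := pi_lower' x hx4
  have h2 := h1 k x hxb hxW ι Ω w v hdec (PP b D x) (by
    intro p hp
    rw [mem_PP] at hp
    exact ⟨hp.2.1, hp.1, hp.2.2.2.2⟩) (ind D) (fun p n => ind_mem D p n) (fun p _ => ind_per D p)
  have hS : ∀ i ∈ E, (ε / 2 * (Nat.primeCounting x : ℝ)) ^ 2 ≤ (∑ p ∈ PP b D x, (ind D p (v i) - mean p (ind D p))) ^ 2 := by
    intro i hi
    rw [← sq_abs (∑ p ∈ PP b D x, (ind D p (v i) - mean p (ind D p)))]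
    apply pow_le_pow_left₀ (by positivity)
    have h3 := hbig i hi
    have h4 := cnt_diff b hb D hD (v i) x
    have h5 := main_diff b hb D hD x (by omega)
    have h6 := hX x (by omega)
    rw [sum_sub_distrib]
    have h7 : |(cnt (D * v i ^ 2) x : ℝ) - mainT D x| ≤ |(cnt (D * v i ^ 2) x : ℝ) - ∑ p ∈ PP b D x, ind D p (v i)| +
        |∑ p ∈ PP b D x, ind D p (v i) - ∑ p ∈ PP b D x, mean p (ind D p)| +
        |∑ p ∈ PP b D x, mean p (ind D p) - mainT D x| := by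
      have e : (cnt (D * v i ^ 2) x : ℝ) - mainT D x = ((cnt (D * v i ^ 2) x : ℝ) - ∑ p ∈ PP b D x, ind D p (v i)) +
        (∑ p ∈ PP b D x, ind D p (v i) - ∑ p ∈ PP b D x, mean p (ind D p)) +
        (∑ p ∈ PP b D x, mean p (ind D p) - mainT D x) := by ring
      rw [e]
      exact (abs_add_le _ _).trans (add_le_add (abs_add_le _ _) le_rfl)
    linarith
  have hcheb : (∑ i ∈ E, w i) * (ε / 2 * (Nat.primeCounting x : ℝ)) ^ 2 ≤ (PP b D x).card + C * √x := by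
    refine le_trans ?_ h2
    rw [sum_mul]
    refine (sum_le_sum fun i hi => mul_le_mul_of_nonneg_left (hS i hi) (hdec.nonneg i (hE hi))).trans ?_
    apply sum_le_sum_of_subset_of_nonneg hE
    intro i hi _
    exact mul_nonneg (hdec.nonneg i hi) (sq_nonneg _)
  have hcard : ((PP b D x).card : ℝ) ≤ Nat.primeCounting x := by
    have h3 : (PP b D x).card ≤ Nat.primeCounting x := by
      rw [Nat.primeCounting, Nat.primeCounting', Nat.count_eq_card_filter_range]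
      apply card_le_card
      intro p hp
      rw [mem_PP] at hp
      rw [mem_filter, mem_range]
      exact ⟨by omega, hp.2.1⟩
    exact_mod_cast h3
  have h3 : (∑ i ∈ E, w i) * (ε / 2 * (Nat.primeCounting x : ℝ)) ^ 2 ≤ (1 + 8 * C) * Nat.primeCounting x := by
    refine hcheb.trans ?_
    have := mul_le_mul_of_nonneg_left hsq hC.le
    linarith
  have h4 : (∑ i ∈ E, w i) ≤ 4 * (1 + 8 * C) / ε ^ 2 * (1 / (Nat.primeCounting x : ℝ)) := by
    have e1 : 4 * (1 + 8 * C) / ε ^ 2 * (1 / (Nat.primeCounting x : ℝ)) =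
        ((1 + 8 * C) * Nat.primeCounting x) / (ε / 2 * (Nat.primeCounting x : ℝ)) ^ 2 := by
      field_simp
      ring
    rw [e1, le_div_iff₀ (by positivity)]
    exact h3
  refine h4.trans ?_
  calc 4 * (1 + 8 * C) / ε ^ 2 * (1 / (Nat.primeCounting x : ℝ)) ≤ 4 * (1 + 8 * C) / ε ^ 2 * (4 * Real.log x / x) :=
        mul_le_mul_of_nonneg_left hinv (by positivity)
    _ = _ := by ring

end Pool.Agent.R459.Eq
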