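import Pool.Agent.R459.Tor2
import Pool.Agent.R459.Eq4

/-! The number of the primes modulo which `F(x) = j v` has a simple solution, for almost all `v`. -/

set_option autoImplicit false

namespace Pool.Agent.R459.Tor
open Polynomial Finset
open Pool.Agent.R459.Eq
open Pool.Agent.H730R2.AA

/-- the primes between `√x` and `x` -/
def PR (x : ℕ) : Finset ℕ := (range (x + 1)).filter (fun p => p.Prime ∧ x < p * p)

lemma mem_PR {x p : ℕ} : p ∈ PR x ↔ p ≤ x ∧ p.Prime ∧ x < p * p := by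
  unfold PR
  rw [Finset.mem_filter, Finset.mem_range]
  constructor
  · rintro ⟨h1, h2⟩
    exact ⟨by omega, h2⟩
  · rintro ⟨h1, h2⟩
    exact ⟨by omega, h2⟩

open scoped Classical in
/-- the number of the primes between `√x` and `x` modulo which `F(x) ≡ j v` has a simple solution -/
noncomputable def cntH (F : ℤ[X]) (j : ℤ) (x : ℕ) (v : ℤ) : ℕ := ((PR x).filter (fun p => Hit F j p v)).card

lemma sum_hit (F : ℤ[X]) (j : ℤ) (x : ℕ) (v : ℤ) : ∑ p ∈ PR x, hit F j p v = cntH F j x v := by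
  classical
  unfold hit cntH
  rw [← sum_filter, sum_const, nsmul_eq_mul, mul_one]

lemma PR_card (x : ℕ) (hx : 2 ^ 20 ≤ x) : (Nat.primeCounting x : ℝ) / 2 ≤ (PR x).card ∧
    ((PR x).card : ℝ) ≤ Nat.primeCounting x := by
  classical
  have hx0 : (0 : ℝ) < x := by exact_mod_cast (by omega : 0 < x)
  have hpi : Nat.primeCounting x = ((range (x + 1)).filter Nat.Prime).card := by
    rw [Nat.primeCounting, Nat.primeCounting', Nat.count_eq_card_filter_range]
  constructor
  · have h1 : Nat.primeCounting x ≤ (PR x).card + Nat.sqrt x := by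
      rw [hpi]
      have h2 : (range (x + 1)).filter Nat.Prime ⊆ PR x ∪ Icc 1 (Nat.sqrt x) := by
        intro p hp
        rw [Finset.mem_filter, Finset.mem_range] at hp
        rw [Finset.mem_union, mem_PR, Finset.mem_Icc]
        by_cases h : x < p * p
        · exact Or.inl ⟨by omega, hp.2, h⟩
        · right
          push Not at h
          exact ⟨hp.2.one_le, Nat.le_sqrt.2 h⟩
      refine (card_le_card h2).trans ((card_union_le _ _).trans ?_)
      rw [Nat.card_Icc]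
      omega
    have h2 : (Nat.primeCounting x : ℝ) ≤ (PR x).card + √x := by
      have h3 : ((Nat.sqrt x : ℕ) : ℝ) ≤ √x := Real.nat_sqrt_le_real_sqrt
      have h4 : (Nat.primeCounting x : ℝ) ≤ (PR x).card + (Nat.sqrt x : ℕ) := by exact_mod_cast h1
      linarith
    obtain ⟨s, hs⟩ : ∃ s : ℝ, s = √(√(x : ℝ)) := ⟨_, rfl⟩
    have hs0 : 0 ≤ s := by rw [hs]; exact Real.sqrt_nonneg _
    have hs2 : s ^ 2 = √x := by rw [hs]; exact Real.sq_sqrt (Real.sqrt_nonneg _)
    have hs4 : s ^ 4 = x := by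
      have : s ^ 4 = (s ^ 2) ^ 2 := by ring
      rw [this, hs2]
      exact Real.sq_sqrt hx0.le
    have hs32 : 32 ≤ s := by
      by_contra hcon
      push Not at hcon
      have h5 : s ^ 4 < 32 ^ 4 := pow_lt_pow_left₀ hcon hs0 (by norm_num)
      rw [hs4] at h5
      have h6 : ((2 ^ 20 : ℕ) : ℝ) ≤ x := by exact_mod_cast hx
      norm_num at h5 h6
      linarith
    have hcheb := ox_cheb x (by omega)
    have hlog : Real.log x ≤ 4 * s := by
      have h7 : Real.log x = 4 * Real.log s := by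
        rw [← hs4, Real.log_pow]
        norm_num
      have h8 := Real.log_le_sub_one_of_pos (show 0 < s by linarith)
      rw [h7]
      linarith
    have h9 : s ^ 4 / 4 ≤ (Nat.primeCounting x : ℝ) * (4 * s) := by
      rw [hs4]
      exact hcheb.trans (mul_le_mul_of_nonneg_left hlog (Nat.cast_nonneg _))
    have h10 : 2 * s ^ 2 ≤ (Nat.primeCounting x : ℝ) := by
      have h11 : (2 * s ^ 2) * (4 * s) ≤ (Nat.primeCounting x : ℝ) * (4 * s) := by
        refine le_trans ?_ h9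
        have : 0 ≤ s ^ 3 * (s - 32) := mul_nonneg (by positivity) (by linarith)
        nlinarith
      exact le_of_mul_le_mul_right h11 (by linarith)
    rw [hs2] at h10
    linarith
  · have h1 : (PR x).card ≤ Nat.primeCounting x := by
      rw [hpi]
      apply card_le_card
      intro p hp
      rw [mem_PR] at hp
      rw [Finset.mem_filter, Finset.mem_range]
      exact ⟨by omega, hp.2.1⟩
    exact_mod_cast h1

/-- one `x` -/
theorem one_scale (b : ℕ) (hb : 2 ≤ b) (A : ℕ) (γ : ℝ) (hγ0 : 0 < γ) (hγ1 : γ < 1) : ∃ W : ℕ, 1 ≤ W ∧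
    ∀ (F₀ : ℕ) (κ : ℤ), 1 ≤ F₀ → κ ≠ 0 → ∀ n : ℕ, 1 ≤ n →
    ∃ (C : ℝ) (X₀ : ℕ), 0 < C ∧ 2 ^ 20 ≤ X₀ ∧ ∀ (k x : ℕ), X₀ ≤ x → x ^ W ≤ b ^ k →
    ∀ (ι : Type) (Ω : Finset ι) (w : ι → ℝ) (v : ι → ℤ), Decays b F₀ A k γ κ Ω w v →
    ∀ (F : ℤ[X]) (j : ℤ), F.Monic → F.natDegree = n → j ≠ 0 → j.natAbs * j.natAbs ≤ x → ∀ E : Finset ι, E ⊆ Ω →
      (∀ i ∈ E, (cntH F j x (v i) : ℝ) < (Nat.primeCounting x : ℝ) / (8 * n)) →
      ∑ i ∈ E, w i ≤ C * (Real.log x / x) := by
  classical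
  obtain ⟨W, hW, h⟩ := ms b hb A γ hγ0 hγ1
  refine ⟨W, hW, fun F₀ κ hF₀ hκ n hn => ?_⟩
  have hn0 : (0 : ℝ) < n := by exact_mod_cast hn
  obtain ⟨C, hC, h1⟩ := h F₀ κ hF₀ hκ
  refine ⟨256 * n ^ 2 * (1 + 8 * C), 2 ^ 20 + (2 * n) * (2 * n) + b * b, by positivity, by omega,
    fun k x hx hxW ι Ω w v hdec F j hF hFn hj hjx E hE hbig => ?_⟩
  have hx20 : 2 ^ 20 ≤ x := by omega
  have hx4 : 4 ≤ x := by omega
  have hbb : b ≤ b * b := Nat.le_mul_self b
  have hxb : b ≤ x := by omega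
  obtain ⟨hpi, hsq, hinv⟩ := pi_lower' x hx4
  obtain ⟨hPR1, hPR2⟩ := PR_card x hx20
  have hlarge : ∀ p ∈ PR x, ∀ m : ℕ, m * m ≤ x → m < p := by
    intro p hp m hm
    rw [mem_PR] at hp
    by_contra hcon
    push Not at hcon
    have := Nat.mul_le_mul hcon hcon
    omega
  have h2 := h1 k x hxb hxW ι Ω w v hdec (PR x) (by
    intro p hp
    have h3 := hlarge p hp b (by omega)
    have hp' := mem_PR.1 hp
    exact ⟨hp'.2.1, hp'.1, fun hd => absurd (Nat.le_of_dvd (by omega) hd) (by omega)⟩)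
    (hit F j) (fun p n => hit_mem F j p n) (fun p _ => hit_per F j p)
  have hmean : ∀ p ∈ PR x, 1 / (2 * (n : ℝ)) ≤ mean p (hit F j p) := by
    intro p hp
    have hp' := mem_PR.1 hp
    refine mean_hit F hF n hFn hn j p hp'.2.1 (hlarge p hp (2 * n) (by omega)).le fun hd => ?_
    have h3 := hlarge p hp j.natAbs hjx
    have h4 := Int.natAbs_dvd_natAbs.2 hd
    rw [Int.natAbs_natCast] at h4
    have := Nat.le_of_dvd (Int.natAbs_pos.2 hj) h4
    omega
  have hms : (Nat.primeCounting x : ℝ) / (4 * n) ≤ ∑ p ∈ PR x, mean p (hit F j p) := by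
    calc (Nat.primeCounting x : ℝ) / (4 * n) = ((Nat.primeCounting x : ℝ) / 2) * (1 / (2 * n)) := by
          field_simp
          ring
      _ ≤ (PR x).card * (1 / (2 * (n : ℝ))) := mul_le_mul_of_nonneg_right hPR1 (by positivity)
      _ = ∑ _p ∈ PR x, (1 / (2 * (n : ℝ))) := by rw [sum_const, nsmul_eq_mul]
      _ ≤ _ := sum_le_sum hmean
  have hS : ∀ i ∈ E, ((Nat.primeCounting x : ℝ) / (8 * n)) ^ 2 ≤
      (∑ p ∈ PR x, (hit F j p (v i) - mean p (hit F j p))) ^ 2 := by
    intro i hi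
    rw [← sq_abs (∑ p ∈ PR x, (hit F j p (v i) - mean p (hit F j p)))]
    apply pow_le_pow_left₀ (by positivity)
    have h3 := hbig i hi
    rw [sum_sub_distrib, sum_hit, abs_sub_comm]
    refine le_trans ?_ (le_abs_self _)
    have h4 : (Nat.primeCounting x : ℝ) / (4 * n) = 2 * ((Nat.primeCounting x : ℝ) / (8 * n)) := by
      field_simp
      ring
    linarith
  have hcheb : (∑ i ∈ E, w i) * ((Nat.primeCounting x : ℝ) / (8 * n)) ^ 2 ≤ (PR x).card + C * √x := by
    refine le_trans ?_ h2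
    rw [sum_mul]
    refine (sum_le_sum fun i hi => mul_le_mul_of_nonneg_left (hS i hi) (hdec.nonneg i (hE hi))).trans ?_
    apply sum_le_sum_of_subset_of_nonneg hE
    intro i hi _
    exact mul_nonneg (hdec.nonneg i hi) (sq_nonneg _)
  have h3 : (∑ i ∈ E, w i) * ((Nat.primeCounting x : ℝ) / (8 * n)) ^ 2 ≤ (1 + 8 * C) * Nat.primeCounting x := by
    refine hcheb.trans ?_
    have := mul_le_mul_of_nonneg_left hsq hC.le
    linarith
  have h4 : (∑ i ∈ E, w i) ≤ 64 * n ^ 2 * (1 + 8 * C) * (1 / (Nat.primeCounting x : ℝ)) := by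
    have e1 : 64 * n ^ 2 * (1 + 8 * C) * (1 / (Nat.primeCounting x : ℝ)) =
        ((1 + 8 * C) * Nat.primeCounting x) / ((Nat.primeCounting x : ℝ) / (8 * n)) ^ 2 := by
      field_simp
      ring
    rw [e1, le_div_iff₀ (by positivity)]
    exact h3
  refine h4.trans ?_
  calc 64 * n ^ 2 * (1 + 8 * C) * (1 / (Nat.primeCounting x : ℝ)) ≤ 64 * n ^ 2 * (1 + 8 * C) * (4 * Real.log x / x) :=
        mul_le_mul_of_nonneg_left hinv (by positivity)
    _ = _ := by ring

/-- a union of events -/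
lemma wunion {ι τ : Type} (w : ι → ℝ) (E : Finset ι) (hw : ∀ i ∈ E, 0 ≤ w i) (Q : Finset τ) (R : τ → ι → Prop)
    (hR : ∀ i ∈ E, ∃ q ∈ Q, R q i) (B : ℝ)
    (hB : ∀ q ∈ Q, ∀ E' : Finset ι, E' ⊆ E → (∀ i ∈ E', R q i) → ∑ i ∈ E', w i ≤ B) :
    ∑ i ∈ E, w i ≤ Q.card * B := by
  classical
  calc ∑ i ∈ E, w i ≤ ∑ i ∈ E, ∑ q ∈ Q, (if R q i then w i else 0) := by
        apply sum_le_sum
        intro i hi
        obtain ⟨q, hq, hqi⟩ := hR i hi
        calc w i = if R q i then w i else 0 := by rw [if_pos hqi]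
          _ ≤ _ := single_le_sum (f := fun q => if R q i then w i else 0) (fun q _ => by
            split_ifs
            · exact hw i hi
            · exact le_rfl) hq
    _ = ∑ q ∈ Q, ∑ i ∈ E.filter (fun i => R q i), w i := by
        rw [sum_comm]
        apply sum_congr rfl
        intro q _
        rw [sum_filter]
    _ ≤ ∑ _q ∈ Q, B := by
        apply sum_le_sum
        intro q hq
        exact hB q hq _ (filter_subset _ _) fun i hi => (Finset.mem_filter.1 hi).2
    _ = _ := by rw [sum_const, nsmul_eq_mul]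

end Pool.Agent.R459.Tor
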