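import Pool.Agent.R459.Eq12
import Pool.Agent.R459.Tor3

/-! Several systems of local functions at once. -/

set_option autoImplicit false

namespace Pool.Agent.R459.Eq
open Finset
open Pool.Agent.H807R2.Dav

/-- all thresholds and all ranges, for almost all members of the families, for `m` systems -/
theorem ang_many (b : ℕ) (hb : 2 ≤ b) (η : ℝ) (hη : 0 < η) : ∃ W : ℕ, 1 ≤ W ∧ ∀ κ : ℤ, κ ≠ 0 →
    ∀ δ : ℝ, 0 < δ → δ ≤ 1 / 2 → ∃ X₀ : ℕ, ∀ X : ℕ, X₀ ≤ X → ∀ k : ℕ, 2 ≤ k → ∀ c : ℤ, ∀ (m : ℕ) (a : Fin m → ℕ → ℤ → ℝ),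
    (∀ j, Sys (a j)) →
    Almost b k κ c η (m * (X : ℝ) ^ (-δ)) (fun n => ∀ x : ℕ, X ≤ x → x ^ W ≤ b ^ k → ∀ (j : Fin m) (u : ℝ),
      |(cntA (a j) n x u : ℝ) - ∑ p ∈ pri x, prp (a j) p u| ≤ (x : ℝ) ^ (1 / 2 + δ)) := by
  classical
  obtain ⟨A₁, A₂, γ₁, γ₂, h1, h2, h3, h4, H⟩ := almost_of b hb η hη
  obtain ⟨W₁, hW₁, K₁⟩ := ang_all b hb A₁ γ₁ h1 h2
  obtain ⟨W₂, hW₂, K₂⟩ := ang_all b hb A₂ γ₂ h3 h4
  obtain ⟨W, hW⟩ : ∃ W, W = max W₁ W₂ := ⟨_, rfl⟩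
  have hWW₁ : W₁ ≤ W := by rw [hW]; exact le_max_left _ _
  have hWW₂ : W₂ ≤ W := by rw [hW]; exact le_max_right _ _
  refine ⟨W, hW₁.trans hWW₁, fun κ hκ δ hδ hδ1 => ?_⟩
  obtain ⟨X₁, J₁⟩ := K₁ (Pool.Agent.TH872.An.GG b) κ (Pool.Agent.TH872.An.GG_pos b hb) hκ δ hδ hδ1
  obtain ⟨X₂, J₂⟩ := K₂ (b ^ 4).factorial κ (Nat.factorial_pos _) hκ δ hδ hδ1
  refine ⟨X₁ + X₂ + 1, fun X hX k hk c m a ha => ?_⟩
  refine H k hk κ c _ _ (by positivity) fun F₀ A' γ hFA ι Ω w v hdec E hE hbad => ?_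
  have hbad' : ∀ W' ≤ W, ∀ i ∈ E, ∃ j ∈ (univ : Finset (Fin m)), ∃ (x : ℕ) (u : ℝ), X ≤ x ∧ x ^ W' ≤ b ^ k ∧
        (x : ℝ) ^ (1 / 2 + δ) < |(cntA (a j) (v i) x u : ℝ) - ∑ p ∈ pri x, prp (a j) p u| := by
    intro W' hW' i hi
    have h5 := hbad i hi
    push Not at h5
    obtain ⟨x, hXx, hxW, j, u, hu⟩ := h5
    exact ⟨j, mem_univ _, x, u, hXx, (Nat.pow_le_pow_right (by omega) hW').trans hxW, hu⟩
  have hfin : ∀ W' ≤ W, (∀ j : Fin m, ∀ E' : Finset ι, E' ⊆ E → (∀ i ∈ E', ∃ (x : ℕ) (u : ℝ), X ≤ x ∧ x ^ W' ≤ b ^ k ∧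
        (x : ℝ) ^ (1 / 2 + δ) < |(cntA (a j) (v i) x u : ℝ) - ∑ p ∈ pri x, prp (a j) p u|) → ∑ i ∈ E', w i ≤ (X : ℝ) ^ (-δ)) →
      ∑ i ∈ E, w i ≤ m * (X : ℝ) ^ (-δ) := by
    intro W' hW' hB
    have h5 := Pool.Agent.R459.Tor.wunion w E (fun i hi => hdec.nonneg i (hE hi)) univ _ (hbad' W' hW') ((X : ℝ) ^ (-δ))
      (fun j _ E' hE' h => hB j E' hE' h)
    rwa [card_univ, Fintype.card_fin] at h5
  rcases hFA with h | h
  · simp only [Prod.mk.injEq] at h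
    obtain ⟨rfl, rfl, rfl⟩ := h
    exact hfin _ hWW₁ fun j E' hE' h => J₁ X (by omega) k ι Ω w v hdec (a j) (ha j) E' (hE'.trans hE) h
  · simp only [Prod.mk.injEq] at h
    obtain ⟨rfl, rfl, rfl⟩ := h
    exact hfin _ hWW₂ fun j E' hE' h => J₂ X (by omega) k ι Ω w v hdec (a j) (ha j) E' (hE'.trans hE) h

/-- a system of functions of the classes -/
lemma sys_of (g : (p : ℕ) → ZMod p → ℝ) : Sys (fun p n => g p (n : ZMod p)) := by
  intro p _ m n h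
  have : ((m : ℤ) : ZMod p) = ((n : ℤ) : ZMod p) := by
    rw [← sub_eq_zero, ← Int.cast_sub, ZMod.intCast_zmod_eq_zero_iff_dvd]
    exact h
  simp only
  rw [this]

open Classical in
/-- proportions as sums over the classes -/
lemma prp_of (g : (p : ℕ) → ZMod p → ℝ) (p : ℕ) (hp : p.Prime) (u : ℝ) [Fact p.Prime] : prp (fun p n => g p (n : ZMod p)) p u =
    (∑ t : ZMod p, if g p t < u then (1 : ℝ) else 0) / p := by
  haveI : NeZero p := ⟨hp.ne_zero⟩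
  unfold prp
  congr 1
  rw [card_filter]
  push_cast
  refine Finset.sum_nbij' (fun x => (x : ZMod p)) ZMod.val ?_ ?_ ?_ ?_ ?_
  · intro x _
    exact mem_univ _
  · intro z _
    rw [mem_range]
    exact ZMod.val_lt z
  · intro x hx
    rw [mem_range] at hx
    exact ZMod.val_cast_of_lt hx
  · intro z _
    exact ZMod.natCast_zmod_val z
  · intro x _
    rfl

/-- the sum of the reciprocals of the square roots -/
lemma sum_sqrt (x : ℕ) : ∑ p ∈ pri x, 1 / √(p : ℝ) ≤ 2 * √x := by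
  have h1 : ∀ y : ℕ, ∑ n ∈ Icc 1 y, 1 / √(n : ℝ) ≤ 2 * √y := by
    intro y
    induction y with
    | zero => simp
    | succ y ih =>
      rw [sum_Icc_succ_top (by omega)]
      have h2 : (0 : ℝ) < y + 1 := by positivity
      have h3 : 0 < √((y : ℝ) + 1) := Real.sqrt_pos.2 h2
      have h4 : 0 ≤ √(y : ℝ) := Real.sqrt_nonneg _
      have h5 : √((y : ℝ) + 1) ^ 2 = y + 1 := Real.sq_sqrt h2.le
      have h6 : √(y : ℝ) ^ 2 = y := Real.sq_sqrt (Nat.cast_nonneg _)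
      have h7 : 1 / √((y : ℝ) + 1) ≤ 2 * √((y : ℝ) + 1) - 2 * √(y : ℝ) := by
        rw [div_le_iff₀ h3]
        nlinarith [sq_nonneg (√((y : ℝ) + 1) - √(y : ℝ))]
      push_cast
      linarith
  refine le_trans (sum_le_sum_of_subset_of_nonneg ?_ fun i _ _ => by positivity) (h1 x)
  intro p hp
  rw [mem_pri] at hp
  rw [mem_Icc]
  exact ⟨hp.2.one_le, hp.1⟩

section Fam
open Pool.Agent.R459.Fams
open Pool.Agent.TH872.Tr (num Prob Pairs value)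

/-- a weaker property -/
lemma Almost.mono {b k : ℕ} {κ c : ℤ} {η τ : ℝ} {P Q : ℤ → Prop} (h : Almost b k κ c η τ P) (hPQ : ∀ v, P v → Q v) :
    Almost b k κ c η τ Q := by
  obtain ⟨h1, h2, h3⟩ := h
  refine ⟨fun d hd => (count_mono fun σ _ hσ => fun hP => hσ (hPQ _ hP)).trans (h1 d hd), ?_, fun w u hw hu hu1 => ?_⟩
  · refine le_trans ?_ h2
    have h4 := num_mono (b := b) (k := k) (E := fun v : ℕ => ¬ Q (c + κ * v)) (E' := fun v : ℕ => ¬ P (c + κ * v))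
      (fun v hv hP => hv (hPQ _ hP))
    exact_mod_cast h4
  · exact (prob_mono hw.nonneg hu fun d z hz => fun hP => hz (hPQ _ hP)).trans (h3 w u hw hu hu1)

lemma count_or {α : Type} {A : Finset α} {E E' E'' : α → Prop} (h : ∀ x ∈ A, E x → E' x ∨ E'' x) : count A E ≤ count A E' + count A E'' := by
  classical
  rw [count_eq, count_eq, count_eq, ← Nat.cast_add, Nat.cast_le]
  refine le_trans (card_le_card ?_) (card_union_le _ _)
  intro m hm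
  rw [mem_filter] at hm
  rw [mem_union, mem_filter, mem_filter]
  rcases h m hm.1 hm.2 with h1 | h1
  · exact Or.inl ⟨hm.1, h1⟩
  · exact Or.inr ⟨hm.1, h1⟩

lemma num_or {b k : ℕ} {E E' E'' : ℕ → Prop} (h : ∀ v, E v → E' v ∨ E'' v) : num b k E ≤ num b k E' + num b k E'' := by
  classical
  unfold num
  refine le_trans (card_le_card ?_) (card_union_le _ _)
  intro m hm
  rw [mem_filter] at hm
  rw [mem_union, mem_filter, mem_filter]
  rcases h m hm.2.2 with h1 | h1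
  · exact Or.inl ⟨hm.1, hm.2.1, h1⟩
  · exact Or.inr ⟨hm.1, hm.2.1, h1⟩

lemma prob_or {b k : ℕ} {w : ℕ → ℕ × ℕ → ℝ} {u : ℕ → ℝ} (hw : ∀ i < k / 2, ∀ a, 0 ≤ w i a) (hu : ∀ a, 0 ≤ u a)
    {E E' E'' : (Fin (k / 2) → ℕ × ℕ) → ℕ → Prop} (h : ∀ d z, E d z → E' d z ∨ E'' d z) :
    Prob b k w u E ≤ Prob b k w u E' + Prob b k w u E'' := by
  unfold Prob
  rw [← sum_add_distrib]
  refine sum_le_sum fun d _ => ?_
  rw [← sum_add_distrib]
  refine sum_le_sum fun z _ => ?_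
  have h0 : 0 ≤ (∏ i : Fin (k / 2), w i (d i)) * u z :=
    mul_nonneg (prod_nonneg fun i _ => hw i i.2 _) (hu z)
  split_ifs with h1 h2 h3 h3 h2 h3 h3
  · linarith
  · linarith
  · linarith
  · rcases h d z h1 with h4 | h4
    · exact absurd h4 h2
    · exact absurd h4 h3
  · linarith
  · linarith
  · linarith
  · linarith

/-- two properties -/
lemma Almost.and {b k : ℕ} {κ c : ℤ} {η τ τ' : ℝ} {P Q : ℤ → Prop} (h : Almost b k κ c η τ P) (h' : Almost b k κ c η τ' Q) :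
    Almost b k κ c η (τ + τ') (fun v => P v ∧ Q v) := by
  obtain ⟨h1, h2, h3⟩ := h
  obtain ⟨h1', h2', h3'⟩ := h'
  refine ⟨fun d hd => ?_, ?_, fun w u hw hu hu1 => ?_⟩
  · rw [add_mul]
    refine le_trans (count_or fun σ _ hσ => ?_) (add_le_add (h1 d hd) (h1' d hd))
    by_contra hcon
    push Not at hcon
    exact hσ ⟨hcon.1, hcon.2⟩
  · rw [add_mul]
    refine le_trans ?_ (add_le_add h2 h2')
    have h4 := num_or (b := b) (k := k) (E := fun v => ¬ (P (c + κ * v) ∧ Q (c + κ * v))) (E' := fun v => ¬ P (c + κ * v))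
      (E'' := fun v => ¬ Q (c + κ * v)) (fun v hv => by
        by_contra hcon
        push Not at hcon
        exact hv ⟨hcon.1, hcon.2⟩)
    exact_mod_cast h4
  · refine le_trans (prob_or hw.nonneg hu fun d z hz => ?_) (add_le_add (h3 w u hw hu hu1) (h3' w u hw hu hu1))
    by_contra hcon
    push Not at hcon
    exact hz ⟨hcon.1, hcon.2⟩

end Fam

end Pool.Agent.R459.Eq
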