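import Pool.Agent.R459.Eq18

/-! Counts with the quadratic character of a member of a digit family. -/

set_option autoImplicit false

namespace Pool.Agent.R459.Tw
open Finset Pool.Agent.R459.Eq
open Pool.Agent.R459.Bsd (ch ch_zero ch_sq ch_sum sum_zmod)

lemma jac_ch {p : ℕ} [Fact p.Prime] (n : ℤ) : ((jacobiSym n p : ℤ) : ℝ) = ch p (n : ZMod p) := by
  rw [← jacobiSym.legendreSym.to_jacobiSym]
  rfl

lemma jac_per {p : ℕ} (hp : p.Prime) {m n : ℤ} (h : (p : ℤ) ∣ m - n) : jacobiSym m p = jacobiSym n p := by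
  haveI : Fact p.Prime := ⟨hp⟩
  have e1 : ((m : ℤ) : ZMod p) = ((n : ℤ) : ZMod p) := by
    rw [← sub_eq_zero, ← Int.cast_sub, ZMod.intCast_zmod_eq_zero_iff_dvd]
    exact h
  have h1 : ((jacobiSym m p : ℤ) : ℝ) = ((jacobiSym n p : ℤ) : ℝ) := by
    rw [jac_ch, jac_ch, e1]
  exact_mod_cast h1

/-- the proportion of the residues with a given value of the character -/
lemma jac_mean {p : ℕ} (hp : p.Prime) (hp2 : p ≠ 2) (ε : ℤ) (hε : ε = 1 ∨ ε = -1) :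
    mean p (fun n => if jacobiSym n p = ε then 1 else 0) = 1 / 2 - 1 / (2 * p) := by
  classical
  haveI : Fact p.Prime := ⟨hp⟩
  haveI : NeZero p := ⟨hp.ne_zero⟩
  have hp0 : (0 : ℝ) < p := by exact_mod_cast hp.pos
  have hε2 : (ε : ℝ) * ε = 1 := by rcases hε with h | h <;> rw [h] <;> norm_num
  have h1 : ∀ n : ℤ, (if jacobiSym n p = ε then (1 : ℝ) else 0) = (ch p (n : ZMod p) * ch p (n : ZMod p) + ε * ch p (n : ZMod p)) / 2 := by
    intro n
    rw [← jac_ch]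
    rcases jacobiSym.trichotomy n p with h | h | h <;> rcases hε with h' | h' <;> rw [h, h'] <;> norm_num
  unfold mean
  simp only [h1]
  rw [sum_zmod (fun z : ZMod p => (ch p z * ch p z + ε * ch p z) / 2)]
  rw [← sum_div, sum_add_distrib, ← mul_sum, ch_sum hp2, mul_zero, add_zero]
  have h2 : ∑ z : ZMod p, ch p z * ch p z = p - 1 := by
    rw [← Finset.sum_erase_add _ _ (mem_univ (0 : ZMod p)), ch_zero, mul_zero, add_zero]
    have h3 : ∀ z ∈ (univ : Finset (ZMod p)).erase 0, ch p z * ch p z = 1 := fun z hz => ch_sq (mem_erase.1 hz).1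
    rw [sum_congr rfl h3, sum_const, nsmul_eq_mul, mul_one, card_erase_of_mem (mem_univ _), card_univ,
      ZMod.card, Nat.cast_sub hp.one_le, Nat.cast_one]
  rw [h2]
  field_simp

lemma recip_sum (x : ℕ) : ∑ p ∈ pri x, 1 / (p : ℝ) ≤ 1 + Real.log x := by
  have h1 := harmonic_le_one_add_log x
  refine le_trans ?_ h1
  rw [harmonic_eq_sum_Icc]
  push_cast
  have h2 : ∀ p ∈ pri x, 1 / (p : ℝ) = (p : ℝ)⁻¹ := fun p _ => one_div _
  rw [sum_congr rfl h2]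
  apply sum_le_sum_of_subset_of_nonneg
  · intro p hp
    rw [mem_pri] at hp
    rw [mem_Icc]
    exact ⟨hp.2.one_le, hp.1⟩
  · intro p _ _
    positivity

lemma log_small (δ : ℝ) (hδ : 0 < δ) : ∃ X₀ : ℕ, ∀ x : ℕ, X₀ ≤ x → (1 + Real.log x) ≤ (x : ℝ) ^ δ := by
  have h1 := (isLittleO_log_rpow_atTop hδ).bound (show (0 : ℝ) < 1 / 2 by norm_num)
  have h2 := (tendsto_rpow_atTop hδ).eventually_ge_atTop 2
  have h3 := Filter.eventually_ge_atTop (1 : ℝ)
  obtain ⟨y, hy⟩ := Filter.eventually_atTop.1 (h1.and (h2.and h3))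
  obtain ⟨X₀, hX₀⟩ := exists_nat_ge y
  refine ⟨X₀, fun x hx => ?_⟩
  have hxy : y ≤ x := hX₀.trans (by exact_mod_cast hx)
  obtain ⟨k1, k2, k3⟩ := hy x hxy
  rw [Real.norm_of_nonneg (Real.log_nonneg k3), Real.norm_of_nonneg (by positivity)] at k1
  linarith

open Classical in
/-- **twisted counts**: the numbers of the primes `p ≤ x`, `p ≠ 2`, `p ∈ T j`, with a given sign `ε p = ± 1` of the character of `n` -/
theorem twist_count (b : ℕ) (hb : 2 ≤ b) (η : ℝ) (hη : 0 < η) (δ : ℝ) (hδ : 0 < δ) (hδ1 : δ ≤ 1 / 2) : ∃ W : ℕ, 1 ≤ W ∧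
    ∀ κ : ℤ, κ ≠ 0 → ∃ X₀ : ℕ, ∀ X : ℕ, X₀ ≤ X → ∀ k : ℕ, 2 ≤ k → ∀ c : ℤ, ∀ (T : ℕ → Set ℕ) (ε : ℕ → ℤ), (∀ p, ε p = 1 ∨ ε p = -1) →
    (∀ p j j', p ∈ T j → p ∈ T j' → j = j') →
    Almost b k κ c η (2 * (X : ℝ) ^ (-(δ / 2))) (fun n => ∀ x : ℕ, X ≤ x → x ^ W ≤ b ^ k → ∀ j : ℕ, (j : ℝ) ≤ (x : ℝ) ^ (δ / 2) →
      |(((pri x).filter (fun p => p ≠ 2 ∧ p ∈ T j ∧ jacobiSym n p = ε p)).card : ℝ) -
        1 / 2 * ((pri x).filter (fun p => p ≠ 2 ∧ p ∈ T j)).card| ≤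
        2 * √(max 1 ((((pri (2 * x)).filter (fun p => p ≠ 2 ∧ p ∈ T j)).card : ℝ))) * (x : ℝ) ^ δ) := by
  obtain ⟨W, hW, H⟩ := fine_many b hb η hη δ hδ hδ1
  refine ⟨W, hW, fun κ hκ => ?_⟩
  obtain ⟨X₀, J⟩ := H κ hκ
  obtain ⟨X₁, hX₁⟩ := log_small δ hδ
  refine ⟨X₀ + X₁ + 1, fun X hX k hk c T ε hε hT => ?_⟩
  obtain ⟨g, hg⟩ : ∃ g : ℕ → ℕ → ℤ → ℝ, g = fun j p n => if p ≠ 2 ∧ p ∈ T j ∧ jacobiSym n p = ε p then 1 else 0 := ⟨_, rfl⟩
  have h1 := J X (by omega) k hk c g (by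
    intro j
    constructor
    · intro p hp m n h
      rw [hg]
      simp only
      rw [jac_per hp h]
    · intro p _ n
      rw [hg]
      simp only
      split_ifs <;> norm_num) (by
    intro p hp n M
    have h2 : ∑ j ∈ range M, (g j p n) ^ 2 ≤ 1 := by
      have e : ∀ j, (g j p n) ^ 2 = if p ≠ 2 ∧ p ∈ T j ∧ jacobiSym n p = ε p then 1 else 0 := by
        intro j
        rw [hg]
        simp only
        split_ifs <;> norm_num
      simp only [e]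
      rw [sum_boole]
      have h3 : ((range M).filter (fun j => p ≠ 2 ∧ p ∈ T j ∧ jacobiSym n p = ε p)).card ≤ 1 := by
        rw [card_le_one]
        intro j hj j' hj'
        exact hT p j j' (mem_filter.1 hj).2.2.1 (mem_filter.1 hj').2.2.1
      exact_mod_cast h3
    have h3 : (0 : ℝ) ≤ Nat.log 2 p := Nat.cast_nonneg _
    linarith)
  have hmean : ∀ j p, p.Prime → mean p (g j p) = if p ≠ 2 ∧ p ∈ T j then 1 / 2 - 1 / (2 * (p : ℝ)) else 0 := by
    intro j p hp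
    by_cases h : p ≠ 2 ∧ p ∈ T j
    · rw [if_pos h, ← jac_mean hp h.1 (ε p) (hε p)]
      congr 1
      funext n
      rw [hg]
      simp only
      by_cases h4 : jacobiSym n p = ε p
      · rw [if_pos h4, if_pos ⟨h.1, h.2, h4⟩]
      · rw [if_neg h4, if_neg (fun h5 => h4 h5.2.2)]
    · rw [if_neg h]
      have : g j p = fun _ => 0 := by
        funext n
        rw [hg]
        simp only
        rw [if_neg (fun h5 => h ⟨h5.1, h5.2.1⟩)]
      rw [this]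
      unfold mean
      simp
  refine Almost.mono h1 ?_
  intro n hn x hXx hxW j hj
  have hx1 : 1 ≤ x := by omega
  have h2 := (hn x hXx hxW).2 j hj
  obtain ⟨V, hV⟩ : ∃ V : ℝ, V = ((((pri (2 * x)).filter (fun p => p ≠ 2 ∧ p ∈ T j)).card : ℝ)) := ⟨_, rfl⟩
  have hVs : Vs (g j) (2 * x) ≤ V := by
    rw [hV, card_filter]
    push_cast
    unfold Vs
    apply sum_le_sum
    intro p hp
    have hpp := (mem_pri.1 hp).2
    have hp0 : (0 : ℝ) < p := by exact_mod_cast hpp.pos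
    unfold mean
    rw [div_le_iff₀ hp0]
    refine (sum_le_card_nsmul (range p) (fun t : ℕ => (g j p (t : ℤ)) ^ 2) (if p ≠ 2 ∧ p ∈ T j then 1 else 0) fun t _ => ?_).trans ?_
    · rw [hg]
      simp only
      by_cases h : p ≠ 2 ∧ p ∈ T j
      · rw [if_pos h]
        split_ifs <;> norm_num
      · rw [if_neg h, if_neg (fun h5 => h ⟨h5.1, h5.2.1⟩)]
        norm_num
    · rw [card_range, nsmul_eq_mul, mul_comm]
  rw [sum_sub_distrib] at h2
  have e1 : ∑ p ∈ pri x, g j p n = (((pri x).filter (fun p => p ≠ 2 ∧ p ∈ T j ∧ jacobiSym n p = ε p)).card : ℝ) := by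
    rw [hg]
    simp only
    rw [sum_boole]
  have e2 : |∑ p ∈ pri x, mean p (g j p) - 1 / 2 * ((pri x).filter (fun p => p ≠ 2 ∧ p ∈ T j)).card| ≤ (x : ℝ) ^ δ := by
    have e3 : 1 / 2 * (((pri x).filter (fun p => p ≠ 2 ∧ p ∈ T j)).card : ℝ) = ∑ p ∈ pri x, if p ≠ 2 ∧ p ∈ T j then (1 / 2 : ℝ) else 0 := by
      rw [card_filter]
      push_cast
      rw [mul_sum]
      apply sum_congr rfl
      intro p _
      split_ifs <;> norm_num
    rw [e3, sum_congr rfl fun p hp => hmean j p (mem_pri.1 hp).2, ← sum_sub_distrib]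
    refine (abs_sum_le_sum_abs _ _).trans ?_
    have h3 : ∀ p ∈ pri x, |(if p ≠ 2 ∧ p ∈ T j then 1 / 2 - 1 / (2 * (p : ℝ)) else 0) - (if p ≠ 2 ∧ p ∈ T j then (1 / 2 : ℝ) else 0)| ≤ 1 / (p : ℝ) := by
      intro p hp
      have hp0 : (0 : ℝ) < p := by exact_mod_cast (mem_pri.1 hp).2.pos
      split_ifs
      · have : (1 / 2 - 1 / (2 * (p : ℝ)) - 1 / 2) = -(1 / (2 * (p : ℝ))) := by ring
        rw [this, abs_neg, abs_of_pos (by positivity)]
        apply div_le_div_of_nonneg_left (by norm_num) hp0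
        linarith
      · rw [sub_zero, abs_zero]
        positivity
    refine (sum_le_sum h3).trans ((recip_sum x).trans (hX₁ x (by omega)))
  rw [e1] at h2
  rw [← hV]
  have h4 : √(max 1 (Vs (g j) (2 * x))) ≤ √(max 1 V) := Real.sqrt_le_sqrt (max_le_max le_rfl hVs)
  have h5 : 1 ≤ √(max 1 V) := by
    rw [Real.one_le_sqrt]
    exact le_max_left _ _
  have hx0 : (0 : ℝ) ≤ (x : ℝ) ^ δ := by positivity
  have h6 : √(max 1 (Vs (g j) (2 * x))) * (x : ℝ) ^ δ ≤ √(max 1 V) * (x : ℝ) ^ δ := mul_le_mul_of_nonneg_right h4 hx0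
  have h7 : (x : ℝ) ^ δ ≤ √(max 1 V) * (x : ℝ) ^ δ := le_mul_of_one_le_left hx0 h5
  rw [abs_le] at h2 e2 ⊢
  constructor <;> linarith [h2.1, h2.2, e2.1, e2.2]

end Pool.Agent.R459.Tw
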