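import Pool.Agent.R459.Bsd3

/-! Sums of the traces at all `x`. -/

set_option autoImplicit false

namespace Pool.Agent.R459.Eq
open Finset
open Pool.Agent.H807R2.Dav

/-- the mean square of the maximal deviation, for real-valued functions -/
theorem sup_real (b : ℕ) (hb : 2 ≤ b) (A : ℕ) (γ : ℝ) (hγ0 : 0 < γ) (hγ1 : γ < 1) : ∃ W : ℕ, 1 ≤ W ∧
    ∀ (F : ℕ) (κ : ℤ), 1 ≤ F → κ ≠ 0 → ∃ C : ℝ, 0 < C ∧ ∀ (k L : ℕ), b ≤ 2 ^ L → (2 ^ L) ^ W ≤ b ^ k →
    ∀ (ι : Type) (Ω : Finset ι) (w : ι → ℝ) (v : ι → ℤ), Decays b F A k γ κ Ω w v →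
    ∀ P : Finset ℕ, (∀ p ∈ P, p.Prime ∧ p ≤ 2 ^ L ∧ ¬ p ∣ b) → ∀ g : ℕ → ℤ → ℝ, (∀ p ∈ P, ∀ n, |g p n| ≤ 1) →
      (∀ p ∈ P, Per p (g p)) →
      ∃ Q : ι → ℝ, (∀ i ∈ Ω, 0 ≤ Q i) ∧ ∑ i ∈ Ω, w i * Q i ≤ C * (L + 1) ^ 2 * 2 ^ L ∧
        ∀ i ∈ Ω, ∀ t : ℕ, t ≤ 2 ^ L → (∑ p ∈ P.filter (fun p => p ≤ t), (g p (v i) - mean p (g p))) ^ 2 ≤ Q i := by
  classical
  obtain ⟨W, hW, H⟩ := vms b hb A γ hγ0 hγ1 2 7 (by norm_num) (by norm_num)
  refine ⟨W, hW, fun F κ hF hκ => ?_⟩
  obtain ⟨C, hC, hmain⟩ := H F κ hF hκ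
  refine ⟨5 + C, by positivity, fun k L hbL hxW ι Ω w v hdec P hP g hg hper => ?_⟩
  obtain ⟨f, hf⟩ : ∃ f : ℕ → ℕ → ℕ → ℤ → ℝ, f = fun l i p n => if i * 2 ^ l < p ∧ p ≤ (i + 1) * 2 ^ l then g p n else 0 := ⟨_, rfl⟩
  have hLr : (0 : ℝ) ≤ L := Nat.cast_nonneg _
  have hlev : ∀ l, ∑ z ∈ range (2 ^ (L - l)), ∑ i ∈ Ω, w i * (∑ p ∈ P, (f l z p (v i) - mean p (f l z p))) ^ 2 ≤ (5 + C) * 2 ^ L := by
    intro l
    have h1 := hmain k (2 ^ L) hbL hxW ι Ω w v hdec P hP (range (2 ^ (L - l))) (f l) (by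
      intro p hp n
      have h2 : ∀ z ∈ range (2 ^ (L - l)), (f l z p n) ^ 2 ≤ if (p - 1) / 2 ^ l = z then (1 : ℝ) else 0 := by
        intro z _
        rw [hf]
        simp only
        by_cases h : z * 2 ^ l < p ∧ p ≤ (z + 1) * 2 ^ l
        · rw [if_pos h, if_pos]
          · rw [← sq_abs]
            exact pow_le_one₀ (abs_nonneg _) (hg p hp n)
          · apply Nat.div_eq_of_lt_le
            · omega
            · omega
        · rw [if_neg h]
          split_ifs <;> norm_num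
      refine (sum_le_sum h2).trans ?_
      rw [sum_ite_eq]
      split_ifs <;> norm_num) (by
      intro z _ p hp m' n' hmn
      rw [hf]
      simp only
      rw [hper p hp m' n' hmn])
    refine h1.trans ?_
    have hPc : (P.card : ℝ) ≤ 2 ^ L := by
      have h1 : P ⊆ Icc 1 (2 ^ L) := by
        intro p hp
        rw [mem_Icc]
        exact ⟨(hP p hp).1.one_le, (hP p hp).2.1⟩
      have h2 := card_le_card h1
      rw [Nat.card_Icc, Nat.add_sub_cancel] at h2
      exact_mod_cast h2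
    have e1 : ((2 ^ L : ℕ) : ℝ) ^ (2 / ((2 : ℕ) : ℝ)) = 2 ^ L := by
      rw [show (2 : ℝ) / ((2 : ℕ) : ℝ) = 1 by norm_num, Real.rpow_one]
      push_cast
      rfl
    have e2 : ((range (2 ^ (L - l))).card : ℝ) * ((2 ^ L : ℕ) : ℝ) ^ 4 / ((2 ^ L : ℕ) : ℝ) ^ 7 ≤ 2 ^ L := by
      have h3 : ((range (2 ^ (L - l))).card : ℝ) ≤ 2 ^ (3 * L) := by
        rw [card_range]
        push_cast
        exact pow_le_pow_right₀ (by norm_num) (by omega)
      rw [div_le_iff₀ (by positivity)]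
      push_cast at h3 ⊢
      calc ((range (2 ^ (L - l))).card : ℝ) * (2 ^ L) ^ 4 ≤ 2 ^ (3 * L) * (2 ^ L) ^ 4 := mul_le_mul_of_nonneg_right h3 (by positivity)
        _ = (2 ^ L) ^ 7 := by rw [← pow_mul, ← pow_mul, ← pow_add]; congr 1; ring
        _ ≤ 2 ^ L * (2 ^ L) ^ 7 := le_mul_of_one_le_left (by positivity) (one_le_pow₀ (by norm_num))
    rw [e1]
    linarith
  refine ⟨fun i => (L + 1) * ∑ l ∈ range (L + 1), ∑ z ∈ range (2 ^ (L - l)),
    (∑ p ∈ P, (f l z p (v i) - mean p (f l z p))) ^ 2, ?_, ?_, ?_⟩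
  · intro i _
    have : 0 ≤ ∑ l ∈ range (L + 1), ∑ z ∈ range (2 ^ (L - l)), (∑ p ∈ P, (f l z p (v i) - mean p (f l z p))) ^ 2 :=
      sum_nonneg fun l _ => sum_nonneg fun z _ => sq_nonneg _
    positivity
  · have e1 : ∑ i ∈ Ω, w i * ((L + 1) * ∑ l ∈ range (L + 1), ∑ z ∈ range (2 ^ (L - l)),
        (∑ p ∈ P, (f l z p (v i) - mean p (f l z p))) ^ 2) =
        (L + 1) * ∑ l ∈ range (L + 1), ∑ z ∈ range (2 ^ (L - l)),
          ∑ i ∈ Ω, w i * (∑ p ∈ P, (f l z p (v i) - mean p (f l z p))) ^ 2 := by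
      have e2 : ∀ i ∈ Ω, w i * ((L + 1) * ∑ l ∈ range (L + 1), ∑ z ∈ range (2 ^ (L - l)),
          (∑ p ∈ P, (f l z p (v i) - mean p (f l z p))) ^ 2) =
          (L + 1) * ∑ l ∈ range (L + 1), ∑ z ∈ range (2 ^ (L - l)),
          w i * (∑ p ∈ P, (f l z p (v i) - mean p (f l z p))) ^ 2 := by
        intro i _
        rw [mul_left_comm]
        congr 1
        rw [mul_sum]
        apply sum_congr rfl
        intro l _
        rw [mul_sum]
      rw [sum_congr rfl e2, ← mul_sum]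
      congr 1
      rw [sum_comm]
      apply sum_congr rfl
      intro l _
      rw [sum_comm]
    rw [e1]
    have h2 : ∑ l ∈ range (L + 1), ∑ z ∈ range (2 ^ (L - l)),
          ∑ i ∈ Ω, w i * (∑ p ∈ P, (f l z p (v i) - mean p (f l z p))) ^ 2 ≤ (L + 1) * ((5 + C) * 2 ^ L) := by
      refine (sum_le_card_nsmul _ _ _ fun l _ => hlev l).trans ?_
      rw [card_range, nsmul_eq_mul]
      push_cast
      exact le_refl _
    calc _ ≤ ((L : ℝ) + 1) * ((L + 1) * ((5 + C) * 2 ^ L)) := mul_le_mul_of_nonneg_left h2 (by positivity)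
      _ = _ := by ring
  · intro i _ t ht
    obtain ⟨s, hs⟩ : ∃ s : ℕ → ℝ, s = fun t => ∑ p ∈ P.filter (fun p => p ≤ t), (g p (v i) - mean p (g p)) := ⟨_, rfl⟩
    have h0 : s 0 = 0 := by
      rw [hs]
      simp only
      have : P.filter (fun p => p ≤ 0) = ∅ := by
        rw [filter_eq_empty_iff]
        intro p hp
        have := (hP p hp).1.pos
        omega
      rw [this, sum_empty]
    have h1 := chain L s t ht
    rw [h0, sub_zero] at h1
    have h2 : ∀ l z, s ((z + 1) * 2 ^ l) - s (z * 2 ^ l) = ∑ p ∈ P, (f l z p (v i) - mean p (f l z p)) := by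
      intro l z
      have hle : z * 2 ^ l ≤ (z + 1) * 2 ^ l := Nat.mul_le_mul_right _ (by omega)
      rw [hs, hf]
      simp only
      rw [sum_filter, sum_filter, ← sum_sub_distrib]
      apply sum_congr rfl
      intro p _
      by_cases k1 : p ≤ z * 2 ^ l
      · have k2 : p ≤ (z + 1) * 2 ^ l := k1.trans hle
        have k3 : ¬ (z * 2 ^ l < p ∧ p ≤ (z + 1) * 2 ^ l) := by omega
        rw [if_pos k1, if_pos k2]
        unfold mean
        simp [k3]
      · by_cases k2 : p ≤ (z + 1) * 2 ^ l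
        · have k3 : (z * 2 ^ l < p ∧ p ≤ (z + 1) * 2 ^ l) := by omega
          rw [if_neg k1, if_pos k2]
          unfold mean
          simp [k3]
        · have k3 : ¬ (z * 2 ^ l < p ∧ p ≤ (z + 1) * 2 ^ l) := by omega
          rw [if_neg k1, if_neg k2]
          unfold mean
          simp [k3]
    simp only [h2] at h1
    have h3 : s t = ∑ p ∈ P.filter (fun p => p ≤ t), (g p (v i) - mean p (g p)) := by rw [hs]
    rw [← h3]
    exact h1

end Pool.Agent.R459.Eq

namespace Pool.Agent.R459.Bsd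
open Finset
open Pool.Agent.W263.BSD (GoodPrime pointCount)
open Pool.Agent.R459.Eq
open Pool.Agent.H807R2.Dav (ee)

/-- all scales -/
theorem tr_all (b : ℕ) (hb : 2 ≤ b) (A : ℕ) (γ : ℝ) (hγ0 : 0 < γ) (hγ1 : γ < 1) : ∃ W : ℕ, 1 ≤ W ∧
    ∀ (F : ℕ) (κ : ℤ), 1 ≤ F → κ ≠ 0 → ∀ δ : ℝ, 0 < δ → δ ≤ 1 / 2 → ∃ X₀ : ℕ, ∀ X : ℕ, X₀ ≤ X → ∀ k : ℕ,
    ∀ (ι : Type) (Ω : Finset ι) (w : ι → ℝ) (v : ι → ℤ), Decays b F A k γ κ Ω w v →
    ∀ a : ℤ, ∀ E : Finset ι, E ⊆ Ω →
      (∀ i ∈ E, ∃ x : ℕ, X ≤ x ∧ x ^ W ≤ b ^ k ∧ (x : ℝ) ^ (1 + δ) < |∑ p ∈ pri x, TT a p (v i) * Real.log p|) →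
      ∑ i ∈ E, w i ≤ (X : ℝ) ^ (-δ) := by
  classical
  obtain ⟨W, hW, H⟩ := sup_real b hb A γ hγ0 hγ1
  refine ⟨2 * W, by omega, fun F κ hF hκ δ hδ hδ1 => ?_⟩
  obtain ⟨C, hC, hmain⟩ := H F κ hF hκ
  obtain ⟨r, hr⟩ : ∃ r : ℝ, r = (2 : ℝ) ^ (-δ) := ⟨_, rfl⟩
  have hr0 : 0 < r := by rw [hr]; positivity
  have hr1 : r < 1 := by
    rw [hr]
    exact Real.rpow_lt_one_of_one_lt_of_neg (by norm_num) (by linarith)
  obtain ⟨L₀, hL₀⟩ := tail_sum (256 * C) r 4 (by positivity) hr0 hr1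
  -- the small primes
  obtain ⟨p₀, hp₀⟩ : ∃ p₀ : ℕ, p₀ = 5 + b := ⟨_, rfl⟩
  obtain ⟨K₃, hK₃⟩ : ∃ K₃ : ℝ, K₃ = (p₀ : ℝ) * (2 * (p₀ : ℝ) ^ 2 * p₀) := ⟨_, rfl⟩
  have hK₃0 : 0 ≤ K₃ := by rw [hK₃]; positivity
  -- the threshold
  obtain ⟨X₁, hX₁⟩ : ∃ X₁ : ℕ, 8 * K₃ + 8 ≤ X₁ := exists_nat_ge _
  obtain ⟨X₂, hX₂⟩ : ∃ X₂ : ℕ, ∀ x : ℕ, X₂ ≤ x → 8 * Real.log x * √x ≤ (x : ℝ) / 8 := by
    have h1 : Filter.Tendsto (fun x : ℝ => Real.log x / x ^ (1 / 2 : ℝ)) Filter.atTop (nhds 0) :=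
      (isLittleO_log_rpow_atTop (by norm_num : (0 : ℝ) < 1 / 2)).tendsto_div_nhds_zero
    have h2 := (h1.comp tendsto_natCast_atTop_atTop).eventually (ge_mem_nhds (show (0 : ℝ) < 1 / 64 by norm_num))
    obtain ⟨X₂, hX₂⟩ := Filter.eventually_atTop.1 h2
    refine ⟨X₂ + 1, fun x hx => ?_⟩
    have h3 := hX₂ x (by omega)
    simp only [Function.comp] at h3
    have hx0 : (0 : ℝ) < x := by exact_mod_cast (by omega : 0 < x)
    rw [← Real.sqrt_eq_rpow, div_le_iff₀ (Real.sqrt_pos.2 hx0)] at h3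
    have h4 : √(x : ℝ) * √(x : ℝ) = x := Real.mul_self_sqrt hx0.le
    have h5 : 0 ≤ √(x : ℝ) := Real.sqrt_nonneg _
    nlinarith
  refine ⟨2 ^ L₀ + X₁ + X₂ + b + 2, fun X hX k ι Ω w v hdec a E hE hbad => ?_⟩
  have hpo : 1 ≤ 2 ^ L₀ := Nat.one_le_two_pow
  obtain ⟨L₁, hL₁⟩ : ∃ L₁, L₁ = Nat.clog 2 X := ⟨_, rfl⟩
  have hXL₁ : X ≤ 2 ^ L₁ := by rw [hL₁]; exact Nat.le_pow_clog (by norm_num) X
  have hL₀₁ : L₀ ≤ L₁ := by
    have : 2 ^ L₀ ≤ 2 ^ L₁ := by omega
    exact (Nat.pow_le_pow_iff_right (by norm_num)).1 this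
  have hXr : (0 : ℝ) < X := by exact_mod_cast (by omega : 0 < X)
  obtain ⟨y, hy⟩ : ∃ y : ℕ → ℝ, y = fun L => ((2 : ℝ) ^ L) ^ (1 + δ) := ⟨_, rfl⟩
  have hy0 : ∀ L, 0 < y L := by intro L; rw [hy]; positivity
  obtain ⟨Q, hQ⟩ : ∃ Q : Finset ℕ, Q = (range (b * k + 1)).filter (fun L => L₁ ≤ L ∧ b ≤ 2 ^ L ∧ (2 ^ L) ^ W ≤ b ^ k) := ⟨_, rfl⟩
  obtain ⟨PP, hPP⟩ : ∃ PP : ℕ → Finset ℕ, PP = fun L => (pri (2 ^ L)).filter (fun p => ¬ p < p₀) := ⟨_, rfl⟩
  have hPPm : ∀ L, ∀ p ∈ PP L, p.Prime ∧ p ≤ 2 ^ L ∧ p₀ ≤ p := by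
    intro L p hp
    rw [hPP, mem_filter, mem_pri] at hp
    exact ⟨hp.1.2, hp.1.1, by omega⟩
  obtain ⟨M, hM⟩ : ∃ M : ℕ → ℝ, M = fun L : ℕ => 2 * √((2 : ℝ) ^ L) * ((L : ℝ) + 1) := ⟨_, rfl⟩
  have hM0 : ∀ L, 0 < M L := by
    intro L
    rw [hM]
    have : 0 < √((2 : ℝ) ^ L) := Real.sqrt_pos.2 (by positivity)
    positivity
  have hM2 : ∀ L, (M L) ^ 2 = 4 * 2 ^ L * (L + 1) ^ 2 := by
    intro L
    rw [hM]
    simp only
    rw [mul_pow, mul_pow, Real.sq_sqrt (by positivity)]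
    ring
  have hg1 : ∀ L, ∀ p ∈ PP L, ∀ n, |TT a p n * Real.log p / M L| ≤ 1 := by
    intro L p hp n
    have h1 := hPPm L p hp
    have hp1 : (1 : ℝ) ≤ p := by exact_mod_cast h1.1.one_le
    have h2 := TT_abs h1.1 (by omega) a n
    have h3 : 0 ≤ Real.log p := Real.log_nonneg hp1
    have h4 : Real.log p ≤ L + 1 := by
      have h5 : Real.log p ≤ Real.log ((2 : ℝ) ^ L) := Real.log_le_log (by linarith) (by exact_mod_cast h1.2.1)
      rw [Real.log_pow] at h5
      have h6 := Real.log_two_lt_d9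
      have h7 : (L : ℝ) * Real.log 2 ≤ L * 1 := mul_le_mul_of_nonneg_left (by linarith) (Nat.cast_nonneg _)
      linarith
    have h5 : √(p : ℝ) ≤ √((2 : ℝ) ^ L) := Real.sqrt_le_sqrt (by exact_mod_cast h1.2.1)
    rw [abs_div, abs_of_pos (hM0 L), div_le_one (hM0 L), abs_mul, abs_of_nonneg h3, hM]
    calc |TT a p n| * Real.log p ≤ (2 * √p) * (L + 1) := mul_le_mul h2 h4 h3 (by positivity)
      _ ≤ (2 * √((2 : ℝ) ^ L)) * (L + 1) := by
          apply mul_le_mul_of_nonneg_right _ (by positivity)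
          linarith
  have hun := wunion' w E (fun i hi => hdec.nonneg i (hE hi)) Q
    (fun L i => ∃ x : ℕ, x ≤ 2 ^ L ∧ y L / 8 < |∑ p ∈ (PP L).filter (fun p => p ≤ x), (TT a p (v i) * Real.log p -
      mean p (fun n => TT a p n * Real.log p))|) (by
      intro i hi
      obtain ⟨x, hXx, hxW, hdev⟩ := hbad i hi
      obtain ⟨L, hL⟩ : ∃ L, L = Nat.clog 2 x := ⟨_, rfl⟩
      have hxL : x ≤ 2 ^ L := by rw [hL]; exact Nat.le_pow_clog (by norm_num) x
      have hx2 : 2 ≤ x := by omega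
      have hL1 : 1 ≤ L := by
        rcases Nat.eq_zero_or_pos L with h | h
        · rw [h, pow_zero] at hxL
          omega
        · exact h
      have hLx : 2 ^ L ≤ 2 * x := by
        have h1 := Nat.pow_pred_clog_lt_self (by norm_num : 1 < 2) (by omega : 1 < x)
        rw [← hL] at h1
        have h2 : 2 ^ L = 2 * 2 ^ (L.pred) := by
          rw [← pow_succ', Nat.pred_eq_sub_one, Nat.sub_add_cancel hL1]
        omega
      have hLW : (2 ^ L) ^ W ≤ b ^ k := by
        calc (2 ^ L) ^ W ≤ (x ^ 2) ^ W := Nat.pow_le_pow_left (by nlinarith) _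
          _ = x ^ (2 * W) := by rw [← pow_mul]
          _ ≤ b ^ k := hxW
      have hLk : L < b * k + 1 := by
        have h1 : 2 ^ L ≤ 2 ^ (b * k) := by
          calc 2 ^ L ≤ (2 ^ L) ^ W := Nat.le_self_pow (by omega) _
            _ ≤ b ^ k := hLW
            _ ≤ (2 ^ b) ^ k := Nat.pow_le_pow_left (Nat.lt_two_pow_self).le _
            _ = 2 ^ (b * k) := by rw [← pow_mul]
        have := (Nat.pow_le_pow_iff_right (by norm_num : 1 < 2)).1 h1
        omega
      refine ⟨L, ?_, x, hxL, ?_⟩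
      · rw [hQ, mem_filter, mem_range]
        refine ⟨hLk, ?_, by omega, hLW⟩
        rw [hL₁, hL]
        exact Nat.clog_mono_right 2 hXx
      · have hxr : (1 : ℝ) ≤ x := by exact_mod_cast (by omega : 1 ≤ x)
        have h1 : y L ≤ 4 * (x : ℝ) ^ (1 + δ) := by
          rw [hy]
          simp only
          have h2 : ((2 : ℝ) ^ L) ≤ 2 * x := by exact_mod_cast hLx
          calc ((2 : ℝ) ^ L) ^ (1 + δ) ≤ (2 * x) ^ (1 + δ) := Real.rpow_le_rpow (by positivity) h2 (by linarith)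
            _ = 2 ^ (1 + δ) * (x : ℝ) ^ (1 + δ) := Real.mul_rpow (by norm_num) (by linarith)
            _ ≤ 2 ^ (2 : ℝ) * (x : ℝ) ^ (1 + δ) := by
                apply mul_le_mul_of_nonneg_right _ (by positivity)
                exact Real.rpow_le_rpow_of_exponent_le (by norm_num) (by linarith)
            _ = _ := by norm_num
        have h3 : (x : ℝ) ≤ (x : ℝ) ^ (1 + δ) := by
          calc (x : ℝ) = (x : ℝ) ^ (1 : ℝ) := (Real.rpow_one _).symm
            _ ≤ _ := Real.rpow_le_rpow_of_exponent_le hxr (by linarith)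
        have hsplit : ∑ p ∈ pri x, TT a p (v i) * Real.log p = ∑ p ∈ (pri x).filter (fun p => p < p₀), TT a p (v i) * Real.log p +
            (∑ p ∈ (PP L).filter (fun p => p ≤ x), (TT a p (v i) * Real.log p - mean p (fun n => TT a p n * Real.log p)) +
            ∑ p ∈ (PP L).filter (fun p => p ≤ x), mean p (fun n => TT a p n * Real.log p)) := by
          rw [sum_pri_split p₀, ← sum_add_distrib]
          congr 1
          have e1 : (pri x).filter (fun p => ¬ p < p₀) = (PP L).filter (fun p => p ≤ x) := by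
            ext p
            rw [hPP]
            simp only [mem_filter, mem_pri]
            constructor
            · rintro ⟨⟨h4, h5⟩, h6⟩
              exact ⟨⟨⟨h4.trans hxL, h5⟩, h6⟩, h4⟩
            · rintro ⟨⟨⟨h4, h5⟩, h6⟩, h7⟩
              exact ⟨⟨h7, h5⟩, h6⟩
          rw [e1]
          exact sum_congr rfl fun p _ => by ring
        have hsmall : |∑ p ∈ (pri x).filter (fun p => p < p₀), TT a p (v i) * Real.log p| ≤ (x : ℝ) / 8 := by
          have h4 : |∑ p ∈ (pri x).filter (fun p => p < p₀), TT a p (v i) * Real.log p| ≤ K₃ := by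
            refine (abs_sum_le_sum_abs _ _).trans ?_
            have h2 : ∀ p ∈ (pri x).filter (fun p => p < p₀), |TT a p (v i) * Real.log p| ≤ 2 * (p₀ : ℝ) ^ 2 * p₀ := by
              intro p hp
              rw [mem_filter, mem_pri] at hp
              have hp1 : (1 : ℝ) ≤ p := by exact_mod_cast hp.1.2.one_le
              have hpp₀ : (p : ℝ) ≤ p₀ := by exact_mod_cast hp.2.le
              rw [abs_mul, abs_of_nonneg (Real.log_nonneg hp1)]
              have h5 : Real.log p ≤ p₀ := by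
                have := Real.log_le_sub_one_of_pos (by linarith : (0 : ℝ) < p)
                linarith
              have h6 := TT_crude hp.1.2 a (v i)
              have h7 : 2 * (p : ℝ) ^ 2 ≤ 2 * (p₀ : ℝ) ^ 2 := by
                have := pow_le_pow_left₀ (Nat.cast_nonneg _) hpp₀ 2
                linarith
              exact mul_le_mul (h6.trans h7) h5 (Real.log_nonneg hp1) (by positivity)
            refine (sum_le_card_nsmul _ _ _ h2).trans ?_
            rw [nsmul_eq_mul, hK₃]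
            apply mul_le_mul_of_nonneg_right _ (by positivity)
            have h5 : (pri x).filter (fun p => p < p₀) ⊆ range p₀ := by
              intro p hp
              rw [mem_range]
              exact (mem_filter.1 hp).2
            have h6 := card_le_card h5
            rw [card_range] at h6
            exact_mod_cast h6
          have h5 : (X₁ : ℝ) ≤ x := by exact_mod_cast (by omega : X₁ ≤ x)
          linarith
        have hmid : |∑ p ∈ (PP L).filter (fun p => p ≤ x), mean p (fun n => TT a p n * Real.log p)| ≤ (x : ℝ) / 8 := by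
          refine (abs_sum_le_sum_abs _ _).trans ?_
          have h4 : ∀ p ∈ (PP L).filter (fun p => p ≤ x), |mean p (fun n => TT a p n * Real.log p)| ≤ (4 * Real.log x) * (1 / √p) := by
            intro p hp
            rw [mem_filter] at hp
            have h5 := hPPm L p hp.1
            have hp1 : (1 : ℝ) ≤ p := by exact_mod_cast h5.1.one_le
            have h6 : mean p (fun n => TT a p n * Real.log p) = mean p (TT a p) * Real.log p := by
              unfold mean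
              rw [← sum_mul]
              ring
            rw [h6, abs_mul, abs_of_nonneg (Real.log_nonneg hp1)]
            have h7 := mean_TT h5.1 (by omega) a
            have h8 : Real.log p ≤ Real.log x := Real.log_le_log (by linarith) (by exact_mod_cast hp.2)
            calc |mean p (TT a p)| * Real.log p ≤ (4 / √p) * Real.log x := mul_le_mul h7 h8 (Real.log_nonneg hp1) (by positivity)
              _ = _ := by ring
          refine (sum_le_sum h4).trans ?_
          rw [← mul_sum]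
          have h5 : ∑ p ∈ (PP L).filter (fun p => p ≤ x), 1 / √(p : ℝ) ≤ 2 * √x := by
            refine le_trans (sum_le_sum_of_subset_of_nonneg ?_ fun i _ _ => by positivity) (sum_sqrt x)
            intro p hp
            rw [mem_filter] at hp
            rw [mem_pri]
            exact ⟨hp.2, (hPPm L p hp.1).1⟩
          have h6 : 0 ≤ Real.log x := Real.log_nonneg hxr
          calc (4 * Real.log x) * ∑ p ∈ (PP L).filter (fun p => p ≤ x), 1 / √(p : ℝ) ≤ (4 * Real.log x) * (2 * √x) :=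
                mul_le_mul_of_nonneg_left h5 (by positivity)
            _ = 8 * Real.log x * √x := by ring
            _ ≤ _ := hX₂ x (by omega)
        have h9 := hdev
        rw [hsplit] at h9
        have h10 := abs_add_le (∑ p ∈ (pri x).filter (fun p => p < p₀), TT a p (v i) * Real.log p)
          (∑ p ∈ (PP L).filter (fun p => p ≤ x), (TT a p (v i) * Real.log p - mean p (fun n => TT a p n * Real.log p)) +
            ∑ p ∈ (PP L).filter (fun p => p ≤ x), mean p (fun n => TT a p n * Real.log p))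
        have h11 := abs_add_le (∑ p ∈ (PP L).filter (fun p => p ≤ x), (TT a p (v i) * Real.log p - mean p (fun n => TT a p n * Real.log p)))
            (∑ p ∈ (PP L).filter (fun p => p ≤ x), mean p (fun n => TT a p n * Real.log p))
        linarith)
    (fun L => 256 * C * ((L : ℝ) + 1) ^ 4 * r ^ (2 * L)) (by
      intro L hL E' hE' hE''
      rw [hQ, mem_filter] at hL
      obtain ⟨Qi, hQ0, hQ1, hQ2⟩ := hmain k L hL.2.2.1 hL.2.2.2 ι Ω w v hdec (PP L) (by
        intro p hp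
        have h1 := hPPm L p hp
        refine ⟨h1.1, h1.2.1, fun h2 => ?_⟩
        have := Nat.le_of_dvd (by omega) h2
        omega) (fun p n => TT a p n * Real.log p / M L) (hg1 L) (by
        intro p _ m n hmn
        show TT a p m * Real.log p / M L = TT a p n * Real.log p / M L
        rw [TT_per a p m n hmn])
      have hET : ∀ i ∈ E', (y L / 8) ^ 2 ≤ Qi i * (M L) ^ 2 := by
        intro i hi
        obtain ⟨x, hx, hTx⟩ := hE'' i hi
        have h1 := hQ2 i (hE (hE' hi)) x hx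
        have h2 : ∑ p ∈ (PP L).filter (fun p => p ≤ x), (TT a p (v i) * Real.log p / M L - mean p (fun n => TT a p n * Real.log p / M L)) =
            (∑ p ∈ (PP L).filter (fun p => p ≤ x), (TT a p (v i) * Real.log p - mean p (fun n => TT a p n * Real.log p))) / M L := by
          rw [sum_div]
          apply sum_congr rfl
          intro p _
          unfold mean
          rw [← sum_div]
          ring
        rw [h2, div_pow, div_le_iff₀ (by have := hM0 L; positivity)] at h1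
        refine le_trans ?_ h1
        rw [← sq_abs (∑ p ∈ (PP L).filter (fun p => p ≤ x), (TT a p (v i) * Real.log p - mean p (fun n => TT a p n * Real.log p)))]
        exact pow_le_pow_left₀ (by have := hy0 L; positivity) hTx.le 2
      have h1 : (∑ i ∈ E', w i) * (y L / 8) ^ 2 ≤ (C * (L + 1) ^ 2 * 2 ^ L) * (M L) ^ 2 := by
        rw [sum_mul]
        calc ∑ i ∈ E', w i * (y L / 8) ^ 2 ≤ ∑ i ∈ E', w i * (Qi i * (M L) ^ 2) :=
              sum_le_sum fun i hi => mul_le_mul_of_nonneg_left (hET i hi) (hdec.nonneg i (hE (hE' hi)))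
          _ = (∑ i ∈ E', w i * Qi i) * (M L) ^ 2 := by
              rw [sum_mul]
              exact sum_congr rfl fun i _ => by ring
          _ ≤ (∑ i ∈ Ω, w i * Qi i) * (M L) ^ 2 := by
              apply mul_le_mul_of_nonneg_right _ (by positivity)
              exact sum_le_sum_of_subset_of_nonneg (hE'.trans hE) fun i hi _ => mul_nonneg (hdec.nonneg i hi) (hQ0 i hi)
          _ ≤ _ := mul_le_mul_of_nonneg_right hQ1 (by positivity)
      have e1 : (y L) ^ 2 = (2 ^ L) ^ 2 * (r⁻¹) ^ (2 * L) := by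
        rw [hy, hr]
        simp only
        rw [← Real.rpow_natCast (((2 : ℝ) ^ L) ^ (1 + δ)) 2, ← Real.rpow_mul (by positivity), ← Real.rpow_neg (by norm_num), neg_neg,
          ← Real.rpow_natCast ((2 : ℝ) ^ δ), ← Real.rpow_mul (by norm_num), ← Real.rpow_natCast ((2 : ℝ) ^ L) 2]
        rw [← Real.rpow_natCast 2 L, ← Real.rpow_mul (by norm_num), ← Real.rpow_mul (by norm_num), ← Real.rpow_add (by norm_num)]
        congr 1
        push_cast
        ring
      rw [hM2, div_pow, e1] at h1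
      have h2 : (0 : ℝ) < 2 ^ L := by positivity
      have h3 : 0 < r ^ (2 * L) := by positivity
      rw [inv_pow] at h1
      have h4 : (∑ i ∈ E', w i) * (((2 : ℝ) ^ L) ^ 2 * (r ^ (2 * L))⁻¹ / 8 ^ 2) * (64 * r ^ (2 * L)) ≤
          (C * (L + 1) ^ 2 * 2 ^ L) * (4 * 2 ^ L * (L + 1) ^ 2) * (64 * r ^ (2 * L)) := mul_le_mul_of_nonneg_right h1 (by positivity)
      have h5 : (∑ i ∈ E', w i) * (((2 : ℝ) ^ L) ^ 2 * (r ^ (2 * L))⁻¹ / 8 ^ 2) * (64 * r ^ (2 * L)) = (∑ i ∈ E', w i) * (2 ^ L) ^ 2 := by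
        field_simp
        ring
      have h6 : (C * ((L : ℝ) + 1) ^ 2 * 2 ^ L) * (4 * 2 ^ L * (L + 1) ^ 2) * (64 * r ^ (2 * L)) =
          (256 * C * (L + 1) ^ 4 * r ^ (2 * L)) * (2 ^ L) ^ 2 := by ring
      rw [h5, h6] at h4
      exact le_of_mul_le_mul_right h4 (by positivity))
  refine hun.trans ?_
  have h1 := hL₀ L₁ hL₀₁ Q (by
    intro L hL
    rw [hQ, mem_filter] at hL
    exact hL.2.1)
  refine h1.trans ?_
  rw [hr, ← Real.rpow_natCast, ← Real.rpow_mul (by norm_num), mul_comm, Real.rpow_mul (by norm_num), Real.rpow_natCast]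
  rw [Real.rpow_neg (by positivity), Real.rpow_neg hXr.le]
  apply inv_anti₀ (by positivity)
  apply Real.rpow_le_rpow hXr.le _ hδ.le
  exact_mod_cast hXL₁

end Pool.Agent.R459.Bsd
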