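import Pool.Agent.R459.Eq3
import Pool.Agent.R459.Fams

/-! The characteristic functions of the families given by digits decay. -/

set_option autoImplicit false

namespace Pool.Agent.R459.Eq
open Finset
open Pool.Agent.H807R2.Dav
open Pool.Agent.TH872.Mir (Far farCount Gs pw val Mirr Q)
open Pool.Agent.TH872.An (V Spread GG GG_pos far_pair char_small)

lemma shift_sum {ι : Type} (Ω : Finset ι) (w : ι → ℝ) (y : ι → ℕ) (c κ : ℤ) (θ : ℝ) :
    ‖∑ i ∈ Ω, (w i : ℂ) * ee (((c + κ * (y i : ℕ) : ℤ) : ℝ) * θ)‖ = ‖∑ i ∈ Ω, (w i : ℂ) * ee ((y i : ℝ) * (κ * θ))‖ := by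
  have h : ∑ i ∈ Ω, (w i : ℂ) * ee (((c + κ * (y i : ℕ) : ℤ) : ℝ) * θ) =
      ee ((c : ℝ) * θ) * ∑ i ∈ Ω, (w i : ℂ) * ee ((y i : ℝ) * (κ * θ)) := by
    rw [mul_sum]
    apply sum_congr rfl
    intro i _
    have : ee (((c + κ * (y i : ℕ) : ℤ) : ℝ) * θ) = ee ((c : ℝ) * θ) * ee ((y i : ℝ) * (κ * θ)) := by
      rw [← ee_add]
      congr 1
      push_cast
      ring
    rw [this]
    ring
  rw [h, norm_mul, norm_ee, one_mul]

/-- pairs of mirror digits -/
theorem mir_decays (b : ℕ) (hb : 2 ≤ b) (η : ℝ) (hη : 0 < η) (hη1 : η ≤ 1) : ∃ γ : ℝ, 0 < γ ∧ γ < 1 ∧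
    ∀ (m s : ℕ), s ≤ 1 → ∀ w : ℕ → ℕ × ℕ → ℝ, Mirr b m η w → ∀ c κ : ℤ,
    Decays b (b ^ 4).factorial 5 (2 * m + s) γ κ (Gs b m) (pw w) (fun g => c + κ * (val b (2 * m + s) g : ℕ)) := by
  have hb0 : (0 : ℝ) < b := by exact_mod_cast (by omega : 0 < b)
  have hb1 : (1 : ℝ) ≤ b := by exact_mod_cast (by omega : 1 ≤ b)
  have hF : (1 : ℝ) ≤ ((b ^ 4).factorial : ℝ) := by exact_mod_cast Nat.factorial_pos _
  obtain ⟨γ, hγ⟩ : ∃ γ, γ = 1 - 4 * (η / (b : ℝ) ^ 4) * (1 / (2 * ((b ^ 4).factorial : ℝ) * (b : ℝ) ^ 4)) ^ 2 := ⟨_, rfl⟩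
  have hb4 : (1 : ℝ) ≤ (b : ℝ) ^ 4 := one_le_pow₀ hb1
  have h1 : 0 < 4 * (η / (b : ℝ) ^ 4) * (1 / (2 * ((b ^ 4).factorial : ℝ) * (b : ℝ) ^ 4)) ^ 2 := by positivity
  have h2 : 4 * (η / (b : ℝ) ^ 4) * (1 / (2 * ((b ^ 4).factorial : ℝ) * (b : ℝ) ^ 4)) ^ 2 < 1 := by
    have h3 : η / (b : ℝ) ^ 4 ≤ 1 / 16 := by
      rw [div_le_div_iff₀ (by positivity) (by norm_num)]
      have h4 : (2 : ℝ) ^ 4 ≤ (b : ℝ) ^ 4 := pow_le_pow_left₀ (by norm_num) (by exact_mod_cast hb) _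
      nlinarith
    have h4 : (1 / (2 * ((b ^ 4).factorial : ℝ) * (b : ℝ) ^ 4)) ^ 2 ≤ 1 := by
      apply pow_le_one₀ (by positivity)
      rw [div_le_one (by positivity)]
      nlinarith
    have h5 : 0 ≤ (1 / (2 * ((b ^ 4).factorial : ℝ) * (b : ℝ) ^ 4)) ^ 2 := by positivity
    nlinarith
  refine ⟨γ, by rw [hγ]; linarith, by rw [hγ]; linarith, fun m s hs w hw c κ => ⟨?_, ?_, ?_⟩⟩
  · exact fun g _ => Pool.Agent.TH872.Mir.pw_nonneg hw g
  · exact Pool.Agent.TH872.Mir.pw_sum hw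
  · intro θ N hN _
    rw [shift_sum]
    exact Pool.Agent.TH872.Mir.char_decay b m s hb η hη w hw (κ * θ) N (by omega) γ hγ (by rw [hγ]; linarith)

/-- rearrangements of digits -/
theorem perm_decays (b : ℕ) (hb : 2 ≤ b) (η : ℝ) (hη : 0 < η) (hη1 : η ≤ 1) : ∃ (A : ℕ) (γ : ℝ), 0 < γ ∧ γ < 1 ∧
    ∀ (k : ℕ) (d : Fin k → ℕ), Spread b k η d → ∀ c κ : ℤ,
    Decays b (GG b) A k γ κ (univ : Finset (Equiv.Perm (Fin k))) (fun _ => 1 / (k.factorial : ℝ))
      (fun σ => c + κ * (V b d σ : ℕ)) := by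
  classical
  have hbr : (2 : ℝ) ≤ b := by exact_mod_cast hb
  have hb0 : (0 : ℝ) < b := by linarith
  have hG0 : (0 : ℝ) < GG b := by exact_mod_cast GG_pos b hb
  have hG1 : (1 : ℝ) ≤ GG b := by exact_mod_cast GG_pos b hb
  obtain ⟨δ, hδ⟩ : ∃ δ, δ = 1 / ((b : ℝ) ^ 2 * GG b) := ⟨_, rfl⟩
  have hδ0 : 0 < δ := by rw [hδ]; positivity
  have hδ1 : δ ≤ 1 / 2 := by
    rw [hδ]
    apply div_le_div_of_nonneg_left (by norm_num) (by norm_num)
    nlinarith
  obtain ⟨γ, hγ⟩ : ∃ γ, γ = 1 - 2 * δ ^ 2 * (η / 2) := ⟨_, rfl⟩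
  have hγ1 : γ < 1 := by
    rw [hγ]
    have : 0 < 2 * δ ^ 2 * (η / 2) := by positivity
    linarith
  have hγ0 : 0 < γ := by
    rw [hγ]
    have h1 : δ ^ 2 ≤ (1 / 2) ^ 2 := pow_le_pow_left₀ hδ0.le hδ1 2
    nlinarith [sq_nonneg δ]
  obtain ⟨τ, hτ⟩ := exists_nat_ge (4 / η : ℝ)
  refine ⟨τ + 2, γ, hγ0, hγ1, fun k d hd c κ => ⟨fun _ _ => by positivity, ?_, ?_⟩⟩
  · rw [sum_const, card_univ, Fintype.card_perm, Fintype.card_fin, nsmul_eq_mul, mul_one_div, div_self]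
    exact_mod_cast k.factorial_ne_zero
  intro θ' N hfar hNk
  rw [shift_sum univ (fun _ : Equiv.Perm (Fin k) => 1 / (k.factorial : ℝ)) (fun σ => V b d σ) c κ θ']
  obtain ⟨θ, hθ⟩ : ∃ θ : ℝ, θ = κ * θ' := ⟨_, rfl⟩
  rw [← hθ] at hfar ⊢
  rcases Nat.eq_zero_or_pos N with hN0 | hN0
  · rw [hN0, pow_zero]
    refine (norm_sum_le _ _).trans ?_
    have hfac : (0 : ℝ) < (k.factorial : ℝ) := by exact_mod_cast k.factorial_pos
    refine (sum_le_card_nsmul _ _ (1 / (k.factorial : ℝ)) fun σ _ => ?_).trans ?_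
    · rw [norm_mul, norm_ee, mul_one, Complex.norm_real, Real.norm_of_nonneg (by positivity)]
    · rw [card_univ, Fintype.card_perm, Fintype.card_fin, nsmul_eq_mul, mul_one_div, div_self hfac.ne']
  have hk0 : 0 < k := by
    have : 1 * 1 ≤ (τ + 2) * N := Nat.mul_le_mul (by omega) hN0
    omega
  have hfc : 2 * N + 2 ≤ farCount b (GG b) k θ := by
    refine le_trans ?_ hfar
    nlinarith
  obtain ⟨T, hT⟩ : ∃ T : Finset ℕ, T = (range (k - 1)).filter (fun j => Far (1 / (b : ℝ) ^ 2) ((GG b : ℝ) * ((b : ℝ) ^ j * θ))) := ⟨_, rfl⟩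
  have hTc : 2 * N + 1 ≤ T.card := by
    have h2 : (range k).filter (fun j => Far (1 / (b : ℝ) ^ 2) ((GG b : ℝ) * ((b : ℝ) ^ j * θ))) ⊆ insert (k - 1) T := by
      intro j hj
      rw [mem_filter, mem_range] at hj
      rw [mem_insert, hT, mem_filter, mem_range]
      by_cases c : j = k - 1
      · left; exact c
      · right; exact ⟨by omega, hj.2⟩
    have h3 := (card_le_card h2).trans (card_insert_le _ _)
    unfold farCount at hfc
    omega
  have hpar : ∃ r : ℕ, N ≤ (T.filter (fun j => j % 2 = r)).card := by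
    have h2 := card_filter_add_card_filter_not (s := T) (fun j => j % 2 = 0)
    by_cases c : N ≤ (T.filter (fun j => j % 2 = 0)).card
    · exact ⟨0, c⟩
    · refine ⟨1, ?_⟩
      have h3 : (T.filter (fun j => j % 2 = 1)).card = (T.filter (fun j => ¬ j % 2 = 0)).card := by
        congr 1
        apply filter_congr
        intro j _
        omega
      omega
  obtain ⟨r, hr⟩ := hpar
  obtain ⟨J, hJs, hJc⟩ := exists_subset_card_eq hr
  have hJT : ∀ j ∈ J, j + 1 < k ∧ j % 2 = r ∧ Far (1 / (b : ℝ) ^ 2) ((GG b : ℝ) * ((b : ℝ) ^ j * θ)) := by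
    intro j hj
    have h2 := hJs hj
    rw [mem_filter, hT, mem_filter, mem_range] at h2
    exact ⟨by omega, h2.2, h2.1.2⟩
  obtain ⟨x, hx⟩ : ∃ x : ℕ → Fin k, ∀ j, j + 1 < k → ((x j : Fin k) : ℕ) = j + 1 := by
    refine ⟨fun j => if h : j + 1 < k then ⟨j + 1, h⟩ else ⟨0, hk0⟩, fun j hj => ?_⟩
    simp only [hj, dif_pos]
  obtain ⟨y, hy⟩ : ∃ y : ℕ → Fin k, ∀ j, j + 1 < k → ((y j : Fin k) : ℕ) = j := by
    refine ⟨fun j => if h : j + 1 < k then ⟨j, by omega⟩ else ⟨0, hk0⟩, fun j hj => ?_⟩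
    simp only [hj, dif_pos]
  have hdec := char_small b hd hη.le θ δ hδ0.le hδ1 x y J (by
      intro i hi j hj hcon
      have a1 := hJT i hi
      have a2 := hJT j hj
      have a3 := congrArg Fin.val hcon
      rw [hx i a1.1, hy j a2.1] at a3
      omega) (by
      intro i hi j hj hcon
      have a1 := hJT i hi
      have a2 := hJT j hj
      have a3 := congrArg Fin.val hcon
      rw [hx i a1.1, hx j a2.1] at a3
      omega) (by
      intro i hi j hj hcon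
      have a1 := hJT i hi
      have a2 := hJT j hj
      have a3 := congrArg Fin.val hcon
      rw [hy i a1.1, hy j a2.1] at a3
      omega) (by
      rw [hJc]
      have e1 : ((((τ + 2) * N : ℕ)) : ℝ) ≤ k := by exact_mod_cast hNk
      have e2 : 4 ≤ τ * η := by rwa [div_le_iff₀ hη] at hτ
      have e3 : (0 : ℝ) ≤ N := Nat.cast_nonneg _
      push_cast at e1
      have e4 : 4 * (N : ℝ) ≤ (τ * η) * N := mul_le_mul_of_nonneg_right e2 e3
      have e5 : (τ : ℝ) * N ≤ k := by linarith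
      have e6 : η * ((τ : ℝ) * N) ≤ η * k := mul_le_mul_of_nonneg_left e5 hη.le
      linarith) (by
      intro j hj D hD0 hD
      have a1 := hJT j hj
      rw [hx j a1.1, hy j a1.1, hδ]
      exact far_pair b hb j θ a1.2.2 D hD0 hD)
  rw [← hγ, hJc] at hdec
  exact hdec

lemma spread_min {b k : ℕ} {η : ℝ} {d : Fin k → ℕ} (h : Spread b k η d) (η' : ℝ) (hη : η' ≤ η) : Spread b k η' d :=
  ⟨h.lt, fun a => (h.few a).trans (mul_le_mul_of_nonneg_right (by linarith) (Nat.cast_nonneg _))⟩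

lemma mirr_min {b m : ℕ} {η : ℝ} {w : ℕ → ℕ × ℕ → ℝ} (h : Mirr b m η w) (η' : ℝ) (hη : η' ≤ η) : Mirr b m η' w :=
  ⟨h.nonneg, h.sum, fun i hi h1 => hη.trans (h.mir i hi h1)⟩

open Pool.Agent.TH872.Tr (num Prob Pairs value) in
open Pool.Agent.R459.Fams in
/-- Almost all the integers `c + κ v` have the property `P`, if `v` runs through the following families of integers with `k`
digits in base `b`; the proportion of the exceptions is at most `τ`.
* The integers with the digits `d`, in an arbitrary order, where `d` are arbitrary `k` digits none of which is taken at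
  more than `(1 - η) k` places. (`V b d σ` is the integer with the digit `d (σ i)` at the place `i`.)
* The palindromes with exactly `k` digits. (`num b k E` is the number of those with the property `E`.)
* The random integers whose pairs of digits at the places `i` and `k - 1 - i` are independent of each other for
  different `i < k / 2`, with arbitrary distributions `w i` such that, for `i ≥ 1`, two independent copies of the pair
  differ in both digits with a probability of at least `η` (if `k` is odd, `u` is the distribution of the middle digit,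
  which is also independent of the pairs). (`value b k κ c d z` is `c + κ v`, where `v` has the pairs of digits `d i`
  and the middle digit `z`, and `Prob` is the probability of an event.) -/
def Almost (b k : ℕ) (κ c : ℤ) (η τ : ℝ) (P : ℤ → Prop) : Prop :=
  (∀ d : Fin k → ℕ, Spread b k η d → count univ (fun σ => ¬ P (c + κ * (V b d σ : ℕ))) ≤ τ * k.factorial) ∧
  (num b k (fun v => ¬ P (c + κ * v)) : ℝ) ≤ τ * num b k (fun _ => True) ∧
  (∀ (w : ℕ → ℕ × ℕ → ℝ) (u : ℕ → ℝ), Pairs b k η w → (∀ a, 0 ≤ u a) → ∑ a ∈ range b, u a = 1 →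
    Prob b k w u (fun d z => ¬ P (value b k κ c d z)) ≤ τ)

open Pool.Agent.TH872.Tr (num Prob Pairs value) in
open Pool.Agent.R459.Fams in
open Pool.Agent.TH872.Mir (pals_of_prob Pals w0 w0_mirr) in
/-- from the laws to the families -/
theorem almost_of (b : ℕ) (hb : 2 ≤ b) (η : ℝ) (hη : 0 < η) : ∃ (A₁ A₂ : ℕ) (γ₁ γ₂ : ℝ), 0 < γ₁ ∧ γ₁ < 1 ∧ 0 < γ₂ ∧ γ₂ < 1 ∧
    ∀ (k : ℕ), 2 ≤ k → ∀ (κ c : ℤ) (τ : ℝ) (P : ℤ → Prop), 0 ≤ τ →
    (∀ (F A : ℕ) (γ : ℝ), ((F, A, γ) = (GG b, A₁, γ₁) ∨ (F, A, γ) = ((b ^ 4).factorial, A₂, γ₂)) →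
      ∀ (ι : Type) (Ω : Finset ι) (w : ι → ℝ) (v : ι → ℤ), Decays b F A k γ κ Ω w v →
      ∀ E : Finset ι, E ⊆ Ω → (∀ i ∈ E, ¬ P (v i)) → ∑ i ∈ E, w i ≤ τ) → Almost b k κ c η τ P := by
  classical
  have hb0 : (0 : ℝ) < b := by exact_mod_cast (by omega : 0 < b)
  obtain ⟨η₁, hη₁⟩ : ∃ η₁, η₁ = min (min η 1) (1 / (b : ℝ) ^ 2) := ⟨_, rfl⟩
  have h0 : 0 < η₁ := by rw [hη₁]; exact lt_min (lt_min hη one_pos) (by positivity)
  have h1 : η₁ ≤ 1 := by rw [hη₁]; exact (min_le_left _ _).trans (min_le_right _ _)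
  have h2 : η₁ ≤ η := by rw [hη₁]; exact (min_le_left _ _).trans (min_le_left _ _)
  have h3 : η₁ ≤ 1 / (b : ℝ) ^ 2 := by rw [hη₁]; exact min_le_right _ _
  obtain ⟨A₁, γ₁, hγ₁, hγ₁', hperm⟩ := perm_decays b hb η₁ h0 h1
  obtain ⟨γ₂, hγ₂, hγ₂', hmir⟩ := mir_decays b hb η₁ h0 h1
  refine ⟨A₁, 5, γ₁, γ₂, hγ₁, hγ₁', hγ₂, hγ₂', fun k hk κ c τ P hτ H => ?_⟩
  have hmain : ∀ w : ℕ → ℕ × ℕ → ℝ, Mirr b (k / 2) η₁ w → ∀ z : ℕ,
      ∑ g ∈ Gs b (k / 2), (if ¬ P (c + κ * ((val b (2 * (k / 2) + k % 2) g + k % 2 * z * b ^ (k / 2) : ℕ) : ℤ))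
        then pw w g else 0) ≤ τ := by
    intro w hw z
    have hk2 : 2 * (k / 2) + k % 2 = k := by omega
    have hval : ∀ g : Fin (k / 2) → ℕ × ℕ, c + κ * ((val b (2 * (k / 2) + k % 2) g + k % 2 * z * b ^ (k / 2) : ℕ) : ℤ) =
        (c + κ * ((k % 2 * z * b ^ (k / 2) : ℕ) : ℤ)) + κ * ((val b (2 * (k / 2) + k % 2) g : ℕ) : ℤ) := by
      intro g
      push_cast
      ring
    simp only [hval]
    rw [← sum_filter]
    have hdec := hmir (k / 2) (k % 2) (by omega) w hw (c + κ * ((k % 2 * z * b ^ (k / 2) : ℕ) : ℤ)) κ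
    rw [hk2] at hdec ⊢
    exact H _ _ _ (Or.inr rfl) _ _ _ _ hdec _ (filter_subset _ _) fun g hg => (mem_filter.1 hg).2
  refine ⟨fun d hd => ?_, ?_, fun w u hw hu hu1 => ?_⟩
  · have h4 := H _ _ _ (Or.inl rfl) _ _ _ _ (hperm k d (spread_min hd η₁ h2) c κ)
      (univ.filter (fun σ => ¬ P (c + κ * (V b d σ : ℕ)))) (filter_subset _ _) fun σ hσ => (mem_filter.1 hσ).2
    rw [sum_const, nsmul_eq_mul] at h4
    rw [count_eq]
    have hfac : (0 : ℝ) < (k.factorial : ℝ) := by exact_mod_cast k.factorial_pos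
    rw [mul_one_div, div_le_iff₀ hfac] at h4
    exact h4
  · have h5 := pals_of_prob b (k / 2) (k % 2) hb (by omega) (by omega)
      (fun v => ¬ P (c + κ * v)) τ hτ (by
        intro z _
        convert hmain _ (mirr_min (w0_mirr b (k / 2) hb) η₁ h3) z)
    have hk2 : 2 * (k / 2) + k % 2 = k := by omega
    have e1 : ∀ E : ℕ → Prop, num b k E = ((Pals b (2 * (k / 2) + k % 2)).filter E).card := by
      intro E
      unfold num Pals
      rw [hk2, filter_filter]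
      rfl
    rw [e1, e1, filter_true]
    rw [mul_comm τ]
    exact h5
  · have hmirr : Mirr b (k / 2) η₁ w := mirr_min ⟨hw.nonneg, hw.sum, hw.differ⟩ η₁ h2
    have hk2 : 2 * (k / 2) + k % 2 = k := by omega
    have hP : Prob b k w u (fun d z => ¬ P (value b k κ c d z)) =
        ∑ z ∈ range b, u z * ∑ g ∈ Gs b (k / 2), (if ¬ P (c + κ * ((val b (2 * (k / 2) + k % 2) g + k % 2 * z * b ^ (k / 2) : ℕ) : ℤ))
        then pw w g else 0) := by
      unfold Prob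
      rw [sum_comm]
      apply sum_congr rfl
      intro z _
      rw [mul_sum]
      apply sum_congr rfl
      intro d _
      rw [hk2]
      unfold value Pool.Agent.TH872.Mir.val pw
      split_ifs
      · ring
      · ring
    rw [hP]
    calc _ ≤ ∑ z ∈ range b, u z * τ :=
          sum_le_sum fun z _ => mul_le_mul_of_nonneg_left (hmain w hmirr z) (hu z)
      _ = _ := by rw [← sum_mul, hu1, one_mul]

end Pool.Agent.R459.Eq
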