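import Pool.Agent.R459.Eq9

/-! Chaining in two directions: all thresholds and all ranges of primes at once. -/

set_option autoImplicit false

namespace Pool.Agent.R459.Eq
open Finset
open Pool.Agent.H807R2.Dav

/-- dyadic chaining -/
theorem chain : ∀ (L : ℕ) (s : ℕ → ℝ) (t : ℕ), t ≤ 2 ^ L → (s t - s 0) ^ 2 ≤
    (L + 1) * ∑ l ∈ range (L + 1), ∑ i ∈ range (2 ^ (L - l)), (s ((i + 1) * 2 ^ l) - s (i * 2 ^ l)) ^ 2 := by
  intro L
  induction L with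
  | zero =>
    intro s t ht
    rw [pow_zero] at ht
    interval_cases t
    · simp
      positivity
    · simp
  | succ L ih =>
    intro s t ht
    obtain ⟨E, hE⟩ : ∃ E : (ℕ → ℝ) → ℝ, E = fun s => ∑ l ∈ range (L + 1), ∑ i ∈ range (2 ^ (L - l)),
      (s ((i + 1) * 2 ^ l) - s (i * 2 ^ l)) ^ 2 := ⟨_, rfl⟩
    obtain ⟨s', hs'⟩ : ∃ s' : ℕ → ℝ, s' = fun u => s (2 ^ L + u) := ⟨_, rfl⟩
    have hE0 : ∀ s, 0 ≤ E s := by
      intro s
      rw [hE]
      exact sum_nonneg fun l _ => sum_nonneg fun i _ => sq_nonneg _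
    have hrec : ∑ l ∈ range (L + 1 + 1), ∑ i ∈ range (2 ^ (L + 1 - l)), (s ((i + 1) * 2 ^ l) - s (i * 2 ^ l)) ^ 2 =
        E s + E s' + (s (2 ^ (L + 1)) - s 0) ^ 2 := by
      rw [sum_range_succ, Nat.sub_self, pow_zero, range_one, sum_singleton, zero_add, one_mul, zero_mul]
      congr 1
      rw [hE]
      simp only
      rw [← sum_add_distrib]
      apply sum_congr rfl
      intro l hl
      rw [mem_range] at hl
      have h1 : 2 ^ (L + 1 - l) = 2 ^ (L - l) + 2 ^ (L - l) := by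
        rw [show L + 1 - l = (L - l) + 1 by omega, pow_succ]
        ring
      rw [h1, sum_range_add]
      congr 1
      apply sum_congr rfl
      intro i _
      rw [hs']
      simp only
      have h2 : (2 ^ (L - l) + i + 1) * 2 ^ l = 2 ^ L + (i + 1) * 2 ^ l := by
        rw [add_assoc, add_mul, ← pow_add, Nat.sub_add_cancel (by omega)]
      have h3 : (2 ^ (L - l) + i) * 2 ^ l = 2 ^ L + i * 2 ^ l := by
        rw [add_mul, ← pow_add, Nat.sub_add_cancel (by omega)]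
      rw [h2, h3]
    rw [hrec]
    have hL0 : (0 : ℝ) ≤ L := Nat.cast_nonneg _
    have htop : (s (2 ^ L) - s 0) ^ 2 ≤ E s := by
      rw [hE]
      simp only
      have h1 : ∑ i ∈ range (2 ^ (L - L)), (s ((i + 1) * 2 ^ L) - s (i * 2 ^ L)) ^ 2 = (s (2 ^ L) - s 0) ^ 2 := by
        rw [Nat.sub_self, pow_zero, range_one, sum_singleton, zero_add, one_mul, zero_mul]
      rw [← h1]
      exact single_le_sum (f := fun l => ∑ i ∈ range (2 ^ (L - l)), (s ((i + 1) * 2 ^ l) - s (i * 2 ^ l)) ^ 2)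
        (fun l _ => sum_nonneg fun i _ => sq_nonneg _) (mem_range.2 (by omega))
    push_cast
    by_cases h : t ≤ 2 ^ L
    · have h1 := ih s t h
      have h2 : ∑ l ∈ range (L + 1), ∑ i ∈ range (2 ^ (L - l)), (s ((i + 1) * 2 ^ l) - s (i * 2 ^ l)) ^ 2 = E s := by rw [hE]
      rw [h2] at h1
      have h3 := hE0 s
      have h4 := hE0 s'
      have h5 := sq_nonneg (s (2 ^ (L + 1)) - s 0)
      nlinarith [mul_nonneg hL0 h4, mul_nonneg hL0 h5, mul_nonneg hL0 h3]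
    · obtain ⟨u, hu⟩ : ∃ u, t = 2 ^ L + u := ⟨t - 2 ^ L, by omega⟩
      have hu2 : u ≤ 2 ^ L := by
        rw [hu, pow_succ] at ht
        omega
      have h1 := ih s' u hu2
      have h2 : ∑ l ∈ range (L + 1), ∑ i ∈ range (2 ^ (L - l)), (s' ((i + 1) * 2 ^ l) - s' (i * 2 ^ l)) ^ 2 = E s' := by rw [hE]
      rw [h2] at h1
      have h3 : s t - s 0 = (s (2 ^ L) - s 0) + (s' u - s' 0) := by
        rw [hs', hu]
        simp only [add_zero]
        ring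
      rw [h3]
      obtain ⟨a, ha⟩ : ∃ a, a = s (2 ^ L) - s 0 := ⟨_, rfl⟩
      obtain ⟨c, hc⟩ : ∃ c, c = s' u - s' 0 := ⟨_, rfl⟩
      rw [← ha, ← hc]
      rw [← ha] at htop
      rw [← hc] at h1
      have hL1 : (0 : ℝ) < L + 1 := by linarith
      have h4 : (a + c) ^ 2 ≤ (L + 1 + 1) * a ^ 2 + (L + 1 + 1) / (L + 1) * c ^ 2 := by
        have h5 : (L + 1 + 1) * a ^ 2 + (L + 1 + 1) / (L + 1) * c ^ 2 - (a + c) ^ 2 = ((L + 1) * a - c) ^ 2 / (L + 1) := by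
          field_simp
          ring
        have h6 : 0 ≤ ((L + 1) * a - c) ^ 2 / (L + 1) := by positivity
        linarith
      have h5 : (L + 1 + 1) / (L + 1) * c ^ 2 ≤ (L + 1 + 1) * E s' := by
        calc (L + 1 + 1) / (L + 1) * c ^ 2 ≤ (L + 1 + 1) / (L + 1) * ((L + 1) * E s') :=
              mul_le_mul_of_nonneg_left h1 (by positivity)
          _ = _ := by field_simp
      have h6 : (L + 1 + 1) * a ^ 2 ≤ (L + 1 + 1) * E s := mul_le_mul_of_nonneg_left htop (by positivity)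
      have h7 : 0 ≤ (L + 1 + 1) * (s (2 ^ (L + 1)) - s 0) ^ 2 := by positivity
      calc (a + c) ^ 2 ≤ (L + 1 + 1) * E s + (L + 1 + 1) * E s' := by linarith
        _ ≤ (L + 1 + 1) * (E s + E s' + (s (2 ^ (L + 1)) - s 0) ^ 2) := by linarith

/-- the increment of a function of two variables over a dyadic cell -/
def cell (s : ℕ → ℕ → ℝ) (l m i j : ℕ) : ℝ :=
  (s ((i + 1) * 2 ^ l) ((j + 1) * 2 ^ m) - s (i * 2 ^ l) ((j + 1) * 2 ^ m)) -
    (s ((i + 1) * 2 ^ l) (j * 2 ^ m) - s (i * 2 ^ l) (j * 2 ^ m))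

theorem chain2 (L M : ℕ) (s : ℕ → ℕ → ℝ) (h1 : ∀ u, s 0 u = 0) (h2 : ∀ t, s t 0 = 0) (t u : ℕ) (ht : t ≤ 2 ^ L)
    (hu : u ≤ 2 ^ M) : (s t u) ^ 2 ≤ (L + 1) * (M + 1) * ∑ l ∈ range (L + 1), ∑ m ∈ range (M + 1),
      ∑ z ∈ range (2 ^ (L - l)) ×ˢ range (2 ^ (M - m)), (cell s l m z.1 z.2) ^ 2 := by
  have h3 : (s t u - s 0 u) ^ 2 ≤ (L + 1) * ∑ l ∈ range (L + 1), ∑ i ∈ range (2 ^ (L - l)),
      (s ((i + 1) * 2 ^ l) u - s (i * 2 ^ l) u) ^ 2 := chain L (fun t => s t u) t ht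
  rw [h1, sub_zero] at h3
  refine h3.trans ?_
  rw [mul_assoc]
  apply mul_le_mul_of_nonneg_left _ (by positivity)
  rw [mul_sum]
  apply sum_le_sum
  intro l _
  have e1 : ∑ m ∈ range (M + 1), ∑ z ∈ range (2 ^ (L - l)) ×ˢ range (2 ^ (M - m)), (cell s l m z.1 z.2) ^ 2 =
      ∑ i ∈ range (2 ^ (L - l)), ∑ m ∈ range (M + 1), ∑ j ∈ range (2 ^ (M - m)), (cell s l m i j) ^ 2 := by
    rw [sum_comm]
    apply sum_congr rfl
    intro m _
    rw [sum_product]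
  rw [e1, mul_sum]
  apply sum_le_sum
  intro i _
  have h4 : ((s ((i + 1) * 2 ^ l) u - s (i * 2 ^ l) u) - (s ((i + 1) * 2 ^ l) 0 - s (i * 2 ^ l) 0)) ^ 2 ≤
      (M + 1) * ∑ m ∈ range (M + 1), ∑ j ∈ range (2 ^ (M - m)), (cell s l m i j) ^ 2 :=
    chain M (fun u => s ((i + 1) * 2 ^ l) u - s (i * 2 ^ l) u) u hu
  rw [h2, h2, sub_zero, sub_zero] at h4
  exact h4

/-- the counting functions: primes up to `t` with rank below `u` -/
def hh (r : ℕ → ℤ → ℕ) (t u p : ℕ) (n : ℤ) : ℝ := if p ≤ t ∧ r p n < u then 1 else 0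

/-- the cells -/
def cf (r : ℕ → ℤ → ℕ) (l m : ℕ) (z : ℕ × ℕ) (p : ℕ) (n : ℤ) : ℝ :=
  if (z.1 * 2 ^ l < p ∧ p ≤ (z.1 + 1) * 2 ^ l) ∧ (z.2 * 2 ^ m ≤ r p n ∧ r p n < (z.2 + 1) * 2 ^ m) then 1 else 0

lemma cf_eq (r : ℕ → ℤ → ℕ) (l m : ℕ) (z : ℕ × ℕ) (p : ℕ) (n : ℤ) : cf r l m z p n =
    (hh r ((z.1 + 1) * 2 ^ l) ((z.2 + 1) * 2 ^ m) p n - hh r (z.1 * 2 ^ l) ((z.2 + 1) * 2 ^ m) p n) -
    (hh r ((z.1 + 1) * 2 ^ l) (z.2 * 2 ^ m) p n - hh r (z.1 * 2 ^ l) (z.2 * 2 ^ m) p n) := by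
  unfold cf hh
  have h1 : z.1 * 2 ^ l ≤ (z.1 + 1) * 2 ^ l := Nat.mul_le_mul_right _ (by omega)
  have h2 : z.2 * 2 ^ m ≤ (z.2 + 1) * 2 ^ m := Nat.mul_le_mul_right _ (by omega)
  generalize z.1 * 2 ^ l = a at *
  generalize (z.1 + 1) * 2 ^ l = a' at *
  generalize z.2 * 2 ^ m = c at *
  generalize (z.2 + 1) * 2 ^ m = c' at *
  by_cases k1 : p ≤ a
  · have k1' : p ≤ a' := by omega
    have k2 : ¬ a < p := by omega
    by_cases k3 : r p n < c
    · have k3' : r p n < c' := by omega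
      simp [k1, k1', k2, k3, k3']
    · by_cases k4 : r p n < c' <;> simp [k1, k1', k2, k3, k4]
  · have k2 : a < p := by omega
    by_cases k5 : p ≤ a'
    · by_cases k3 : r p n < c
      · have k3' : r p n < c' := by omega
        have k6 : ¬ c ≤ r p n := by omega
        simp [k1, k2, k5, k3, k3', k6]
      · have k6 : c ≤ r p n := by omega
        by_cases k4 : r p n < c' <;> simp [k1, k2, k5, k3, k4, k6]
    · simp [k1, k2, k5]

lemma mean_four (p : ℕ) (f1 f2 f3 f4 g : ℤ → ℝ) (h : ∀ n, g n = (f1 n - f2 n) - (f3 n - f4 n)) :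
    mean p g = (mean p f1 - mean p f2) - (mean p f3 - mean p f4) := by
  unfold mean
  have e : ∑ t ∈ range p, g (t : ℤ) = ∑ t ∈ range p, ((f1 (t : ℤ) - f2 (t : ℤ)) - (f3 (t : ℤ) - f4 (t : ℤ))) :=
    sum_congr rfl fun t _ => h (t : ℤ)
  rw [e, sum_sub_distrib, sum_sub_distrib, sum_sub_distrib]
  ring

/-- the deviation -/
noncomputable def ss (r : ℕ → ℤ → ℕ) (P : Finset ℕ) (n : ℤ) (t u : ℕ) : ℝ :=
  ∑ p ∈ P, (hh r t u p n - mean p (hh r t u p))

lemma cell_ss (r : ℕ → ℤ → ℕ) (P : Finset ℕ) (n : ℤ) (l m : ℕ) (z : ℕ × ℕ) :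
    cell (ss r P n) l m z.1 z.2 = ∑ p ∈ P, (cf r l m z p n - mean p (cf r l m z p)) := by
  unfold cell ss
  rw [← sum_sub_distrib, ← sum_sub_distrib, ← sum_sub_distrib]
  apply sum_congr rfl
  intro p _
  rw [cf_eq, mean_four p _ _ _ _ _ (fun n => cf_eq r l m z p n)]
  ring

lemma cf_sum (r : ℕ → ℤ → ℕ) (l m : ℕ) (J : Finset (ℕ × ℕ)) (p : ℕ) (n : ℤ) : ∑ z ∈ J, (cf r l m z p n) ^ 2 ≤ 1 := by
  classical
  have h1 : ∀ z ∈ J, (cf r l m z p n) ^ 2 ≤ if ((p - 1) / 2 ^ l, r p n / 2 ^ m) = z then (1 : ℝ) else 0 := by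
    intro z _
    unfold cf
    by_cases h : (z.1 * 2 ^ l < p ∧ p ≤ (z.1 + 1) * 2 ^ l) ∧ (z.2 * 2 ^ m ≤ r p n ∧ r p n < (z.2 + 1) * 2 ^ m)
    · rw [if_pos h, if_pos]
      · norm_num
      · have e1 : (p - 1) / 2 ^ l = z.1 := by
          apply Nat.div_eq_of_lt_le
          · omega
          · omega
        have e2 : r p n / 2 ^ m = z.2 := by
          apply Nat.div_eq_of_lt_le
          · exact h.2.1
          · exact h.2.2
        exact Prod.ext e1 e2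
    · rw [if_neg h]
      split_ifs <;> norm_num
  refine (sum_le_sum h1).trans ?_
  rw [sum_ite_eq]
  split_ifs <;> norm_num

/-- the mean square of the maximal deviation -/
theorem sup_ms (b : ℕ) (hb : 2 ≤ b) (A : ℕ) (γ : ℝ) (hγ0 : 0 < γ) (hγ1 : γ < 1) : ∃ W : ℕ, 1 ≤ W ∧
    ∀ (F : ℕ) (κ : ℤ), 1 ≤ F → κ ≠ 0 → ∃ C : ℝ, 0 < C ∧ ∀ (k L : ℕ), b ≤ 2 ^ L → (2 ^ L) ^ W ≤ b ^ k →
    ∀ (ι : Type) (Ω : Finset ι) (w : ι → ℝ) (v : ι → ℤ), Decays b F A k γ κ Ω w v →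
    ∀ P : Finset ℕ, (∀ p ∈ P, p.Prime ∧ p ≤ 2 ^ L ∧ ¬ p ∣ b) → ∀ r : ℕ → ℤ → ℕ,
      (∀ p ∈ P, ∀ m n : ℤ, (p : ℤ) ∣ m - n → r p m = r p n) →
      ∃ Q : ι → ℝ, (∀ i ∈ Ω, 0 ≤ Q i) ∧ ∑ i ∈ Ω, w i * Q i ≤ C * (L + 1) ^ 4 * 2 ^ L ∧
        ∀ i ∈ Ω, ∀ t u : ℕ, t ≤ 2 ^ L → u ≤ 2 ^ (2 * L) → (ss r P (v i) t u) ^ 2 ≤ Q i := by
  classical
  obtain ⟨W, hW, H⟩ := vms b hb A γ hγ0 hγ1 2 7 (by norm_num) (by norm_num)
  refine ⟨W, hW, fun F κ hF hκ => ?_⟩
  obtain ⟨C, hC, hmain⟩ := H F κ hF hκ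
  refine ⟨4 * (5 + C), by positivity, fun k L hbL hxW ι Ω w v hdec P hP r hr => ?_⟩
  obtain ⟨J, hJ⟩ : ∃ J : ℕ → ℕ → Finset (ℕ × ℕ), J = fun l m => range (2 ^ (L - l)) ×ˢ range (2 ^ (2 * L - m)) := ⟨_, rfl⟩
  have hLr : (0 : ℝ) ≤ L := Nat.cast_nonneg _
  have hlev : ∀ l m, ∑ z ∈ J l m, ∑ i ∈ Ω, w i * (∑ p ∈ P, (cf r l m z p (v i) - mean p (cf r l m z p))) ^ 2 ≤ (5 + C) * 2 ^ L := by
    intro l m
    have h1 := hmain k (2 ^ L) hbL hxW ι Ω w v hdec P hP (J l m) (cf r l m) (fun p _ n => cf_sum r l m (J l m) p n) (by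
      intro z _ p hp m' n' hmn
      unfold cf
      rw [hr p hp m' n' hmn])
    refine h1.trans ?_
    have hPc : (P.card : ℝ) ≤ 2 ^ L := by
      have h1 : P ⊆ Icc 1 (2 ^ L) := by
        intro p hp
        rw [mem_Icc]
        exact ⟨(hP p hp).1.one_le, (hP p hp).2.1⟩
      have h2 := card_le_card h1
      rw [Nat.card_Icc, Nat.add_sub_cancel] at h2
      exact_mod_cast h2
    have e1 : ((2 ^ L : ℕ) : ℝ) ^ (2 / ((2 : ℕ) : ℝ)) = 2 ^ L := by
      rw [show (2 : ℝ) / ((2 : ℕ) : ℝ) = 1 by norm_num, Real.rpow_one]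
      push_cast
      rfl
    have e2 : ((J l m).card : ℝ) * ((2 ^ L : ℕ) : ℝ) ^ 4 / ((2 ^ L : ℕ) : ℝ) ^ 7 ≤ 2 ^ L := by
      have h3 : ((J l m).card : ℝ) ≤ 2 ^ (3 * L) := by
        rw [hJ]
        simp only
        rw [card_product, card_range, card_range, ← pow_add]
        push_cast
        exact pow_le_pow_right₀ (by norm_num) (by omega)
      rw [div_le_iff₀ (by positivity)]
      push_cast
      calc ((J l m).card : ℝ) * (2 ^ L) ^ 4 ≤ 2 ^ (3 * L) * (2 ^ L) ^ 4 := mul_le_mul_of_nonneg_right h3 (by positivity)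
        _ = (2 ^ L) ^ 7 := by rw [← pow_mul, ← pow_mul, ← pow_add]; congr 1; ring
        _ ≤ 2 ^ L * (2 ^ L) ^ 7 := le_mul_of_one_le_left (by positivity) (one_le_pow₀ (by norm_num))
    rw [e1]
    linarith
  refine ⟨fun i => (L + 1) * (2 * L + 1) * ∑ l ∈ range (L + 1), ∑ m ∈ range (2 * L + 1), ∑ z ∈ J l m,
    (∑ p ∈ P, (cf r l m z p (v i) - mean p (cf r l m z p))) ^ 2, ?_, ?_, ?_⟩
  · intro i _
    have : 0 ≤ ∑ l ∈ range (L + 1), ∑ m ∈ range (2 * L + 1), ∑ z ∈ J l m,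
        (∑ p ∈ P, (cf r l m z p (v i) - mean p (cf r l m z p))) ^ 2 :=
      sum_nonneg fun l _ => sum_nonneg fun m _ => sum_nonneg fun z _ => sq_nonneg _
    positivity
  · have e1 : ∑ i ∈ Ω, w i * ((L + 1) * (2 * L + 1) * ∑ l ∈ range (L + 1), ∑ m ∈ range (2 * L + 1), ∑ z ∈ J l m,
        (∑ p ∈ P, (cf r l m z p (v i) - mean p (cf r l m z p))) ^ 2) =
        (L + 1) * (2 * L + 1) * ∑ l ∈ range (L + 1), ∑ m ∈ range (2 * L + 1), ∑ z ∈ J l m,
          ∑ i ∈ Ω, w i * (∑ p ∈ P, (cf r l m z p (v i) - mean p (cf r l m z p))) ^ 2 := by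
      have e2 : ∀ i ∈ Ω, w i * ((L + 1) * (2 * L + 1) * ∑ l ∈ range (L + 1), ∑ m ∈ range (2 * L + 1), ∑ z ∈ J l m,
          (∑ p ∈ P, (cf r l m z p (v i) - mean p (cf r l m z p))) ^ 2) =
          (L + 1) * (2 * L + 1) * ∑ l ∈ range (L + 1), ∑ m ∈ range (2 * L + 1), ∑ z ∈ J l m,
          w i * (∑ p ∈ P, (cf r l m z p (v i) - mean p (cf r l m z p))) ^ 2 := by
        intro i _
        rw [mul_left_comm]
        congr 1
        rw [mul_sum]
        apply sum_congr rfl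
        intro l _
        rw [mul_sum]
        apply sum_congr rfl
        intro m _
        rw [mul_sum]
      rw [sum_congr rfl e2, ← mul_sum]
      congr 1
      rw [sum_comm]
      apply sum_congr rfl
      intro l _
      rw [sum_comm]
      apply sum_congr rfl
      intro m _
      rw [sum_comm]
    rw [e1]
    have h2 : ∑ l ∈ range (L + 1), ∑ m ∈ range (2 * L + 1), ∑ z ∈ J l m,
          ∑ i ∈ Ω, w i * (∑ p ∈ P, (cf r l m z p (v i) - mean p (cf r l m z p))) ^ 2 ≤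
          (L + 1) * ((2 * L + 1) * ((5 + C) * 2 ^ L)) := by
      have h3 : ∀ l ∈ range (L + 1), ∑ m ∈ range (2 * L + 1), ∑ z ∈ J l m,
          ∑ i ∈ Ω, w i * (∑ p ∈ P, (cf r l m z p (v i) - mean p (cf r l m z p))) ^ 2 ≤ (2 * L + 1) * ((5 + C) * 2 ^ L) := by
        intro l _
        refine (sum_le_card_nsmul _ _ _ fun m _ => hlev l m).trans ?_
        rw [card_range, nsmul_eq_mul]
        push_cast
        exact le_refl _
      refine (sum_le_card_nsmul _ _ _ h3).trans ?_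
      rw [card_range, nsmul_eq_mul]
      push_cast
      exact le_refl _
    calc _ ≤ ((L : ℝ) + 1) * (2 * L + 1) * ((L + 1) * ((2 * L + 1) * ((5 + C) * 2 ^ L))) :=
          mul_le_mul_of_nonneg_left h2 (by positivity)
      _ = (((L : ℝ) + 1) ^ 2 * (2 * L + 1) ^ 2) * ((5 + C) * 2 ^ L) := by ring
      _ ≤ (((L : ℝ) + 1) ^ 2 * (2 * (L + 1)) ^ 2) * ((5 + C) * 2 ^ L) := by
          apply mul_le_mul_of_nonneg_right _ (by positivity)
          apply mul_le_mul_of_nonneg_left _ (by positivity)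
          exact pow_le_pow_left₀ (by positivity) (by linarith) 2
      _ = _ := by ring
  · intro i _ t u ht hu
    have h1 := chain2 L (2 * L) (ss r P (v i)) (by
      intro u
      unfold ss
      apply sum_eq_zero
      intro p hp
      have hp1 := (hP p hp).1.pos
      have e : ∀ n, hh r 0 u p n = 0 := by
        intro n
        unfold hh
        rw [if_neg (by omega)]
      unfold mean
      rw [e]
      simp [e]) (by
      intro t
      unfold ss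
      apply sum_eq_zero
      intro p hp
      have e : ∀ n, hh r t 0 p n = 0 := by
        intro n
        unfold hh
        rw [if_neg (by omega)]
      unfold mean
      rw [e]
      simp [e]) t u ht hu
    refine h1.trans (le_of_eq ?_)
    push_cast
    congr 1
    apply sum_congr rfl
    intro l _
    apply sum_congr rfl
    intro m _
    rw [hJ]
    apply sum_congr rfl
    intro z _
    rw [cell_ss]

end Pool.Agent.R459.Eq
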