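import Mathlib

/-! Ideals of prime norm from simple roots modulo a prime. -/

set_option autoImplicit false

namespace Pool.Agent.R459.Tor
open Polynomial NumberField

/-- a ring homomorphism to the field with `p` elements gives an ideal of norm `p` -/
lemma norm_of_hom (K : Type) [Field K] [NumberField K] (p : ℕ) [Fact p.Prime] (θ : 𝓞 K →+* ZMod p) :
    ∃ P : Ideal (𝓞 K), Ideal.absNorm P = p := by
  refine ⟨RingHom.ker θ, ?_⟩
  have hs : Function.Surjective θ := ZMod.ringHom_surjective θ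
  rw [Ideal.absNorm_apply, Submodule.cardQuot_apply]
  have e := RingHom.quotientKerEquivOfSurjective hs
  rw [Nat.card_congr e.toEquiv, Nat.card_zmod]

/-- an embedding in the field of `p`-adic numbers gives an ideal of norm `p` -/
lemma norm_of_embed (K : Type) [Field K] [NumberField K] (p : ℕ) [Fact p.Prime] (ψ : K →+* ℚ_[p]) :
    ∃ P : Ideal (𝓞 K), Ideal.absNorm P = p := by
  have h : ∀ x : 𝓞 K, ∃ y : ℤ_[p], (y : ℚ_[p]) = ψ (x : K) := by
    intro x
    have h1 : IsIntegral ℤ (ψ (x : K)) := (x.2).map (ψ.toIntAlgHom)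
    have h2 : IsIntegral ℤ_[p] (ψ (x : K)) := h1.tower_top
    obtain ⟨y, hy⟩ := (IsIntegrallyClosed.isIntegral_iff (R := ℤ_[p]) (K := ℚ_[p])).1 h2
    exact ⟨y, hy⟩
  choose g hg using h
  have hinj : ∀ y z : ℤ_[p], (y : ℚ_[p]) = z → y = z := fun y z h => PadicInt.ext h
  let θ : 𝓞 K →+* ℤ_[p] :=
    { toFun := g
      map_one' := hinj _ _ (by rw [hg]; simp)
      map_mul' := fun x y => hinj _ _ (by rw [hg]; simp [hg])
      map_zero' := hinj _ _ (by rw [hg]; simp)
      map_add' := fun x y => hinj _ _ (by rw [hg]; simp [hg]) }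
  exact norm_of_hom K p (PadicInt.toZMod.comp θ)

theorem norm_of_root (K : Type) [Field K] [NumberField K] (F : ℤ[X]) (hF : F.Monic) (hF1 : 1 ≤ F.natDegree) (α : K)
    (t : ℤ) (hα : IntermediateField.adjoin ℚ {α} = ⊤) (hn : Module.finrank ℚ K = F.natDegree)
    (h : aeval α F = (t : K)) (p : ℕ) [hp : Fact p.Prime] (a : ℤ) (ha : (p : ℤ) ∣ F.eval a - t)
    (ha' : ¬ (p : ℤ) ∣ F.derivative.eval a) : ∃ P : Ideal (𝓞 K), Ideal.absNorm P = p := by
  obtain ⟨G, hG⟩ : ∃ G : ℤ[X], G = F - C t := ⟨_, rfl⟩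
  have hdeg : (C t : ℤ[X]).degree < F.degree := by
    refine lt_of_le_of_lt degree_C_le ?_
    rw [degree_eq_natDegree hF.ne_zero]
    exact_mod_cast hF1
  have hGm : G.Monic := by rw [hG]; exact hF.sub_of_left hdeg
  have hGd : G.natDegree = F.natDegree := by
    rw [hG]
    exact natDegree_sub_C
  have hG0 : aeval α G = 0 := by
    rw [hG, map_sub, h, aeval_C]
    simp
  have hint : IsIntegral ℚ α := Algebra.IsIntegral.isIntegral α
  have hmin : G.map (Int.castRingHom ℚ) = minpoly ℚ α := by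
    apply minpoly.unique_of_degree_le_degree_minpoly
    · exact hGm.map _
    · rw [← algebraMap_int_eq, aeval_map_algebraMap]
      exact hG0
    · rw [hGm.degree_map, degree_eq_natDegree hGm.ne_zero, degree_eq_natDegree (minpoly.ne_zero hint), hGd, ← hn]
      have h1 : Module.finrank ℚ (IntermediateField.adjoin ℚ {α}) = (minpoly ℚ α).natDegree :=
        IntermediateField.adjoin.finrank hint
      rw [← h1, hα, IntermediateField.finrank_top']
  have hnorm : ‖aeval (a : ℤ_[p]) G‖ < ‖aeval (a : ℤ_[p]) (derivative G)‖ ^ 2 := by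
    have e0 : ∀ H : ℤ[X], aeval (a : ℤ_[p]) H = ((H.eval a : ℤ) : ℤ_[p]) := by
      intro H
      have h1 : aeval (algebraMap ℤ ℤ_[p] a) H = algebraMap ℤ ℤ_[p] (aeval a H) := aeval_algebraMap_apply _ _ _
      rw [coe_aeval_eq_eval] at h1
      exact h1
    rw [e0, e0]
    have h1 : ‖((G.eval a : ℤ) : ℤ_[p])‖ < 1 := by
      rw [PadicInt.norm_int_lt_one_iff_dvd, hG, eval_sub, eval_C]
      exact ha
    have h2 : ‖(((derivative G).eval a : ℤ) : ℤ_[p])‖ = 1 := by
      apply le_antisymm (PadicInt.norm_le_one _)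
      by_contra hcon
      push Not at hcon
      rw [PadicInt.norm_int_lt_one_iff_dvd, hG, derivative_sub, derivative_C, sub_zero] at hcon
      exact ha' hcon
    rw [h2, one_pow]
    exact h1
  obtain ⟨z, hz, _⟩ := hensels_lemma hnorm
  have hpb : Algebra.adjoin ℚ {α} = ⊤ := by
    rw [← IntermediateField.adjoin_simple_toSubalgebra_of_isAlgebraic hint.isAlgebraic, hα,
      IntermediateField.top_toSubalgebra]
  let pb : PowerBasis ℚ K := PowerBasis.ofAdjoinEqTop hint hpb
  have hgen : pb.gen = α := PowerBasis.ofAdjoinEqTop_gen hint hpb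
  have hroot : aeval (z : ℚ_[p]) (minpoly ℚ pb.gen) = 0 := by
    rw [hgen, ← hmin, ← algebraMap_int_eq, aeval_map_algebraMap]
    have h1 : aeval (algebraMap ℤ_[p] ℚ_[p] z) G = algebraMap ℤ_[p] ℚ_[p] (aeval z G) := aeval_algebraMap_apply _ _ _
    rw [hz, map_zero] at h1
    exact h1
  exact norm_of_embed K p (pb.lift (z : ℚ_[p]) hroot).toRingHom

end Pool.Agent.R459.Tor
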