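import Pool.Agent.R459.Eq11
import Pool.Agent.R459.Eq6

/-! The distribution of the values of local functions at the primes, for almost all members of the digit families. -/

set_option autoImplicit false

namespace Pool.Agent.R459.Eq
open Finset
open Pool.Agent.H807R2.Dav

/-- all thresholds and all ranges, for almost all members of the families -/
theorem ang_almost (b : ℕ) (hb : 2 ≤ b) (η : ℝ) (hη : 0 < η) : ∃ W : ℕ, 1 ≤ W ∧ ∀ κ : ℤ, κ ≠ 0 →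
    ∀ δ : ℝ, 0 < δ → δ ≤ 1 / 2 → ∃ X₀ : ℕ, ∀ X : ℕ, X₀ ≤ X → ∀ k : ℕ, 2 ≤ k → ∀ c : ℤ, ∀ a : ℕ → ℤ → ℝ, Sys a →
    Almost b k κ c η ((X : ℝ) ^ (-δ)) (fun n => ∀ x : ℕ, X ≤ x → x ^ W ≤ b ^ k → ∀ u : ℝ,
      |(cntA a n x u : ℝ) - ∑ p ∈ pri x, prp a p u| ≤ (x : ℝ) ^ (1 / 2 + δ)) := by
  classical
  obtain ⟨A₁, A₂, γ₁, γ₂, h1, h2, h3, h4, H⟩ := almost_of b hb η hη
  obtain ⟨W₁, hW₁, K₁⟩ := ang_all b hb A₁ γ₁ h1 h2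
  obtain ⟨W₂, hW₂, K₂⟩ := ang_all b hb A₂ γ₂ h3 h4
  obtain ⟨W, hW⟩ : ∃ W, W = max W₁ W₂ := ⟨_, rfl⟩
  have hWW₁ : W₁ ≤ W := by rw [hW]; exact le_max_left _ _
  have hWW₂ : W₂ ≤ W := by rw [hW]; exact le_max_right _ _
  refine ⟨W, hW₁.trans hWW₁, fun κ hκ δ hδ hδ1 => ?_⟩
  obtain ⟨X₁, J₁⟩ := K₁ (Pool.Agent.TH872.An.GG b) κ (Pool.Agent.TH872.An.GG_pos b hb) hκ δ hδ hδ1
  obtain ⟨X₂, J₂⟩ := K₂ (b ^ 4).factorial κ (Nat.factorial_pos _) hκ δ hδ hδ1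
  refine ⟨X₁ + X₂ + 1, fun X hX k hk c a ha => ?_⟩
  refine H k hk κ c _ _ (by positivity) fun F₀ A' γ hFA ι Ω w v hdec E hE hbad => ?_
  have hbad' : ∀ W' ≤ W, ∀ i ∈ E, ∃ (x : ℕ) (u : ℝ), X ≤ x ∧ x ^ W' ≤ b ^ k ∧
        (x : ℝ) ^ (1 / 2 + δ) < |(cntA a (v i) x u : ℝ) - ∑ p ∈ pri x, prp a p u| := by
    intro W' hW' i hi
    have h5 := hbad i hi
    push Not at h5
    obtain ⟨x, hXx, hxW, u, hu⟩ := h5
    exact ⟨x, u, hXx, (Nat.pow_le_pow_right (by omega) hW').trans hxW, hu⟩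
  rcases hFA with h | h
  · simp only [Prod.mk.injEq] at h
    obtain ⟨rfl, rfl, rfl⟩ := h
    exact J₁ X (by omega) k ι Ω w v hdec a ha E hE (hbad' _ hWW₁)
  · simp only [Prod.mk.injEq] at h
    obtain ⟨rfl, rfl, rfl⟩ := h
    exact J₂ X (by omega) k ι Ω w v hdec a ha E hE (hbad' _ hWW₂)

end Pool.Agent.R459.Eq
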