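import Pool.Agent.R459.Bx2
import Pool.Agent.R459.Eq12
import Pool.Agent.TH869.SQ.Cs

/-! All boxes with real sides, functions at consecutive primes, all scales. -/

set_option autoImplicit false

namespace Pool.Agent.R459.Bx
open Finset Pool.Agent.R459.Eq
open Pool.Agent.H807R2.Dav
open Pool.Agent.TH869.SQ (pr pr_prime pr_inj qs qs_le qs_coprime)

open Classical in
/-- the indicator of a box with real sides -/
noncomputable def ib {d : ℕ} (u y : Fin d → ℝ) : ℝ := if ∀ j, y j < u j then 1 else 0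

/-- one scale, one set of moduli -/
theorem scaleB (b : ℕ) (hb : 2 ≤ b) (A : ℕ) (γ : ℝ) (hγ0 : 0 < γ) (hγ1 : γ < 1) (e d : ℕ) (he : 1 ≤ e) : ∃ W : ℕ, 1 ≤ W ∧
    ∀ (F : ℕ) (κ : ℤ), 1 ≤ F → κ ≠ 0 → ∃ C : ℝ, 0 < C ∧ ∀ (k L : ℕ), b ≤ 2 ^ L → (2 ^ L) ^ W ≤ b ^ k →
    ∀ (ι : Type) (Ω : Finset ι) (w : ι → ℝ) (v : ι → ℤ), Decays b F A k γ κ Ω w v →
    ∀ (P : Finset ℕ) (q : ℕ → ℕ), P.card ≤ 2 ^ L → (∀ k ∈ P, 1 ≤ q k ∧ q k ≤ (2 ^ L) ^ e ∧ Nat.Coprime b (q k)) →
      (∀ k ∈ P, ∀ l ∈ P, k ≠ l → Nat.Coprime (q k) (q l)) → ∀ g : ℕ → ℤ → Fin d → ℝ,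
      (∀ k ∈ P, ∀ m n : ℤ, (q k : ℤ) ∣ m - n → g k m = g k n) → ∀ (T : ℝ), 0 < T → ∀ E : Finset ι, E ⊆ Ω →
      (∀ i ∈ E, ∃ u : Fin d → ℝ, T < |∑ k ∈ P, (ib u (g k (v i)) - mean (q k) (fun m => ib u (g k m)))|) →
      ∑ i ∈ E, w i ≤ C * ((L : ℝ) + 1) ^ (2 * d) * 2 ^ L / T ^ 2 := by
  classical
  obtain ⟨c, hc⟩ : ∃ c, c = e + 1 + d := ⟨_, rfl⟩
  obtain ⟨W, hW, H⟩ := supB b hb A γ hγ0 hγ1 e d c he
  refine ⟨W, hW, fun F κ hF hκ => ?_⟩
  obtain ⟨C, hC, hmain⟩ := H F κ hF hκ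
  refine ⟨C * (c : ℝ) ^ (2 * d), by rw [hc]; positivity, fun k L hbL hxW ι Ω w v hdec P q hP hq hcop g hg T hT E hE hbad => ?_⟩
  have hL1 : 1 ≤ L := by
    rcases Nat.eq_zero_or_pos L with h | h
    · rw [h, pow_zero] at hbL
      omega
    · exact h
  obtain ⟨V, hV⟩ : ∃ V : Finset ℝ, V = ((P ×ˢ range ((2 ^ L) ^ e)) ×ˢ (univ : Finset (Fin d))).image (fun z => g z.1.1 (z.1.2 : ℤ) z.2) := ⟨_, rfl⟩
  have hVc : V.card < 2 ^ (c * L) := by
    have h1 : V.card ≤ 2 ^ L * (2 ^ L) ^ e * d := by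
      rw [hV]
      refine card_image_le.trans ?_
      rw [card_product, card_product, card_range, card_univ, Fintype.card_fin]
      exact Nat.mul_le_mul_right _ (Nat.mul_le_mul_right _ hP)
    have h2 : d < 2 ^ (d * L) := by
      calc d < 2 ^ d := Nat.lt_two_pow_self
        _ ≤ 2 ^ (d * L) := Nat.pow_le_pow_right (by norm_num) (Nat.le_mul_of_pos_right _ hL1)
    have h3 : 2 ^ (c * L) = 2 ^ L * (2 ^ L) ^ e * 2 ^ (d * L) := by
      rw [← pow_mul, ← pow_add, ← pow_add, hc]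
      congr 1
      ring
    rw [h3]
    exact lt_of_le_of_lt h1 (Nat.mul_lt_mul_of_pos_left h2 (by positivity))
  have hVm : ∀ p ∈ P, ∀ n : ℤ, ∀ j, g p n j ∈ V := by
    intro p hp n j
    rw [hV, mem_image]
    have hp1 := (hq p hp).1
    have hp0 : (0 : ℤ) < q p := by exact_mod_cast hp1
    refine ⟨((p, (n % q p).toNat), j), ?_, ?_⟩
    · rw [mem_product, mem_product, mem_range]
      refine ⟨⟨hp, ?_⟩, mem_univ _⟩
      have h1 := Int.emod_lt_of_pos n hp0
      have h2 := Int.emod_nonneg n hp0.ne'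
      have h3 := (hq p hp).2.1
      simp only
      zify
      rw [Int.toNat_of_nonneg h2]
      have : (q p : ℤ) ≤ (2 ^ L) ^ e := by exact_mod_cast h3
      linarith
    · simp only
      have h2 := Int.emod_nonneg n hp0.ne'
      rw [Int.toNat_of_nonneg h2]
      rw [hg p hp (n % q p) n]
      rw [Int.emod_def]
      exact ⟨-(n / q p), by ring⟩
  obtain ⟨rk, hrk⟩ : ∃ rk : ℝ → ℕ, rk = fun u => (V.filter (fun y => y < u)).card := ⟨_, rfl⟩
  have hrk1 : ∀ u, rk u < 2 ^ (c * L) := by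
    intro u
    rw [hrk]
    exact lt_of_le_of_lt (card_filter_le _ _) hVc
  have hrk2 : ∀ y ∈ V, ∀ u : ℝ, (rk y < rk u ↔ y < u) := by
    intro y hy u
    rw [hrk]
    simp only
    constructor
    · intro h
      by_contra hcon
      push Not at hcon
      have : (V.filter (fun z => z < u)).card ≤ (V.filter (fun z => z < y)).card := by
        apply card_le_card
        intro z hz
        rw [mem_filter] at hz ⊢
        exact ⟨hz.1, by linarith [hz.2]⟩
      omega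
    · intro h
      apply card_lt_card
      rw [Finset.ssubset_iff_of_subset]
      · exact ⟨y, by rw [mem_filter]; exact ⟨hy, h⟩, by rw [mem_filter]; simp⟩
      · intro z hz
        rw [mem_filter] at hz ⊢
        exact ⟨hz.1, by linarith [hz.2]⟩
  obtain ⟨Q, hQ0, hQ1, hQ2⟩ := hmain k L hbL hxW ι Ω w v hdec P q hP hq hcop (fun p n j => rk (g p n j)) (by
    intro p hp m n hmn
    rw [hg p hp m n hmn])
  -- the deviation
  have hdev : ∀ (n : ℤ) (u : Fin d → ℝ), ∑ k ∈ P, (ib u (g k n) - mean (q k) (fun m => ib u (g k m))) =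
      sb P q (fun p n j => rk (g p n j)) n (fun j => rk (u j)) := by
    intro n u
    unfold sb
    apply sum_congr rfl
    intro p hp
    have e1 : ∀ n, ib u (g p n) = bx (fun j => rk (u j)) (fun j => rk (g p n j)) := by
      intro n
      unfold ib bx
      by_cases h : ∀ j, g p n j < u j
      · rw [if_pos h, if_pos (fun j => (hrk2 _ (hVm p hp n j) (u j)).2 (h j))]
      · rw [if_neg h, if_neg (fun h' => h (fun j => (hrk2 _ (hVm p hp n j) (u j)).1 (h' j)))]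
    rw [e1 n]
    congr 2
    funext m
    exact e1 m
  have hET : ∀ i ∈ E, T ^ 2 ≤ Q i := by
    intro i hi
    obtain ⟨u, hTx⟩ := hbad i hi
    rw [hdev (v i) u] at hTx
    have h1 := hQ2 i (hE hi) (fun j => rk (u j)) (fun j => hrk1 _)
    refine le_trans ?_ h1
    rw [← sq_abs (sb _ _ _ _ _)]
    exact pow_le_pow_left₀ hT.le hTx.le 2
  have h1 : (∑ i ∈ E, w i) * T ^ 2 ≤ C * ((c * L : ℕ) : ℝ) ^ (2 * d) * 2 ^ L := by
    rw [sum_mul]
    calc ∑ i ∈ E, w i * T ^ 2 ≤ ∑ i ∈ E, w i * Q i :=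
          sum_le_sum fun i hi => mul_le_mul_of_nonneg_left (hET i hi) (hdec.nonneg i (hE hi))
      _ ≤ ∑ i ∈ Ω, w i * Q i := sum_le_sum_of_subset_of_nonneg hE fun i hi _ => mul_nonneg (hdec.nonneg i hi) (hQ0 i hi)
      _ ≤ _ := hQ1
  rw [le_div_iff₀ (by positivity)]
  refine h1.trans ?_
  push_cast
  rw [mul_pow, ← mul_assoc]
  apply mul_le_mul_of_nonneg_right _ (by positivity)
  apply mul_le_mul_of_nonneg_left _ (by positivity)
  exact pow_le_pow_left₀ (Nat.cast_nonneg _) (by linarith) _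

/-- the number of the `k < K` with values in a box minus the expected number -/
noncomputable def devB {d : ℕ} (s : ℕ) (g : ℕ → ℤ → Fin d → ℝ) (n : ℤ) (K : ℕ) (u : Fin d → ℝ) : ℝ :=
  ∑ k ∈ range K, (ib u (g k n) - mean (qs s k) (fun m => ib u (g k m)))

lemma ib_mem {d : ℕ} (u y : Fin d → ℝ) : 0 ≤ ib u y ∧ ib u y ≤ 1 := by
  unfold ib
  split_ifs <;> norm_num

/-- all scales and all boxes -/
theorem allB (b : ℕ) (hb : 2 ≤ b) (A : ℕ) (γ : ℝ) (hγ0 : 0 < γ) (hγ1 : γ < 1) (s d : ℕ) (hs : 1 ≤ s) : ∃ W : ℕ, 1 ≤ W ∧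
    ∀ (F : ℕ) (κ : ℤ), 1 ≤ F → κ ≠ 0 → ∀ δ : ℝ, 0 < δ → δ ≤ 1 / 2 → ∃ X₀ : ℕ, ∀ X : ℕ, X₀ ≤ X → ∀ k : ℕ,
    ∀ (ι : Type) (Ω : Finset ι) (w : ι → ℝ) (v : ι → ℤ), Decays b F A k γ κ Ω w v →
    ∀ g : ℕ → ℤ → Fin d → ℝ, (∀ k : ℕ, ∀ m n : ℤ, (qs s k : ℤ) ∣ m - n → g k m = g k n) → ∀ E : Finset ι, E ⊆ Ω →
      (∀ i ∈ E, ∃ (K : ℕ) (u : Fin d → ℝ), X ≤ K ∧ K ^ W ≤ b ^ k ∧ (K : ℝ) ^ (1 / 2 + δ) < |devB s g (v i) K u|) →
      ∑ i ∈ E, w i ≤ (X : ℝ) ^ (-δ) := by
  classical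
  obtain ⟨e, he⟩ : ∃ e, e = 2 * s + 1 := ⟨_, rfl⟩
  obtain ⟨W, hW, H⟩ := scaleB b hb A γ hγ0 hγ1 e (d + 1) (by omega)
  refine ⟨2 * W, by omega, fun F κ hF hκ δ hδ hδ1 => ?_⟩
  obtain ⟨C, hC, hmain⟩ := H F κ hF hκ
  obtain ⟨r, hr⟩ : ∃ r : ℝ, r = (2 : ℝ) ^ (-δ) := ⟨_, rfl⟩
  have hr0 : 0 < r := by rw [hr]; positivity
  have hr1 : r < 1 := by
    rw [hr]
    exact Real.rpow_lt_one_of_one_lt_of_neg (by norm_num) (by linarith)
  have hsr : (0 : ℝ) < s := by exact_mod_cast (by omega : 0 < s)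
  obtain ⟨L₀, hL₀⟩ := tail_sum (s * (16 * s ^ 2 * C)) r (2 * (d + 1)) (by positivity) hr0 hr1
  -- the threshold
  obtain ⟨X₁, hX₁⟩ : ∃ X₁ : ℕ, ((4 : ℝ) * (s * b)) ^ 2 ≤ X₁ := exists_nat_ge _
  refine ⟨2 ^ L₀ + X₁ + b + 2 + (4 * s ^ 2) ^ s, fun X hX k ι Ω w v hdec g hg E hE hbad => ?_⟩
  obtain ⟨L₁, hL₁⟩ : ∃ L₁, L₁ = Nat.clog 2 X := ⟨_, rfl⟩
  have hXL₁ : X ≤ 2 ^ L₁ := by rw [hL₁]; exact Nat.le_pow_clog (by norm_num) X
  have hL₀₁ : L₀ ≤ L₁ := by
    have : 2 ^ L₀ ≤ 2 ^ L₁ := by omega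
    exact (Nat.pow_le_pow_iff_right (by norm_num)).1 this
  have hpo : 1 ≤ 2 ^ L₀ := Nat.one_le_two_pow
  have hXr : (0 : ℝ) < X := by exact_mod_cast (by omega : 0 < X)
  obtain ⟨y, hy⟩ : ∃ y : ℕ → ℝ, y = fun L => ((2 : ℝ) ^ L) ^ (1 / 2 + δ) := ⟨_, rfl⟩
  have hy0 : ∀ L, 0 < y L := by intro L; rw [hy]; positivity
  obtain ⟨Q, hQ⟩ : ∃ Q : Finset ℕ, Q = (range (b * k + 1)).filter (fun L => L₁ ≤ L ∧ b ≤ 2 ^ L ∧ (2 ^ L) ^ W ≤ b ^ k) := ⟨_, rfl⟩
  -- the sets of blocks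
  obtain ⟨P, hP⟩ : ∃ P : ℕ → ℕ → Finset ℕ, P = fun L t => (range (2 ^ L)).filter (fun k => k % s = t ∧ ∀ i : Fin s, ¬ pr (k + i) ∣ b) := ⟨_, rfl⟩
  -- the system with the index as a coordinate
  obtain ⟨g', hg'⟩ : ∃ g' : ℕ → ℤ → Fin (d + 1) → ℝ, g' = fun (k : ℕ) (n : ℤ) => (Fin.cons (k : ℝ) (g k n) : Fin (d + 1) → ℝ) := ⟨_, rfl⟩
  have hib : ∀ (k : ℕ) (n : ℤ) (K : ℕ) (u : Fin d → ℝ), ib (Fin.cons (K : ℝ) u : Fin (d + 1) → ℝ) (g' k n) = if k < K then ib u (g k n) else 0 := by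
    intro k n K u
    unfold ib
    rw [hg']
    by_cases h : k < K
    · rw [if_pos h]
      have h1 : (k : ℝ) < K := by exact_mod_cast h
      by_cases h2 : ∀ j, g k n j < u j
      · rw [if_pos h2, if_pos]
        intro j
        refine Fin.cases ?_ ?_ j
        · simpa using h1
        · intro j
          simpa using h2 j
      · rw [if_neg h2, if_neg]
        intro h3
        apply h2
        intro j
        simpa using h3 j.succ
    · rw [if_neg h, if_neg]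
      intro h3
      apply h
      have := h3 0
      simpa using this
  have hun := wunion' w E (fun i hi => hdec.nonneg i (hE hi)) (Q ×ˢ range s)
    (fun z i => ∃ u : Fin (d + 1) → ℝ, y z.1 / (4 * s) <
      |∑ k ∈ P z.1 z.2, (ib u (g' k (v i)) - mean (qs s k) (fun m => ib u (g' k m)))|) (by
      intro i hi
      obtain ⟨K, u, hXx, hxW, hdev⟩ := hbad i hi
      obtain ⟨L, hL⟩ : ∃ L, L = Nat.clog 2 K := ⟨_, rfl⟩
      have hxL : K ≤ 2 ^ L := by rw [hL]; exact Nat.le_pow_clog (by norm_num) K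
      have hx2 : 2 ≤ K := by omega
      have hL1 : 1 ≤ L := by
        rcases Nat.eq_zero_or_pos L with h | h
        · rw [h, pow_zero] at hxL
          omega
        · exact h
      have hLx : 2 ^ L ≤ 2 * K := by
        have h1 := Nat.pow_pred_clog_lt_self (by norm_num : 1 < 2) (by omega : 1 < K)
        rw [← hL] at h1
        have h2 : 2 ^ L = 2 * 2 ^ (L.pred) := by
          rw [← pow_succ', Nat.pred_eq_sub_one, Nat.sub_add_cancel hL1]
        omega
      have hLW : (2 ^ L) ^ W ≤ b ^ k := by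
        calc (2 ^ L) ^ W ≤ (K ^ 2) ^ W := Nat.pow_le_pow_left (by nlinarith) _
          _ = K ^ (2 * W) := by rw [← pow_mul]
          _ ≤ b ^ k := hxW
      have hLk : L < b * k + 1 := by
        have h1 : 2 ^ L ≤ 2 ^ (b * k) := by
          calc 2 ^ L ≤ (2 ^ L) ^ W := Nat.le_self_pow (by omega) _
            _ ≤ b ^ k := hLW
            _ ≤ (2 ^ b) ^ k := Nat.pow_le_pow_left (Nat.lt_two_pow_self).le _
            _ = 2 ^ (b * k) := by rw [← pow_mul]
        have := (Nat.pow_le_pow_iff_right (by norm_num : 1 < 2)).1 h1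
        omega
      have hLQ : L ∈ Q := by
        rw [hQ, mem_filter, mem_range]
        refine ⟨hLk, ?_, by omega, hLW⟩
        rw [hL₁, hL]
        exact Nat.clog_mono_right 2 hXx
      have hxr : (1 : ℝ) ≤ K := by exact_mod_cast (by omega : 1 ≤ K)
      have h1 : y L ≤ 2 * (K : ℝ) ^ (1 / 2 + δ) := by
        rw [hy]
        simp only
        have h2 : ((2 : ℝ) ^ L) ≤ 2 * K := by exact_mod_cast hLx
        calc ((2 : ℝ) ^ L) ^ (1 / 2 + δ) ≤ (2 * K) ^ (1 / 2 + δ) := Real.rpow_le_rpow (by positivity) h2 (by linarith)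
          _ = 2 ^ (1 / 2 + δ) * (K : ℝ) ^ (1 / 2 + δ) := Real.mul_rpow (by norm_num) (by linarith)
          _ ≤ 2 ^ (1 : ℝ) * (K : ℝ) ^ (1 / 2 + δ) := by
              apply mul_le_mul_of_nonneg_right _ (by positivity)
              exact Real.rpow_le_rpow_of_exponent_le (by norm_num) (by linarith)
          _ = _ := by rw [Real.rpow_one]
      have h3 : 4 * ((s : ℝ) * b) ≤ y L := by
        rw [hy]
        simp only
        have h4 : ((4 : ℝ) * (s * b)) ^ 2 ≤ (2 : ℝ) ^ L := by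
          refine hX₁.trans ?_
          have : X₁ ≤ 2 ^ L := by omega
          exact_mod_cast this
        have h5 : (4 : ℝ) * (s * b) = (((4 : ℝ) * (s * b)) ^ 2) ^ (1 / 2 : ℝ) := by
          rw [← Real.sqrt_eq_rpow, Real.sqrt_sq (by positivity)]
        rw [h5]
        calc (((4 : ℝ) * (s * b)) ^ 2) ^ (1 / 2 : ℝ) ≤ ((2 : ℝ) ^ L) ^ (1 / 2 : ℝ) := Real.rpow_le_rpow (by positivity) h4 (by norm_num)
          _ ≤ _ := Real.rpow_le_rpow_of_exponent_le (one_le_pow₀ (by norm_num)) (by linarith)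
      -- the decomposition
      obtain ⟨D, hD⟩ : ∃ D : ℕ → ℝ, D = fun k => ib u (g k (v i)) - mean (qs s k) (fun m => ib u (g k m)) := ⟨_, rfl⟩
      have hD1 : ∀ k, |D k| ≤ 1 := by
        intro k
        rw [hD]
        have h5 := ib_mem u (g k (v i))
        have h6 := mean_mem (qs s k) (qs_le s hs k).1 (fun m => ib u (g k m)) (fun m => ib_mem u (g k m))
        simp only
        rw [abs_le]
        constructor <;> linarith [h5.1, h5.2, h6.1, h6.2]
      have hdev2 : devB s g (v i) K u = ∑ k ∈ range K, D k := by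
        unfold devB
        rw [hD]
      obtain ⟨Gd, hGd⟩ : ∃ Gd : Finset ℕ, Gd = (range K).filter (fun k => ∀ i : Fin s, ¬ pr (k + i) ∣ b) := ⟨_, rfl⟩
      obtain ⟨Bd, hBd⟩ : ∃ Bd : Finset ℕ, Bd = (range K).filter (fun k => ¬ ∀ i : Fin s, ¬ pr (k + i) ∣ b) := ⟨_, rfl⟩
      have hsplit : ∑ k ∈ range K, D k = ∑ k ∈ Gd, D k + ∑ k ∈ Bd, D k := by
        rw [hGd, hBd, sum_filter_add_sum_filter_not]
      have hBdc : |∑ k ∈ Bd, D k| ≤ s * b := by
        refine (abs_sum_le_sum_abs _ _).trans ?_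
        refine (sum_le_card_nsmul _ _ 1 fun k _ => hD1 k).trans ?_
        rw [nsmul_eq_mul, mul_one]
        have hex : ∀ k ∈ Bd, ∃ i : Fin s, pr (k + i) ∣ b := by
          intro k hk
          rw [hBd, mem_filter] at hk
          have := hk.2
          push Not at this
          exact this
        haveI : Nonempty (Fin s) := ⟨⟨0, by omega⟩⟩
        choose! i' hi' using hex
        have h5 : Bd.card ≤ ((univ : Finset (Fin s)) ×ˢ Icc 1 b).card := by
          apply card_le_card_of_injOn (fun k => (i' k, pr (k + i' k)))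
          · intro k hk
            have hk' := mem_coe.1 hk
            rw [mem_coe, mem_product, mem_Icc]
            exact ⟨mem_univ _, (pr_prime _).one_le, Nat.le_of_dvd (by omega) (hi' k hk')⟩
          · intro k _ k' _ hkk
            simp only [Prod.mk.injEq] at hkk
            have h6 := pr_inj hkk.2
            rw [hkk.1] at h6
            omega
        rw [card_product, card_univ, Fintype.card_fin, Nat.card_Icc, Nat.add_sub_cancel] at h5
        exact_mod_cast h5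
      have hGs : ∑ k ∈ Gd, D k = ∑ t ∈ range s, ∑ k ∈ Gd.filter (fun k => k % s = t), D k := by
        rw [sum_fiberwise_of_maps_to]
        intro k _
        rw [mem_range]
        exact Nat.mod_lt _ (by omega)
      have hPs : ∀ t, ∑ k ∈ P L t, (ib (Fin.cons (K : ℝ) u : Fin (d + 1) → ℝ) (g' k (v i)) -
          mean (qs s k) (fun m => ib (Fin.cons (K : ℝ) u : Fin (d + 1) → ℝ) (g' k m))) = ∑ k ∈ Gd.filter (fun k => k % s = t), D k := by
        intro t
        have hsub : Gd.filter (fun k => k % s = t) ⊆ P L t := by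
          intro k hk
          rw [mem_filter, hGd, mem_filter, mem_range] at hk
          rw [hP, mem_filter, mem_range]
          exact ⟨by omega, hk.2, hk.1.2⟩
        rw [← sum_subset hsub]
        · apply sum_congr rfl
          intro k hk
          rw [mem_filter, hGd, mem_filter, mem_range] at hk
          rw [hD]
          simp only
          have e1 : ∀ m, ib (Fin.cons (K : ℝ) u : Fin (d + 1) → ℝ) (g' k m) = ib u (g k m) := by
            intro m
            rw [hib, if_pos hk.1.1]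
          rw [e1]
          congr 2
          funext m
          exact e1 m
        · intro k hk hnk
          rw [hP, mem_filter, mem_range] at hk
          have hkK : ¬ k < K := by
            intro hcon
            apply hnk
            rw [mem_filter, hGd, mem_filter, mem_range]
            exact ⟨⟨hcon, hk.2.2⟩, hk.2.1⟩
          have e1 : ∀ m, ib (Fin.cons (K : ℝ) u : Fin (d + 1) → ℝ) (g' k m) = 0 := by
            intro m
            rw [hib, if_neg hkK]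
          unfold mean
          rw [e1]
          simp [e1]
      by_contra hcon
      push Not at hcon
      have h7 : ∀ t ∈ range s, |∑ k ∈ Gd.filter (fun k => k % s = t), D k| ≤ y L / (4 * s) := by
        intro t ht
        have := hcon (L, t) (by rw [mem_product]; exact ⟨hLQ, ht⟩) (Fin.cons (K : ℝ) u)
        simp only at this
        rw [hPs t] at this
        exact this
      have h8 : |∑ k ∈ Gd, D k| ≤ y L / 4 := by
        rw [hGs]
        refine (abs_sum_le_sum_abs _ _).trans ?_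
        refine (sum_le_card_nsmul _ _ _ h7).trans (le_of_eq ?_)
        rw [card_range, nsmul_eq_mul]
        field_simp
      rw [hdev2, hsplit] at hdev
      have h9 := abs_add_le (∑ k ∈ Gd, D k) (∑ k ∈ Bd, D k)
      linarith)
    (fun z => 16 * s ^ 2 * C * ((z.1 : ℝ) + 1) ^ (2 * (d + 1)) * r ^ (2 * z.1)) (by
      intro z hz E' hE' hE''
      obtain ⟨L, t⟩ := z
      rw [mem_product, hQ, mem_filter] at hz
      simp only at hz hE'' ⊢
      have hL1 : L₁ ≤ L := hz.1.2.1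
      have hXL : X ≤ 2 ^ L := hXL₁.trans (Nat.pow_le_pow_right (by norm_num) hL1)
      have hPm : ∀ k ∈ P L t, k < 2 ^ L ∧ k % s = t ∧ ∀ i : Fin s, ¬ pr (k + i) ∣ b := by
        intro k hk
        rw [hP, mem_filter, mem_range] at hk
        exact hk
      have h1 := hmain k L hz.1.2.2.1 hz.1.2.2.2 ι Ω w v hdec (P L t) (qs s) (by
        rw [hP]
        refine (card_filter_le _ _).trans ?_
        rw [card_range]) (by
        intro k' hk'
        obtain ⟨h2, h3, h4⟩ := hPm k' hk'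
        obtain ⟨h5, h6⟩ := qs_le s hs k'
        refine ⟨h5, h6.trans ?_, ?_⟩
        · have h7 : (4 * s ^ 2) ^ s ≤ 2 ^ L := by omega
          calc (4 * s ^ 2) ^ s * (k' + 1) ^ (2 * s) ≤ 2 ^ L * (2 ^ L) ^ (2 * s) :=
                Nat.mul_le_mul h7 (Nat.pow_le_pow_left h2 _)
            _ = (2 ^ L) ^ e := by rw [he, pow_succ, mul_comm]
        · unfold qs
          apply Nat.Coprime.prod_right
          intro i _
          exact ((Nat.Prime.coprime_iff_not_dvd (pr_prime _)).2 (h4 i)).symm) (by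
        intro k' hk' l hl hne
        obtain ⟨_, h3, _⟩ := hPm k' hk'
        obtain ⟨_, h4, _⟩ := hPm l hl
        have h5 : k' % s = l % s := by rw [h3, h4]
        rcases lt_or_gt_of_ne hne with h | h
        · apply qs_coprime
          have h6 : s ∣ l - k' := (Nat.modEq_iff_dvd' h.le).1 h5
          have := Nat.le_of_dvd (by omega) h6
          omega
        · apply Nat.Coprime.symm
          apply qs_coprime
          have h6 : s ∣ k' - l := (Nat.modEq_iff_dvd' h.le).1 h5.symm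
          have := Nat.le_of_dvd (by omega) h6
          omega) g' (by
        intro k' _ m n hmn
        rw [hg']
        simp only
        rw [hg k' m n hmn]) (y L / (4 * s)) (by have := hy0 L; positivity) E' (hE'.trans hE) hE''
      refine h1.trans (le_of_eq ?_)
      have e1 : (y L) ^ 2 = 2 ^ L * (r⁻¹) ^ (2 * L) := by
        rw [hy, hr]
        simp only
        rw [← Real.rpow_natCast (((2 : ℝ) ^ L) ^ (1 / 2 + δ)) 2, ← Real.rpow_mul (by positivity), ← Real.rpow_neg (by norm_num), neg_neg,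
          ← Real.rpow_natCast ((2 : ℝ) ^ δ), ← Real.rpow_mul (by norm_num)]
        rw [← Real.rpow_natCast 2 L, ← Real.rpow_mul (by norm_num), ← Real.rpow_add (by norm_num)]
        congr 1
        push_cast
        ring
      rw [div_pow, e1]
      have h2 : (2 : ℝ) ^ L ≠ 0 := by positivity
      have h3 : r ^ (2 * L) ≠ 0 := by positivity
      rw [inv_pow]
      field_simp
      ring)
  refine hun.trans ?_
  have hsum : ∑ z ∈ Q ×ˢ range s, 16 * (s : ℝ) ^ 2 * C * ((z.1 : ℝ) + 1) ^ (2 * (d + 1)) * r ^ (2 * z.1) =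
      ∑ L ∈ Q, s * (16 * s ^ 2 * C) * ((L : ℝ) + 1) ^ (2 * (d + 1)) * r ^ (2 * L) := by
    rw [sum_product]
    apply sum_congr rfl
    intro L _
    simp only
    rw [sum_const, card_range, nsmul_eq_mul]
    ring
  rw [hsum]
  have h1 := hL₀ L₁ hL₀₁ Q (by
    intro L hL
    rw [hQ, mem_filter] at hL
    exact hL.2.1)
  refine h1.trans ?_
  rw [hr, ← Real.rpow_natCast, ← Real.rpow_mul (by norm_num), mul_comm, Real.rpow_mul (by norm_num), Real.rpow_natCast]
  rw [Real.rpow_neg (by positivity), Real.rpow_neg hXr.le]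
  apply inv_anti₀ (by positivity)
  apply Real.rpow_le_rpow hXr.le _ hδ.le
  exact_mod_cast hXL₁

/-- **all boxes, functions of `s` consecutive primes, all ranges, for almost all members of the digit families** -/
theorem boxes_almost (b : ℕ) (hb : 2 ≤ b) (η : ℝ) (hη : 0 < η) (s d : ℕ) (hs : 1 ≤ s) : ∃ W : ℕ, 1 ≤ W ∧ ∀ κ : ℤ, κ ≠ 0 →
    ∀ δ : ℝ, 0 < δ → δ ≤ 1 / 2 → ∃ X₀ : ℕ, ∀ X : ℕ, X₀ ≤ X → ∀ k : ℕ, 2 ≤ k → ∀ c : ℤ, ∀ g : ℕ → ℤ → Fin d → ℝ,
    (∀ k : ℕ, ∀ m n : ℤ, (qs s k : ℤ) ∣ m - n → g k m = g k n) →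
    Almost b k κ c η ((X : ℝ) ^ (-δ)) (fun n => ∀ K : ℕ, X ≤ K → K ^ W ≤ b ^ k → ∀ u : Fin d → ℝ,
      |devB s g n K u| ≤ (K : ℝ) ^ (1 / 2 + δ)) := by
  classical
  obtain ⟨A₁, A₂, γ₁, γ₂, h1, h2, h3, h4, H⟩ := almost_of b hb η hη
  obtain ⟨W₁, hW₁, K₁⟩ := allB b hb A₁ γ₁ h1 h2 s d hs
  obtain ⟨W₂, hW₂, K₂⟩ := allB b hb A₂ γ₂ h3 h4 s d hs
  obtain ⟨W, hW⟩ : ∃ W, W = max W₁ W₂ := ⟨_, rfl⟩
  have hWW₁ : W₁ ≤ W := by rw [hW]; exact le_max_left _ _
  have hWW₂ : W₂ ≤ W := by rw [hW]; exact le_max_right _ _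
  refine ⟨W, hW₁.trans hWW₁, fun κ hκ δ hδ hδ1 => ?_⟩
  obtain ⟨X₁, J₁⟩ := K₁ (Pool.Agent.TH872.An.GG b) κ (Pool.Agent.TH872.An.GG_pos b hb) hκ δ hδ hδ1
  obtain ⟨X₂, J₂⟩ := K₂ (b ^ 4).factorial κ (Nat.factorial_pos _) hκ δ hδ hδ1
  refine ⟨X₁ + X₂ + 1, fun X hX k hk c g hg => ?_⟩
  refine H k hk κ c _ _ (by positivity) fun F₀ A' γ hFA ι Ω w v hdec E hE hbad => ?_
  have hbad' : ∀ W' ≤ W, ∀ i ∈ E, ∃ (K : ℕ) (u : Fin d → ℝ), X ≤ K ∧ K ^ W' ≤ b ^ k ∧ (K : ℝ) ^ (1 / 2 + δ) < |devB s g (v i) K u| := by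
    intro W' hW' i hi
    have h5 := hbad i hi
    push Not at h5
    obtain ⟨x, hXx, hxW, u, hu⟩ := h5
    exact ⟨x, u, hXx, (Nat.pow_le_pow_right (by omega) hW').trans hxW, hu⟩
  rcases hFA with h | h
  · simp only [Prod.mk.injEq] at h
    obtain ⟨rfl, rfl, rfl⟩ := h
    exact J₁ X (by omega) k ι Ω w v hdec g hg E hE (hbad' _ hWW₁)
  · simp only [Prod.mk.injEq] at h
    obtain ⟨rfl, rfl, rfl⟩ := h
    exact J₂ X (by omega) k ι Ω w v hdec g hg E hE (hbad' _ hWW₂)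

end Pool.Agent.R459.Bx
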