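import Pool.Agent.W263.BSD.Curve

/-! Point counts of the curves `y² = x³ + a x + n` modulo `p`: first and second moment over `n`. -/

set_option autoImplicit false

namespace Pool.Agent.R459.Bsd
open Finset
open Pool.Agent.W263.BSD (GoodPrime pointCount)

variable {p : ℕ} [Fact p.Prime]

/-- the quadratic character as a real number -/
noncomputable def ch (p : ℕ) [Fact p.Prime] (x : ZMod p) : ℝ := (quadraticChar (ZMod p) x : ℤ)

lemma ch_zero : ch p 0 = 0 := by
  unfold ch
  rw [quadraticChar_zero]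
  norm_num

lemma ch_one : ch p 1 = 1 := by
  unfold ch
  rw [map_one]
  norm_num

lemma ch_mul (x y : ZMod p) : ch p (x * y) = ch p x * ch p y := by
  unfold ch
  rw [map_mul]
  push_cast
  rfl

lemma ch_sq {x : ZMod p} (hx : x ≠ 0) : ch p x * ch p x = 1 := by
  unfold ch
  have h := quadraticChar_sq_one (F := ZMod p) hx
  have : ((quadraticChar (ZMod p) x : ℤ) : ℝ) ^ 2 = 1 := by exact_mod_cast h
  linarith [sq (((quadraticChar (ZMod p) x : ℤ) : ℝ))]

lemma ch_abs (x : ZMod p) : |ch p x| ≤ 1 := by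
  by_cases hx : x = 0
  · rw [hx, ch_zero, abs_zero]
    norm_num
  · have := ch_sq hx
    exact abs_le_one_iff_mul_self_le_one.2 this.le

lemma ch_sum (hp : p ≠ 2) : ∑ x : ZMod p, ch p x = 0 := by
  unfold ch
  have h : ∑ x : ZMod p, quadraticChar (ZMod p) x = 0 := quadraticChar_sum_zero (by rw [ZMod.ringChar_zmod_n]; exact hp)
  exact_mod_cast h

lemma ch_sqrts (hp : p ≠ 2) (x : ZMod p) : (((univ : Finset (ZMod p)).filter (fun y => y ^ 2 = x)).card : ℝ) = ch p x + 1 := by
  have h := quadraticChar_card_sqrts (F := ZMod p) (by rw [ZMod.ringChar_zmod_n]; exact hp) x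
  unfold ch
  have h2 : ((({y : ZMod p | y ^ 2 = x}.toFinset.card : ℕ) : ℤ) : ℝ) = ((quadraticChar (ZMod p) x + 1 : ℤ) : ℝ) := by rw [h]
  push_cast at h2
  rw [← h2]
  congr 2
  ext y
  simp

lemma corr (hp : p ≠ 2) {w : ZMod p} (hw : w ≠ 0) : ∑ t : ZMod p, ch p t * ch p (t + w) = -1 := by
  classical
  have h1 : ∑ t : ZMod p, ch p t * ch p (t + w) = ∑ t ∈ univ.erase (0 : ZMod p), ch p (1 + w * t⁻¹) := by
    have e0 : (fun t : ZMod p => ch p t * ch p (t + w)) 0 = 0 := by
      show ch p 0 * ch p (0 + w) = 0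
      rw [ch_zero, zero_mul]
    have e3 := Finset.sum_erase (univ : Finset (ZMod p)) (f := fun t : ZMod p => ch p t * ch p (t + w)) (a := 0) e0
    rw [← e3]
    apply sum_congr rfl
    intro t ht
    have ht0 : t ≠ 0 := (mem_erase.1 ht).1
    have e : t + w = t * (1 + w * t⁻¹) := by field_simp
    rw [e, ch_mul, ← mul_assoc, ch_sq ht0, one_mul]
  have h2 : ∑ t ∈ univ.erase (0 : ZMod p), ch p (1 + w * t⁻¹) = ∑ m ∈ univ.erase (1 : ZMod p), ch p m := by
    refine Finset.sum_nbij' (fun t => 1 + w * t⁻¹) (fun m => w * (m - 1)⁻¹) ?_ ?_ ?_ ?_ ?_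
    · intro t ht
      have ht0 : t ≠ 0 := (mem_erase.1 ht).1
      rw [mem_erase]
      refine ⟨fun h => ?_, mem_univ _⟩
      have : w * t⁻¹ = 0 := by linear_combination h
      exact (mul_ne_zero hw (inv_ne_zero ht0)) this
    · intro m hm
      have hm1 : m - 1 ≠ 0 := sub_ne_zero.2 (mem_erase.1 hm).1
      rw [mem_erase]
      exact ⟨mul_ne_zero hw (inv_ne_zero hm1), mem_univ _⟩
    · intro t ht
      have ht0 : t ≠ 0 := (mem_erase.1 ht).1
      rw [add_sub_cancel_left, mul_inv, inv_inv, ← mul_assoc, mul_inv_cancel₀ hw, one_mul]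
    · intro m hm
      have hm1 : m - 1 ≠ 0 := sub_ne_zero.2 (mem_erase.1 hm).1
      rw [mul_inv, inv_inv, ← mul_assoc, mul_inv_cancel₀ hw, one_mul]
      ring
    · intro t _
      rfl
  have h3 := add_sum_erase (univ : Finset (ZMod p)) (ch p) (mem_univ (1 : ZMod p))
  rw [ch_sum hp, ch_one] at h3
  rw [h1, h2]
  linarith

lemma corr' (hp : p ≠ 2) (u u' : ZMod p) : ∑ n : ZMod p, ch p (u + n) * ch p (u' + n) = if u = u' then (p : ℝ) - 1 else -1 := by
  classical
  have h0 : ∑ n : ZMod p, ch p (u + n) * ch p (u' + n) = ∑ t : ZMod p, ch p t * ch p (t + (u' - u)) := by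
    refine Fintype.sum_equiv (Equiv.addLeft u) _ _ fun n => ?_
    simp only [Equiv.coe_addLeft]
    congr 2
    ring
  rw [h0]
  by_cases h : u = u'
  · rw [if_pos h, h, sub_self]
    simp only [add_zero]
    have h3 := add_sum_erase (univ : Finset (ZMod p)) (fun t => ch p t * ch p t) (mem_univ (0 : ZMod p))
    simp only [ch_zero, zero_mul, zero_add] at h3
    have h4 : ∑ t ∈ univ.erase (0 : ZMod p), ch p t * ch p t = ∑ t ∈ univ.erase (0 : ZMod p), (1 : ℝ) :=
      sum_congr rfl fun t ht => ch_sq (mem_erase.1 ht).1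
    rw [← h3, h4, sum_const, nsmul_eq_mul, mul_one,
      card_erase_of_mem (mem_univ _), card_univ, ZMod.card, Nat.cast_sub (Fact.out : p.Prime).one_le]
    push_cast
    ring
  · rw [if_neg h]
    exact corr hp (sub_ne_zero.2 (Ne.symm h))

lemma quad_sum (hp : p ≠ 2) {α β : ZMod p} (hα : α ≠ 0) (hβ : β ≠ 0) : ∑ x : ZMod p, ch p (α * x ^ 2 + β) = -ch p α := by
  classical
  have h1 : ∑ x : ZMod p, ch p (α * x ^ 2 + β) = ∑ t : ZMod p, (ch p t + 1) * ch p (α * t + β) := by
    rw [← sum_fiberwise_of_maps_to (s := univ) (t := univ) (g := fun x : ZMod p => x ^ 2) (fun _ _ => mem_univ _)]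
    apply sum_congr rfl
    intro t _
    rw [sum_congr rfl (fun x hx => by rw [(mem_filter.1 hx).2]), sum_const, nsmul_eq_mul, ch_sqrts hp]
  rw [h1]
  have h2 : ∑ t : ZMod p, (ch p t + 1) * ch p (α * t + β) = ∑ t : ZMod p, ch p t * ch p (α * t + β) + ∑ t : ZMod p, ch p (α * t + β) := by
    rw [← sum_add_distrib]
    exact sum_congr rfl fun t _ => by ring
  rw [h2]
  have h3 : ∑ t : ZMod p, ch p (α * t + β) = 0 := by
    rw [← ch_sum hp]
    refine Fintype.sum_equiv ((Equiv.mulLeft₀ α hα).trans (Equiv.addRight β)) _ _ fun t => ?_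
    simp
  have h4 : ∑ t : ZMod p, ch p t * ch p (α * t + β) = ch p α * ∑ t : ZMod p, ch p t * ch p (t + β * α⁻¹) := by
    rw [mul_sum]
    apply sum_congr rfl
    intro t _
    have e : α * t + β = α * (t + β * α⁻¹) := by field_simp
    rw [e, ch_mul]
    ring
  rw [h3, h4, corr hp (mul_ne_zero hβ (inv_ne_zero hα))]
  ring

/-- the trace as a function of the class of `n` -/
noncomputable def tr (p : ℕ) [Fact p.Prime] (a n : ZMod p) : ℝ := -∑ x : ZMod p, ch p ((x ^ 3 + a * x) + n)

lemma pc_eq (hp : p ≠ 2) (a n : ℤ) : (p : ℝ) - pointCount a n p = tr p a n := by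
  classical
  have h1 : (pointCount a n p : ℝ) = ∑ x : ZMod p, (ch p ((x ^ 3 + (a : ZMod p) * x) + (n : ZMod p)) + 1) := by
    unfold pointCount
    rw [Nat.card_eq_fintype_card, Fintype.card_subtype]
    have h2 : ((univ : Finset (ZMod p × ZMod p)).filter (fun q => q.2 ^ 2 = q.1 ^ 3 + (a : ZMod p) * q.1 + (n : ZMod p))).card =
        ∑ x : ZMod p, ((univ : Finset (ZMod p)).filter (fun y => y ^ 2 = (x ^ 3 + (a : ZMod p) * x) + (n : ZMod p))).card := by
      rw [card_eq_sum_card_fiberwise (f := fun q : ZMod p × ZMod p => q.1) (t := univ) (fun _ _ => mem_coe.2 (mem_univ _))]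
      apply sum_congr rfl
      intro x _
      apply card_bij (fun q _ => q.2)
      · intro q hq
        rw [mem_filter, mem_filter] at hq
        rw [mem_filter]
        refine ⟨mem_univ _, ?_⟩
        rw [← hq.2]
        exact hq.1.2
      · intro q hq q' hq' h
        rw [mem_filter] at hq hq'
        exact Prod.ext (hq.2.trans hq'.2.symm) h
      · intro y hy
        rw [mem_filter] at hy
        refine ⟨(x, y), ?_, rfl⟩
        rw [mem_filter, mem_filter]
        exact ⟨⟨mem_univ _, hy.2⟩, rfl⟩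
    rw [h2]
    push_cast
    exact sum_congr rfl fun x _ => ch_sqrts hp _
  rw [h1, sum_add_distrib]
  unfold tr
  simp only [sum_const, card_univ, ZMod.card, nsmul_eq_mul, mul_one]
  ring

lemma tr_mean (hp : p ≠ 2) (a : ZMod p) : ∑ n : ZMod p, tr p a n = 0 := by
  unfold tr
  rw [sum_neg_distrib, sum_comm, neg_eq_zero]
  apply sum_eq_zero
  intro x _
  rw [← ch_sum hp]
  exact Fintype.sum_equiv (Equiv.addLeft (x ^ 3 + a * x)) _ _ fun n => rfl

open Classical in
/-- the pairs with the same value of the cubic polynomial -/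
lemma pairs (hp : p ≠ 2) (h3 : (3 : ZMod p) ≠ 0) {a : ZMod p} (ha : a ≠ 0) :
    |(((univ : Finset (ZMod p × ZMod p)).filter (fun z => z.1 ^ 3 + a * z.1 = z.2 ^ 3 + a * z.2)).card : ℝ) - 2 * p| ≤ 3 := by
  have h2 : (2 : ZMod p) ≠ 0 := by
    intro h0
    have : ((2 : ℕ) : ZMod p) = 0 := by exact_mod_cast h0
    rw [ZMod.natCast_eq_zero_iff] at this
    exact hp ((Nat.prime_dvd_prime_iff_eq (Fact.out : p.Prime) Nat.prime_two).1 this)
  obtain ⟨D, hD⟩ : ∃ D : Finset (ZMod p × ZMod p), D = univ.filter (fun z => z.1 = z.2) := ⟨_, rfl⟩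
  obtain ⟨Q, hQ⟩ : ∃ Q : Finset (ZMod p × ZMod p), Q = univ.filter (fun z => z.1 ^ 2 + z.1 * z.2 + z.2 ^ 2 + a = 0) := ⟨_, rfl⟩
  have e1 : (univ : Finset (ZMod p × ZMod p)).filter (fun z => z.1 ^ 3 + a * z.1 = z.2 ^ 3 + a * z.2) = D ∪ Q := by
    ext z
    rw [hD, hQ, mem_union, mem_filter, mem_filter, mem_filter]
    simp only [mem_univ, true_and]
    constructor
    · intro h
      have h4 : (z.1 - z.2) * (z.1 ^ 2 + z.1 * z.2 + z.2 ^ 2 + a) = 0 := by linear_combination h
      rcases mul_eq_zero.1 h4 with h5 | h5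
      · left
        exact sub_eq_zero.1 h5
      · right
        exact h5
    · rintro (h | h)
      · rw [h]
      · linear_combination (z.1 - z.2) * h
  have hDc : D.card = p := by
    rw [hD]
    have : ((univ : Finset (ZMod p × ZMod p)).filter (fun z => z.1 = z.2)).card = (univ : Finset (ZMod p)).card := by
      apply card_bij (fun z _ => z.1)
      · intro z _
        exact mem_univ _
      · intro z hz z' hz' h
        rw [mem_filter] at hz hz'
        exact Prod.ext h (by rw [← hz.2, ← hz'.2]; exact h)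
      · intro x _
        exact ⟨(x, x), by rw [mem_filter]; exact ⟨mem_univ _, rfl⟩, rfl⟩
    rw [this, card_univ, ZMod.card]
  have hQc : (Q.card : ℝ) = p - ch p (-3) := by
    rw [hQ, card_eq_sum_card_fiberwise (f := fun q : ZMod p × ZMod p => q.2) (t := univ) (fun _ _ => mem_coe.2 (mem_univ _))]
    push_cast
    have h4 : ∀ y : ZMod p, ((((univ.filter (fun z : ZMod p × ZMod p => z.1 ^ 2 + z.1 * z.2 + z.2 ^ 2 + a = 0)).filter
        (fun q => q.2 = y)).card : ℕ) : ℝ) = ch p (-3 * y ^ 2 + (-4 * a)) + 1 := by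
      intro y
      rw [← ch_sqrts hp]
      congr 1
      apply card_bij (fun q _ => 2 * q.1 + y)
      · intro q hq
        rw [mem_filter, mem_filter] at hq
        rw [mem_filter]
        refine ⟨mem_univ _, ?_⟩
        have h5 := hq.1.2
        rw [hq.2] at h5
        linear_combination 4 * h5
      · intro q hq q' hq' h
        rw [mem_filter] at hq hq'
        have h6 : q.1 = q'.1 := by
          have : 2 * q.1 = 2 * q'.1 := by linear_combination h
          exact mul_left_cancel₀ h2 this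
        exact Prod.ext h6 (hq.2.trans hq'.2.symm)
      · intro w hw
        rw [mem_filter] at hw
        refine ⟨((w - y) / 2, y), ?_, ?_⟩
        · rw [mem_filter, mem_filter]
          refine ⟨⟨mem_univ _, ?_⟩, rfl⟩
          have h7 := hw.2
          simp only
          field_simp
          linear_combination h7
        · simp only
          field_simp
          ring
    rw [sum_congr rfl (fun y _ => h4 y), sum_add_distrib]
    have h8 : ∑ y : ZMod p, ch p (-3 * y ^ 2 + (-4 * a)) = -ch p (-3) := by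
      apply quad_sum hp (neg_ne_zero.2 h3)
      apply mul_ne_zero _ ha
      rw [neg_ne_zero, show (4 : ZMod p) = 2 * 2 by norm_num]
      exact mul_ne_zero h2 h2
    rw [h8, sum_const, card_univ, ZMod.card, nsmul_eq_mul, mul_one]
    ring
  have hDQ : (D ∩ Q).card ≤ 2 := by
    have h4 : (D ∩ Q).card ≤ ((univ : Finset (ZMod p)).filter (fun y => y ^ 2 = -a / 3)).card := by
      apply card_le_card_of_injOn (fun z => z.1)
      · intro z hz
        rw [mem_coe, mem_inter, hD, hQ, mem_filter, mem_filter] at hz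
        rw [mem_coe, mem_filter]
        refine ⟨mem_univ _, ?_⟩
        have h5 := hz.2.2
        rw [← hz.1.2] at h5
        field_simp
        linear_combination h5
      · intro z hz z' hz' h
        rw [mem_coe, mem_inter, hD, mem_filter] at hz hz'
        exact Prod.ext h (by rw [← hz.1.2, ← hz'.1.2]; exact h)
    have h5 := ch_sqrts hp (-a / 3)
    have h6 := (abs_le.1 (ch_abs (-a / 3))).2
    have h7 : (((univ : Finset (ZMod p)).filter (fun y => y ^ 2 = -a / 3)).card : ℝ) ≤ 2 := by linarith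
    have h8 : ((univ : Finset (ZMod p)).filter (fun y => y ^ 2 = -a / 3)).card ≤ 2 := by exact_mod_cast h7
    exact h4.trans h8
  have h9 := card_union_add_card_inter D Q
  have h10 : ((D ∪ Q).card : ℝ) + (D ∩ Q).card = D.card + Q.card := by exact_mod_cast h9
  have h11 : ((D ∩ Q).card : ℝ) ≤ 2 := by exact_mod_cast hDQ
  have h12 : (0 : ℝ) ≤ (D ∩ Q).card := Nat.cast_nonneg _
  have h13 := abs_le.1 (ch_abs (-3 : ZMod p))
  rw [e1, abs_le]
  rw [hDc, hQc] at h10
  constructor <;> linarith [h13.1, h13.2]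

/-- the second moment of the traces -/
lemma tr_sq (hp : p ≠ 2) (h3 : (3 : ZMod p) ≠ 0) {a : ZMod p} (ha : a ≠ 0) : |∑ n : ZMod p, (tr p a n) ^ 2 - (p : ℝ) ^ 2| ≤ 3 * p := by
  classical
  have h1 : ∑ n : ZMod p, (tr p a n) ^ 2 = ∑ z : ZMod p × ZMod p, (if z.1 ^ 3 + a * z.1 = z.2 ^ 3 + a * z.2 then (p : ℝ) else 0) - (p : ℝ) ^ 2 := by
    have h4 : ∀ n : ZMod p, (tr p a n) ^ 2 = ∑ z : ZMod p × ZMod p, ch p ((z.1 ^ 3 + a * z.1) + n) * ch p ((z.2 ^ 3 + a * z.2) + n) := by
      intro n
      unfold tr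
      rw [neg_sq, sq, sum_mul_sum, ← univ_product_univ, sum_product]
    rw [sum_congr rfl (fun n _ => h4 n), sum_comm, sum_congr rfl (fun z _ => corr' hp _ _)]
    have h5 : ∀ z : ZMod p × ZMod p, (if z.1 ^ 3 + a * z.1 = z.2 ^ 3 + a * z.2 then (p : ℝ) - 1 else -1) =
        (if z.1 ^ 3 + a * z.1 = z.2 ^ 3 + a * z.2 then (p : ℝ) else 0) - 1 := by
      intro z
      split_ifs <;> ring
    rw [sum_congr rfl (fun z _ => h5 z), sum_sub_distrib, sum_const, card_univ, Fintype.card_prod, ZMod.card, nsmul_eq_mul]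
    push_cast
    ring
  rw [h1, ← sum_filter, sum_const, nsmul_eq_mul]
  have h2 := pairs hp h3 ha
  have hp0 : (0 : ℝ) ≤ p := Nat.cast_nonneg _
  rw [abs_le] at h2 ⊢
  have e : ((univ.filter (fun z : ZMod p × ZMod p => z.1 ^ 3 + a * z.1 = z.2 ^ 3 + a * z.2)).card : ℝ) * p - (p : ℝ) ^ 2 - (p : ℝ) ^ 2 =
      (((univ.filter (fun z : ZMod p × ZMod p => z.1 ^ 3 + a * z.1 = z.2 ^ 3 + a * z.2)).card : ℝ) - 2 * p) * p := by ring
  rw [e]
  constructor <;> nlinarith [h2.1, h2.2]

end Pool.Agent.R459.Bsd
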