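import Pool.Agent.R459.Eq1

/-! The second moment of sums of centered functions modulo primes. -/

set_option autoImplicit false

namespace Pool.Agent.R459.Eq
open Finset
open Pool.Agent.H807R2.Dav

lemma ee_sum_range (p : ℕ) (hp : 1 ≤ p) (n : ℤ) :
    ∑ a ∈ range p, ee ((a : ℝ) * ((n : ℝ) / p)) = if (p : ℤ) ∣ n then (p : ℂ) else 0 := by
  have hp0 : (p : ℝ) ≠ 0 := by exact_mod_cast (by omega : p ≠ 0)
  simp only [ee_pow]
  split_ifs with h
  · obtain ⟨l, rfl⟩ := h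
    have e1 : (((p : ℤ) * l : ℤ) : ℝ) / p = (l : ℝ) := by
      push_cast
      field_simp
    rw [e1, ee_int]
    simp
  · have h1 : ee ((n : ℝ) / p) ≠ 1 := by
      intro h1
      unfold ee at h1
      rw [Complex.exp_eq_one_iff] at h1
      obtain ⟨l, hl⟩ := h1
      have h2 : (2 * Real.pi * Complex.I : ℂ) ≠ 0 := Complex.two_pi_I_ne_zero
      have h3 : (((n : ℝ) / p : ℝ) : ℂ) = (l : ℂ) := by
        apply mul_left_cancel₀ h2
        rw [hl]
        ring
      have h4 : (n : ℝ) / p = l := by exact_mod_cast h3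
      apply h
      refine ⟨l, ?_⟩
      rw [div_eq_iff hp0] at h4
      have : (n : ℝ) = (p : ℝ) * l := by rw [h4]; ring
      exact_mod_cast this
    have h2 := mul_geom_sum (ee ((n : ℝ) / p)) p
    have h3 : ee ((n : ℝ) / p) ^ p = 1 := by
      rw [← ee_pow]
      have : (p : ℝ) * ((n : ℝ) / p) = (n : ℝ) := by field_simp
      rw [this, ee_int]
    rw [h3, sub_self] at h2
    rcases mul_eq_zero.1 h2 with h4 | h4
    · exact absurd (sub_eq_zero.1 h4) h1
    · exact h4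

/-- the Fourier coefficients of a function modulo `p` -/
noncomputable def co (p : ℕ) (f : ℤ → ℝ) (a : ℕ) : ℂ :=
  (1 / (p : ℂ)) * ∑ t ∈ range p, (f t : ℂ) * ee (-((a : ℝ) * ((t : ℝ) / p)))

/-- the mean of a function modulo `p` -/
noncomputable def mean (p : ℕ) (f : ℤ → ℝ) : ℝ := (∑ t ∈ range p, f t) / p

/-- the function has period `p` -/
def Per (p : ℕ) (f : ℤ → ℝ) : Prop := ∀ m n : ℤ, (p : ℤ) ∣ m - n → f m = f n

lemma co_zero (p : ℕ) (f : ℤ → ℝ) : co p f 0 = (mean p f : ℂ) := by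
  unfold co mean
  simp only [Nat.cast_zero, zero_mul, neg_zero, ee_zero, mul_one]
  push_cast
  ring

lemma norm_co (p : ℕ) (hp : 1 ≤ p) (f : ℤ → ℝ) (hf : ∀ n, |f n| ≤ 1) (a : ℕ) : ‖co p f a‖ ≤ 1 := by
  have hp0 : (0 : ℝ) < p := by exact_mod_cast hp
  unfold co
  rw [norm_mul, norm_div, norm_one, Complex.norm_natCast, one_div, inv_mul_le_iff₀ hp0, mul_one]
  refine (norm_sum_le _ _).trans ?_
  refine (sum_le_card_nsmul _ _ 1 fun t _ => ?_).trans ?_
  · rw [norm_mul, norm_ee, mul_one, Complex.norm_real]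
    exact hf _
  · simp

lemma inversion (p : ℕ) (hp : 1 ≤ p) (f : ℤ → ℝ) (hper : Per p f) (v : ℤ) :
    (f v : ℂ) = ∑ a ∈ range p, co p f a * ee ((a : ℝ) * ((v : ℝ) / p)) := by
  have hp0 : (p : ℂ) ≠ 0 := by exact_mod_cast (by omega : p ≠ 0)
  have h1 : ∑ a ∈ range p, co p f a * ee ((a : ℝ) * ((v : ℝ) / p)) =
      ∑ t ∈ range p, (1 / (p : ℂ)) * (f t : ℂ) * ∑ a ∈ range p, ee ((a : ℝ) * (((v - t : ℤ) : ℝ) / p)) := by
    unfold co
    simp only [mul_sum, sum_mul]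
    rw [sum_comm]
    apply sum_congr rfl
    intro t _
    apply sum_congr rfl
    intro a _
    have e1 : ee ((a : ℝ) * (((v - t : ℤ) : ℝ) / p)) = ee (-((a : ℝ) * ((t : ℝ) / p))) * ee ((a : ℝ) * ((v : ℝ) / p)) := by
      rw [← ee_add]
      congr 1
      push_cast
      ring
    rw [e1]
    ring
  rw [h1]
  obtain ⟨t0, ht0⟩ : ∃ t0 : ℕ, (t0 : ℤ) = v % p := ⟨(v % p).toNat, by
    rw [Int.toNat_of_nonneg (Int.emod_nonneg _ (by omega))]⟩
  have ht0p : t0 < p := by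
    have := Int.emod_lt_of_pos v (by omega : (0 : ℤ) < p)
    omega
  have hdvd : (p : ℤ) ∣ v - t0 := by
    rw [ht0]
    exact Int.dvd_self_sub_emod
  rw [sum_eq_single t0]
  · rw [ee_sum_range p hp, if_pos hdvd, hper v t0 hdvd]
    field_simp
  · intro t ht hne
    rw [ee_sum_range p hp, if_neg, mul_zero]
    intro h
    apply hne
    rw [mem_range] at ht
    have h2 : (p : ℤ) ∣ (t : ℤ) - t0 := by
      have := dvd_sub hdvd h
      rwa [show v - (t0 : ℤ) - (v - t) = t - t0 by ring] at this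
    have h3 := Int.eq_zero_of_abs_lt_dvd h2 (by rw [abs_lt]; omega)
    omega
  · intro h
    exact absurd (mem_range.2 ht0p) h

lemma centered (p : ℕ) (hp : 1 ≤ p) (f : ℤ → ℝ) (hper : Per p f) (v : ℤ) :
    ((f v - mean p f : ℝ) : ℂ) = ∑ a ∈ Ico 1 p, co p f a * ee ((a : ℝ) * ((v : ℝ) / p)) := by
  rw [Complex.ofReal_sub, inversion p hp f hper v, range_eq_Ico, sum_eq_sum_Ico_succ_bot (by omega : 0 < p), co_zero]
  simp [ee_zero]

lemma cop (p q a b : ℕ) (hp : p.Prime) (hq : q.Prime) (hpq : p ≠ q) (ha : a ∈ Ico 1 p) (hb : b ∈ Ico 1 q) :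
    Nat.Coprime (a * q + b * p) (p * q) := by
  rw [mem_Ico] at ha hb
  have hcpq : Nat.Coprime p q := (Nat.coprime_primes hp hq).2 hpq
  apply Nat.Coprime.mul_right
  · rw [Nat.coprime_add_mul_right_left]
    apply Nat.Coprime.mul_left
    · exact (Nat.coprime_of_lt_prime (by omega) ha.2 hp).symm
    · exact hcpq.symm
  · rw [add_comm, Nat.coprime_add_mul_right_left]
    apply Nat.Coprime.mul_left
    · exact (Nat.coprime_of_lt_prime (by omega) hb.2 hq).symm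
    · exact hcpq

lemma cov {ι : Type} (Ω : Finset ι) (w : ι → ℝ) (v : ι → ℤ) (p q : ℕ) (hp : p.Prime) (hq : q.Prime) (hpq : p ≠ q)
    (f g : ℤ → ℝ) (hf : ∀ n, |f n| ≤ 1) (hg : ∀ n, |g n| ≤ 1) (hfp : Per p f) (hgq : Per q g) (τ : ℝ)
    (hτ : ∀ a : ℕ, Nat.Coprime a (p * q) → ‖∑ i ∈ Ω, (w i : ℂ) * ee ((v i : ℝ) * ((a : ℝ) / ((p * q : ℕ) : ℝ)))‖ ≤ τ) :
    |∑ i ∈ Ω, w i * ((f (v i) - mean p f) * (g (v i) - mean q g))| ≤ p * q * τ := by
  have hp0 : (p : ℝ) ≠ 0 := by exact_mod_cast hp.ne_zero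
  have hq0 : (q : ℝ) ≠ 0 := by exact_mod_cast hq.ne_zero
  have h1 : ((∑ i ∈ Ω, w i * ((f (v i) - mean p f) * (g (v i) - mean q g)) : ℝ) : ℂ) =
      ∑ a ∈ Ico 1 p, ∑ b ∈ Ico 1 q, co p f a * co q g b *
        ∑ i ∈ Ω, (w i : ℂ) * ee ((v i : ℝ) * (((a * q + b * p : ℕ) : ℝ) / ((p * q : ℕ) : ℝ))) := by
    rw [Complex.ofReal_sum]
    simp only [mul_sum]
    have e0 : ∀ i ∈ Ω, ((w i * ((f (v i) - mean p f) * (g (v i) - mean q g)) : ℝ) : ℂ) =
        ∑ a ∈ Ico 1 p, ∑ b ∈ Ico 1 q, co p f a * co q g b *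
        ((w i : ℂ) * ee ((v i : ℝ) * (((a * q + b * p : ℕ) : ℝ) / ((p * q : ℕ) : ℝ)))) := by
      intro i _
      rw [Complex.ofReal_mul, Complex.ofReal_mul, centered p hp.one_le f hfp, centered q hq.one_le g hgq, sum_mul_sum, mul_sum]
      apply sum_congr rfl
      intro a _
      rw [mul_sum]
      apply sum_congr rfl
      intro b _
      have e1 : ee ((v i : ℝ) * (((a * q + b * p : ℕ) : ℝ) / ((p * q : ℕ) : ℝ))) =
          ee ((a : ℝ) * ((v i : ℝ) / p)) * ee ((b : ℝ) * ((v i : ℝ) / q)) := by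
        rw [← ee_add]
        congr 1
        push_cast
        field_simp
      rw [e1]
      ring
    rw [sum_congr rfl e0, sum_comm]
    apply sum_congr rfl
    intro a _
    rw [sum_comm]
  rw [← Real.norm_eq_abs, ← Complex.norm_real, h1]
  have hτ0 : 0 ≤ τ := by
    have h := hτ 1 (Nat.coprime_one_left _)
    exact (norm_nonneg _).trans h
  calc ‖∑ a ∈ Ico 1 p, ∑ b ∈ Ico 1 q, co p f a * co q g b *
        ∑ i ∈ Ω, (w i : ℂ) * ee ((v i : ℝ) * (((a * q + b * p : ℕ) : ℝ) / ((p * q : ℕ) : ℝ)))‖ ≤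
        ∑ a ∈ Ico 1 p, ∑ b ∈ Ico 1 q, τ := by
          refine (norm_sum_le _ _).trans (sum_le_sum fun a ha => ?_)
          refine (norm_sum_le _ _).trans (sum_le_sum fun b hb => ?_)
          rw [norm_mul, norm_mul]
          have h2 := norm_co p hp.one_le f hf a
          have h3 := norm_co q hq.one_le g hg b
          have h4 := hτ _ (cop p q a b hp hq hpq ha hb)
          have h5 : ‖co p f a‖ * ‖co q g b‖ ≤ 1 := mul_le_one₀ h2 (norm_nonneg _) h3
          calc _ ≤ 1 * τ := mul_le_mul h5 h4 (norm_nonneg _) zero_le_one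
            _ = τ := one_mul _
    _ = ((p - 1 : ℕ) : ℝ) * (((q - 1 : ℕ) : ℝ) * τ) := by
        rw [sum_const, sum_const, Nat.card_Ico, Nat.card_Ico, nsmul_eq_mul, nsmul_eq_mul]
    _ ≤ p * (q * τ) := by
        apply mul_le_mul (by exact_mod_cast Nat.sub_le _ _) _ (by positivity) (Nat.cast_nonneg _)
        exact mul_le_mul_of_nonneg_right (by exact_mod_cast Nat.sub_le _ _) hτ0
    _ = _ := by ring

lemma mean_mem (p : ℕ) (hp : 1 ≤ p) (f : ℤ → ℝ) (hf : ∀ n, 0 ≤ f n ∧ f n ≤ 1) : 0 ≤ mean p f ∧ mean p f ≤ 1 := by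
  have hp0 : (0 : ℝ) < p := by exact_mod_cast hp
  unfold mean
  constructor
  · exact div_nonneg (sum_nonneg fun t _ => (hf _).1) hp0.le
  · rw [div_le_one hp0]
    refine (sum_le_card_nsmul _ _ 1 fun t _ => (hf _).2).trans ?_
    simp

/-- the second moment -/
theorem variance {ι : Type} (Ω : Finset ι) (w : ι → ℝ) (hw : ∀ i ∈ Ω, 0 ≤ w i) (hw1 : ∑ i ∈ Ω, w i = 1) (v : ι → ℤ)
    (x : ℕ) (P : Finset ℕ) (hP : ∀ p ∈ P, p.Prime ∧ p ≤ x) (f : ℕ → ℤ → ℝ) (hf : ∀ p n, 0 ≤ f p n ∧ f p n ≤ 1)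
    (hper : ∀ p ∈ P, Per p (f p)) (τ : ℝ) (hτ0 : 0 ≤ τ) (T : Finset ℕ)
    (hT : ∀ p ∈ P, ∀ q ∈ P, p ≠ q → p * q ∉ T → ∀ a : ℕ, Nat.Coprime a (p * q) →
      ‖∑ i ∈ Ω, (w i : ℂ) * ee ((v i : ℝ) * ((a : ℝ) / ((p * q : ℕ) : ℝ)))‖ ≤ τ) :
    ∑ i ∈ Ω, w i * (∑ p ∈ P, (f p (v i) - mean p (f p))) ^ 2 ≤ P.card + 2 * T.card + (P.card : ℝ) ^ 2 * (x : ℝ) ^ 2 * τ := by
  classical
  have hcent : ∀ p ∈ P, ∀ n, |f p n - mean p (f p)| ≤ 1 := by
    intro p hp n
    have h1 := hf p n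
    have h2 := mean_mem p (hP p hp).1.one_le (f p) (hf p)
    rw [abs_le]
    constructor <;> linarith [h1.1, h1.2, h2.1, h2.2]
  have h1 : ∑ i ∈ Ω, w i * (∑ p ∈ P, (f p (v i) - mean p (f p))) ^ 2 =
      ∑ p ∈ P, ∑ q ∈ P, ∑ i ∈ Ω, w i * ((f p (v i) - mean p (f p)) * (f q (v i) - mean q (f q))) := by
    have e0 : ∀ i ∈ Ω, w i * (∑ p ∈ P, (f p (v i) - mean p (f p))) ^ 2 =
        ∑ p ∈ P, ∑ q ∈ P, w i * ((f p (v i) - mean p (f p)) * (f q (v i) - mean q (f q))) := by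
      intro i _
      rw [sq, sum_mul_sum, mul_sum]
      apply sum_congr rfl
      intro p _
      rw [mul_sum]
    rw [sum_congr rfl e0, sum_comm]
    apply sum_congr rfl
    intro p _
    rw [sum_comm]
  rw [h1]
  have htriv : ∀ p ∈ P, ∀ q ∈ P, ∑ i ∈ Ω, w i * ((f p (v i) - mean p (f p)) * (f q (v i) - mean q (f q))) ≤ 1 := by
    intro p hp q hq
    rw [← hw1]
    apply sum_le_sum
    intro i hi
    have h2 := hcent p hp (v i)
    have h3 := hcent q hq (v i)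
    have h4 : (f p (v i) - mean p (f p)) * (f q (v i) - mean q (f q)) ≤ 1 := by
      refine (le_abs_self _).trans ?_
      rw [abs_mul]
      exact mul_le_one₀ h2 (abs_nonneg _) h3
    exact mul_le_of_le_one_right (hw i hi) h4
  have hterm : ∀ p ∈ P, ∀ q ∈ P, ∑ i ∈ Ω, w i * ((f p (v i) - mean p (f p)) * (f q (v i) - mean q (f q))) ≤
      (if p = q then 1 else 0) + (if p ≠ q ∧ p * q ∈ T then 1 else 0) + (x : ℝ) ^ 2 * τ := by
    intro p hp q hq
    have hnn : 0 ≤ (x : ℝ) ^ 2 * τ := by positivity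
    by_cases hpq : p = q
    · rw [if_pos hpq, if_neg (fun h => h.1 hpq)]
      linarith [htriv p hp q hq]
    · by_cases hin : p * q ∈ T
      · rw [if_neg hpq, if_pos ⟨hpq, hin⟩]
        linarith [htriv p hp q hq]
      · rw [if_neg hpq, if_neg (fun h => hin h.2), zero_add, zero_add]
        refine (le_abs_self _).trans ?_
        refine (cov Ω w v p q (hP p hp).1 (hP q hq).1 hpq (f p) (f q) (fun n => ?_) (fun n => ?_) (hper p hp) (hper q hq) τ
          (hT p hp q hq hpq hin)).trans ?_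
        · rw [abs_le]; constructor <;> linarith [(hf p n).1, (hf p n).2]
        · rw [abs_le]; constructor <;> linarith [(hf q n).1, (hf q n).2]
        · apply mul_le_mul_of_nonneg_right _ hτ0
          rw [sq]
          exact mul_le_mul (by exact_mod_cast (hP p hp).2) (by exact_mod_cast (hP q hq).2) (Nat.cast_nonneg _) (Nat.cast_nonneg _)
  refine (sum_le_sum fun p hp => sum_le_sum fun q hq => hterm p hp q hq).trans ?_
  simp only [sum_add_distrib]
  have e1 : ∑ p ∈ P, ∑ q ∈ P, (if p = q then (1 : ℝ) else 0) = P.card := by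
    rw [sum_congr rfl (fun p hp => by rw [sum_ite_eq, if_pos hp])]
    simp
  have e2 : ∑ p ∈ P, ∑ q ∈ P, (x : ℝ) ^ 2 * τ = (P.card : ℝ) ^ 2 * (x : ℝ) ^ 2 * τ := by
    rw [sum_const, sum_const, nsmul_eq_mul, nsmul_eq_mul]
    ring
  have e3 : ∑ p ∈ P, ∑ q ∈ P, (if p ≠ q ∧ p * q ∈ T then (1 : ℝ) else 0) ≤ 2 * T.card := by
    rw [← sum_product', ← sum_filter, sum_const, nsmul_eq_mul, mul_one]
    have h2 : ((P ×ˢ P).filter (fun z => z.1 ≠ z.2 ∧ z.1 * z.2 ∈ T)).card ≤ (T ×ˢ (univ : Finset Bool)).card := by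
      apply card_le_card_of_injOn (fun z => (z.1 * z.2, decide (z.1 < z.2)))
      · intro z hz
        rw [mem_coe, mem_filter] at hz
        rw [mem_coe, mem_product]
        exact ⟨hz.2.2, mem_univ _⟩
      · intro z hz z' hz' heq
        rw [mem_coe, mem_filter, mem_product] at hz hz'
        simp only [Prod.mk.injEq, decide_eq_decide] at heq
        obtain ⟨h3, h4⟩ := heq
        have p1 := (hP _ hz.1.1).1
        have p2 := (hP _ hz.1.2).1
        have p3 := (hP _ hz'.1.1).1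
        have p4 := (hP _ hz'.1.2).1
        have h5 : z.1 ∣ z'.1 * z'.2 := ⟨z.2, h3.symm⟩
        rcases (Nat.Prime.dvd_mul p1).1 h5 with h6 | h6
        · have h7 : z.1 = z'.1 := (Nat.prime_dvd_prime_iff_eq p1 p3).1 h6
          rw [h7] at h3
          have h8 : z.2 = z'.2 := Nat.eq_of_mul_eq_mul_left p3.pos h3
          exact Prod.ext h7 h8
        · have h7 : z.1 = z'.2 := (Nat.prime_dvd_prime_iff_eq p1 p4).1 h6
          have h8 : z.2 = z'.1 := by
            rw [h7, mul_comm] at h3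
            exact Nat.eq_of_mul_eq_mul_right p4.pos h3
          rw [h7, h8] at h4
          have h9 := hz'.2.1
          omega
    rw [card_product] at h2
    have h3 : (univ : Finset Bool).card = 2 := rfl
    rw [h3] at h2
    have : (((P ×ˢ P).filter (fun z => z.1 ≠ z.2 ∧ z.1 * z.2 ∈ T)).card : ℝ) ≤ (T.card : ℝ) * 2 := by exact_mod_cast h2
    linarith
  rw [e1, e2]
  linarith

end Pool.Agent.R459.Eq
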