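import Pool.Agent.R459.Bsd1
import Pool.Agent.R459.Eq2
import Pool.Agent.H341R2.WeilSharp

/-! The logarithm of the local factor of the product of Birch and Swinnerton-Dyer and its mean over `n`. -/

set_option autoImplicit false

namespace Pool.Agent.R459.Bsd
open Finset
open Pool.Agent.W263.BSD (GoodPrime pointCount)
open Pool.Agent.R459.Eq (mean Per)

section local_
variable {p : ℕ} [Fact p.Prime]

open Polynomial in
/-- the bound of Hasse and Weil, also for singular curves -/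
lemma tr_abs (hp : p ≠ 2) (a n : ZMod p) : |tr p a n| ≤ 2 * √p := by
  have hF : ringChar (ZMod p) ≠ 2 := by rw [ZMod.ringChar_zmod_n]; exact hp
  obtain ⟨f, hf⟩ : ∃ f : (ZMod p)[X], f = X ^ 3 + (C a * X + C n) := ⟨_, rfl⟩
  have hd : f.natDegree = 3 := by
    rw [hf]
    compute_degree!
  have h1 := Pool.Agent.H341R2.Sharp.weil_sharp hF f (by omega) (by
    intro c h hch
    have h2 : (C c * h ^ 2).natDegree = 3 := by rw [← hch]; exact hd
    have hc : c ≠ 0 := by
      rintro rfl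
      rw [C_0, zero_mul, natDegree_zero] at h2
      omega
    rw [natDegree_C_mul hc, natDegree_pow] at h2
    omega)
  rw [hd, ZMod.card] at h1
  unfold tr
  rw [abs_neg]
  have h2 : ∑ x : ZMod p, ch p ((x ^ 3 + a * x) + n) = ∑ x : ZMod p, ((quadraticChar (ZMod p) (f.eval x) : ℤ) : ℝ) := by
    apply sum_congr rfl
    intro x _
    unfold ch
    congr 2
    rw [hf]
    simp
    ring
  rw [h2]
  refine h1.trans (le_of_eq ?_)
  norm_num

lemma sum_zmod (F : ZMod p → ℝ) : ∑ t ∈ range p, F ((t : ℤ) : ZMod p) = ∑ z : ZMod p, F z := by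
  haveI : NeZero p := ⟨(Fact.out : p.Prime).ne_zero⟩
  refine Finset.sum_nbij' (fun x => (x : ZMod p)) ZMod.val ?_ ?_ ?_ ?_ ?_
  · intro x _
    exact mem_univ _
  · intro z _
    rw [mem_range]
    exact ZMod.val_lt z
  · intro x hx
    rw [mem_range] at hx
    exact ZMod.val_cast_of_lt hx
  · intro z _
    exact ZMod.natCast_zmod_val z
  · intro x _
    simp

end local_

lemma log_le {y : ℝ} (hy : |y| ≤ 1 / 2) : |Real.log (1 + y) - (y - y ^ 2 / 2)| ≤ 2 * |y| ^ 3 ∧ |Real.log (1 + y)| ≤ 2 * |y| := by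
  have h1 : |(-y)| < 1 := by rw [abs_neg]; linarith
  have h2 := Real.abs_log_sub_add_sum_range_le h1 2
  have h3 := Real.abs_log_sub_add_sum_range_le h1 0
  rw [abs_neg] at h2 h3
  have h4 : (1 : ℝ) - |y| ≥ 1 / 2 := by linarith
  have h5 : 0 ≤ |y| := abs_nonneg y
  constructor
  · have e1 : ∑ i ∈ range 2, (-y) ^ (i + 1) / (i + 1) + Real.log (1 - -y) = Real.log (1 + y) - (y - y ^ 2 / 2) := by
      rw [sum_range_succ, sum_range_one]
      push_cast
      ring_nf
    rw [e1] at h2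
    refine h2.trans ?_
    rw [div_le_iff₀ (by linarith)]
    have h6 : 0 ≤ |y| ^ 3 := by positivity
    have h7 : |y| ^ (2 + 1) = |y| ^ 3 := rfl
    rw [h7]
    have h8 : |y| ^ 3 * (1 / 2) ≤ |y| ^ 3 * (1 - |y|) := mul_le_mul_of_nonneg_left h4 h6
    linarith
  · have e1 : ∑ i ∈ range 0, (-y) ^ (i + 1) / (i + 1) + Real.log (1 - -y) = Real.log (1 + y) := by
      rw [sum_range_zero]
      ring_nf
    rw [e1] at h3
    refine h3.trans ?_
    rw [div_le_iff₀ (by linarith), zero_add, pow_one]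
    have h8 : |y| * (1 / 2) ≤ |y| * (1 - |y|) := mul_le_mul_of_nonneg_left h4 h5
    linarith

open Classical in
/-- the logarithm of the local factor -/
noncomputable def GG (a : ℤ) (p : ℕ) (n : ℤ) : ℝ := if GoodPrime a n p then Real.log (((pointCount a n p : ℝ) + 1) / p) else 0

open Classical in
/-- the trace, `0` at the bad primes -/
noncomputable def TT (a : ℤ) (p : ℕ) (n : ℤ) : ℝ := if GoodPrime a n p then (p : ℝ) - pointCount a n p else 0

lemma good_iff {p : ℕ} (hpp : p.Prime) (hp5 : 5 ≤ p) [Fact p.Prime] (a n : ℤ) :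
    GoodPrime a n p ↔ (-4 * (a : ZMod p) ^ 3 - 27 * (n : ZMod p) ^ 2) ≠ 0 := by
  unfold GoodPrime
  have h2 : ¬ ((p : ℤ) ∣ 2) := by
    intro h
    have := Int.le_of_dvd (by norm_num) h
    omega
  have hpi : Prime (p : ℤ) := Nat.prime_iff_prime_int.1 hpp
  have h1 : ((p : ℤ) ∣ 2 * (-4 * a ^ 3 - 27 * n ^ 2)) ↔ (-4 * (a : ZMod p) ^ 3 - 27 * (n : ZMod p) ^ 2) = 0 := by
    rw [hpi.dvd_mul]
    have h3 : ((p : ℤ) ∣ (-4 * a ^ 3 - 27 * n ^ 2)) ↔ (-4 * (a : ZMod p) ^ 3 - 27 * (n : ZMod p) ^ 2) = 0 := by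
      rw [← ZMod.intCast_zmod_eq_zero_iff_dvd]
      push_cast
      exact Iff.rfl
    rw [h3]
    constructor
    · rintro (h | h)
      · exact absurd h h2
      · exact h
    · intro h
      exact Or.inr h
  rw [h1]
  constructor
  · rintro ⟨_, h⟩
    exact h
  · intro h
    exact ⟨hpp, h⟩

lemma good_per {p : ℕ} (a : ℤ) {m n : ℤ} (h : (p : ℤ) ∣ m - n) : GoodPrime a m p ↔ GoodPrime a n p := by
  unfold GoodPrime
  have h1 : (p : ℤ) ∣ 2 * (-4 * a ^ 3 - 27 * m ^ 2) - 2 * (-4 * a ^ 3 - 27 * n ^ 2) := by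
    have : 2 * (-4 * a ^ 3 - 27 * m ^ 2) - 2 * (-4 * a ^ 3 - 27 * n ^ 2) = (m - n) * (-54 * (m + n)) := by ring
    rw [this]
    exact h.mul_right _
  rw [(dvd_iff_dvd_of_dvd_sub h1)]

lemma pc_per {p : ℕ} (a : ℤ) {m n : ℤ} (h : (p : ℤ) ∣ m - n) : pointCount a m p = pointCount a n p := by
  have : ((m : ℤ) : ZMod p) = ((n : ℤ) : ZMod p) := by
    rw [← sub_eq_zero, ← Int.cast_sub, ZMod.intCast_zmod_eq_zero_iff_dvd]
    exact h
  unfold pointCount
  rw [this]

lemma GG_per (a : ℤ) (p : ℕ) : Per p (GG a p) := by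
  intro m n h
  classical
  unfold GG
  rw [pc_per a h]
  exact if_congr (good_per a h) rfl rfl

lemma TT_per (a : ℤ) (p : ℕ) : Per p (TT a p) := by
  intro m n h
  classical
  unfold TT
  rw [pc_per a h]
  exact if_congr (good_per a h) rfl rfl

/-- at the large primes the local factor is close to `1` -/
lemma y_le {p : ℕ} [Fact p.Prime] (hp29 : 29 ≤ p) (a n : ZMod p) : |(1 - tr p a n) / p| ≤ 3 / √p ∧ 3 / √(p : ℝ) ≤ 1 / 2 + 1 / 12 ∧
    |(1 - tr p a n) / p| ≤ 1 / 2 := by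
  have hp0 : (0 : ℝ) < p := by exact_mod_cast (by omega : 0 < p)
  have hs0 : 0 < √(p : ℝ) := Real.sqrt_pos.2 hp0
  have hs5 : (53 / 10 : ℝ) ≤ √(p : ℝ) := by
    apply Real.le_sqrt_of_sq_le
    have : (29 : ℝ) ≤ p := by exact_mod_cast hp29
    norm_num
    linarith
  have hss : √(p : ℝ) * √(p : ℝ) = p := Real.mul_self_sqrt hp0.le
  have h1 := tr_abs (p := p) (by omega) a n
  have h2 : |1 - tr p a n| ≤ 1 + 2 * √p := by
    calc |1 - tr p a n| ≤ |1| + |tr p a n| := abs_sub _ _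
      _ ≤ 1 + 2 * √p := by rw [abs_one]; linarith
  rw [abs_div, abs_of_pos hp0]
  refine ⟨?_, ?_, ?_⟩
  · rw [div_le_div_iff₀ hp0 hs0]
    calc |1 - tr p a n| * √p ≤ (1 + 2 * √p) * √p := mul_le_mul_of_nonneg_right h2 hs0.le
      _ ≤ 3 * (√(p : ℝ) * √(p : ℝ)) := by nlinarith
      _ = 3 * p := by rw [hss]
  · rw [div_le_iff₀ hs0]
    linarith
  · rw [div_le_iff₀ hp0, ← hss]
    nlinarith

lemma GG_eq {p : ℕ} [Fact p.Prime] (hp29 : 29 ≤ p) (a n : ℤ) (h : GoodPrime a n p) :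
    GG a p n = Real.log (1 + (1 - tr p a n) / p) := by
  unfold GG
  rw [if_pos h]
  have hp0 : (0 : ℝ) < p := by exact_mod_cast (by omega : 0 < p)
  have h1 := pc_eq (p := p) (by omega) a n
  congr 1
  rw [← h1]
  field_simp
  ring

lemma GG_abs {p : ℕ} (hpp : p.Prime) (hp29 : 29 ≤ p) (a n : ℤ) : |GG a p n| ≤ 6 / √p := by
  haveI : Fact p.Prime := ⟨hpp⟩
  by_cases h : GoodPrime a n p
  · rw [GG_eq hp29 a n h]
    have h1 := y_le hp29 (a : ZMod p) (n : ZMod p)
    have h2 := (log_le h1.2.2).2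
    have e : (6 : ℝ) / √p = 2 * (3 / √p) := by ring
    rw [e]
    linarith [h1.1]
  · unfold GG
    rw [if_neg h, abs_zero]
    positivity

lemma TT_abs {p : ℕ} (hpp : p.Prime) (hp : p ≠ 2) (a n : ℤ) : |TT a p n| ≤ 2 * √p := by
  haveI : Fact p.Prime := ⟨hpp⟩
  unfold TT
  split_ifs
  · rw [pc_eq hp]
    exact tr_abs hp _ _
  · rw [abs_zero]
    positivity

open Classical in
/-- few classes are bad -/
lemma bad_card {p : ℕ} (hpp : p.Prime) (hp5 : 5 ≤ p) [Fact p.Prime] (a : ZMod p) :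
    ((univ : Finset (ZMod p)).filter (fun z => ¬ (-4 * a ^ 3 - 27 * z ^ 2) ≠ 0)).card ≤ 2 := by
  have hp2 : p ≠ 2 := by omega
  have h3 : (3 : ZMod p) ≠ 0 := by
    intro h0
    have : ((3 : ℕ) : ZMod p) = 0 := by exact_mod_cast h0
    rw [ZMod.natCast_eq_zero_iff] at this
    have := Nat.le_of_dvd (by norm_num) this
    omega
  have h27 : (27 : ZMod p) ≠ 0 := by
    rw [show (27 : ZMod p) = 3 ^ 3 by norm_num]
    exact pow_ne_zero _ h3
  have h1 : ((univ : Finset (ZMod p)).filter (fun z => ¬ (-4 * a ^ 3 - 27 * z ^ 2) ≠ 0)).card ≤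
      ((univ : Finset (ZMod p)).filter (fun z => z ^ 2 = -4 * a ^ 3 / 27)).card := by
    apply card_le_card
    intro z hz
    rw [mem_filter, not_not] at hz
    rw [mem_filter]
    refine ⟨mem_univ _, ?_⟩
    field_simp
    linear_combination -hz.2
  have h5 := ch_sqrts hp2 (-4 * a ^ 3 / 27)
  have h6 := (abs_le.1 (ch_abs (-4 * a ^ 3 / 27))).2
  have h7 : (((univ : Finset (ZMod p)).filter (fun z => z ^ 2 = -4 * a ^ 3 / 27)).card : ℝ) ≤ 2 := by linarith
  have h8 : ((univ : Finset (ZMod p)).filter (fun z => z ^ 2 = -4 * a ^ 3 / 27)).card ≤ 2 := by exact_mod_cast h7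
  exact h1.trans h8

/-- the mean of the local factor -/
lemma mean_GG {p : ℕ} (hpp : p.Prime) (hp29 : 29 ≤ p) (a : ℤ) (ha : ¬ (p : ℤ) ∣ a) :
    |mean p (GG a p) - 1 / (2 * p)| ≤ 68 / (p * √p) := by
  classical
  haveI : Fact p.Prime := ⟨hpp⟩
  have hp0 : (0 : ℝ) < p := by exact_mod_cast hpp.pos
  have hp1 : (1 : ℝ) ≤ p := by exact_mod_cast hpp.one_le
  have hs0 : 0 < √(p : ℝ) := Real.sqrt_pos.2 hp0
  have hs1 : 1 ≤ √(p : ℝ) := by rw [Real.one_le_sqrt]; exact hp1
  have hss : √(p : ℝ) * √(p : ℝ) = p := Real.mul_self_sqrt hp0.le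
  have hsp : √(p : ℝ) ≤ p := by nlinarith
  have h3 : (3 : ZMod p) ≠ 0 := by
    intro h0
    have : ((3 : ℕ) : ZMod p) = 0 := by exact_mod_cast h0
    rw [ZMod.natCast_eq_zero_iff] at this
    have := Nat.le_of_dvd (by norm_num) this
    omega
  have ha' : (a : ZMod p) ≠ 0 := by
    rw [Ne, ZMod.intCast_zmod_eq_zero_iff_dvd]
    exact ha
  obtain ⟨y, hy⟩ : ∃ y : ZMod p → ℝ, y = fun z => (1 - tr p a z) / p := ⟨_, rfl⟩
  obtain ⟨Bd, hBd⟩ : ∃ Bd : ZMod p → Prop, Bd = fun z => ¬ (-4 * (a : ZMod p) ^ 3 - 27 * z ^ 2) ≠ 0 := ⟨_, rfl⟩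
  obtain ⟨e, he⟩ : ∃ e : ZMod p → ℝ, e = fun z => (if Bd z then 0 else Real.log (1 + y z)) - (y z - y z ^ 2 / 2) := ⟨_, rfl⟩
  have hmean : mean p (GG a p) = (∑ z : ZMod p, (if Bd z then 0 else Real.log (1 + y z))) / p := by
    unfold mean
    congr 1
    rw [← sum_zmod (p := p) (fun z => if Bd z then 0 else Real.log (1 + y z))]
    apply sum_congr rfl
    intro t _
    by_cases h : GoodPrime a t p
    · rw [GG_eq hp29 a t h, if_neg, hy]
      rw [hBd]
      simp only [not_not]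
      exact (good_iff hpp (by omega) a t).1 h
    · have h4 : Bd ((t : ℤ) : ZMod p) := by
        rw [hBd]
        intro h5
        exact h ((good_iff hpp (by omega) a t).2 h5)
      rw [if_pos h4]
      unfold GG
      rw [if_neg h]
  have hybd : ∀ z, |y z| ≤ 3 / √p ∧ |y z| ≤ 1 / 2 := by
    intro z
    rw [hy]
    have := y_le hp29 (a : ZMod p) z
    exact ⟨this.1, this.2.2⟩
  have hcube : (3 / √(p : ℝ)) ^ 3 = 27 / (p * √p) := by
    rw [div_pow]
    congr 1
    · norm_num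
    · rw [pow_succ, sq, hss]
  have he1 : ∀ z, |e z| ≤ 54 / (p * √p) + if Bd z then 6 / √p else 0 := by
    intro z
    have h4 := hybd z
    have h5 := log_le h4.2
    have h6 : |y z| ^ 3 ≤ 27 / (p * √p) := by
      rw [← hcube]
      exact pow_le_pow_left₀ (abs_nonneg _) h4.1 3
    have h7 : |Real.log (1 + y z) - (y z - y z ^ 2 / 2)| ≤ 54 / (p * √p) := by
      have e1 : (54 : ℝ) / (p * √p) = 2 * (27 / (p * √p)) := by ring
      rw [e1]
      linarith [h5.1]
    rw [he]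
    simp only
    by_cases hb : Bd z
    · rw [if_pos hb, if_pos hb]
      have e2 : (0 : ℝ) - (y z - y z ^ 2 / 2) = (Real.log (1 + y z) - (y z - y z ^ 2 / 2)) - Real.log (1 + y z) := by ring
      rw [e2]
      refine (abs_sub _ _).trans (add_le_add h7 (h5.2.trans ?_))
      have e3 : (6 : ℝ) / √p = 2 * (3 / √p) := by ring
      rw [e3]
      linarith [h4.1]
    · rw [if_neg hb, if_neg hb, add_zero]
      exact h7
  have hsum_e : |∑ z : ZMod p, e z| ≤ 54 / √p + 12 / √p := by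
    refine (abs_sum_le_sum_abs _ _).trans ((sum_le_sum fun z _ => he1 z).trans ?_)
    rw [sum_add_distrib, sum_const, card_univ, ZMod.card, nsmul_eq_mul, ← sum_filter, sum_const, nsmul_eq_mul]
    have h4 : (((univ : Finset (ZMod p)).filter (fun z => Bd z)).card : ℝ) ≤ 2 := by
      have := bad_card hpp (by omega) (a : ZMod p)
      rw [hBd]
      exact_mod_cast this
    apply add_le_add
    · apply le_of_eq
      field_simp
    · have : (0 : ℝ) ≤ 6 / √p := by positivity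
      calc _ ≤ 2 * (6 / √(p : ℝ)) := mul_le_mul_of_nonneg_right h4 this
        _ = _ := by ring
  have hmain : ∑ z : ZMod p, (y z - y z ^ 2 / 2) = 1 - (p + ∑ z : ZMod p, (tr p a z) ^ 2) / (2 * p ^ 2) := by
    have e1 : ∀ z : ZMod p, y z - y z ^ 2 / 2 = 1 / p - 1 / (2 * p ^ 2) - tr p a z * (1 / p - 1 / p ^ 2) - (tr p a z) ^ 2 * (1 / (2 * p ^ 2)) := by
      intro z
      rw [hy]
      field_simp
      ring
    rw [sum_congr rfl (fun z _ => e1 z), sum_sub_distrib, sum_sub_distrib, ← sum_mul, ← sum_mul, tr_mean (by omega), sum_const,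
      card_univ, ZMod.card, nsmul_eq_mul]
    field_simp
    ring
  have h4 := tr_sq (p := p) (by omega) h3 ha'
  have hdiff : mean p (GG a p) - 1 / (2 * p) = (∑ z : ZMod p, e z) / p -
      (p + (∑ z : ZMod p, (tr p a z) ^ 2 - (p : ℝ) ^ 2)) / (2 * p ^ 3) := by
    rw [hmean]
    have e2 : ∑ z : ZMod p, e z = ∑ z : ZMod p, (if Bd z then 0 else Real.log (1 + y z)) - ∑ z : ZMod p, (y z - y z ^ 2 / 2) := by
      rw [he, ← sum_sub_distrib]
    rw [e2, hmain]
    field_simp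
    ring
  rw [hdiff]
  have h5 : |(∑ z : ZMod p, e z) / p| ≤ 66 / (p * √p) := by
    rw [abs_div, abs_of_pos hp0, div_le_div_iff₀ hp0 (by positivity)]
    have h6 : 54 / √(p : ℝ) + 12 / √p = 66 / √p := by ring
    rw [h6] at hsum_e
    calc |∑ z : ZMod p, e z| * (p * √p) ≤ 66 / √p * (p * √p) := mul_le_mul_of_nonneg_right hsum_e (by positivity)
      _ = 66 * p := by field_simp
  have h6 : |(p + (∑ z : ZMod p, (tr p a z) ^ 2 - (p : ℝ) ^ 2)) / (2 * p ^ 3)| ≤ 2 / (p * √p) := by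
    rw [abs_div, abs_of_pos (show (0 : ℝ) < 2 * p ^ 3 by positivity), div_le_div_iff₀ (by positivity) (by positivity)]
    have h7 : |(p : ℝ) + (∑ z : ZMod p, (tr p a z) ^ 2 - (p : ℝ) ^ 2)| ≤ 4 * p := by
      refine (abs_add_le _ _).trans ?_
      rw [abs_of_pos hp0]
      linarith
    calc |(p : ℝ) + (∑ z : ZMod p, (tr p a z) ^ 2 - (p : ℝ) ^ 2)| * (p * √p) ≤ (4 * p) * (p * p) := by
          apply mul_le_mul h7 _ (by positivity) (by positivity)
          exact mul_le_mul_of_nonneg_left hsp hp0.le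
      _ = 2 * (2 * p ^ 3) := by ring
  have e3 : (68 : ℝ) / (p * √p) = 66 / (p * √p) + 2 / (p * √p) := by ring
  rw [e3]
  exact (abs_sub _ _).trans (add_le_add h5 h6)

/-- the mean of the trace -/
lemma mean_TT {p : ℕ} (hpp : p.Prime) (hp5 : 5 ≤ p) (a : ℤ) : |mean p (TT a p)| ≤ 4 / √p := by
  classical
  haveI : Fact p.Prime := ⟨hpp⟩
  have hp0 : (0 : ℝ) < p := by exact_mod_cast hpp.pos
  have hs0 : 0 < √(p : ℝ) := Real.sqrt_pos.2 hp0
  have hss : √(p : ℝ) * √(p : ℝ) = p := Real.mul_self_sqrt hp0.le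
  obtain ⟨Bd, hBd⟩ : ∃ Bd : ZMod p → Prop, Bd = fun z => ¬ (-4 * (a : ZMod p) ^ 3 - 27 * z ^ 2) ≠ 0 := ⟨_, rfl⟩
  have hmean : mean p (TT a p) = (-∑ z : ZMod p, (if Bd z then tr p a z else 0)) / p := by
    unfold mean
    congr 1
    have h1 : ∀ t ∈ range p, TT a p (t : ℤ) = tr p a ((t : ℤ) : ZMod p) - (if Bd ((t : ℤ) : ZMod p) then tr p a ((t : ℤ) : ZMod p) else 0) := by
      intro t _
      unfold TT
      by_cases h : GoodPrime a t p
      · rw [if_pos h, if_neg, sub_zero, pc_eq (by omega)]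
        rw [hBd]
        simp only [not_not]
        exact (good_iff hpp (by omega) a t).1 h
      · have h4 : Bd ((t : ℤ) : ZMod p) := by
          rw [hBd]
          intro h5
          exact h ((good_iff hpp (by omega) a t).2 h5)
        rw [if_neg h, if_pos h4, sub_self]
    rw [sum_congr rfl h1, sum_sub_distrib, sum_zmod (p := p) (fun z => tr p a z), sum_zmod (p := p) (fun z => if Bd z then tr p a z else 0),
      tr_mean (by omega)]
    ring
  rw [hmean, abs_div, abs_neg, abs_of_pos hp0, div_le_div_iff₀ hp0 hs0]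
  have h2 : |∑ z : ZMod p, (if Bd z then tr p a z else 0)| ≤ 2 * (2 * √p) := by
    refine (abs_sum_le_sum_abs _ _).trans ?_
    have h3 : ∀ z : ZMod p, |if Bd z then tr p a z else 0| ≤ if Bd z then 2 * √(p : ℝ) else 0 := by
      intro z
      split_ifs
      · exact tr_abs (by omega) _ _
      · simp
    refine (sum_le_sum fun z _ => h3 z).trans ?_
    rw [← sum_filter, sum_const, nsmul_eq_mul]
    apply mul_le_mul_of_nonneg_right _ (by positivity)
    have := bad_card hpp (by omega) (a : ZMod p)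
    rw [hBd]
    exact_mod_cast this
  calc |∑ z : ZMod p, (if Bd z then tr p a z else 0)| * √p ≤ 2 * (2 * √p) * √p := mul_le_mul_of_nonneg_right h2 hs0.le
    _ = 4 * (√(p : ℝ) * √(p : ℝ)) := by ring
    _ = 4 * p := by rw [hss]

end Pool.Agent.R459.Bsd
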