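import Pool.Agent.R459.Bsd2
import Pool.Agent.R459.Eq13
import Pool.Agent.Erdos456.Mertens

/-! The mean square of the logarithm of the product of Birch and Swinnerton-Dyer over digit families. -/

set_option autoImplicit false

namespace Pool.Agent.R459.Bsd
open Finset
open Pool.Agent.W263.BSD (GoodPrime pointCount)
open Pool.Agent.R459.Eq
open Pool.Agent.H807R2.Dav (ee)

/-- sums over a sparse set -/
lemma sparse_sum (C : ℝ) (hC : 0 < C) (T : Finset ℕ)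
    (hT : ∀ (M : ℕ) (T' : Finset ℕ), (∀ m ∈ T', m ∈ T ∧ m ≤ M) → (T'.card : ℝ) ≤ C * (M : ℝ) ^ (1 / ((4 : ℕ) : ℝ)))
    (h1 : ∀ m ∈ T, 1 ≤ m) : ∑ m ∈ T, 1 / √(m : ℝ) ≤ 16 * C := by
  classical
  obtain ⟨ρ, hρ⟩ : ∃ ρ : ℝ, ρ = (2 : ℝ) ^ (1 / ((4 : ℕ) : ℝ)) := ⟨_, rfl⟩
  have hρ0 : 0 < ρ := by rw [hρ]; positivity
  have hρ4 : ρ ^ 4 = 2 := by
    rw [hρ, ← Real.rpow_natCast, ← Real.rpow_mul (by norm_num)]
    norm_num
  have hρ1 : 1 < ρ := by
    rw [hρ]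
    exact Real.one_lt_rpow (by norm_num) (by norm_num)
  have hρ119 : (118 / 100 : ℝ) ≤ ρ := by
    by_contra hcon
    push Not at hcon
    have : ρ ^ 4 < (118 / 100) ^ 4 := pow_lt_pow_left₀ hcon hρ0.le (by norm_num)
    rw [hρ4] at this
    norm_num at this
  have hρ2 : ρ ≤ 2 := by
    have : ρ ^ 1 ≤ ρ ^ 4 := pow_le_pow_right₀ hρ1.le (by norm_num)
    rw [hρ4, pow_one] at this
    exact this
  obtain ⟨r, hr⟩ : ∃ r : ℝ, r = 1 / ρ := ⟨_, rfl⟩
  have hr0 : 0 < r := by rw [hr]; positivity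
  have hr1 : r ≤ 7 / 8 := by
    rw [hr, div_le_iff₀ hρ0]
    linarith
  have hgroup : ∑ m ∈ T, 1 / √(m : ℝ) = ∑ j ∈ T.image (Nat.log 2), ∑ m ∈ T.filter (fun m => Nat.log 2 m = j), 1 / √(m : ℝ) :=
    (sum_fiberwise_of_maps_to (fun m hm => mem_image_of_mem _ hm) _).symm
  rw [hgroup]
  have hone : ∀ j ∈ T.image (Nat.log 2), ∑ m ∈ T.filter (fun m => Nat.log 2 m = j), 1 / √(m : ℝ) ≤ 2 * C * r ^ j := by
    intro j _
    have hsq : √((2 : ℝ) ^ j) = (ρ ^ 2) ^ j := by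
      rw [Real.sqrt_eq_iff_mul_self_eq (by positivity) (by positivity), ← pow_mul, ← pow_add, ← hρ4, ← pow_mul]
      congr 1
      ring
    have h2 : ∀ m ∈ T.filter (fun m => Nat.log 2 m = j), 1 / √(m : ℝ) ≤ 1 / (ρ ^ 2) ^ j := by
      intro m hm
      rw [mem_filter] at hm
      have hm1 := h1 m hm.1
      have h3 : 2 ^ j ≤ m := by
        rw [← hm.2]
        exact Nat.pow_log_le_self 2 (by omega)
      rw [← hsq]
      apply one_div_le_one_div_of_le (Real.sqrt_pos.2 (by positivity))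
      apply Real.sqrt_le_sqrt
      exact_mod_cast h3
    refine (sum_le_card_nsmul _ _ _ h2).trans ?_
    rw [nsmul_eq_mul]
    have h3 := hT (2 ^ (j + 1)) (T.filter (fun m => Nat.log 2 m = j)) (by
      intro m hm
      rw [mem_filter] at hm
      refine ⟨hm.1, ?_⟩
      have := Nat.lt_pow_succ_log_self (by norm_num : 1 < 2) m
      rw [hm.2] at this
      exact this.le)
    have h4 : (((2 ^ (j + 1) : ℕ)) : ℝ) ^ (1 / ((4 : ℕ) : ℝ)) = ρ ^ (j + 1) := by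
      push_cast
      rw [hρ, ← Real.rpow_natCast 2 (j + 1), ← Real.rpow_natCast, ← Real.rpow_mul (by norm_num), ← Real.rpow_mul (by norm_num)]
      congr 1
      push_cast
      ring
    rw [h4] at h3
    calc (((T.filter (fun m => Nat.log 2 m = j)).card : ℕ) : ℝ) * (1 / (ρ ^ 2) ^ j) ≤ (C * ρ ^ (j + 1)) * (1 / (ρ ^ 2) ^ j) :=
          mul_le_mul_of_nonneg_right h3 (by positivity)
      _ = C * ρ * r ^ j := by
          rw [hr, ← pow_mul, div_pow, one_pow]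
          field_simp
          ring
      _ ≤ 2 * C * r ^ j := by
          apply mul_le_mul_of_nonneg_right _ (by positivity)
          nlinarith
  refine (sum_le_sum hone).trans ?_
  rw [← mul_sum]
  have hgeo : ∑ j ∈ T.image (Nat.log 2), r ^ j ≤ 8 := by
    have hs := summable_geometric_of_lt_one hr0.le (by linarith : r < 1)
    refine (hs.sum_le_tsum _ fun i _ => by positivity).trans ?_
    rw [tsum_geometric_of_lt_one hr0.le (by linarith : r < 1), inv_le_comm₀ (by linarith) (by norm_num)]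
    linarith
  calc 2 * C * ∑ j ∈ T.image (Nat.log 2), r ^ j ≤ 2 * C * 8 := mul_le_mul_of_nonneg_left hgeo (by positivity)
    _ = 16 * C := by ring

open Classical in
/-- the second moment with weights -/
theorem wms (b : ℕ) (hb : 2 ≤ b) (A : ℕ) (γ : ℝ) (hγ0 : 0 < γ) (hγ1 : γ < 1) : ∃ W : ℕ, 1 ≤ W ∧
    ∀ (F : ℕ) (κ : ℤ), 1 ≤ F → κ ≠ 0 → ∃ (S : Set ℕ) (C : ℝ), 0 < C ∧
    (∀ (M : ℕ) (T : Finset ℕ), (∀ m ∈ T, m ∈ S ∧ 1 ≤ m ∧ m ≤ M) → (T.card : ℝ) ≤ C * (M : ℝ) ^ (1 / ((4 : ℕ) : ℝ))) ∧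
    ∀ (k x : ℕ), b ≤ x → x ^ W ≤ b ^ k →
    ∀ (ι : Type) (Ω : Finset ι) (w : ι → ℝ) (v : ι → ℤ), Decays b F A k γ κ Ω w v →
    ∀ P : Finset ℕ, (∀ p ∈ P, p.Prime ∧ p ≤ x ∧ ¬ p ∣ b) → ∀ (f : ℕ → ℤ → ℝ) (c h : ℕ → ℝ), (∀ p, 0 ≤ c p ∧ c p ≤ 1) →
      (∀ p ∈ P, ∀ n, |f p n| ≤ c p) → (∀ p ∈ P, Per p (f p)) → (∀ m, 0 ≤ h m) → (∀ p ∈ P, ∀ q ∈ P, c p * c q ≤ h (p * q)) →
      ∑ i ∈ Ω, w i * (∑ p ∈ P, (f p (v i) - mean p (f p))) ^ 2 ≤
        4 * ∑ p ∈ P, (c p) ^ 2 + 8 * ∑ m ∈ (Icc 1 (x ^ 2)).filter (fun m => m ∈ S), h m + 1 := by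
  obtain ⟨W, hW, H⟩ := good b hb A γ hγ0 hγ1 4 5 (by norm_num)
  refine ⟨W, hW, fun F κ hF hκ => ?_⟩
  obtain ⟨S, C, hC, hcount, hgood⟩ := H F κ hF hκ
  refine ⟨S, C, hC, hcount, fun k x hbx hxW ι Ω w v hdec P hP f c h hc hf hper h0 hh => ?_⟩
  have hx1 : 1 ≤ x := by omega
  have hx0 : (0 : ℝ) < x := by exact_mod_cast hx1
  have hxr : (1 : ℝ) ≤ x := by exact_mod_cast hx1
  have h1 := vvar Ω w hdec.nonneg hdec.sum v x P (fun p hp => ⟨(hP p hp).1, (hP p hp).2.1⟩) ({()} : Finset Unit) (fun _ => f) c hc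
    (by
      intro p hp n
      rw [sum_singleton, ← sq_abs]
      exact pow_le_pow_left₀ (abs_nonneg _) (hf p hp n) 2) (fun _ _ => hper) (1 / (x : ℝ) ^ 5) (by positivity) S
    h h0 hh (by
      intro p hp q hq hpq hin a ha
      have hpp := (hP p hp).1
      have hqp := (hP q hq).1
      refine hgood k x hbx hxW ι Ω w v hdec (p * q) (Nat.mul_pos hpp.pos hqp.pos) ?_ hin ?_ a ha
      · calc p * q ≤ x * x := Nat.mul_le_mul (hP p hp).2.1 (hP q hq).2.1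
          _ = x ^ 2 := by ring
          _ ≤ x ^ 5 := Nat.pow_le_pow_right (by omega) (by norm_num)
      · apply Nat.Coprime.mul_right
        · exact ((Nat.Prime.coprime_iff_not_dvd hpp).2 (hP p hp).2.2).symm
        · exact ((Nat.Prime.coprime_iff_not_dvd hqp).2 (hP q hq).2.2).symm)
  rw [sum_singleton, card_singleton] at h1
  refine h1.trans ?_
  have hPc : (P.card : ℝ) ≤ x := by
    have h1 : P ⊆ Icc 1 x := by
      intro p hp
      rw [mem_Icc]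
      exact ⟨(hP p hp).1.one_le, (hP p hp).2.1⟩
    have h2 := card_le_card h1
    rw [Nat.card_Icc, Nat.add_sub_cancel] at h2
    exact_mod_cast h2
  have h4 : (P.card : ℝ) ^ 2 * (x : ℝ) ^ 2 * (1 / (x : ℝ) ^ 5) ≤ 1 := by
    rw [mul_one_div, div_le_one (by positivity)]
    calc (P.card : ℝ) ^ 2 * (x : ℝ) ^ 2 ≤ (x : ℝ) ^ 2 * (x : ℝ) ^ 2 :=
          mul_le_mul_of_nonneg_right (pow_le_pow_left₀ (Nat.cast_nonneg _) hPc _) (by positivity)
      _ = (x : ℝ) ^ 4 := by ring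
      _ ≤ (x : ℝ) ^ 5 := pow_le_pow_right₀ hxr (by norm_num)
  push_cast
  linarith

lemma sum_p32 : ∃ K : ℝ, 0 ≤ K ∧ ∀ P : Finset ℕ, ∑ p ∈ P, 1 / ((p : ℝ) * √p) ≤ K := by
  have hs : Summable (fun n : ℕ => 1 / (n : ℝ) ^ (3 / 2 : ℝ)) := Real.summable_one_div_nat_rpow.2 (by norm_num)
  have e : ∀ n : ℕ, 1 / ((n : ℝ) * √n) = 1 / (n : ℝ) ^ (3 / 2 : ℝ) := by
    intro n
    congr 1
    rcases Nat.eq_zero_or_pos n with h | h
    · rw [h, Nat.cast_zero, zero_mul, Real.zero_rpow (by norm_num)]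
    · have hn : (0 : ℝ) < n := by exact_mod_cast h
      rw [Real.sqrt_eq_rpow, show (3 / 2 : ℝ) = 1 + 1 / 2 by norm_num, Real.rpow_add hn, Real.rpow_one]
  refine ⟨∑' n : ℕ, 1 / (n : ℝ) ^ (3 / 2 : ℝ), tsum_nonneg fun n => by positivity, fun P => ?_⟩
  rw [sum_congr rfl (fun p _ => e p)]
  exact hs.sum_le_tsum _ fun i _ => by positivity

/-- the product of Birch and Swinnerton-Dyer: its logarithm as a sum -/
lemma sum_pri_split (p₀ x : ℕ) (g : ℕ → ℝ) : ∑ p ∈ pri x, g p = ∑ p ∈ (pri x).filter (fun p => p < p₀), g p +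
    ∑ p ∈ (pri x).filter (fun p => ¬ p < p₀), g p := (sum_filter_add_sum_filter_not _ _ _).symm

/-- the sum of the reciprocals of the primes -/
lemma mertens (p₀ : ℕ) : ∃ K : ℝ, 0 ≤ K ∧ ∀ x : ℕ, 3 ≤ x →
    |∑ p ∈ (pri x).filter (fun p => ¬ p < p₀), (1 : ℝ) / p - Real.log (Real.log x)| ≤ K := by
  obtain ⟨C, hC⟩ := Pool.Agent.Erdos456.Mert.mertens_inv
  have hC0 : 0 ≤ C := (abs_nonneg _).trans (hC 3 le_rfl)
  refine ⟨C + p₀, by positivity, fun x hx => ?_⟩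
  have h1 := hC x hx
  have e : (Icc 1 x).filter Nat.Prime = pri x := by
    ext p
    rw [mem_filter, mem_Icc, mem_pri]
    constructor
    · rintro ⟨⟨_, h2⟩, h3⟩
      exact ⟨h2, h3⟩
    · rintro ⟨h2, h3⟩
      exact ⟨⟨h3.one_le, h2⟩, h3⟩
  rw [e, sum_pri_split p₀] at h1
  have h2 : 0 ≤ ∑ p ∈ (pri x).filter (fun p => p < p₀), (1 : ℝ) / p := sum_nonneg fun p _ => by positivity
  have h3 : ∑ p ∈ (pri x).filter (fun p => p < p₀), (1 : ℝ) / p ≤ p₀ := by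
    have h4 : ∀ p ∈ (pri x).filter (fun p => p < p₀), (1 : ℝ) / p ≤ 1 := by
      intro p hp
      rw [mem_filter, mem_pri] at hp
      have : (1 : ℝ) ≤ p := by exact_mod_cast hp.1.2.one_le
      rw [div_le_one (by linarith)]
      exact this
    refine (sum_le_card_nsmul _ _ _ h4).trans ?_
    rw [nsmul_eq_mul, mul_one]
    have h5 : (pri x).filter (fun p => p < p₀) ⊆ range p₀ := by
      intro p hp
      rw [mem_range]
      exact (mem_filter.1 hp).2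
    have h6 := card_le_card h5
    rw [card_range] at h6
    exact_mod_cast h6
  rw [abs_le] at h1 ⊢
  constructor <;> linarith [h1.1, h1.2]

/-- the crude bound at the small primes -/
lemma GG_crude {p : ℕ} (hpp : p.Prime) (a n : ℤ) : |GG a p n| ≤ (p : ℝ) ^ 2 := by
  haveI : Fact p.Prime := ⟨hpp⟩
  haveI : NeZero p := ⟨hpp.ne_zero⟩
  have hp1 : (1 : ℝ) ≤ p := by exact_mod_cast hpp.one_le
  have hp0 : (0 : ℝ) < p := by linarith
  unfold GG
  split_ifs with h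
  · have h1 : (pointCount a n p : ℝ) ≤ (p : ℝ) ^ 2 := by
      have h2 : pointCount a n p ≤ p ^ 2 := by
        classical
        unfold pointCount
        rw [Nat.card_eq_fintype_card]
        refine (Fintype.card_subtype_le _).trans (le_of_eq ?_)
        rw [Fintype.card_prod, ZMod.card, sq]
      exact_mod_cast h2
    have h0 : (0 : ℝ) ≤ pointCount a n p := Nat.cast_nonneg _
    have h3 : 0 < ((pointCount a n p : ℝ) + 1) / p := by positivity
    rw [abs_le]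
    constructor
    · have h4 : -((p : ℝ) ^ 2) ≤ -Real.log p := by
        have := Real.log_le_sub_one_of_pos hp0
        nlinarith
      refine h4.trans ?_
      rw [← Real.log_inv]
      apply Real.log_le_log (by positivity)
      rw [inv_eq_one_div]
      apply div_le_div_of_nonneg_right _ hp0.le
      linarith
    · have h5 := Real.log_le_sub_one_of_pos h3
      refine h5.trans ?_
      rw [sub_le_iff_le_add, div_le_iff₀ hp0]
      nlinarith
  · rw [abs_zero]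
    positivity

lemma TT_crude {p : ℕ} (hpp : p.Prime) (a n : ℤ) : |TT a p n| ≤ 2 * (p : ℝ) ^ 2 := by
  haveI : Fact p.Prime := ⟨hpp⟩
  haveI : NeZero p := ⟨hpp.ne_zero⟩
  have hp1 : (1 : ℝ) ≤ p := by exact_mod_cast hpp.one_le
  have hp0 : (0 : ℝ) < p := by linarith
  unfold TT
  split_ifs with h
  · have h1 : (pointCount a n p : ℝ) ≤ (p : ℝ) ^ 2 := by
      have h2 : pointCount a n p ≤ p ^ 2 := by
        classical
        unfold pointCount
        rw [Nat.card_eq_fintype_card]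
        refine (Fintype.card_subtype_le _).trans (le_of_eq ?_)
        rw [Fintype.card_prod, ZMod.card, sq]
      exact_mod_cast h2
    have h0 : (0 : ℝ) ≤ pointCount a n p := Nat.cast_nonneg _
    rw [abs_le]
    constructor <;> nlinarith
  · rw [abs_zero]
    positivity

/-- the mean square of the logarithm of the product -/
theorem log_ms (b : ℕ) (hb : 2 ≤ b) (A : ℕ) (γ : ℝ) (hγ0 : 0 < γ) (hγ1 : γ < 1) : ∃ W : ℕ, 1 ≤ W ∧
    ∀ (F : ℕ) (κ : ℤ), 1 ≤ F → κ ≠ 0 → ∀ a : ℤ, a ≠ 0 → ∃ C : ℝ, 0 < C ∧ ∀ (k x : ℕ), 16 ≤ x → b ≤ x → x ^ W ≤ b ^ k →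
    ∀ (ι : Type) (Ω : Finset ι) (w : ι → ℝ) (v : ι → ℤ), Decays b F A k γ κ Ω w v →
      ∑ i ∈ Ω, w i * (∑ p ∈ pri x, GG a p (v i) - Real.log (Real.log x) / 2) ^ 2 ≤ C * Real.log (Real.log x) := by
  classical
  obtain ⟨W, hW, H⟩ := wms b hb A γ hγ0 hγ1
  refine ⟨W, hW, fun F κ hF hκ a ha => ?_⟩
  obtain ⟨S, C, hC, hcount, hmain⟩ := H F κ hF hκ
  obtain ⟨p₀, hp₀⟩ : ∃ p₀ : ℕ, p₀ = 29 + a.natAbs + b + 1 := ⟨_, rfl⟩
  obtain ⟨K₁, hK₁, hmert⟩ := mertens p₀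
  obtain ⟨K₂, hK₂, hp32⟩ := sum_p32
  obtain ⟨K₃, hK₃⟩ : ∃ K₃ : ℝ, K₃ = (p₀ : ℝ) * (p₀ : ℝ) ^ 2 := ⟨_, rfl⟩
  obtain ⟨K₄, hK₄⟩ : ∃ K₄ : ℝ, K₄ = 68 * K₂ + K₁ / 2 := ⟨_, rfl⟩
  have hK₃0 : 0 ≤ K₃ := by rw [hK₃]; positivity
  have hK₄0 : 0 ≤ K₄ := by rw [hK₄]; positivity
  refine ⟨3 * (K₃ ^ 2 + K₄ ^ 2 + 36 * (4 * (1 + K₁) + 128 * C + 1)), by positivity, fun k x hx16 hbx hxW ι Ω w v hdec => ?_⟩
  have hxr : (16 : ℝ) ≤ x := by exact_mod_cast hx16
  obtain ⟨ℓ, hℓ⟩ : ∃ ℓ, ℓ = Real.log (Real.log x) := ⟨_, rfl⟩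
  have hℓ1 : 1 ≤ ℓ := by
    have h1 : Real.exp 1 ≤ Real.log x := by
      rw [Real.le_log_iff_exp_le (by linarith)]
      have h2 := Real.exp_one_lt_d9
      calc Real.exp (Real.exp 1) ≤ Real.exp (2.7182818286) := Real.exp_le_exp.2 h2.le
        _ ≤ 16 := by
          have h3 : Real.exp (2.7182818286) = (Real.exp (2.7182818286 / 4)) ^ 4 := by
            rw [← Real.exp_nat_mul]
            congr 1
            norm_num
          rw [h3]
          have h4 : Real.exp (2.7182818286 / 4) ≤ 2 := by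
            have h5 : (2.7182818286 / 4 : ℝ) ≤ Real.log 2 := by
              have := Real.log_two_gt_d9
              norm_num
              linarith
            calc Real.exp (2.7182818286 / 4) ≤ Real.exp (Real.log 2) := Real.exp_le_exp.2 h5
              _ = 2 := Real.exp_log (by norm_num)
          calc (Real.exp (2.7182818286 / 4)) ^ 4 ≤ 2 ^ 4 := pow_le_pow_left₀ (Real.exp_pos _).le h4 4
            _ = 16 := by norm_num
        _ ≤ x := hxr
    rw [hℓ, Real.le_log_iff_exp_le (lt_of_lt_of_le (Real.exp_pos 1) h1)]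
    exact h1
  obtain ⟨P, hP⟩ : ∃ P : Finset ℕ, P = (pri x).filter (fun p => ¬ p < p₀) := ⟨_, rfl⟩
  have hPm : ∀ p ∈ P, p.Prime ∧ p ≤ x ∧ p₀ ≤ p := by
    intro p hp
    rw [hP, mem_filter, mem_pri] at hp
    exact ⟨hp.1.2, hp.1.1, by omega⟩
  have hPb : ∀ p ∈ P, p.Prime ∧ p ≤ x ∧ ¬ p ∣ b := by
    intro p hp
    have h1 := hPm p hp
    refine ⟨h1.1, h1.2.1, fun h2 => ?_⟩
    have := Nat.le_of_dvd (by omega) h2
    omega
  have hPa : ∀ p ∈ P, ¬ (p : ℤ) ∣ a := by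
    intro p hp h2
    have h1 := hPm p hp
    have h3 : p ∣ a.natAbs := Int.natCast_dvd.1 h2
    have := Nat.le_of_dvd (Int.natAbs_pos.2 ha) h3
    omega
  have h1 := hmain k x hbx hxW ι Ω w v hdec P hPb (fun p n => GG a p n / 6) (fun p => 1 / √p) (fun m => 1 / √m)
    (by
      intro p
      refine ⟨by positivity, ?_⟩
      rcases Nat.eq_zero_or_pos p with h | h
      · rw [h]; simp
      · have : (1 : ℝ) ≤ √p := by rw [Real.one_le_sqrt]; exact_mod_cast h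
        rw [div_le_one (by linarith)]
        exact this)
    (by
      intro p hp n
      have h2 := GG_abs (hPm p hp).1 (by have := (hPm p hp).2.2; omega) a n
      rw [abs_div, abs_of_pos (show (0 : ℝ) < 6 by norm_num), div_le_iff₀ (by norm_num)]
      refine h2.trans (le_of_eq (by ring)))
    (by
      intro p hp m n hmn
      show GG a p m / 6 = GG a p n / 6
      rw [GG_per a p m n hmn])
    (by intro m; positivity)
    (by
      intro p _ q _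
      push_cast
      rw [Real.sqrt_mul (Nat.cast_nonneg _), one_div_mul_one_div])
  have hsp : ∑ m ∈ (Icc 1 (x ^ 2)).filter (fun m => m ∈ S), 1 / √(m : ℝ) ≤ 16 * C := by
    apply sparse_sum C hC
    · intro M T' hT'
      refine hcount M T' fun m hm => ?_
      have h2 := hT' m hm
      rw [mem_filter, mem_Icc] at h2
      exact ⟨h2.1.2, h2.1.1.1, h2.2⟩
    · intro m hm
      rw [mem_filter, mem_Icc] at hm
      exact hm.1.1
  have hc2 : ∑ p ∈ P, (1 / √(p : ℝ)) ^ 2 ≤ ℓ + K₁ := by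
    have h2 : ∀ p ∈ P, (1 / √(p : ℝ)) ^ 2 = 1 / p := by
      intro p _
      rw [div_pow, one_pow, Real.sq_sqrt (Nat.cast_nonneg _)]
    rw [sum_congr rfl h2, hP]
    have := (abs_le.1 (hmert x (by omega))).2
    rw [hℓ]
    linarith
  have hmean6 : ∀ p, mean p (fun n => GG a p n / 6) = mean p (GG a p) / 6 := by
    intro p
    unfold mean
    rw [← sum_div]
    ring
  obtain ⟨Bi, hBi⟩ : ∃ Bi : ι → ℝ, Bi = fun i => ∑ p ∈ P, (GG a p (v i) - mean p (GG a p)) := ⟨_, rfl⟩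
  have hB : ∑ i ∈ Ω, w i * (Bi i) ^ 2 ≤ 36 * (4 * (ℓ + K₁) + 128 * C + 1) := by
    have h2 : ∀ i ∈ Ω, w i * (Bi i) ^ 2 = 36 * (w i * (∑ p ∈ P, (GG a p (v i) / 6 - mean p (fun n => GG a p n / 6))) ^ 2) := by
      intro i _
      have h3 : ∑ p ∈ P, (GG a p (v i) / 6 - mean p (fun n => GG a p n / 6)) = Bi i / 6 := by
        rw [hBi, sum_div]
        apply sum_congr rfl
        intro p _
        rw [hmean6]
        ring
      rw [h3]
      ring
    rw [sum_congr rfl h2, ← mul_sum]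
    apply mul_le_mul_of_nonneg_left _ (by norm_num)
    linarith
  have hCc : |∑ p ∈ P, mean p (GG a p) - ℓ / 2| ≤ K₄ := by
    have h2 : |∑ p ∈ P, (mean p (GG a p) - 1 / (2 * p))| ≤ 68 * K₂ := by
      refine (abs_sum_le_sum_abs _ _).trans ?_
      have h3 : ∀ p ∈ P, |mean p (GG a p) - 1 / (2 * p)| ≤ 68 * (1 / ((p : ℝ) * √p)) := by
        intro p hp
        have := mean_GG (hPm p hp).1 (by have := (hPm p hp).2.2; omega) a (hPa p hp)
        refine this.trans (le_of_eq (by ring))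
      refine (sum_le_sum h3).trans ?_
      rw [← mul_sum]
      exact mul_le_mul_of_nonneg_left (hp32 P) (by norm_num)
    have h3 : ∑ p ∈ P, mean p (GG a p) - ℓ / 2 = ∑ p ∈ P, (mean p (GG a p) - 1 / (2 * p)) + (∑ p ∈ P, (1 : ℝ) / p - ℓ) / 2 := by
      rw [sum_sub_distrib]
      have h4 : ∑ p ∈ P, (1 : ℝ) / (2 * p) = (∑ p ∈ P, (1 : ℝ) / p) / 2 := by
        rw [sum_div]
        apply sum_congr rfl
        intro p _
        rw [div_div, mul_comm]
      rw [h4]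
      ring
    rw [h3, hK₄]
    refine (abs_add_le _ _).trans (add_le_add h2 ?_)
    rw [abs_div, abs_of_pos (show (0 : ℝ) < 2 by norm_num), hP, hℓ]
    exact div_le_div_of_nonneg_right (hmert x (by omega)) (by norm_num)
  have hA : ∀ i, |∑ p ∈ (pri x).filter (fun p => p < p₀), GG a p (v i)| ≤ K₃ := by
    intro i
    refine (abs_sum_le_sum_abs _ _).trans ?_
    have h2 : ∀ p ∈ (pri x).filter (fun p => p < p₀), |GG a p (v i)| ≤ (p₀ : ℝ) ^ 2 := by
      intro p hp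
      rw [mem_filter, mem_pri] at hp
      refine (GG_crude hp.1.2 a (v i)).trans ?_
      apply pow_le_pow_left₀ (Nat.cast_nonneg _)
      exact_mod_cast hp.2.le
    refine (sum_le_card_nsmul _ _ _ h2).trans ?_
    rw [nsmul_eq_mul, hK₃]
    apply mul_le_mul_of_nonneg_right _ (by positivity)
    have h5 : (pri x).filter (fun p => p < p₀) ⊆ range p₀ := by
      intro p hp
      rw [mem_range]
      exact (mem_filter.1 hp).2
    have h6 := card_le_card h5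
    rw [card_range] at h6
    exact_mod_cast h6
  rw [← hℓ]
  have hterm : ∀ i ∈ Ω, w i * (∑ p ∈ pri x, GG a p (v i) - ℓ / 2) ^ 2 ≤ 3 * (K₃ ^ 2 + K₄ ^ 2) * w i + 3 * (w i * (Bi i) ^ 2) := by
    intro i hi
    obtain ⟨α, hα⟩ : ∃ α, α = ∑ p ∈ (pri x).filter (fun p => p < p₀), GG a p (v i) := ⟨_, rfl⟩
    obtain ⟨β, hβ⟩ : ∃ β, β = ∑ p ∈ P, mean p (GG a p) - ℓ / 2 := ⟨_, rfl⟩
    have h2 : ∑ p ∈ pri x, GG a p (v i) - ℓ / 2 = α + Bi i + β := by
      rw [sum_pri_split p₀, ← hP, hα, hβ, hBi]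
      simp only [sum_sub_distrib]
      ring
    have h3 : α ^ 2 ≤ K₃ ^ 2 := by
      rw [← sq_abs, hα]
      exact pow_le_pow_left₀ (abs_nonneg _) (hA i) 2
    have h4 : β ^ 2 ≤ K₄ ^ 2 := by
      rw [← sq_abs, hβ]
      exact pow_le_pow_left₀ (abs_nonneg _) hCc 2
    rw [h2]
    have h5 : (α + Bi i + β) ^ 2 ≤ 3 * (K₃ ^ 2 + K₄ ^ 2) + 3 * (Bi i) ^ 2 := by
      nlinarith [sq_nonneg (α - Bi i), sq_nonneg (α - β), sq_nonneg (Bi i - β)]
    have h6 := hdec.nonneg i hi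
    calc w i * (α + Bi i + β) ^ 2 ≤ w i * (3 * (K₃ ^ 2 + K₄ ^ 2) + 3 * (Bi i) ^ 2) := mul_le_mul_of_nonneg_left h5 h6
      _ = _ := by ring
  refine (sum_le_sum hterm).trans ?_
  rw [sum_add_distrib, ← mul_sum, hdec.sum, ← mul_sum]
  have h7 : 0 ≤ K₃ ^ 2 + K₄ ^ 2 := by positivity
  have h8 : 36 * (4 * (ℓ + K₁) + 128 * C + 1) ≤ 36 * (4 * (1 + K₁) + 128 * C + 1) * ℓ := by
    have : 0 ≤ K₁ * (ℓ - 1) := mul_nonneg hK₁ (by linarith)
    have : 0 ≤ C * (ℓ - 1) := mul_nonneg hC.le (by linarith)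
    nlinarith
  have h9 : K₃ ^ 2 + K₄ ^ 2 ≤ (K₃ ^ 2 + K₄ ^ 2) * ℓ := le_mul_of_one_le_right h7 hℓ1
  nlinarith

end Pool.Agent.R459.Bsd
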