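import Pool.Agent.R459.Eq9

/-! The second moment of sums of functions with pairwise coprime periods. -/

set_option autoImplicit false

namespace Pool.Agent.R459.Bx
open Finset Pool.Agent.R459.Eq
open Pool.Agent.H807R2.Dav

lemma covB {ι : Type} (Ω : Finset ι) (w : ι → ℝ) (v : ι → ℤ) (p q : ℕ) (hp : 1 ≤ p) (hq : 1 ≤ q)
    (f g : ℤ → ℝ) (hf : ∀ n, |f n| ≤ 1) (hg : ∀ n, |g n| ≤ 1) (hfp : Per p f) (hgq : Per q g) (τ : ℝ) (hτ0 : 0 ≤ τ)
    (hτ : ∀ a ∈ Ico 1 p, ∀ b ∈ Ico 1 q, ‖∑ i ∈ Ω, (w i : ℂ) * ee ((v i : ℝ) * (((a * q + b * p : ℕ) : ℝ) / ((p * q : ℕ) : ℝ)))‖ ≤ τ) :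
    |∑ i ∈ Ω, w i * ((f (v i) - mean p f) * (g (v i) - mean q g))| ≤ p * q * τ := by
  have hp0 : (p : ℝ) ≠ 0 := by exact_mod_cast (by omega : p ≠ 0)
  have hq0 : (q : ℝ) ≠ 0 := by exact_mod_cast (by omega : q ≠ 0)
  have h1 : ((∑ i ∈ Ω, w i * ((f (v i) - mean p f) * (g (v i) - mean q g)) : ℝ) : ℂ) =
      ∑ a ∈ Ico 1 p, ∑ b ∈ Ico 1 q, co p f a * co q g b *
        ∑ i ∈ Ω, (w i : ℂ) * ee ((v i : ℝ) * (((a * q + b * p : ℕ) : ℝ) / ((p * q : ℕ) : ℝ))) := by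
    rw [Complex.ofReal_sum]
    simp only [mul_sum]
    have e0 : ∀ i ∈ Ω, ((w i * ((f (v i) - mean p f) * (g (v i) - mean q g)) : ℝ) : ℂ) =
        ∑ a ∈ Ico 1 p, ∑ b ∈ Ico 1 q, co p f a * co q g b *
        ((w i : ℂ) * ee ((v i : ℝ) * (((a * q + b * p : ℕ) : ℝ) / ((p * q : ℕ) : ℝ)))) := by
      intro i _
      rw [Complex.ofReal_mul, Complex.ofReal_mul, centered p hp f hfp, centered q hq g hgq, sum_mul_sum, mul_sum]
      apply sum_congr rfl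
      intro a _
      rw [mul_sum]
      apply sum_congr rfl
      intro b _
      have e1 : ee ((v i : ℝ) * (((a * q + b * p : ℕ) : ℝ) / ((p * q : ℕ) : ℝ))) =
          ee ((a : ℝ) * ((v i : ℝ) / p)) * ee ((b : ℝ) * ((v i : ℝ) / q)) := by
        rw [← ee_add]
        congr 1
        push_cast
        field_simp
      rw [e1]
      ring
    rw [sum_congr rfl e0, sum_comm]
    apply sum_congr rfl
    intro a _
    rw [sum_comm]
  rw [← Real.norm_eq_abs, ← Complex.norm_real, h1]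
  calc ‖∑ a ∈ Ico 1 p, ∑ b ∈ Ico 1 q, co p f a * co q g b *
        ∑ i ∈ Ω, (w i : ℂ) * ee ((v i : ℝ) * (((a * q + b * p : ℕ) : ℝ) / ((p * q : ℕ) : ℝ)))‖ ≤
        ∑ a ∈ Ico 1 p, ∑ b ∈ Ico 1 q, τ := by
          refine (norm_sum_le _ _).trans (sum_le_sum fun a ha => ?_)
          refine (norm_sum_le _ _).trans (sum_le_sum fun b hb => ?_)
          rw [norm_mul, norm_mul]
          have h2 := norm_co p hp f hf a
          have h3 := norm_co q hq g hg b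
          have h4 := hτ a ha b hb
          have h5 : ‖co p f a‖ * ‖co q g b‖ ≤ 1 := mul_le_one₀ h2 (norm_nonneg _) h3
          calc _ ≤ 1 * τ := mul_le_mul h5 h4 (norm_nonneg _) zero_le_one
            _ = τ := one_mul _
    _ = ((p - 1 : ℕ) : ℝ) * (((q - 1 : ℕ) : ℝ) * τ) := by
        rw [sum_const, sum_const, Nat.card_Ico, Nat.card_Ico, nsmul_eq_mul, nsmul_eq_mul]
    _ ≤ p * (q * τ) := by
        apply mul_le_mul (by exact_mod_cast Nat.sub_le _ _) _ (by positivity) (Nat.cast_nonneg _)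
        exact mul_le_mul_of_nonneg_right (by exact_mod_cast Nat.sub_le _ _) hτ0
    _ = _ := by ring

/-- the reduced denominator of a sum of two fractions with coprime denominators -/
lemma reduced (p q a b : ℕ) (hpq : Nat.Coprime p q) (ha : a ∈ Ico 1 p) (hb : b ∈ Ico 1 q) :
    ∃ m a' : ℕ, m ∣ p * q ∧ Nat.Coprime a' m ∧ ¬ Nat.Coprime m p ∧ ¬ Nat.Coprime m q ∧
      ((a * q + b * p : ℕ) : ℝ) / ((p * q : ℕ) : ℝ) = (a' : ℝ) / (m : ℝ) := by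
  rw [mem_Ico] at ha hb
  have hp0 : 0 < p := by omega
  have hq0 : 0 < q := by omega
  obtain ⟨N, hN⟩ : ∃ N, N = a * q + b * p := ⟨_, rfl⟩
  obtain ⟨g, hg⟩ : ∃ g, g = Nat.gcd N (p * q) := ⟨_, rfl⟩
  have hg0 : 0 < g := by
    rw [hg]
    exact Nat.gcd_pos_of_pos_right _ (Nat.mul_pos hp0 hq0)
  obtain ⟨a', ha'⟩ : g ∣ N := by rw [hg]; exact Nat.gcd_dvd_left _ _
  obtain ⟨m, hm⟩ : g ∣ p * q := by rw [hg]; exact Nat.gcd_dvd_right _ _
  have hcop : Nat.Coprime a' m := by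
    have h1 : g * Nat.gcd a' m = g := by
      rw [← Nat.gcd_mul_left, ← ha', ← hm, ← hg]
    exact Nat.eq_of_mul_eq_mul_left hg0 (by rw [h1, mul_one])
  have hm0 : 0 < m := by
    rcases Nat.eq_zero_or_pos m with h | h
    · rw [h, mul_zero] at hm
      have := Nat.mul_pos hp0 hq0
      omega
    · exact h
  refine ⟨m, a', ⟨g, by rw [hm]; ring⟩, hcop, ?_, ?_, ?_⟩
  · intro hc
    have h1 : p ∣ g := by
      have h2 : p ∣ g * m := ⟨q, hm.symm⟩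
      exact Nat.Coprime.dvd_of_dvd_mul_right hc.symm h2
    have h2 : p ∣ a * q + b * p := by
      rw [← hN, ha']
      exact h1.mul_right _
    have h3 : p ∣ a * q := (Nat.dvd_add_left (Nat.dvd_mul_left p b)).1 h2
    have h4 : p ∣ a := Nat.Coprime.dvd_of_dvd_mul_right hpq h3
    have := Nat.le_of_dvd (by omega) h4
    omega
  · intro hc
    have h1 : q ∣ g := by
      have h2 : q ∣ g * m := ⟨p, by rw [← hm]; ring⟩
      exact Nat.Coprime.dvd_of_dvd_mul_right hc.symm h2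
    have h2 : q ∣ a * q + b * p := by
      rw [← hN, ha']
      exact h1.mul_right _
    have h3 : q ∣ b * p := (Nat.dvd_add_right (Nat.dvd_mul_left q a)).1 h2
    have h4 : q ∣ b := Nat.Coprime.dvd_of_dvd_mul_right hpq.symm h3
    have := Nat.le_of_dvd (by omega) h4
    omega
  · rw [← hN, ha', hm]
    have h1 : (g : ℝ) ≠ 0 := by exact_mod_cast hg0.ne'
    have h2 : (m : ℝ) ≠ 0 := by exact_mod_cast hm0.ne'
    push_cast
    field_simp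

open Classical in
/-- few pairs of moduli have a bad divisor -/
lemma pairsB (P : Finset ℕ) (q : ℕ → ℕ) (M : ℕ) (hq : ∀ k ∈ P, 1 ≤ q k ∧ q k ≤ M)
    (hcop : ∀ k ∈ P, ∀ l ∈ P, k ≠ l → Nat.Coprime (q k) (q l)) (S : Set ℕ) :
    ((P ×ˢ P).filter (fun z => z.1 ≠ z.2 ∧ ∃ m ∈ S, m ∣ q z.1 * q z.2 ∧ ¬ Nat.Coprime m (q z.1) ∧ ¬ Nat.Coprime m (q z.2))).card ≤
      2 * ((Icc 1 (M ^ 2)).filter (fun m => m ∈ S)).card := by
  obtain ⟨T, hT⟩ : ∃ T, T = (P ×ˢ P).filter (fun z : ℕ × ℕ => z.1 ≠ z.2 ∧ ∃ m ∈ S, m ∣ q z.1 * q z.2 ∧ ¬ Nat.Coprime m (q z.1) ∧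
    ¬ Nat.Coprime m (q z.2)) := ⟨_, rfl⟩
  rw [← hT]
  have hex : ∀ z ∈ T, ∃ m, m ∈ S ∧ m ∣ q z.1 * q z.2 ∧ ¬ Nat.Coprime m (q z.1) ∧ ¬ Nat.Coprime m (q z.2) := by
    intro z hz
    rw [hT, mem_filter] at hz
    exact hz.2.2
  choose! m hmS hmd hm1 hm2 using hex
  have hPT : ∀ z ∈ T, z.1 ∈ P ∧ z.2 ∈ P ∧ z.1 ≠ z.2 := by
    intro z hz
    rw [hT, mem_filter, mem_product] at hz
    exact ⟨hz.1.1, hz.1.2, hz.2.1⟩
  have hkey : ∀ k ∈ P, ∀ z ∈ T, ¬ Nat.Coprime (m z) (q k) → k = z.1 ∨ k = z.2 := by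
    intro k hk z hz hc
    obtain ⟨hz1, hz2, _⟩ := hPT z hz
    obtain ⟨r, hr, hrm, hrk⟩ := Nat.Prime.not_coprime_iff_dvd.1 hc
    by_contra hcon
    push Not at hcon
    have h1 : r ∣ q z.1 * q z.2 := hrm.trans (hmd z hz)
    rcases (Nat.Prime.dvd_mul hr).1 h1 with h2 | h2
    · exact Nat.Prime.not_coprime_iff_dvd.2 ⟨r, hr, hrk, h2⟩ (hcop k hk z.1 hz1 hcon.1)
    · exact Nat.Prime.not_coprime_iff_dvd.2 ⟨r, hr, hrk, h2⟩ (hcop k hk z.2 hz2 hcon.2)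
  have h1 : T.card ≤ (((Icc 1 (M ^ 2)).filter (fun m => m ∈ S)) ×ˢ (univ : Finset Bool)).card := by
    apply card_le_card_of_injOn (fun z => (m z, decide (z.1 < z.2)))
    · intro z hz
      have hz' := mem_coe.1 hz
      obtain ⟨hz1, hz2, _⟩ := hPT z hz'
      rw [mem_coe, mem_product, mem_filter, mem_Icc]
      refine ⟨⟨⟨?_, ?_⟩, hmS z hz'⟩, mem_univ _⟩
      · exact Nat.pos_of_dvd_of_pos (hmd z hz') (Nat.mul_pos (hq _ hz1).1 (hq _ hz2).1)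
      · refine (Nat.le_of_dvd (Nat.mul_pos (hq _ hz1).1 (hq _ hz2).1) (hmd z hz')).trans ?_
        rw [sq]
        exact Nat.mul_le_mul (hq _ hz1).2 (hq _ hz2).2
    · intro z hz z' hz' he
      have hz0 := mem_coe.1 hz
      have hz0' := mem_coe.1 hz'
      simp only [Prod.mk.injEq, decide_eq_decide] at he
      obtain ⟨hz1, hz2, hz3⟩ := hPT z hz0
      obtain ⟨hz1', hz2', hz3'⟩ := hPT z' hz0'
      have e1 := hkey z.1 hz1 z' hz0' (by rw [← he.1]; exact hm1 z hz0)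
      have e2 := hkey z.2 hz2 z' hz0' (by rw [← he.1]; exact hm2 z hz0)
      have e3 := he.2
      apply Prod.ext
      · omega
      · omega
  refine h1.trans ?_
  rw [card_product, card_univ, Fintype.card_bool, mul_comm]

open Classical in
/-- the second moment for pairwise coprime periods -/
theorem vvarB {ι : Type} (Ω : Finset ι) (w : ι → ℝ) (hw : ∀ i ∈ Ω, 0 ≤ w i) (hw1 : ∑ i ∈ Ω, w i = 1) (v : ι → ℤ)
    (P : Finset ℕ) (q : ℕ → ℕ) (M : ℕ) (hq : ∀ k ∈ P, 1 ≤ q k ∧ q k ≤ M)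
    (hcop : ∀ k ∈ P, ∀ l ∈ P, k ≠ l → Nat.Coprime (q k) (q l)) {α : Type} (J : Finset α) (f : α → ℕ → ℤ → ℝ)
    (hf : ∀ k ∈ P, ∀ n, ∑ j ∈ J, (f j k n) ^ 2 ≤ 1)
    (hper : ∀ j ∈ J, ∀ k ∈ P, Per (q k) (f j k)) (τ : ℝ) (hτ0 : 0 ≤ τ) (S : Set ℕ)
    (hS : ∀ k ∈ P, ∀ l ∈ P, k ≠ l → ∀ m : ℕ, m ∣ q k * q l → m ∉ S → ∀ a : ℕ, Nat.Coprime a m →
      ‖∑ i ∈ Ω, (w i : ℂ) * ee ((v i : ℝ) * ((a : ℝ) / (m : ℝ)))‖ ≤ τ) :
    ∑ j ∈ J, ∑ i ∈ Ω, w i * (∑ k ∈ P, (f j k (v i) - mean (q k) (f j k))) ^ 2 ≤ 4 * P.card +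
      8 * ((Icc 1 (M ^ 2)).filter (fun m => m ∈ S)).card + J.card * ((P.card : ℝ) ^ 2 * (M : ℝ) ^ 2 * τ) := by
  have h1 : ∀ j ∈ J, ∑ i ∈ Ω, w i * (∑ p ∈ P, (f j p (v i) - mean (q p) (f j p))) ^ 2 =
      ∑ p ∈ P, ∑ q' ∈ P, ∑ i ∈ Ω, w i * ((f j p (v i) - mean (q p) (f j p)) * (f j q' (v i) - mean (q q') (f j q'))) := by
    intro j _
    have e0 : ∀ i ∈ Ω, w i * (∑ p ∈ P, (f j p (v i) - mean (q p) (f j p))) ^ 2 =
        ∑ p ∈ P, ∑ q' ∈ P, w i * ((f j p (v i) - mean (q p) (f j p)) * (f j q' (v i) - mean (q q') (f j q'))) := by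
      intro i _
      rw [sq, sum_mul_sum, mul_sum]
      apply sum_congr rfl
      intro p _
      rw [mul_sum]
    rw [sum_congr rfl e0, sum_comm]
    apply sum_congr rfl
    intro p _
    rw [sum_comm]
  rw [sum_congr rfl h1]
  rw [sum_comm]
  have e5 : ∀ p ∈ P, ∑ j ∈ J, ∑ q' ∈ P, ∑ i ∈ Ω, w i * ((f j p (v i) - mean (q p) (f j p)) * (f j q' (v i) - mean (q q') (f j q'))) =
      ∑ q' ∈ P, ∑ j ∈ J, ∑ i ∈ Ω, w i * ((f j p (v i) - mean (q p) (f j p)) * (f j q' (v i) - mean (q q') (f j q'))) := by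
    intro p _
    rw [sum_comm]
  rw [sum_congr rfl e5]
  have htriv : ∀ p ∈ P, ∀ q' ∈ P, ∑ j ∈ J, ∑ i ∈ Ω, w i * ((f j p (v i) - mean (q p) (f j p)) * (f j q' (v i) - mean (q q') (f j q'))) ≤
      4 := by
    intro p hp q' hq'
    rw [sum_comm]
    have h2 : ∀ i ∈ Ω, ∑ j ∈ J, w i * ((f j p (v i) - mean (q p) (f j p)) * (f j q' (v i) - mean (q q') (f j q'))) ≤ w i * 4 := by
      intro i hi
      rw [← mul_sum]
      apply mul_le_mul_of_nonneg_left _ (hw i hi)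
      have h3 := cent_sq J (q p) (hq p hp).1 (fun j => f j p) 1 (by intro n; rw [one_pow]; exact hf p hp n) (v i)
      have h4 := cent_sq J (q q') (hq q' hq').1 (fun j => f j q') 1 (by intro n; rw [one_pow]; exact hf q' hq' n) (v i)
      have h5 := sum_mul_sq_le_sq_mul_sq J (fun j => f j p (v i) - mean (q p) (f j p)) (fun j => f j q' (v i) - mean (q q') (f j q'))
      have h6 : (∑ j ∈ J, (f j p (v i) - mean (q p) (f j p)) * (f j q' (v i) - mean (q q') (f j q'))) ^ 2 ≤ 4 ^ 2 := by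
        refine h5.trans ?_
        calc _ ≤ (4 * (1 : ℝ) ^ 2) * (4 * 1 ^ 2) := mul_le_mul h3 h4 (sum_nonneg fun j _ => sq_nonneg _) (by positivity)
          _ = _ := by ring
      exact (le_abs_self _).trans (abs_le_of_sq_le_sq h6 (by norm_num))
    refine (sum_le_sum h2).trans ?_
    rw [← sum_mul, hw1, one_mul]
  have hf1 : ∀ j ∈ J, ∀ p ∈ P, ∀ n, |f j p n| ≤ 1 := by
    intro j hj p hp n
    have h2 : (f j p n) ^ 2 ≤ ∑ j ∈ J, (f j p n) ^ 2 := single_le_sum (f := fun j => (f j p n) ^ 2) (fun j _ => sq_nonneg _) hj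
    have h3 := hf p hp n
    exact abs_le_one_iff_mul_self_le_one.2 (by nlinarith)
  obtain ⟨Bd, hBd⟩ : ∃ Bd : ℕ × ℕ → Prop, Bd = fun z => z.1 ≠ z.2 ∧ ∃ m ∈ S, m ∣ q z.1 * q z.2 ∧ ¬ Nat.Coprime m (q z.1) ∧
    ¬ Nat.Coprime m (q z.2) := ⟨_, rfl⟩
  have hterm : ∀ p ∈ P, ∀ q' ∈ P, ∑ j ∈ J, ∑ i ∈ Ω, w i * ((f j p (v i) - mean (q p) (f j p)) * (f j q' (v i) - mean (q q') (f j q'))) ≤
      (if p = q' then (4 : ℝ) else 0) + (if Bd (p, q') then (4 : ℝ) else 0) + J.card * ((M : ℝ) ^ 2 * τ) := by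
    intro p hp q' hq'
    have hnn : 0 ≤ (J.card : ℝ) * ((M : ℝ) ^ 2 * τ) := by positivity
    by_cases hpq : p = q'
    · rw [if_pos hpq]
      have := htriv p hp q' hq'
      split_ifs <;> linarith
    · by_cases hin : Bd (p, q')
      · rw [if_neg hpq, if_pos hin]
        linarith [htriv p hp q' hq']
      · rw [if_neg hpq, if_neg hin, zero_add, zero_add]
        rw [← nsmul_eq_mul]
        apply sum_le_card_nsmul
        intro j hj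
        refine (le_abs_self _).trans ?_
        refine (covB Ω w v (q p) (q q') (hq p hp).1 (hq q' hq').1 (f j p) (f j q') (hf1 j hj p hp) (hf1 j hj q' hq')
          (hper j hj p hp) (hper j hj q' hq') τ hτ0 ?_).trans ?_
        · intro a ha b hb
          obtain ⟨m, a', h2, h3, h4, h5, h6⟩ := reduced (q p) (q q') a b (hcop p hp q' hq' hpq) ha hb
          rw [h6]
          refine hS p hp q' hq' hpq m h2 ?_ a' h3
          intro hmS
          apply hin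
          rw [hBd]
          exact ⟨hpq, m, hmS, h2, h4, h5⟩
        · apply mul_le_mul_of_nonneg_right _ hτ0
          rw [sq]
          exact mul_le_mul (by exact_mod_cast (hq p hp).2) (by exact_mod_cast (hq q' hq').2) (Nat.cast_nonneg _) (Nat.cast_nonneg _)
  refine (sum_le_sum fun p hp => sum_le_sum fun q' hq' => hterm p hp q' hq').trans ?_
  simp only [sum_add_distrib]
  have e1 : ∑ p ∈ P, ∑ q' ∈ P, (if p = q' then (4 : ℝ) else (0 : ℝ)) = 4 * P.card := by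
    rw [sum_congr rfl (fun p hp => by rw [sum_ite_eq, if_pos hp]), sum_const, nsmul_eq_mul, mul_comm]
  have e2 : ∑ p ∈ P, ∑ q' ∈ P, (J.card : ℝ) * ((M : ℝ) ^ 2 * τ) = J.card * ((P.card : ℝ) ^ 2 * (M : ℝ) ^ 2 * τ) := by
    rw [sum_const, sum_const, nsmul_eq_mul, nsmul_eq_mul]
    ring
  have e3 : ∑ p ∈ P, ∑ q' ∈ P, (if Bd (p, q') then (4 : ℝ) else (0 : ℝ)) ≤
      8 * ((Icc 1 (M ^ 2)).filter (fun m => m ∈ S)).card := by
    have h2 := pairsB P q M hq hcop S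
    have h3 : ∑ p ∈ P, ∑ q' ∈ P, (if Bd (p, q') then (4 : ℝ) else (0 : ℝ)) = 4 * ((P ×ˢ P).filter Bd).card := by
      rw [← sum_product', ← sum_filter, sum_const, nsmul_eq_mul, mul_comm]
    rw [h3]
    have h4 : (((P ×ˢ P).filter Bd).card : ℝ) ≤ 2 * ((Icc 1 (M ^ 2)).filter (fun m => m ∈ S)).card := by
      rw [hBd]
      exact_mod_cast h2
    linarith
  rw [e1, e2]
  linarith

open Classical in
/-- the second moment for the digit families -/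
theorem vmsB (b : ℕ) (hb : 2 ≤ b) (A : ℕ) (γ : ℝ) (hγ0 : 0 < γ) (hγ1 : γ < 1) (e B : ℕ) (he : 1 ≤ e) (hB : 2 * e ≤ B) : ∃ W : ℕ, 1 ≤ W ∧
    ∀ (F : ℕ) (κ : ℤ), 1 ≤ F → κ ≠ 0 → ∃ C : ℝ, 0 < C ∧ ∀ (k x : ℕ), b ≤ x → x ^ W ≤ b ^ k →
    ∀ (ι : Type) (Ω : Finset ι) (w : ι → ℝ) (v : ι → ℤ), Decays b F A k γ κ Ω w v →
    ∀ (P : Finset ℕ) (q : ℕ → ℕ), P.card ≤ x → (∀ k ∈ P, 1 ≤ q k ∧ q k ≤ x ^ e ∧ Nat.Coprime b (q k)) →
      (∀ k ∈ P, ∀ l ∈ P, k ≠ l → Nat.Coprime (q k) (q l)) → ∀ {α : Type} (J : Finset α) (f : α → ℕ → ℤ → ℝ),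
      (∀ k ∈ P, ∀ n, ∑ j ∈ J, (f j k n) ^ 2 ≤ 1) → (∀ j ∈ J, ∀ k ∈ P, Per (q k) (f j k)) →
      (J.card : ℝ) * (x : ℝ) ^ (2 + 2 * e) ≤ (x : ℝ) ^ (B + 1) →
      ∑ j ∈ J, ∑ i ∈ Ω, w i * (∑ k ∈ P, (f j k (v i) - mean (q k) (f j k))) ^ 2 ≤ C * x := by
  obtain ⟨W, hW, H⟩ := good b hb A γ hγ0 hγ1 (2 * e) B (by omega)
  refine ⟨W, hW, fun F κ hF hκ => ?_⟩
  obtain ⟨S, C, hC, hcount, hgood⟩ := H F κ hF hκ
  refine ⟨4 + 8 * C + 1, by positivity, fun k x hbx hxW ι Ω w v hdec P q hPx hq hcop α J f hf hper hJ => ?_⟩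
  have hx1 : 1 ≤ x := by omega
  have hx0 : (0 : ℝ) < x := by exact_mod_cast hx1
  have her : (0 : ℝ) < e := by exact_mod_cast he
  have h1 := vvarB Ω w hdec.nonneg hdec.sum v P q (x ^ e) (fun k hk => ⟨(hq k hk).1, (hq k hk).2.1⟩) hcop J f hf hper
    (1 / (x : ℝ) ^ B) (by positivity) S (by
      intro k' hk' l hl hkl m hm hmS a ha
      have h0 := Nat.mul_pos (hq k' hk').1 (hq l hl).1
      refine hgood k x hbx hxW ι Ω w v hdec m (Nat.pos_of_dvd_of_pos hm h0) ?_ hmS ?_ a ha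
      · calc m ≤ q k' * q l := Nat.le_of_dvd h0 hm
          _ ≤ x ^ e * x ^ e := Nat.mul_le_mul (hq k' hk').2.1 (hq l hl).2.1
          _ = x ^ (2 * e) := by rw [← pow_add]; congr 1; ring
          _ ≤ x ^ B := Nat.pow_le_pow_right (by omega) hB
      · exact Nat.Coprime.coprime_dvd_right hm (Nat.Coprime.mul_right (hq k' hk').2.2 (hq l hl).2.2))
  refine h1.trans ?_
  have h3 : (((Icc 1 ((x ^ e) ^ 2)).filter (fun m => m ∈ S)).card : ℝ) ≤ C * x := by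
    refine (hcount ((x ^ e) ^ 2) _ (by
      intro m hm
      rw [mem_filter, mem_Icc] at hm
      exact ⟨hm.2, hm.1.1, hm.1.2⟩)).trans (le_of_eq ?_)
    congr 1
    push_cast
    rw [← pow_mul, ← Real.rpow_natCast, ← Real.rpow_mul hx0.le]
    have : ((e * 2 : ℕ) : ℝ) * (1 / (2 * (e : ℝ))) = 1 := by
      push_cast
      field_simp
    rw [this, Real.rpow_one]
  have hPc : (P.card : ℝ) ≤ x := by exact_mod_cast hPx
  have h4 : (J.card : ℝ) * ((P.card : ℝ) ^ 2 * ((x ^ e : ℕ) : ℝ) ^ 2 * (1 / (x : ℝ) ^ B)) ≤ x := by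
    push_cast
    have h5 : (P.card : ℝ) ^ 2 * ((x : ℝ) ^ e) ^ 2 ≤ (x : ℝ) ^ (2 + 2 * e) := by
      calc (P.card : ℝ) ^ 2 * ((x : ℝ) ^ e) ^ 2 ≤ (x : ℝ) ^ 2 * ((x : ℝ) ^ e) ^ 2 :=
            mul_le_mul_of_nonneg_right (pow_le_pow_left₀ (Nat.cast_nonneg _) hPc _) (by positivity)
        _ = _ := by rw [← pow_mul, ← pow_add]; congr 1; ring
    calc (J.card : ℝ) * ((P.card : ℝ) ^ 2 * ((x : ℝ) ^ e) ^ 2 * (1 / (x : ℝ) ^ B)) ≤
        (J.card : ℝ) * ((x : ℝ) ^ (2 + 2 * e) * (1 / (x : ℝ) ^ B)) := by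
          apply mul_le_mul_of_nonneg_left _ (Nat.cast_nonneg _)
          exact mul_le_mul_of_nonneg_right h5 (by positivity)
      _ = ((J.card : ℝ) * (x : ℝ) ^ (2 + 2 * e)) / (x : ℝ) ^ B := by ring
      _ ≤ (x : ℝ) ^ (B + 1) / (x : ℝ) ^ B := div_le_div_of_nonneg_right hJ (by positivity)
      _ = x := by rw [pow_succ]; field_simp
  linarith

end Pool.Agent.R459.Bx
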