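import Pool.Agent.R459.Bx1

/-! Boxes in several coordinates: the mean square of the maximal deviation. -/

set_option autoImplicit false

namespace Pool.Agent.R459.Bx
open Finset Pool.Agent.R459.Eq
open Pool.Agent.H807R2.Dav

/-- an initial segment is a disjoint union of dyadic blocks, at most one on each level -/
lemma dyadic : ∀ (M u r : ℕ), u < 2 ^ M → (if r < u then (1 : ℝ) else 0) =
    ∑ l ∈ range M, if (u / 2 ^ l % 2 = 1 ∧ r / 2 ^ l + 1 = u / 2 ^ l) then (1 : ℝ) else 0 := by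
  intro M
  induction M with
  | zero =>
    intro u r hu
    rw [pow_zero] at hu
    rw [if_neg (by omega)]
    simp
  | succ M ih =>
    intro u r hu
    rw [sum_range_succ', pow_zero, Nat.div_one, Nat.div_one]
    have e : ∀ l ∈ range M, (if (u / 2 ^ (l + 1) % 2 = 1 ∧ r / 2 ^ (l + 1) + 1 = u / 2 ^ (l + 1)) then (1 : ℝ) else 0) =
        if ((u / 2) / 2 ^ l % 2 = 1 ∧ (r / 2) / 2 ^ l + 1 = (u / 2) / 2 ^ l) then (1 : ℝ) else 0 := by
      intro l _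
      rw [Nat.div_div_eq_div_mul, Nat.div_div_eq_div_mul, ← pow_succ']
    rw [sum_congr rfl e, ← ih (u / 2) (r / 2) (by rw [pow_succ] at hu; omega)]
    by_cases h1 : r < u
    · rw [if_pos h1]
      by_cases h2 : r / 2 < u / 2
      · rw [if_pos h2, if_neg (by omega), add_zero]
      · rw [if_neg h2, if_pos (by omega), zero_add]
    · rw [if_neg h1, if_neg (by omega), if_neg (by omega), add_zero]

/-- the indicator of a dyadic cell -/
def cl {d : ℕ} (l z r : Fin d → ℕ) : ℝ := if ∀ j, r j / 2 ^ (l j) = z j then 1 else 0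

/-- the indicator of a box -/
def bx {d : ℕ} (u r : Fin d → ℕ) : ℝ := if ∀ j, r j < u j then 1 else 0

/-- the cell used at the levels `l` -/
def zz {d : ℕ} (u l : Fin d → ℕ) : Fin d → ℕ := fun j => u j / 2 ^ (l j) - 1

/-- whether the levels `l` are used -/
def fl {d : ℕ} (u l : Fin d → ℕ) : ℝ := if ∀ j, u j / 2 ^ (l j) % 2 = 1 then 1 else 0

lemma bx_eq {d : ℕ} (M : ℕ) (u r : Fin d → ℕ) (hu : ∀ j, u j < 2 ^ M) :
    bx u r = ∑ l ∈ Fintype.piFinset (fun _ : Fin d => range M), fl u l * cl l (zz u l) r := by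
  have e1 : bx u r = ∏ j, (if r j < u j then (1 : ℝ) else 0) := by
    unfold bx
    by_cases h : ∀ j, r j < u j
    · rw [if_pos h, prod_eq_one]
      intro j _
      rw [if_pos (h j)]
    · rw [if_neg h]
      push Not at h
      obtain ⟨j, hj⟩ := h
      rw [prod_eq_zero (mem_univ j)]
      rw [if_neg (by omega)]
  rw [e1, prod_congr rfl (fun j _ => dyadic M (u j) (r j) (hu j)), prod_univ_sum]
  apply sum_congr rfl
  intro l _
  unfold fl cl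
  by_cases h : ∀ j, (u j / 2 ^ (l j) % 2 = 1 ∧ r j / 2 ^ (l j) + 1 = u j / 2 ^ (l j))
  · rw [prod_eq_one (fun j _ => if_pos (h j)), if_pos (fun j => (h j).1), if_pos, mul_one]
    intro j
    have h5 := (h j).2
    show r j / 2 ^ (l j) = u j / 2 ^ (l j) - 1
    rw [← h5, Nat.add_sub_cancel]
  · have h0 : ∏ j, (if (u j / 2 ^ (l j) % 2 = 1 ∧ r j / 2 ^ (l j) + 1 = u j / 2 ^ (l j)) then (1 : ℝ) else 0) = 0 := by
      push Not at h
      obtain ⟨j, hj⟩ := h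
      apply prod_eq_zero (mem_univ j)
      rw [if_neg]
      intro h2
      exact hj h2.1 h2.2
    rw [h0]
    by_cases h1 : ∀ j, u j / 2 ^ (l j) % 2 = 1
    · rw [if_pos h1, one_mul, if_neg]
      intro h2
      apply h
      intro j
      refine ⟨h1 j, ?_⟩
      have h3 : r j / 2 ^ (l j) = u j / 2 ^ (l j) - 1 := h2 j
      have h4 := h1 j
      rw [h3]
      generalize u j / 2 ^ (l j) = B at *
      omega
    · rw [if_neg h1, zero_mul]

lemma cl_sum {d : ℕ} (l r : Fin d → ℕ) (J : Finset (Fin d → ℕ)) : ∑ z ∈ J, (cl l z r) ^ 2 ≤ 1 := by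
  classical
  have h1 : ∀ z ∈ J, (cl l z r) ^ 2 ≤ if (fun j => r j / 2 ^ (l j)) = z then (1 : ℝ) else 0 := by
    intro z _
    unfold cl
    by_cases h : ∀ j, r j / 2 ^ (l j) = z j
    · rw [if_pos h, if_pos (funext h)]
      norm_num
    · rw [if_neg h]
      split_ifs <;> norm_num
  refine (sum_le_sum h1).trans ?_
  rw [sum_ite_eq]
  split_ifs <;> norm_num

lemma mean_lin {α : Type} (s : Finset α) (p : ℕ) (c : α → ℝ) (f : α → ℤ → ℝ) (g : ℤ → ℝ) (h : ∀ n, g n = ∑ a ∈ s, c a * f a n) :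
    mean p g = ∑ a ∈ s, c a * mean p (f a) := by
  unfold mean
  have e : ∑ t ∈ range p, g (t : ℤ) = ∑ a ∈ s, c a * ∑ t ∈ range p, f a (t : ℤ) := by
    have e0 : ∀ t ∈ range p, g (t : ℤ) = ∑ a ∈ s, c a * f a (t : ℤ) := fun t _ => h (t : ℤ)
    rw [sum_congr rfl e0, sum_comm]
    apply sum_congr rfl
    intro a _
    rw [mul_sum]
  rw [e, sum_div]
  apply sum_congr rfl
  intro a _
  rw [mul_div_assoc]

/-- the deviation for a box -/
noncomputable def sb {d : ℕ} (P : Finset ℕ) (q : ℕ → ℕ) (r : ℕ → ℤ → Fin d → ℕ) (n : ℤ) (u : Fin d → ℕ) : ℝ :=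
  ∑ k ∈ P, (bx u (r k n) - mean (q k) (fun m => bx u (r k m)))

/-- the deviation for a cell -/
noncomputable def sc {d : ℕ} (P : Finset ℕ) (q : ℕ → ℕ) (r : ℕ → ℤ → Fin d → ℕ) (n : ℤ) (l z : Fin d → ℕ) : ℝ :=
  ∑ k ∈ P, (cl l z (r k n) - mean (q k) (fun m => cl l z (r k m)))

lemma sb_eq {d : ℕ} (M : ℕ) (P : Finset ℕ) (q : ℕ → ℕ) (r : ℕ → ℤ → Fin d → ℕ) (n : ℤ) (u : Fin d → ℕ) (hu : ∀ j, u j < 2 ^ M) :
    sb P q r n u = ∑ l ∈ Fintype.piFinset (fun _ : Fin d => range M), fl u l * sc P q r n l (zz u l) := by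
  unfold sb sc
  simp only [mul_sum]
  rw [sum_comm]
  apply sum_congr rfl
  intro k _
  rw [bx_eq M u (r k n) hu, mean_lin (Fintype.piFinset (fun _ : Fin d => range M)) (q k) (fun l => fl u l)
    (fun l m => cl l (zz u l) (r k m)) (fun m => bx u (r k m)) (fun m => bx_eq M u (r k m) hu), ← sum_sub_distrib]
  apply sum_congr rfl
  intro l _
  ring

lemma sb_sq {d : ℕ} (M : ℕ) (P : Finset ℕ) (q : ℕ → ℕ) (r : ℕ → ℤ → Fin d → ℕ) (n : ℤ) (u : Fin d → ℕ) (hu : ∀ j, u j < 2 ^ M) :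
    (sb P q r n u) ^ 2 ≤ (M : ℝ) ^ d * ∑ l ∈ Fintype.piFinset (fun _ : Fin d => range M),
      ∑ z ∈ Fintype.piFinset (fun _ : Fin d => range (2 ^ M)), (sc P q r n l z) ^ 2 := by
  rw [sb_eq M P q r n u hu]
  refine (sq_sum_le_card_mul_sum_sq).trans ?_
  have e : ((Fintype.piFinset (fun _ : Fin d => range M)).card : ℝ) = (M : ℝ) ^ d := by
    rw [Fintype.card_piFinset]
    simp
  rw [e]
  apply mul_le_mul_of_nonneg_left _ (by positivity)
  apply sum_le_sum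
  intro l _
  have h1 : zz u l ∈ Fintype.piFinset (fun _ : Fin d => range (2 ^ M)) := by
    rw [Fintype.mem_piFinset]
    intro j
    rw [mem_range]
    unfold zz
    have := Nat.div_le_self (u j) (2 ^ (l j))
    have := hu j
    omega
  have h2 : (fl u l * sc P q r n l (zz u l)) ^ 2 ≤ (sc P q r n l (zz u l)) ^ 2 := by
    unfold fl
    split_ifs
    · rw [one_mul]
    · rw [zero_mul]
      nlinarith [sq_nonneg (sc P q r n l (zz u l))]
  exact h2.trans (single_le_sum (f := fun z => (sc P q r n l z) ^ 2) (fun z _ => sq_nonneg _) h1)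

/-- the mean square of the maximal deviation -/
theorem supB (b : ℕ) (hb : 2 ≤ b) (A : ℕ) (γ : ℝ) (hγ0 : 0 < γ) (hγ1 : γ < 1) (e d c : ℕ) (he : 1 ≤ e) : ∃ W : ℕ, 1 ≤ W ∧
    ∀ (F : ℕ) (κ : ℤ), 1 ≤ F → κ ≠ 0 → ∃ C : ℝ, 0 < C ∧ ∀ (k L : ℕ), b ≤ 2 ^ L → (2 ^ L) ^ W ≤ b ^ k →
    ∀ (ι : Type) (Ω : Finset ι) (w : ι → ℝ) (v : ι → ℤ), Decays b F A k γ κ Ω w v →
    ∀ (P : Finset ℕ) (q : ℕ → ℕ), P.card ≤ 2 ^ L → (∀ k ∈ P, 1 ≤ q k ∧ q k ≤ (2 ^ L) ^ e ∧ Nat.Coprime b (q k)) →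
      (∀ k ∈ P, ∀ l ∈ P, k ≠ l → Nat.Coprime (q k) (q l)) → ∀ r : ℕ → ℤ → Fin d → ℕ,
      (∀ k ∈ P, ∀ m n : ℤ, (q k : ℤ) ∣ m - n → r k m = r k n) →
      ∃ Q : ι → ℝ, (∀ i ∈ Ω, 0 ≤ Q i) ∧ ∑ i ∈ Ω, w i * Q i ≤ C * ((c * L : ℕ) : ℝ) ^ (2 * d) * 2 ^ L ∧
        ∀ i ∈ Ω, ∀ u : Fin d → ℕ, (∀ j, u j < 2 ^ (c * L)) → (sb P q r (v i) u) ^ 2 ≤ Q i := by
  classical
  obtain ⟨W, hW, H⟩ := vmsB b hb A γ hγ0 hγ1 e (c * d + 2 + 2 * e) he (by omega)
  refine ⟨W, hW, fun F κ hF hκ => ?_⟩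
  obtain ⟨C, hC, hmain⟩ := H F κ hF hκ
  refine ⟨C, hC, fun k L hbL hxW ι Ω w v hdec P q hP hq hcop r hr => ?_⟩
  obtain ⟨M, hM⟩ : ∃ M, M = c * L := ⟨_, rfl⟩
  obtain ⟨J, hJ⟩ : ∃ J : Finset (Fin d → ℕ), J = Fintype.piFinset (fun _ : Fin d => range (2 ^ M)) := ⟨_, rfl⟩
  obtain ⟨I, hI⟩ : ∃ I : Finset (Fin d → ℕ), I = Fintype.piFinset (fun _ : Fin d => range M) := ⟨_, rfl⟩
  have hIc : (I.card : ℝ) = (M : ℝ) ^ d := by
    rw [hI, Fintype.card_piFinset]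
    simp
  have hJc : (J.card : ℝ) = (2 : ℝ) ^ (L * (c * d)) := by
    rw [hJ, Fintype.card_piFinset]
    simp only [card_range, prod_const, card_univ, Fintype.card_fin]
    push_cast
    rw [← pow_mul, hM]
    congr 1
    ring
  have hlev : ∀ l : Fin d → ℕ, ∑ z ∈ J, ∑ i ∈ Ω, w i * (sc P q r (v i) l z) ^ 2 ≤ C * 2 ^ L := by
    intro l
    have h1 := hmain k (2 ^ L) hbL hxW ι Ω w v hdec P q hP hq hcop J (fun z k n => cl l z (r k n))
      (fun k _ n => cl_sum l (r k n) J) (by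
        intro z _ k' hk' m n hmn
        simp only
        rw [hr k' hk' m n hmn]) (by
        push_cast
        rw [hJc]
        rw [← pow_mul, ← pow_mul, ← pow_add]
        apply pow_le_pow_right₀ (by norm_num)
        apply le_of_eq_of_le _ (Nat.mul_le_mul_left L (Nat.le_succ _))
        ring)
    refine h1.trans (le_of_eq ?_)
    push_cast
    rfl
  refine ⟨fun i => (M : ℝ) ^ d * ∑ l ∈ I, ∑ z ∈ J, (sc P q r (v i) l z) ^ 2, ?_, ?_, ?_⟩
  · intro i _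
    have : 0 ≤ ∑ l ∈ I, ∑ z ∈ J, (sc P q r (v i) l z) ^ 2 := sum_nonneg fun l _ => sum_nonneg fun z _ => sq_nonneg _
    positivity
  · have e1 : ∑ i ∈ Ω, w i * ((M : ℝ) ^ d * ∑ l ∈ I, ∑ z ∈ J, (sc P q r (v i) l z) ^ 2) =
        (M : ℝ) ^ d * ∑ l ∈ I, ∑ z ∈ J, ∑ i ∈ Ω, w i * (sc P q r (v i) l z) ^ 2 := by
      have e2 : ∀ i ∈ Ω, w i * ((M : ℝ) ^ d * ∑ l ∈ I, ∑ z ∈ J, (sc P q r (v i) l z) ^ 2) =
          (M : ℝ) ^ d * ∑ l ∈ I, ∑ z ∈ J, w i * (sc P q r (v i) l z) ^ 2 := by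
        intro i _
        rw [mul_left_comm]
        congr 1
        rw [mul_sum]
        apply sum_congr rfl
        intro l _
        rw [mul_sum]
      rw [sum_congr rfl e2, ← mul_sum]
      congr 1
      rw [sum_comm]
      apply sum_congr rfl
      intro l _
      rw [sum_comm]
    rw [e1]
    calc (M : ℝ) ^ d * ∑ l ∈ I, ∑ z ∈ J, ∑ i ∈ Ω, w i * (sc P q r (v i) l z) ^ 2 ≤
        (M : ℝ) ^ d * ∑ l ∈ I, C * 2 ^ L := mul_le_mul_of_nonneg_left (sum_le_sum fun l _ => hlev l) (by positivity)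
      _ = (M : ℝ) ^ d * ((M : ℝ) ^ d * (C * 2 ^ L)) := by rw [sum_const, nsmul_eq_mul, hIc]
      _ = C * (M : ℝ) ^ (2 * d) * 2 ^ L := by rw [two_mul, pow_add]; ring
      _ = _ := by rw [hM]
  · intro i _ u hu
    rw [← hM] at hu
    have := sb_sq M P q r (v i) u hu
    rw [hI, hJ]
    exact this

end Pool.Agent.R459.Bx
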