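import Pool.Agent.W93.GB1

/-! A numerical lower bound for the twin prime constant. -/

set_option autoImplicit false

namespace Pool.Agent.R459
open Finset Pool.Agent.H560R3.GB

set_option maxRecDepth 100000 in
lemma primes100 : (Icc 3 100).filter Nat.Prime = {3, 5, 7, 11, 13, 17, 19, 23, 29, 31, 37, 41, 43, 47, 53, 59, 61, 67,
    71, 73, 79, 83, 89, 97} := by
  decide +kernel

lemma C2_num : 327 / 500 ≤ C₂ := by
  have h := Pool.Agent.W93.GB.C2_ge 100 (by norm_num)
  refine le_trans ?_ h
  unfold Pool.Agent.W93.GB.Pz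
  rw [primes100]
  norm_num [prod_insert, mem_insert, mem_singleton]

lemma sing_num (n : ℕ) : 327 / 250 ≤ sing n := by
  unfold sing
  have h1 : (1 : ℝ) ≤ ∏ p ∈ n.primeFactors.filter (fun p => 2 < p), ((p : ℝ) - 1) / ((p : ℝ) - 2) := by
    refine prod_induction _ (fun x : ℝ => 1 ≤ x) (fun a b ha hb => one_le_mul_of_one_le_of_one_le ha hb) le_rfl ?_
    intro p hp
    rw [mem_filter] at hp
    have h2 : (3 : ℝ) ≤ p := by exact_mod_cast hp.2
    rw [le_div_iff₀ (by linarith)]
    linarith
  have h2 := C2_num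
  nlinarith
end Pool.Agent.R459
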