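import Pool.Agent.TH872.Mir2

/-! Fractions with few digits: almost all moduli have none. -/

set_option autoImplicit false

namespace Pool.Agent.R459.Eq
open Finset
open Pool.Agent.TH872.Mir (Far farCount)

lemma int_eq_of_lt {m n : ℤ} (h : |((m - n : ℤ) : ℝ)| < 1) : m = n := by
  have h1 : |m - n| < 1 := by
    have h2 : ((|m - n| : ℤ) : ℝ) < ((1 : ℤ) : ℝ) := by push_cast; push_cast at h; exact h
    exact_mod_cast h2
  have := Int.abs_lt_one_iff.1 h1
  omega

lemma round_far (b : ℕ) (hb : 2 ≤ b) (y : ℝ) :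
    |round ((b : ℝ) * y) - b * round y| ≤ (b : ℤ) ∧
    (¬ Far (1 / (b : ℝ) ^ 2) y → round ((b : ℝ) * y) - b * round y = 0) := by
  have hb2 : (2 : ℝ) ≤ b := by exact_mod_cast hb
  have hb0 : (0 : ℝ) < b := by linarith
  have h1 := abs_sub_round ((b : ℝ) * y)
  have h2 := abs_sub_round y
  constructor
  · have h3 : ((|round ((b : ℝ) * y) - b * round y| : ℤ) : ℝ) ≤ ((b : ℤ) : ℝ) := by
      push_cast
      have e : (round ((b : ℝ) * y) : ℝ) - b * round y = -((b : ℝ) * y - round ((b : ℝ) * y)) + b * (y - round y) := by ring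
      rw [e]
      refine (abs_add_le _ _).trans ?_
      rw [abs_neg, abs_mul, abs_of_pos hb0]
      nlinarith
    exact_mod_cast h3
  · intro hf
    unfold Far at hf
    push Not at hf
    obtain ⟨n, hn⟩ := hf
    have h4 : 1 / (b : ℝ) ^ 2 ≤ 1 / 4 := by
      apply one_div_le_one_div_of_le (by norm_num)
      nlinarith
    have e1 : n = round y := by
      apply int_eq_of_lt
      push_cast
      have e : (n : ℝ) - round y = -(y - n) + (y - round y) := by ring
      rw [e]
      refine (abs_add_le _ _).trans_lt ?_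
      rw [abs_neg]
      linarith
    rw [← e1]
    have h5 : round ((b : ℝ) * y) = b * n := by
      apply int_eq_of_lt
      push_cast
      have e : (round ((b : ℝ) * y) : ℝ) - b * n = -((b : ℝ) * y - round ((b : ℝ) * y)) + b * (y - n) := by ring
      rw [e]
      refine (abs_add_le _ _).trans_lt ?_
      rw [abs_neg, abs_mul, abs_of_pos hb0]
      have h6 : (b : ℝ) * |y - n| < b * (1 / (b : ℝ) ^ 2) := mul_lt_mul_of_pos_left hn hb0
      have h7 : (b : ℝ) * (1 / (b : ℝ) ^ 2) ≤ 1 / 2 := by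
        have : (b : ℝ) * (1 / (b : ℝ) ^ 2) = 1 / b := by field_simp
        rw [this]
        exact one_div_le_one_div_of_le (by norm_num) hb2
      linarith
    omega

/-- strings with few nonzero entries -/
lemma few_card (b K L : ℕ) (z : ℝ) (hz : 0 < z) (hz1 : z ≤ 1) :
    (((Fintype.piFinset (fun _ : Fin K => Icc (-(b : ℤ)) b)).filter
      (fun f => (univ.filter (fun j => f j ≠ 0)).card ≤ L)).card : ℝ) * z ^ L ≤ (1 + 2 * b * z) ^ K := by
  have h1 : ∑ f ∈ Fintype.piFinset (fun _ : Fin K => Icc (-(b : ℤ)) b), ∏ j : Fin K, (if f j = 0 then (1 : ℝ) else z) =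
      (1 + 2 * b * z) ^ K := by
    rw [← Finset.prod_univ_sum (fun _ : Fin K => Icc (-(b : ℤ)) b) (fun _ t => if t = 0 then (1 : ℝ) else z)]
    rw [prod_const, card_univ, Fintype.card_fin]
    congr 1
    rw [← sum_filter_add_sum_filter_not (Icc (-(b : ℤ)) b) (fun t => t = 0)]
    have e1 : ∑ t ∈ (Icc (-(b : ℤ)) b).filter (fun t => t = 0), (if t = 0 then (1 : ℝ) else z) = 1 := by
      rw [filter_eq' , if_pos (by rw [mem_Icc]; constructor <;> omega), sum_singleton, if_pos rfl]
    have e2 : ∑ t ∈ (Icc (-(b : ℤ)) b).filter (fun t => ¬ t = 0), (if t = 0 then (1 : ℝ) else z) = 2 * b * z := by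
      rw [sum_congr rfl (fun t ht => by rw [if_neg (mem_filter.1 ht).2]), sum_const, nsmul_eq_mul]
      congr 1
      have e3 : ((Icc (-(b : ℤ)) b).filter (fun t => ¬ t = 0)).card + 1 = 2 * b + 1 := by
        have e4 := card_filter_add_card_filter_not (s := Icc (-(b : ℤ)) b) (fun t => t = 0)
        rw [filter_eq' , if_pos (by rw [mem_Icc]; constructor <;> omega), card_singleton, Int.card_Icc] at e4
        omega
      have e5 : ((Icc (-(b : ℤ)) b).filter (fun t => ¬ t = 0)).card = 2 * b := by omega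
      rw [e5]
      push_cast
      ring
    rw [e1, e2]
  rw [← h1, ← nsmul_eq_mul, ← sum_const]
  refine le_trans (sum_le_sum (f := fun _ => z ^ L) (g := fun f => ∏ j : Fin K, (if f j = 0 then (1 : ℝ) else z)) ?_)
    (sum_le_sum_of_subset_of_nonneg (filter_subset _ _) fun f _ _ => prod_nonneg fun j _ => by split_ifs <;> linarith)
  intro f hf
  rw [mem_filter] at hf
  have h2 : ∏ j : Fin K, (if f j = 0 then (1 : ℝ) else z) = z ^ (univ.filter (fun j => f j ≠ 0)).card := by
    rw [prod_ite, prod_const_one, one_mul, prod_const]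
  rw [h2]
  exact pow_le_pow_of_le_one hz.le hz1 hf.2

/-- the number of the places `j < K` at which `G b ^ j θ` is far from the integers -/
noncomputable def far (b : ℕ) (G : ℤ) (K : ℕ) (θ : ℝ) : ℕ := by
  classical
  exact ((range K).filter (fun j => Far (1 / (b : ℝ) ^ 2) ((b : ℝ) ^ j * ((G : ℝ) * θ)))).card

/-- some fraction with denominator `m` in lowest terms has at most `L` far places among the first `K` -/
def Bad (b : ℕ) (G : ℤ) (K L m : ℕ) : Prop :=
  ∃ a : ℕ, Nat.Coprime a m ∧ a < m ∧ far b G K ((a : ℝ) / m) ≤ L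

theorem bad_card (b : ℕ) (hb : 2 ≤ b) (G : ℤ) (hG : G ≠ 0) (K L M : ℕ) (hM : M ^ 2 < b ^ K) (z : ℝ) (hz : 0 < z)
    (hz1 : z ≤ 1) (T : Finset ℕ) (hT : ∀ m ∈ T, 1 ≤ m ∧ m ≤ M ∧ Bad b G K L m) :
    (T.card : ℝ) * z ^ L ≤ (2 * |G| + 1 : ℤ) * (1 + 2 * b * z) ^ K := by
  classical
  have hb0 : (0 : ℝ) < b := by exact_mod_cast (by omega : 0 < b)
  have hex : ∀ m : ℕ, ∃ a : ℕ, m ∈ T → Nat.Coprime a m ∧ a < m ∧ far b G K ((a : ℝ) / m) ≤ L := by
    intro m
    by_cases h : m ∈ T
    · obtain ⟨a, ha⟩ := (hT m h).2.2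
      exact ⟨a, fun _ => ha⟩
    · exact ⟨0, fun h' => absurd h' h⟩
  choose a ha using hex
  obtain ⟨θ, hθ⟩ : ∃ θ : ℕ → ℝ, θ = fun m => (a m : ℝ) / m := ⟨_, rfl⟩
  obtain ⟨n, hn⟩ : ∃ n : ℕ → ℕ → ℤ, n = fun m j => round ((b : ℝ) ^ j * ((G : ℝ) * θ m)) := ⟨_, rfl⟩
  have hstep : ∀ m j, n m (j + 1) - b * n m j = round ((b : ℝ) * ((b : ℝ) ^ j * ((G : ℝ) * θ m))) -
      b * round ((b : ℝ) ^ j * ((G : ℝ) * θ m)) := by
    intro m j
    rw [hn]
    simp only
    rw [pow_succ']
    congr 2
    ring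
  have key : T.card ≤ (Icc (-|G|) |G| ×ˢ ((Fintype.piFinset (fun _ : Fin K => Icc (-(b : ℤ)) b)).filter
      (fun f => (univ.filter (fun j => f j ≠ 0)).card ≤ L))).card := by
    apply card_le_card_of_injOn (fun m => (n m 0, fun j : Fin K => n m (j + 1) - b * n m j))
    · intro m hm
      rw [mem_coe] at hm
      rw [mem_coe, mem_product, mem_filter, Fintype.mem_piFinset]
      obtain ⟨h1, h2, h3⟩ := ha m hm
      have hm0 : (0 : ℝ) < m := by exact_mod_cast (hT m hm).1
      have hθ0 : 0 ≤ θ m := by rw [hθ]; positivity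
      have hθ1 : θ m ≤ 1 := by
        rw [hθ]
        simp only
        rw [div_le_one hm0]
        exact_mod_cast h2.le
      refine ⟨?_, ?_, ?_⟩
      · simp only
        rw [mem_Icc, ← abs_le]
        have h4 : |(n m 0 : ℝ)| ≤ |(G : ℝ)| + 1 / 2 := by
          rw [hn]
          simp only [pow_zero, one_mul]
          have h5 := abs_sub_round ((G : ℝ) * θ m)
          have h6 : |(G : ℝ) * θ m| ≤ |(G : ℝ)| := by
            rw [abs_mul, abs_of_nonneg hθ0]
            exact mul_le_of_le_one_right (abs_nonneg _) hθ1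
          have e : (round ((G : ℝ) * θ m) : ℝ) = (G : ℝ) * θ m - ((G : ℝ) * θ m - round ((G : ℝ) * θ m)) := by ring
          rw [e]
          refine (abs_sub _ _).trans ?_
          linarith
        have h7 : ((|n m 0| : ℤ) : ℝ) < ((|G| + 1 : ℤ) : ℝ) := by push_cast; linarith
        have h8 : |n m 0| < |G| + 1 := by exact_mod_cast h7
        omega
      · intro j
        rw [mem_Icc, ← abs_le]
        simp only
        rw [hstep]
        exact (round_far b hb _).1
      · refine le_trans ?_ h3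
        unfold far
        apply card_le_card_of_injOn (fun j : Fin K => (j : ℕ))
        · intro j hj
          rw [mem_coe, mem_filter] at hj ⊢
          refine ⟨mem_range.2 j.2, ?_⟩
          by_contra hcon
          apply hj.2
          simp only
          rw [hstep]
          apply (round_far b hb _).2
          rw [hθ]
          exact hcon
        · intro i _ j _ hij
          exact Fin.ext hij
    · intro m hm m' hm' heq
      rw [mem_coe] at hm hm'
      simp only [Prod.mk.injEq] at heq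
      have hall : ∀ j ≤ K, n m j = n m' j := by
        intro j
        induction j with
        | zero => intro _; exact heq.1
        | succ j ih =>
          intro hj
          have h1 := congrFun heq.2 ⟨j, by omega⟩
          simp only at h1
          have h2 := ih (by omega)
          rw [h2] at h1
          linarith
      have hK := hall K le_rfl
      obtain ⟨hm1, hmM, _⟩ := hT m hm
      obtain ⟨hm1', hmM', _⟩ := hT m' hm'
      obtain ⟨hc, hlt, _⟩ := ha m hm
      obtain ⟨hc', hlt', _⟩ := ha m' hm'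
      have hm0 : (0 : ℝ) < m := by exact_mod_cast hm1
      have hm0' : (0 : ℝ) < m' := by exact_mod_cast hm1'
      have hclose : |(b : ℝ) ^ K * ((G : ℝ) * θ m) - (b : ℝ) ^ K * ((G : ℝ) * θ m')| ≤ 1 := by
        have h1 := abs_sub_round ((b : ℝ) ^ K * ((G : ℝ) * θ m))
        have h2 := abs_sub_round ((b : ℝ) ^ K * ((G : ℝ) * θ m'))
        rw [hn] at hK
        simp only at hK
        rw [← hK] at h2
        have e : (b : ℝ) ^ K * ((G : ℝ) * θ m) - (b : ℝ) ^ K * ((G : ℝ) * θ m') =
          ((b : ℝ) ^ K * ((G : ℝ) * θ m) - round ((b : ℝ) ^ K * ((G : ℝ) * θ m))) -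
          ((b : ℝ) ^ K * ((G : ℝ) * θ m') - round ((b : ℝ) ^ K * ((G : ℝ) * θ m))) := by ring
        rw [e]
        refine (abs_sub _ _).trans ?_
        linarith
      by_contra hne
      have hcross : (a m : ℤ) * m' - a m' * m ≠ 0 := by
        intro h0
        have h1 : a m * m' = a m' * m := by
          have : ((a m * m' : ℕ) : ℤ) = ((a m' * m : ℕ) : ℤ) := by push_cast; linarith
          exact_mod_cast this
        apply hne
        apply Nat.dvd_antisymm
        · have : m ∣ a m * m' := ⟨a m', by rw [h1]; ring⟩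
          exact (Nat.Coprime.dvd_mul_left hc.symm).1 this
        · have : m' ∣ a m' * m := ⟨a m, by rw [← h1]; ring⟩
          exact (Nat.Coprime.dvd_mul_left hc'.symm).1 this
      have h2 : (1 : ℝ) ≤ |(a m : ℝ) * m' - a m' * m| := by
        have h3 : (1 : ℤ) ≤ |(a m : ℤ) * m' - a m' * m| := Int.one_le_abs hcross
        have h4 : ((1 : ℤ) : ℝ) ≤ ((|(a m : ℤ) * m' - a m' * m| : ℤ) : ℝ) := by exact_mod_cast h3
        push_cast at h4
        exact h4
      have h5 : (b : ℝ) ^ K * ((G : ℝ) * θ m) - (b : ℝ) ^ K * ((G : ℝ) * θ m') =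
          (b : ℝ) ^ K * G * ((a m : ℝ) * m' - a m' * m) / (m * m') := by
        rw [hθ]
        field_simp
      have hG1 : (1 : ℝ) ≤ |(G : ℝ)| := by
        have h3 : (1 : ℤ) ≤ |G| := Int.one_le_abs hG
        have h4 : ((1 : ℤ) : ℝ) ≤ ((|G| : ℤ) : ℝ) := by exact_mod_cast h3
        push_cast at h4
        exact h4
      rw [h5, abs_div, abs_mul, abs_mul, abs_of_pos (by positivity : (0 : ℝ) < (b : ℝ) ^ K),
        abs_of_pos (by positivity : (0 : ℝ) < (m : ℝ) * m'), div_le_one (by positivity)] at hclose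
      have h6 : (b : ℝ) ^ K ≤ (b : ℝ) ^ K * |(G : ℝ)| * |(a m : ℝ) * m' - a m' * m| := by
        have h7 : (1 : ℝ) ≤ |(G : ℝ)| * |(a m : ℝ) * m' - a m' * m| := by nlinarith
        have h8 : (0 : ℝ) < (b : ℝ) ^ K := by positivity
        nlinarith
      have h9 : (m : ℝ) * m' ≤ (M : ℝ) ^ 2 := by
        rw [sq]
        exact mul_le_mul (by exact_mod_cast hmM) (by exact_mod_cast hmM') hm0'.le (Nat.cast_nonneg _)
      have h10 : (M : ℝ) ^ 2 < (b : ℝ) ^ K := by exact_mod_cast hM
      linarith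
  have h1 : (T.card : ℝ) ≤ (2 * |G| + 1 : ℤ) * (((Fintype.piFinset (fun _ : Fin K => Icc (-(b : ℤ)) b)).filter
      (fun f => (univ.filter (fun j => f j ≠ 0)).card ≤ L)).card : ℝ) := by
    rw [card_product, Int.card_Icc] at key
    have h2 : ((|G| + 1 - -|G|).toNat : ℤ) = 2 * |G| + 1 := by
      rw [Int.toNat_of_nonneg (by have := abs_nonneg G; omega)]
      ring
    have h3 : (((|G| + 1 - -|G|).toNat : ℤ) : ℝ) = ((2 * |G| + 1 : ℤ) : ℝ) := by rw [h2]
    rw [← h3, Int.cast_natCast]
    exact_mod_cast key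
  have h4 := few_card b K L z hz hz1
  have h5 : (0 : ℝ) ≤ (2 * |G| + 1 : ℤ) := by
    have : (0 : ℤ) ≤ 2 * |G| + 1 := by positivity
    exact_mod_cast this
  calc (T.card : ℝ) * z ^ L ≤ ((2 * |G| + 1 : ℤ) * (((Fintype.piFinset (fun _ : Fin K => Icc (-(b : ℤ)) b)).filter
      (fun f => (univ.filter (fun j => f j ≠ 0)).card ≤ L)).card : ℝ)) * z ^ L :=
        mul_le_mul_of_nonneg_right h1 (by positivity)
    _ = (2 * |G| + 1 : ℤ) * ((((Fintype.piFinset (fun _ : Fin K => Icc (-(b : ℤ)) b)).filter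
      (fun f => (univ.filter (fun j => f j ≠ 0)).card ≤ L)).card : ℝ) * z ^ L) := by ring
    _ ≤ _ := mul_le_mul_of_nonneg_left h4 h5

lemma far_add_int {δ x : ℝ} (n : ℤ) (h : Far δ x) : Far δ (x + n) := by
  intro l
  have := h (l - n)
  push_cast at this
  rwa [show x + (n : ℝ) - l = x - (l - n) by ring]

/-- the windows -/
lemma count_windows (p : ℕ → Prop) [DecidablePred p] (K L : ℕ) : ∀ W : ℕ,
    (∀ w < W, L ≤ Nat.count (fun j => p (w * K + j)) K) → W * L ≤ Nat.count p (W * K) := by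
  intro W
  induction W with
  | zero => intro _; simp
  | succ W ih =>
    intro h
    rw [Nat.succ_mul, Nat.succ_mul, Nat.count_add]
    exact Nat.add_le_add (ih fun w hw => h w (by omega)) (h W (by omega))

/-- fractions whose denominator is not bad have many far places -/
theorem far_many (b : ℕ) (G : ℤ) (K L W k m : ℕ) (hm : 1 ≤ m) (hbm : Nat.Coprime b m) (hbad : ¬ Bad b G K L m)
    (hk : W * K ≤ k) (a : ℕ) (ha : Nat.Coprime a m) : W * (L + 1) ≤ far b G k ((a : ℝ) / m) := by
  classical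
  have hm0 : (0 : ℝ) < m := by exact_mod_cast hm
  have e1 : far b G k ((a : ℝ) / m) = Nat.count (fun j => Far (1 / (b : ℝ) ^ 2) ((b : ℝ) ^ j * ((G : ℝ) * ((a : ℝ) / m)))) k := by
    unfold far
    rw [Nat.count_eq_card_filter_range]
  rw [e1]
  refine le_trans ?_ (Nat.count_monotone _ hk)
  apply count_windows
  intro w _
  obtain ⟨a', ha'⟩ : ∃ a', a' = (b ^ (w * K) * a) % m := ⟨_, rfl⟩
  have hc : Nat.Coprime a' m := by
    rw [ha']
    have : Nat.Coprime (b ^ (w * K) * a) m := Nat.Coprime.mul_left (Nat.Coprime.pow_left _ hbm) ha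
    unfold Nat.Coprime
    rw [← Nat.gcd_rec, Nat.gcd_comm]
    exact this
  have h1 : L < far b G K ((a' : ℝ) / m) := by
    by_contra hcon
    push Not at hcon
    exact hbad ⟨a', hc, by rw [ha']; exact Nat.mod_lt _ hm, hcon⟩
  have e2 : far b G K ((a' : ℝ) / m) = Nat.count (fun j => Far (1 / (b : ℝ) ^ 2) ((b : ℝ) ^ j * ((G : ℝ) * ((a' : ℝ) / m)))) K := by
    unfold far
    rw [Nat.count_eq_card_filter_range]
  rw [e2] at h1
  refine Nat.succ_le_of_lt (lt_of_lt_of_le h1 ?_)
  rw [Nat.count_eq_card_filter_range, Nat.count_eq_card_filter_range]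
  apply card_le_card
  intro j hj
  rw [mem_filter] at hj ⊢
  refine ⟨hj.1, ?_⟩
  obtain ⟨q, hq⟩ : ∃ q : ℕ, q = (b ^ (w * K) * a) / m := ⟨_, rfl⟩
  have h2 : (b ^ (w * K) * a) = m * q + a' := by
    rw [ha', hq]; exact (Nat.div_add_mod _ _).symm
  have h3 : ((b : ℝ) ^ (w * K) * a) = m * (q : ℝ) + a' := by exact_mod_cast h2
  have h4 : (b : ℝ) ^ (w * K + j) * ((G : ℝ) * ((a : ℝ) / m)) =
      (b : ℝ) ^ j * ((G : ℝ) * ((a' : ℝ) / m)) + ((b ^ j * G * (q : ℤ) : ℤ) : ℝ) := by
    push_cast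
    have h5 : (b : ℝ) ^ (w * K + j) * ((G : ℝ) * ((a : ℝ) / m)) = (b : ℝ) ^ j * G * (((b : ℝ) ^ (w * K) * a) / m) := by
      rw [pow_add]
      field_simp
    rw [h5, h3]
    field_simp
    ring
  rw [h4]
  exact far_add_int _ hj.2

end Pool.Agent.R459.Eq
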