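import Pool.Agent.R459.Eq10

/-! All thresholds at all `x` up to a power of `N`. -/

set_option autoImplicit false

namespace Pool.Agent.R459.Eq
open Finset
open Pool.Agent.H807R2.Dav

/-- a union of events, with weights -/
lemma wunion' {ι τ : Type} (w : ι → ℝ) (E : Finset ι) (hw : ∀ i ∈ E, 0 ≤ w i) (Q : Finset τ) (R : τ → ι → Prop)
    (hR : ∀ i ∈ E, ∃ q ∈ Q, R q i) (B : τ → ℝ)
    (hB : ∀ q ∈ Q, ∀ E' : Finset ι, E' ⊆ E → (∀ i ∈ E', R q i) → ∑ i ∈ E', w i ≤ B q) :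
    ∑ i ∈ E, w i ≤ ∑ q ∈ Q, B q := by
  classical
  calc ∑ i ∈ E, w i ≤ ∑ i ∈ E, ∑ q ∈ Q, (if R q i then w i else 0) := by
        apply sum_le_sum
        intro i hi
        obtain ⟨q, hq, hqi⟩ := hR i hi
        calc w i = if R q i then w i else 0 := by rw [if_pos hqi]
          _ ≤ _ := single_le_sum (f := fun q => if R q i then w i else 0) (fun q _ => by
            split_ifs
            · exact hw i hi
            · exact le_rfl) hq
    _ = ∑ q ∈ Q, ∑ i ∈ E.filter (fun i => R q i), w i := by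
        rw [sum_comm]
        apply sum_congr rfl
        intro q _
        rw [sum_filter]
    _ ≤ ∑ q ∈ Q, B q := by
        apply sum_le_sum
        intro q hq
        exact hB q hq _ (filter_subset _ _) fun i hi => (Finset.mem_filter.1 hi).2

/-- the tail of a series -/
lemma tail_sum (C r : ℝ) (e : ℕ) (hC : 0 ≤ C) (hr0 : 0 < r) (hr1 : r < 1) : ∃ L₀ : ℕ, ∀ L₁ : ℕ, L₀ ≤ L₁ → ∀ I : Finset ℕ,
    (∀ L ∈ I, L₁ ≤ L) → ∑ L ∈ I, C * ((L : ℝ) + 1) ^ e * r ^ (2 * L) ≤ r ^ L₁ := by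
  classical
  have hsum : Summable (fun L : ℕ => C * ((L : ℝ) + 1) ^ e * r ^ L) := by
    have h1 := summable_pow_mul_geometric_of_norm_lt_one e (r := r) (by rw [Real.norm_of_nonneg hr0.le]; exact hr1)
    have h2 := (summable_nat_add_iff 1).2 h1
    have h3 := h2.mul_left (C / r)
    refine h3.congr fun L => ?_
    push_cast
    rw [pow_succ]
    field_simp
  obtain ⟨s, hs⟩ := hsum.vanishing (Iio_mem_nhds (show (0 : ℝ) < 1 by norm_num))
  obtain ⟨L₀, hL₀⟩ : ∃ L₀, ∀ L ∈ s, L < L₀ := by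
    refine ⟨s.sup id + 1, fun L hL => ?_⟩
    have := Finset.le_sup (f := id) hL
    simp only [id] at this
    omega
  refine ⟨L₀, fun L₁ hL₁ I hI => ?_⟩
  have h1 := hs I (by
    rw [Finset.disjoint_left]
    intro L hL hLs
    have h1 := hI L hL
    have h2 := hL₀ L hLs
    omega)
  have h2 : ∑ L ∈ I, C * ((L : ℝ) + 1) ^ e * r ^ L < 1 := h1
  calc ∑ L ∈ I, C * ((L : ℝ) + 1) ^ e * r ^ (2 * L) ≤ ∑ L ∈ I, (C * ((L : ℝ) + 1) ^ e * r ^ L) * r ^ L₁ := by
        apply sum_le_sum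
        intro L hL
        rw [two_mul, pow_add, ← mul_assoc]
        apply mul_le_mul_of_nonneg_left _ (by positivity)
        exact pow_le_pow_of_le_one hr0.le hr1.le (hI L hL)
    _ = (∑ L ∈ I, C * ((L : ℝ) + 1) ^ e * r ^ L) * r ^ L₁ := by rw [sum_mul]
    _ ≤ 1 * r ^ L₁ := mul_le_mul_of_nonneg_right h2.le (by positivity)
    _ = _ := one_mul _

/-- the primes up to `x` -/
def pri (x : ℕ) : Finset ℕ := (range (x + 1)).filter Nat.Prime

lemma mem_pri {x p : ℕ} : p ∈ pri x ↔ p ≤ x ∧ p.Prime := by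
  unfold pri
  rw [mem_filter, mem_range]
  constructor
  · rintro ⟨h1, h2⟩
    exact ⟨by omega, h2⟩
  · rintro ⟨h1, h2⟩
    exact ⟨by omega, h2⟩

open Classical in
/-- the number of the primes `p ≤ x` with `a p n < u` -/
noncomputable def cntA (a : ℕ → ℤ → ℝ) (n : ℤ) (x : ℕ) (u : ℝ) : ℕ := ((pri x).filter (fun p => a p n < u)).card

open Classical in
/-- the proportion of the residues `t` modulo `p` with `a p t < u` -/
noncomputable def prp (a : ℕ → ℤ → ℝ) (p : ℕ) (u : ℝ) : ℝ := (((range p).filter (fun t : ℕ => a p (t : ℤ) < u)).card : ℝ) / p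

/-- a system of functions, where `a p` depends on the residue modulo `p` only -/
def Sys (a : ℕ → ℤ → ℝ) : Prop := ∀ p : ℕ, p.Prime → ∀ m n : ℤ, (p : ℤ) ∣ m - n → a p m = a p n

open Classical in
/-- the contribution of a prime to the deviation -/
noncomputable def dv (a : ℕ → ℤ → ℝ) (n : ℤ) (u : ℝ) (p : ℕ) : ℝ := (if a p n < u then 1 else 0) - prp a p u

lemma prp_mem (a : ℕ → ℤ → ℝ) (p : ℕ) (u : ℝ) : 0 ≤ prp a p u ∧ prp a p u ≤ 1 := by
  unfold prp
  refine ⟨by positivity, ?_⟩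
  rcases Nat.eq_zero_or_pos p with h | h
  · rw [h]; simp
  · have hp : (0 : ℝ) < p := by exact_mod_cast h
    rw [div_le_one hp]
    have := card_filter_le (range p) (fun t : ℕ => a p (t : ℤ) < u)
    rw [card_range] at this
    exact_mod_cast this

lemma dv_abs (a : ℕ → ℤ → ℝ) (n : ℤ) (u : ℝ) (p : ℕ) : |dv a n u p| ≤ 1 := by
  classical
  have h := prp_mem a p u
  unfold dv
  rw [abs_le]
  split_ifs <;> constructor <;> linarith [h.1, h.2]

lemma dev_eq (a : ℕ → ℤ → ℝ) (n : ℤ) (x : ℕ) (u : ℝ) : (cntA a n x u : ℝ) - ∑ p ∈ pri x, prp a p u = ∑ p ∈ pri x, dv a n u p := by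
  classical
  unfold dv cntA
  rw [sum_sub_distrib, sum_ite, sum_const_zero, add_zero, sum_const, nsmul_eq_mul, mul_one]

/-- one scale -/
theorem ang_scale (b : ℕ) (hb : 2 ≤ b) (A : ℕ) (γ : ℝ) (hγ0 : 0 < γ) (hγ1 : γ < 1) : ∃ W : ℕ, 1 ≤ W ∧
    ∀ (F : ℕ) (κ : ℤ), 1 ≤ F → κ ≠ 0 → ∃ C : ℝ, 0 < C ∧ ∀ (k L : ℕ), b ≤ 2 ^ L → (2 ^ L) ^ W ≤ b ^ k →
    ∀ (ι : Type) (Ω : Finset ι) (w : ι → ℝ) (v : ι → ℤ), Decays b F A k γ κ Ω w v →
    ∀ a : ℕ → ℤ → ℝ, Sys a → ∀ (T : ℝ), 0 < T → ∀ E : Finset ι, E ⊆ Ω →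
      (∀ i ∈ E, ∃ (x : ℕ) (u : ℝ), x ≤ 2 ^ L ∧ T < |∑ p ∈ (pri x).filter (fun p => ¬ p ∣ b), dv a (v i) u p|) →
      ∑ i ∈ E, w i ≤ C * (L + 1) ^ 4 * 2 ^ L / T ^ 2 := by
  classical
  obtain ⟨W, hW, H⟩ := sup_ms b hb A γ hγ0 hγ1
  refine ⟨W, hW, fun F κ hF hκ => ?_⟩
  obtain ⟨C, hC, hmain⟩ := H F κ hF hκ
  refine ⟨C, hC, fun k L hbL hxW ι Ω w v hdec a ha T hT E hE hbad => ?_⟩
  obtain ⟨P, hP⟩ : ∃ P : Finset ℕ, P = (pri (2 ^ L)).filter (fun p => ¬ p ∣ b) := ⟨_, rfl⟩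
  have hPm : ∀ p ∈ P, p.Prime ∧ p ≤ 2 ^ L ∧ ¬ p ∣ b := by
    intro p hp
    rw [hP, mem_filter, mem_pri] at hp
    exact ⟨hp.1.2, hp.1.1, hp.2⟩
  obtain ⟨V, hV⟩ : ∃ V : Finset ℝ, V = (P ×ˢ range (2 ^ L)).image (fun z => a z.1 (z.2 : ℤ)) := ⟨_, rfl⟩
  have hVc : V.card ≤ 2 ^ (2 * L) := by
    rw [hV]
    refine card_image_le.trans ?_
    rw [card_product, card_range]
    have h1 : P.card ≤ 2 ^ L := by
      have h1 : P ⊆ Icc 1 (2 ^ L) := by
        intro p hp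
        rw [mem_Icc]
        exact ⟨(hPm p hp).1.one_le, (hPm p hp).2.1⟩
      have h2 := card_le_card h1
      rwa [Nat.card_Icc, Nat.add_sub_cancel] at h2
    calc P.card * 2 ^ L ≤ 2 ^ L * 2 ^ L := Nat.mul_le_mul_right _ h1
      _ = 2 ^ (2 * L) := by rw [← pow_add]; congr 1; ring
  have hVm : ∀ p ∈ P, ∀ n : ℤ, a p n ∈ V := by
    intro p hp n
    rw [hV, mem_image]
    have hp0 : (0 : ℤ) < p := by exact_mod_cast (hPm p hp).1.pos
    refine ⟨(p, (n % p).toNat), ?_, ?_⟩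
    · rw [mem_product, mem_range]
      refine ⟨hp, ?_⟩
      have h1 := Int.emod_lt_of_pos n hp0
      have h2 := Int.emod_nonneg n hp0.ne'
      have h3 := (hPm p hp).2.1
      simp only
      zify
      rw [Int.toNat_of_nonneg h2]
      have : (p : ℤ) ≤ 2 ^ L := by exact_mod_cast h3
      linarith
    · simp only
      have h2 := Int.emod_nonneg n hp0.ne'
      rw [Int.toNat_of_nonneg h2]
      apply ha p (hPm p hp).1
      rw [Int.emod_def]
      exact ⟨-(n / p), by ring⟩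
  obtain ⟨rk, hrk⟩ : ∃ rk : ℝ → ℕ, rk = fun u => (V.filter (fun y => y < u)).card := ⟨_, rfl⟩
  have hrk1 : ∀ u, rk u ≤ 2 ^ (2 * L) := by
    intro u
    rw [hrk]
    exact (card_filter_le _ _).trans hVc
  have hrk2 : ∀ y ∈ V, ∀ u : ℝ, (rk y < rk u ↔ y < u) := by
    intro y hy u
    rw [hrk]
    simp only
    constructor
    · intro h
      by_contra hcon
      push Not at hcon
      have : (V.filter (fun z => z < u)).card ≤ (V.filter (fun z => z < y)).card := by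
        apply card_le_card
        intro z hz
        rw [mem_filter] at hz ⊢
        exact ⟨hz.1, by linarith [hz.2]⟩
      omega
    · intro h
      apply card_lt_card
      rw [Finset.ssubset_iff_of_subset]
      · exact ⟨y, by rw [mem_filter]; exact ⟨hy, h⟩, by rw [mem_filter]; simp⟩
      · intro z hz
        rw [mem_filter] at hz ⊢
        exact ⟨hz.1, by linarith [hz.2]⟩
  obtain ⟨Q, hQ0, hQ1, hQ2⟩ := hmain k L hbL hxW ι Ω w v hdec P hPm (fun p n => rk (a p n)) (by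
    intro p hp m n hmn
    rw [ha p (hPm p hp).1 m n hmn])
  -- the deviation
  have hdev : ∀ (n : ℤ) (x : ℕ) (u : ℝ), x ≤ 2 ^ L → ∑ p ∈ (pri x).filter (fun p => ¬ p ∣ b), dv a n u p =
      ss (fun p n => rk (a p n)) P n x (rk u) := by
    intro n x u hx
    unfold ss
    have hsub : (pri x).filter (fun p => ¬ p ∣ b) ⊆ P := by
      intro p hp
      rw [mem_filter, mem_pri] at hp
      rw [hP, mem_filter, mem_pri]
      exact ⟨⟨hp.1.1.trans hx, hp.1.2⟩, hp.2⟩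
    rw [← sum_subset hsub]
    · apply sum_congr rfl
      intro p hp
      have hp' := hsub hp
      rw [mem_filter, mem_pri] at hp
      unfold dv prp mean hh
      have e1 : (if p ≤ x ∧ rk (a p n) < rk u then (1 : ℝ) else 0) = if a p n < u then 1 else 0 := by
        by_cases h : a p n < u
        · rw [if_pos h, if_pos ⟨hp.1.1, (hrk2 _ (hVm p hp' n) u).2 h⟩]
        · rw [if_neg h, if_neg (fun h' => h ((hrk2 _ (hVm p hp' n) u).1 h'.2))]
      have e2 : ∑ t ∈ range p, (if p ≤ x ∧ rk (a p (t : ℤ)) < rk u then (1 : ℝ) else 0) =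
          (((range p).filter (fun t : ℕ => a p (t : ℤ) < u)).card : ℝ) := by
        rw [card_filter]
        push_cast
        apply sum_congr rfl
        intro t _
        by_cases h : a p (t : ℤ) < u
        · rw [if_pos h, if_pos ⟨hp.1.1, (hrk2 _ (hVm p hp' t) u).2 h⟩]
        · rw [if_neg h, if_neg (fun h' => h ((hrk2 _ (hVm p hp' t) u).1 h'.2))]
      rw [e1, e2]
    · intro p hp hnp
      have hxp : ¬ p ≤ x := by
        intro hcon
        apply hnp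
        rw [mem_filter, mem_pri]
        exact ⟨⟨hcon, (hPm p hp).1⟩, (hPm p hp).2.2⟩
      have e : ∀ n, hh (fun p n => rk (a p n)) x (rk u) p n = 0 := by
        intro n
        unfold hh
        rw [if_neg (fun h => hxp h.1)]
      unfold mean
      rw [e]
      simp [e]
  have hET : ∀ i ∈ E, T ^ 2 ≤ Q i := by
    intro i hi
    obtain ⟨x, u, hx, hTx⟩ := hbad i hi
    rw [hdev (v i) x u hx] at hTx
    have h1 := hQ2 i (hE hi) x (rk u) hx (hrk1 u)
    refine le_trans ?_ h1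
    rw [← sq_abs (ss _ _ _ _ _)]
    exact pow_le_pow_left₀ hT.le hTx.le 2
  have h1 : (∑ i ∈ E, w i) * T ^ 2 ≤ C * (L + 1) ^ 4 * 2 ^ L := by
    rw [sum_mul]
    calc ∑ i ∈ E, w i * T ^ 2 ≤ ∑ i ∈ E, w i * Q i :=
          sum_le_sum fun i hi => mul_le_mul_of_nonneg_left (hET i hi) (hdec.nonneg i (hE hi))
      _ ≤ ∑ i ∈ Ω, w i * Q i := sum_le_sum_of_subset_of_nonneg hE fun i hi _ => mul_nonneg (hdec.nonneg i hi) (hQ0 i hi)
      _ ≤ _ := hQ1
  rw [le_div_iff₀ (by positivity)]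
  exact h1

/-- all scales and all thresholds -/
theorem ang_all (b : ℕ) (hb : 2 ≤ b) (A : ℕ) (γ : ℝ) (hγ0 : 0 < γ) (hγ1 : γ < 1) : ∃ W : ℕ, 1 ≤ W ∧
    ∀ (F : ℕ) (κ : ℤ), 1 ≤ F → κ ≠ 0 → ∀ δ : ℝ, 0 < δ → δ ≤ 1 / 2 → ∃ X₀ : ℕ, ∀ X : ℕ, X₀ ≤ X → ∀ k : ℕ,
    ∀ (ι : Type) (Ω : Finset ι) (w : ι → ℝ) (v : ι → ℤ), Decays b F A k γ κ Ω w v →
    ∀ a : ℕ → ℤ → ℝ, Sys a → ∀ E : Finset ι, E ⊆ Ω →
      (∀ i ∈ E, ∃ (x : ℕ) (u : ℝ), X ≤ x ∧ x ^ W ≤ b ^ k ∧
        (x : ℝ) ^ (1 / 2 + δ) < |(cntA a (v i) x u : ℝ) - ∑ p ∈ pri x, prp a p u|) →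
      ∑ i ∈ E, w i ≤ (X : ℝ) ^ (-δ) := by
  classical
  obtain ⟨W, hW, H⟩ := ang_scale b hb A γ hγ0 hγ1
  refine ⟨2 * W, by omega, fun F κ hF hκ δ hδ hδ1 => ?_⟩
  obtain ⟨C, hC, hmain⟩ := H F κ hF hκ
  obtain ⟨r, hr⟩ : ∃ r : ℝ, r = (2 : ℝ) ^ (-δ) := ⟨_, rfl⟩
  have hr0 : 0 < r := by rw [hr]; positivity
  have hr1 : r < 1 := by
    rw [hr]
    exact Real.rpow_lt_one_of_one_lt_of_neg (by norm_num) (by linarith)
  obtain ⟨L₀, hL₀⟩ := tail_sum (64 * C) r 4 (by positivity) hr0 hr1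
  -- the threshold
  obtain ⟨X₁, hX₁⟩ : ∃ X₁ : ℕ, ((4 : ℝ) * b) ^ 2 ≤ X₁ := exists_nat_ge _
  refine ⟨2 ^ L₀ + X₁ + b + 2, fun X hX k ι Ω w v hdec a ha E hE hbad => ?_⟩
  obtain ⟨L₁, hL₁⟩ : ∃ L₁, L₁ = Nat.clog 2 X := ⟨_, rfl⟩
  have hXL₁ : X ≤ 2 ^ L₁ := by rw [hL₁]; exact Nat.le_pow_clog (by norm_num) X
  have hL₀₁ : L₀ ≤ L₁ := by
    have : 2 ^ L₀ ≤ 2 ^ L₁ := by omega
    exact (Nat.pow_le_pow_iff_right (by norm_num)).1 this
  have hpo : 1 ≤ 2 ^ L₀ := Nat.one_le_two_pow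
  have hXr : (0 : ℝ) < X := by exact_mod_cast (by omega : 0 < X)
  obtain ⟨y, hy⟩ : ∃ y : ℕ → ℝ, y = fun L => ((2 : ℝ) ^ L) ^ (1 / 2 + δ) := ⟨_, rfl⟩
  have hy0 : ∀ L, 0 < y L := by intro L; rw [hy]; positivity
  obtain ⟨Q, hQ⟩ : ∃ Q : Finset ℕ, Q = (range (b * k + 1)).filter (fun L => L₁ ≤ L ∧ b ≤ 2 ^ L ∧ (2 ^ L) ^ W ≤ b ^ k) := ⟨_, rfl⟩
  have hun := wunion' w E (fun i hi => hdec.nonneg i (hE hi)) Q
    (fun L i => ∃ (x : ℕ) (u : ℝ), x ≤ 2 ^ L ∧ y L / 8 < |∑ p ∈ (pri x).filter (fun p => ¬ p ∣ b), dv a (v i) u p|) (by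
      intro i hi
      obtain ⟨x, u, hXx, hxW, hdev⟩ := hbad i hi
      obtain ⟨L, hL⟩ : ∃ L, L = Nat.clog 2 x := ⟨_, rfl⟩
      have hxL : x ≤ 2 ^ L := by rw [hL]; exact Nat.le_pow_clog (by norm_num) x
      have hx2 : 2 ≤ x := by omega
      have hL1 : 1 ≤ L := by
        rcases Nat.eq_zero_or_pos L with h | h
        · rw [h, pow_zero] at hxL
          omega
        · exact h
      have hLx : 2 ^ L ≤ 2 * x := by
        have h1 := Nat.pow_pred_clog_lt_self (by norm_num : 1 < 2) (by omega : 1 < x)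
        rw [← hL] at h1
        have h2 : 2 ^ L = 2 * 2 ^ (L.pred) := by
          rw [← pow_succ', Nat.pred_eq_sub_one, Nat.sub_add_cancel hL1]
        omega
      have hLW : (2 ^ L) ^ W ≤ b ^ k := by
        calc (2 ^ L) ^ W ≤ (x ^ 2) ^ W := Nat.pow_le_pow_left (by nlinarith) _
          _ = x ^ (2 * W) := by rw [← pow_mul]
          _ ≤ b ^ k := hxW
      have hLk : L < b * k + 1 := by
        have h1 : 2 ^ L ≤ 2 ^ (b * k) := by
          calc 2 ^ L ≤ (2 ^ L) ^ W := Nat.le_self_pow (by omega) _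
            _ ≤ b ^ k := hLW
            _ ≤ (2 ^ b) ^ k := Nat.pow_le_pow_left (Nat.lt_two_pow_self).le _
            _ = 2 ^ (b * k) := by rw [← pow_mul]
        have := (Nat.pow_le_pow_iff_right (by norm_num : 1 < 2)).1 h1
        omega
      refine ⟨L, ?_, x, u, hxL, ?_⟩
      · rw [hQ, mem_filter, mem_range]
        refine ⟨hLk, ?_, by omega, hLW⟩
        rw [hL₁, hL]
        exact Nat.clog_mono_right 2 hXx
      · rw [dev_eq] at hdev
        have hxr : (1 : ℝ) ≤ x := by exact_mod_cast (by omega : 1 ≤ x)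
        have h1 : y L ≤ 2 * (x : ℝ) ^ (1 / 2 + δ) := by
          rw [hy]
          simp only
          have h2 : ((2 : ℝ) ^ L) ≤ 2 * x := by exact_mod_cast hLx
          calc ((2 : ℝ) ^ L) ^ (1 / 2 + δ) ≤ (2 * x) ^ (1 / 2 + δ) := Real.rpow_le_rpow (by positivity) h2 (by linarith)
            _ = 2 ^ (1 / 2 + δ) * (x : ℝ) ^ (1 / 2 + δ) := Real.mul_rpow (by norm_num) (by linarith)
            _ ≤ 2 ^ (1 : ℝ) * (x : ℝ) ^ (1 / 2 + δ) := by
                apply mul_le_mul_of_nonneg_right _ (by positivity)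
                exact Real.rpow_le_rpow_of_exponent_le (by norm_num) (by linarith)
            _ = _ := by rw [Real.rpow_one]
        have h3 : 4 * (b : ℝ) ≤ y L := by
          rw [hy]
          simp only
          have h4 : ((4 : ℝ) * b) ^ 2 ≤ (2 : ℝ) ^ L := by
            refine hX₁.trans ?_
            have : X₁ ≤ 2 ^ L := by omega
            exact_mod_cast this
          have h5 : (4 : ℝ) * b = (((4 : ℝ) * b) ^ 2) ^ (1 / 2 : ℝ) := by
            rw [← Real.sqrt_eq_rpow, Real.sqrt_sq (by positivity)]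
          rw [h5]
          calc (((4 : ℝ) * b) ^ 2) ^ (1 / 2 : ℝ) ≤ ((2 : ℝ) ^ L) ^ (1 / 2 : ℝ) := Real.rpow_le_rpow (by positivity) h4 (by norm_num)
            _ ≤ _ := Real.rpow_le_rpow_of_exponent_le (one_le_pow₀ (by norm_num)) (by linarith)
        have h6 : |∑ p ∈ pri x, dv a (v i) u p| ≤ |∑ p ∈ (pri x).filter (fun p => ¬ p ∣ b), dv a (v i) u p| + b := by
          rw [← sum_filter_add_sum_filter_not (pri x) (fun p => ¬ p ∣ b)]
          refine (abs_add_le _ _).trans ?_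
          have h7 : |∑ p ∈ (pri x).filter (fun p => ¬ ¬ p ∣ b), dv a (v i) u p| ≤ b := by
            refine (abs_sum_le_sum_abs _ _).trans ?_
            refine (sum_le_card_nsmul _ _ 1 fun p _ => dv_abs a (v i) u p).trans ?_
            rw [nsmul_eq_mul, mul_one]
            have h8 : ((pri x).filter (fun p => ¬ ¬ p ∣ b)) ⊆ Icc 1 b := by
              intro p hp
              rw [mem_filter, mem_pri, not_not] at hp
              rw [mem_Icc]
              exact ⟨hp.1.2.one_le, Nat.le_of_dvd (by omega) hp.2⟩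
            have h9 := card_le_card h8
            rw [Nat.card_Icc, Nat.add_sub_cancel] at h9
            exact_mod_cast h9
          linarith
        linarith)
    (fun L => 64 * C * ((L : ℝ) + 1) ^ 4 * r ^ (2 * L)) (by
      intro L hL E' hE' hE''
      rw [hQ, mem_filter] at hL
      have h1 := hmain k L hL.2.2.1 hL.2.2.2 ι Ω w v hdec a ha (y L / 8) (by have := hy0 L; positivity) E' (hE'.trans hE) hE''
      refine h1.trans (le_of_eq ?_)
      have e1 : (y L) ^ 2 = 2 ^ L * (r⁻¹) ^ (2 * L) := by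
        rw [hy, hr]
        simp only
        rw [← Real.rpow_natCast (((2 : ℝ) ^ L) ^ (1 / 2 + δ)) 2, ← Real.rpow_mul (by positivity), ← Real.rpow_neg (by norm_num), neg_neg,
          ← Real.rpow_natCast ((2 : ℝ) ^ δ), ← Real.rpow_mul (by norm_num)]
        rw [← Real.rpow_natCast 2 L, ← Real.rpow_mul (by norm_num), ← Real.rpow_add (by norm_num)]
        congr 1
        push_cast
        ring
      rw [div_pow, e1]
      have h2 : (2 : ℝ) ^ L ≠ 0 := by positivity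
      have h3 : r ^ (2 * L) ≠ 0 := by positivity
      rw [inv_pow]
      field_simp
      ring)
  refine hun.trans ?_
  have h1 := hL₀ L₁ hL₀₁ Q (by
    intro L hL
    rw [hQ, mem_filter] at hL
    exact hL.2.1)
  refine h1.trans ?_
  rw [hr, ← Real.rpow_natCast, ← Real.rpow_mul (by norm_num), mul_comm, Real.rpow_mul (by norm_num), Real.rpow_natCast]
  rw [Real.rpow_neg (by positivity), Real.rpow_neg hXr.le]
  apply inv_anti₀ (by positivity)
  apply Real.rpow_le_rpow hXr.le _ hδ.le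
  exact_mod_cast hXL₁

end Pool.Agent.R459.Eq
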