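import Pool.Agent.R459.Bsd4

/-! Sums of real-valued local functions at all `x`, for almost all members of the digit families. -/

set_option autoImplicit false

namespace Pool.Agent.R459.Eq
open Finset
open Pool.Agent.H807R2.Dav

/-- a system of functions with values in `[-1, 1]` -/
def Sysb (g : ℕ → ℤ → ℝ) : Prop := Sys g ∧ ∀ p : ℕ, p.Prime → ∀ n : ℤ, |g p n| ≤ 1

lemma mean_abs (p : ℕ) (hp : 1 ≤ p) (f : ℤ → ℝ) (hf : ∀ n, |f n| ≤ 1) : |mean p f| ≤ 1 := by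
  have hp0 : (0 : ℝ) < p := by exact_mod_cast hp
  unfold mean
  rw [abs_div, abs_of_pos hp0, div_le_one hp0]
  refine (abs_sum_le_sum_abs _ _).trans ((sum_le_card_nsmul (range p) (fun t : ℕ => |f (t : ℤ)|) 1 fun t _ => hf (t : ℤ)).trans ?_)
  simp

/-- all scales -/
theorem real_all (b : ℕ) (hb : 2 ≤ b) (A : ℕ) (γ : ℝ) (hγ0 : 0 < γ) (hγ1 : γ < 1) : ∃ W : ℕ, 1 ≤ W ∧
    ∀ (F : ℕ) (κ : ℤ), 1 ≤ F → κ ≠ 0 → ∀ δ : ℝ, 0 < δ → δ ≤ 1 / 2 → ∃ X₀ : ℕ, ∀ X : ℕ, X₀ ≤ X → ∀ k : ℕ,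
    ∀ (ι : Type) (Ω : Finset ι) (w : ι → ℝ) (v : ι → ℤ), Decays b F A k γ κ Ω w v →
    ∀ g : ℕ → ℤ → ℝ, Sysb g → ∀ E : Finset ι, E ⊆ Ω →
      (∀ i ∈ E, ∃ x : ℕ, X ≤ x ∧ x ^ W ≤ b ^ k ∧ (x : ℝ) ^ (1 / 2 + δ) < |∑ p ∈ pri x, (g p (v i) - mean p (g p))|) →
      ∑ i ∈ E, w i ≤ (X : ℝ) ^ (-δ) := by
  classical
  obtain ⟨W, hW, H⟩ := sup_real b hb A γ hγ0 hγ1
  refine ⟨2 * W, by omega, fun F κ hF hκ δ hδ hδ1 => ?_⟩
  obtain ⟨C, hC, hmain⟩ := H F κ hF hκ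
  obtain ⟨r, hr⟩ : ∃ r : ℝ, r = (2 : ℝ) ^ (-δ) := ⟨_, rfl⟩
  have hr0 : 0 < r := by rw [hr]; positivity
  have hr1 : r < 1 := by
    rw [hr]
    exact Real.rpow_lt_one_of_one_lt_of_neg (by norm_num) (by linarith)
  obtain ⟨L₀, hL₀⟩ := tail_sum (64 * C) r 2 (by positivity) hr0 hr1
  -- the threshold
  obtain ⟨X₁, hX₁⟩ : ∃ X₁ : ℕ, ((8 : ℝ) * b) ^ 2 ≤ X₁ := exists_nat_ge _
  refine ⟨2 ^ L₀ + X₁ + b + 2, fun X hX k ι Ω w v hdec g hg E hE hbad => ?_⟩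
  have hpo : 1 ≤ 2 ^ L₀ := Nat.one_le_two_pow
  obtain ⟨L₁, hL₁⟩ : ∃ L₁, L₁ = Nat.clog 2 X := ⟨_, rfl⟩
  have hXL₁ : X ≤ 2 ^ L₁ := by rw [hL₁]; exact Nat.le_pow_clog (by norm_num) X
  have hL₀₁ : L₀ ≤ L₁ := by
    have : 2 ^ L₀ ≤ 2 ^ L₁ := by omega
    exact (Nat.pow_le_pow_iff_right (by norm_num)).1 this
  have hXr : (0 : ℝ) < X := by exact_mod_cast (by omega : 0 < X)
  obtain ⟨y, hy⟩ : ∃ y : ℕ → ℝ, y = fun L => ((2 : ℝ) ^ L) ^ (1 / 2 + δ) := ⟨_, rfl⟩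
  have hy0 : ∀ L, 0 < y L := by intro L; rw [hy]; positivity
  obtain ⟨Q, hQ⟩ : ∃ Q : Finset ℕ, Q = (range (b * k + 1)).filter (fun L => L₁ ≤ L ∧ b ≤ 2 ^ L ∧ (2 ^ L) ^ W ≤ b ^ k) := ⟨_, rfl⟩
  obtain ⟨PP, hPP⟩ : ∃ PP : ℕ → Finset ℕ, PP = fun L => (pri (2 ^ L)).filter (fun p => ¬ p ∣ b) := ⟨_, rfl⟩
  have hPPm : ∀ L, ∀ p ∈ PP L, p.Prime ∧ p ≤ 2 ^ L ∧ ¬ p ∣ b := by
    intro L p hp
    rw [hPP, mem_filter, mem_pri] at hp
    exact ⟨hp.1.2, hp.1.1, hp.2⟩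
  have hun := wunion' w E (fun i hi => hdec.nonneg i (hE hi)) Q
    (fun L i => ∃ x : ℕ, x ≤ 2 ^ L ∧ y L / 8 < |∑ p ∈ (PP L).filter (fun p => p ≤ x), (g p (v i) - mean p (g p))|) (by
      intro i hi
      obtain ⟨x, hXx, hxW, hdev⟩ := hbad i hi
      obtain ⟨L, hL⟩ : ∃ L, L = Nat.clog 2 x := ⟨_, rfl⟩
      have hxL : x ≤ 2 ^ L := by rw [hL]; exact Nat.le_pow_clog (by norm_num) x
      have hx2 : 2 ≤ x := by omega
      have hL1 : 1 ≤ L := by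
        rcases Nat.eq_zero_or_pos L with h | h
        · rw [h, pow_zero] at hxL
          omega
        · exact h
      have hLx : 2 ^ L ≤ 2 * x := by
        have h1 := Nat.pow_pred_clog_lt_self (by norm_num : 1 < 2) (by omega : 1 < x)
        rw [← hL] at h1
        have h2 : 2 ^ L = 2 * 2 ^ (L.pred) := by
          rw [← pow_succ', Nat.pred_eq_sub_one, Nat.sub_add_cancel hL1]
        omega
      have hLW : (2 ^ L) ^ W ≤ b ^ k := by
        calc (2 ^ L) ^ W ≤ (x ^ 2) ^ W := Nat.pow_le_pow_left (by nlinarith) _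
          _ = x ^ (2 * W) := by rw [← pow_mul]
          _ ≤ b ^ k := hxW
      have hLk : L < b * k + 1 := by
        have h1 : 2 ^ L ≤ 2 ^ (b * k) := by
          calc 2 ^ L ≤ (2 ^ L) ^ W := Nat.le_self_pow (by omega) _
            _ ≤ b ^ k := hLW
            _ ≤ (2 ^ b) ^ k := Nat.pow_le_pow_left (Nat.lt_two_pow_self).le _
            _ = 2 ^ (b * k) := by rw [← pow_mul]
        have := (Nat.pow_le_pow_iff_right (by norm_num : 1 < 2)).1 h1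
        omega
      refine ⟨L, ?_, x, hxL, ?_⟩
      · rw [hQ, mem_filter, mem_range]
        refine ⟨hLk, ?_, by omega, hLW⟩
        rw [hL₁, hL]
        exact Nat.clog_mono_right 2 hXx
      · have hxr : (1 : ℝ) ≤ x := by exact_mod_cast (by omega : 1 ≤ x)
        have h1 : y L ≤ 2 * (x : ℝ) ^ (1 / 2 + δ) := by
          rw [hy]
          simp only
          have h2 : ((2 : ℝ) ^ L) ≤ 2 * x := by exact_mod_cast hLx
          calc ((2 : ℝ) ^ L) ^ (1 / 2 + δ) ≤ (2 * x) ^ (1 / 2 + δ) := Real.rpow_le_rpow (by positivity) h2 (by linarith)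
            _ = 2 ^ (1 / 2 + δ) * (x : ℝ) ^ (1 / 2 + δ) := Real.mul_rpow (by norm_num) (by linarith)
            _ ≤ 2 ^ (1 : ℝ) * (x : ℝ) ^ (1 / 2 + δ) := by
                apply mul_le_mul_of_nonneg_right _ (by positivity)
                exact Real.rpow_le_rpow_of_exponent_le (by norm_num) (by linarith)
            _ = _ := by rw [Real.rpow_one]
        have h3 : 8 * (b : ℝ) ≤ y L := by
          rw [hy]
          simp only
          have h4 : ((8 : ℝ) * b) ^ 2 ≤ (2 : ℝ) ^ L := by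
            refine hX₁.trans ?_
            have : X₁ ≤ 2 ^ L := by omega
            exact_mod_cast this
          have h5 : (8 : ℝ) * b = (((8 : ℝ) * b) ^ 2) ^ (1 / 2 : ℝ) := by
            rw [← Real.sqrt_eq_rpow, Real.sqrt_sq (by positivity)]
          rw [h5]
          calc (((8 : ℝ) * b) ^ 2) ^ (1 / 2 : ℝ) ≤ ((2 : ℝ) ^ L) ^ (1 / 2 : ℝ) := Real.rpow_le_rpow (by positivity) h4 (by norm_num)
            _ ≤ _ := Real.rpow_le_rpow_of_exponent_le (one_le_pow₀ (by norm_num)) (by linarith)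
        have e1 : (pri x).filter (fun p => ¬ p ∣ b) = (PP L).filter (fun p => p ≤ x) := by
          ext p
          rw [hPP]
          simp only [mem_filter, mem_pri]
          constructor
          · rintro ⟨⟨h4, h5⟩, h6⟩
            exact ⟨⟨⟨h4.trans hxL, h5⟩, h6⟩, h4⟩
          · rintro ⟨⟨⟨h4, h5⟩, h6⟩, h7⟩
            exact ⟨⟨h7, h5⟩, h6⟩
        have h6 : |∑ p ∈ pri x, (g p (v i) - mean p (g p))| ≤ |∑ p ∈ (PP L).filter (fun p => p ≤ x), (g p (v i) - mean p (g p))| + 2 * b := by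
          rw [← sum_filter_add_sum_filter_not (pri x) (fun p => ¬ p ∣ b), e1]
          refine (abs_add_le _ _).trans ?_
          have h7 : |∑ p ∈ (pri x).filter (fun p => ¬ ¬ p ∣ b), (g p (v i) - mean p (g p))| ≤ 2 * b := by
            refine (abs_sum_le_sum_abs _ _).trans ?_
            have h10 : ∀ p ∈ (pri x).filter (fun p => ¬ ¬ p ∣ b), |g p (v i) - mean p (g p)| ≤ 2 := by
              intro p hp
              rw [mem_filter, mem_pri] at hp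
              have h11 := hg.2 p hp.1.2 (v i)
              have h12 := mean_abs p hp.1.2.one_le (g p) (hg.2 p hp.1.2)
              refine (abs_sub _ _).trans ?_
              linarith
            refine (sum_le_card_nsmul _ _ 2 h10).trans ?_
            rw [nsmul_eq_mul, mul_comm]
            have h8 : ((pri x).filter (fun p => ¬ ¬ p ∣ b)) ⊆ Icc 1 b := by
              intro p hp
              rw [mem_filter, mem_pri, not_not] at hp
              rw [mem_Icc]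
              exact ⟨hp.1.2.one_le, Nat.le_of_dvd (by omega) hp.2⟩
            have h9 := card_le_card h8
            rw [Nat.card_Icc, Nat.add_sub_cancel] at h9
            have h13 : (((pri x).filter (fun p => ¬ ¬ p ∣ b)).card : ℝ) ≤ b := by exact_mod_cast h9
            linarith
          linarith
        linarith)
    (fun L => 64 * C * ((L : ℝ) + 1) ^ 2 * r ^ (2 * L)) (by
      intro L hL E' hE' hE''
      rw [hQ, mem_filter] at hL
      obtain ⟨Qi, hQ0, hQ1, hQ2⟩ := hmain k L hL.2.2.1 hL.2.2.2 ι Ω w v hdec (PP L) (hPPm L) g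
        (fun p hp n => hg.2 p (hPPm L p hp).1 n) (fun p hp m n hmn => hg.1 p (hPPm L p hp).1 m n hmn)
      have hET : ∀ i ∈ E', (y L / 8) ^ 2 ≤ Qi i := by
        intro i hi
        obtain ⟨x, hx, hTx⟩ := hE'' i hi
        have h1 := hQ2 i (hE (hE' hi)) x hx
        refine le_trans ?_ h1
        rw [← sq_abs (∑ p ∈ (PP L).filter (fun p => p ≤ x), (g p (v i) - mean p (g p)))]
        exact pow_le_pow_left₀ (by have := hy0 L; positivity) hTx.le 2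
      have h1 : (∑ i ∈ E', w i) * (y L / 8) ^ 2 ≤ C * (L + 1) ^ 2 * 2 ^ L := by
        rw [sum_mul]
        calc ∑ i ∈ E', w i * (y L / 8) ^ 2 ≤ ∑ i ∈ E', w i * Qi i :=
              sum_le_sum fun i hi => mul_le_mul_of_nonneg_left (hET i hi) (hdec.nonneg i (hE (hE' hi)))
          _ ≤ ∑ i ∈ Ω, w i * Qi i :=
              sum_le_sum_of_subset_of_nonneg (hE'.trans hE) fun i hi _ => mul_nonneg (hdec.nonneg i hi) (hQ0 i hi)
          _ ≤ _ := hQ1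
      have e1 : (y L) ^ 2 = 2 ^ L * (r⁻¹) ^ (2 * L) := by
        rw [hy, hr]
        simp only
        rw [← Real.rpow_natCast (((2 : ℝ) ^ L) ^ (1 / 2 + δ)) 2, ← Real.rpow_mul (by positivity), ← Real.rpow_neg (by norm_num), neg_neg,
          ← Real.rpow_natCast ((2 : ℝ) ^ δ), ← Real.rpow_mul (by norm_num)]
        rw [← Real.rpow_natCast 2 L, ← Real.rpow_mul (by norm_num), ← Real.rpow_add (by norm_num)]
        congr 1
        push_cast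
        ring
      rw [div_pow, e1] at h1
      have h2 : (0 : ℝ) < 2 ^ L := by positivity
      have h3 : 0 < r ^ (2 * L) := by positivity
      rw [inv_pow] at h1
      have h4 : (∑ i ∈ E', w i) * ((2 : ℝ) ^ L * (r ^ (2 * L))⁻¹ / 8 ^ 2) * (64 * r ^ (2 * L)) ≤
          (C * (L + 1) ^ 2 * 2 ^ L) * (64 * r ^ (2 * L)) := mul_le_mul_of_nonneg_right h1 (by positivity)
      have h5 : (∑ i ∈ E', w i) * ((2 : ℝ) ^ L * (r ^ (2 * L))⁻¹ / 8 ^ 2) * (64 * r ^ (2 * L)) = (∑ i ∈ E', w i) * 2 ^ L := by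
        field_simp
        ring
      have h6 : (C * ((L : ℝ) + 1) ^ 2 * 2 ^ L) * (64 * r ^ (2 * L)) = (64 * C * (L + 1) ^ 2 * r ^ (2 * L)) * 2 ^ L := by ring
      rw [h5, h6] at h4
      exact le_of_mul_le_mul_right h4 h2)
  refine hun.trans ?_
  have h1 := hL₀ L₁ hL₀₁ Q (by
    intro L hL
    rw [hQ, mem_filter] at hL
    exact hL.2.1)
  refine h1.trans ?_
  rw [hr, ← Real.rpow_natCast, ← Real.rpow_mul (by norm_num), mul_comm, Real.rpow_mul (by norm_num), Real.rpow_natCast]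
  rw [Real.rpow_neg (by positivity), Real.rpow_neg hXr.le]
  apply inv_anti₀ (by positivity)
  apply Real.rpow_le_rpow hXr.le _ hδ.le
  exact_mod_cast hXL₁

/-- all ranges, for almost all members of the families, for `m` systems -/
theorem real_many (b : ℕ) (hb : 2 ≤ b) (η : ℝ) (hη : 0 < η) : ∃ W : ℕ, 1 ≤ W ∧ ∀ κ : ℤ, κ ≠ 0 →
    ∀ δ : ℝ, 0 < δ → δ ≤ 1 / 2 → ∃ X₀ : ℕ, ∀ X : ℕ, X₀ ≤ X → ∀ k : ℕ, 2 ≤ k → ∀ c : ℤ, ∀ {ν : Type} (J : Finset ν) (g : ν → ℕ → ℤ → ℝ),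
    (∀ j ∈ J, Sysb (g j)) →
    Almost b k κ c η (J.card * (X : ℝ) ^ (-δ)) (fun n => ∀ x : ℕ, X ≤ x → x ^ W ≤ b ^ k → ∀ j ∈ J,
      |∑ p ∈ pri x, (g j p n - mean p (g j p))| ≤ (x : ℝ) ^ (1 / 2 + δ)) := by
  classical
  obtain ⟨A₁, A₂, γ₁, γ₂, h1, h2, h3, h4, H⟩ := almost_of b hb η hη
  obtain ⟨W₁, hW₁, K₁⟩ := real_all b hb A₁ γ₁ h1 h2
  obtain ⟨W₂, hW₂, K₂⟩ := real_all b hb A₂ γ₂ h3 h4
  obtain ⟨W, hW⟩ : ∃ W, W = max W₁ W₂ := ⟨_, rfl⟩
  have hWW₁ : W₁ ≤ W := by rw [hW]; exact le_max_left _ _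
  have hWW₂ : W₂ ≤ W := by rw [hW]; exact le_max_right _ _
  refine ⟨W, hW₁.trans hWW₁, fun κ hκ δ hδ hδ1 => ?_⟩
  obtain ⟨X₁, J₁⟩ := K₁ (Pool.Agent.TH872.An.GG b) κ (Pool.Agent.TH872.An.GG_pos b hb) hκ δ hδ hδ1
  obtain ⟨X₂, J₂⟩ := K₂ (b ^ 4).factorial κ (Nat.factorial_pos _) hκ δ hδ hδ1
  refine ⟨X₁ + X₂ + 1, fun X hX k hk c ν J g hg => ?_⟩
  refine H k hk κ c _ _ (by positivity) fun F₀ A' γ hFA ι Ω w v hdec E hE hbad => ?_
  have hbad' : ∀ W' ≤ W, ∀ i ∈ E, ∃ j ∈ J, ∃ x : ℕ, X ≤ x ∧ x ^ W' ≤ b ^ k ∧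
        (x : ℝ) ^ (1 / 2 + δ) < |∑ p ∈ pri x, (g j p (v i) - mean p (g j p))| := by
    intro W' hW' i hi
    have h5 := hbad i hi
    push Not at h5
    obtain ⟨x, hXx, hxW, j, hj, hu⟩ := h5
    exact ⟨j, hj, x, hXx, (Nat.pow_le_pow_right (by omega) hW').trans hxW, hu⟩
  have hfin : ∀ W' ≤ W, (∀ j ∈ J, ∀ E' : Finset ι, E' ⊆ E → (∀ i ∈ E', ∃ x : ℕ, X ≤ x ∧ x ^ W' ≤ b ^ k ∧
        (x : ℝ) ^ (1 / 2 + δ) < |∑ p ∈ pri x, (g j p (v i) - mean p (g j p))|) → ∑ i ∈ E', w i ≤ (X : ℝ) ^ (-δ)) →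
      ∑ i ∈ E, w i ≤ J.card * (X : ℝ) ^ (-δ) := by
    intro W' hW' hB
    exact Pool.Agent.R459.Tor.wunion w E (fun i hi => hdec.nonneg i (hE hi)) J _ (hbad' W' hW') ((X : ℝ) ^ (-δ))
      (fun j hj E' hE' h => hB j hj E' hE' h)
  rcases hFA with h | h
  · simp only [Prod.mk.injEq] at h
    obtain ⟨rfl, rfl, rfl⟩ := h
    exact hfin _ hWW₁ fun j hj E' hE' h => J₁ X (by omega) k ι Ω w v hdec (g j) (hg j hj) E' (hE'.trans hE) h
  · simp only [Prod.mk.injEq] at h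
    obtain ⟨rfl, rfl, rfl⟩ := h
    exact hfin _ hWW₂ fun j hj E' hE' h => J₂ X (by omega) k ι Ω w v hdec (g j) (hg j hj) E' (hE'.trans hE) h

end Pool.Agent.R459.Eq
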