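import Pool.Agent.R459.Eq14

/-! The second moment with the exact diagonal, all ranges. -/

set_option autoImplicit false

namespace Pool.Agent.R459.Eq
open Finset
open Pool.Agent.H807R2.Dav

lemma exp_one {ι : Type} (Ω : Finset ι) (w : ι → ℝ) (hw1 : ∑ i ∈ Ω, w i = 1) (v : ι → ℤ) (p : ℕ) (hp : p.Prime)
    (f : ℤ → ℝ) (hf : ∀ n, |f n| ≤ 1) (hper : Per p f) (τ : ℝ) (hτ0 : 0 ≤ τ)
    (hτ : ∀ a : ℕ, Nat.Coprime a p → ‖∑ i ∈ Ω, (w i : ℂ) * ee ((v i : ℝ) * ((a : ℝ) / (p : ℝ)))‖ ≤ τ) :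
    |∑ i ∈ Ω, w i * f (v i) - mean p f| ≤ p * τ := by
  have h0 : ∑ i ∈ Ω, w i * f (v i) - mean p f = ∑ i ∈ Ω, w i * (f (v i) - mean p f) := by
    simp only [mul_sub]
    rw [sum_sub_distrib, ← sum_mul, hw1, one_mul]
  rw [h0]
  have h1 : ((∑ i ∈ Ω, w i * (f (v i) - mean p f) : ℝ) : ℂ) =
      ∑ a ∈ Ico 1 p, co p f a * ∑ i ∈ Ω, (w i : ℂ) * ee ((v i : ℝ) * ((a : ℝ) / (p : ℝ))) := by
    rw [Complex.ofReal_sum]
    simp only [mul_sum]
    have e0 : ∀ i ∈ Ω, ((w i * (f (v i) - mean p f) : ℝ) : ℂ) =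
        ∑ a ∈ Ico 1 p, co p f a * ((w i : ℂ) * ee ((v i : ℝ) * ((a : ℝ) / (p : ℝ)))) := by
      intro i _
      rw [Complex.ofReal_mul, centered p hp.one_le f hper, mul_sum]
      apply sum_congr rfl
      intro a _
      have e1 : (a : ℝ) * ((v i : ℝ) / p) = (v i : ℝ) * ((a : ℝ) / p) := by ring
      rw [e1]
      ring
    rw [sum_congr rfl e0, sum_comm]
  rw [← Real.norm_eq_abs, ← Complex.norm_real, h1]
  calc ‖∑ a ∈ Ico 1 p, co p f a * ∑ i ∈ Ω, (w i : ℂ) * ee ((v i : ℝ) * ((a : ℝ) / (p : ℝ)))‖ ≤ ∑ a ∈ Ico 1 p, τ := by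
          refine (norm_sum_le _ _).trans (sum_le_sum fun a ha => ?_)
          rw [norm_mul]
          rw [mem_Ico] at ha
          have h2 := norm_co p hp.one_le f hf a
          have h4 := hτ a (Nat.coprime_of_lt_prime (by omega) ha.2 hp).symm
          calc _ ≤ 1 * τ := mul_le_mul h2 h4 (norm_nonneg _) zero_le_one
            _ = τ := one_mul _
    _ = ((p - 1 : ℕ) : ℝ) * τ := by
        rw [sum_const, Nat.card_Ico, nsmul_eq_mul]
    _ ≤ p * τ := mul_le_mul_of_nonneg_right (by exact_mod_cast Nat.sub_le _ _) hτ0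

lemma var_one {ι : Type} (Ω : Finset ι) (w : ι → ℝ) (hw1 : ∑ i ∈ Ω, w i = 1) (v : ι → ℤ) (p : ℕ) (hp : p.Prime)
    (f : ℤ → ℝ) (hf : ∀ n, |f n| ≤ 1) (hper : Per p f) (τ : ℝ) (hτ0 : 0 ≤ τ)
    (hτ : ∀ a : ℕ, Nat.Coprime a p → ‖∑ i ∈ Ω, (w i : ℂ) * ee ((v i : ℝ) * ((a : ℝ) / (p : ℝ)))‖ ≤ τ) :
    ∑ i ∈ Ω, w i * (f (v i) - mean p f) ^ 2 ≤ mean p (fun n => (f n) ^ 2) + 3 * (p * τ) := by
  have h1 := exp_one Ω w hw1 v p hp f hf hper τ hτ0 hτ
  have h2 := exp_one Ω w hw1 v p hp (fun n => (f n) ^ 2) (by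
    intro n
    rw [abs_of_nonneg (sq_nonneg _), ← sq_abs]
    exact pow_le_one₀ (abs_nonneg _) (hf n)) (by
    intro m n h
    simp only
    rw [hper m n h]) τ hτ0 hτ
  have h3 := mean_abs p hp.one_le f hf
  have e : ∑ i ∈ Ω, w i * (f (v i) - mean p f) ^ 2 = ∑ i ∈ Ω, w i * (f (v i)) ^ 2 - 2 * mean p f * ∑ i ∈ Ω, w i * f (v i) +
      (mean p f) ^ 2 := by
    have e1 : ∀ i ∈ Ω, w i * (f (v i) - mean p f) ^ 2 = w i * (f (v i)) ^ 2 - 2 * mean p f * (w i * f (v i)) + w i * (mean p f) ^ 2 := by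
      intro i _
      ring
    rw [sum_congr rfl e1, sum_add_distrib, sum_sub_distrib, ← mul_sum, ← sum_mul, hw1, one_mul]
  rw [e]
  obtain ⟨M, hM⟩ : ∃ M, M = mean p f := ⟨_, rfl⟩
  obtain ⟨a, ha⟩ : ∃ a, a = ∑ i ∈ Ω, w i * f (v i) := ⟨_, rfl⟩
  rw [← hM] at h1 h3 ⊢
  rw [← ha] at h1 ⊢
  have h4 : -(2 * M * (a - M)) ≤ 2 * (p * τ) := by
    refine (neg_le_abs _).trans ?_
    rw [abs_mul, abs_mul, abs_of_pos (by norm_num : (0 : ℝ) < 2)]
    calc 2 * |M| * |a - M| ≤ 2 * 1 * (p * τ) := by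
          apply mul_le_mul _ h1 (abs_nonneg _) (by norm_num)
          linarith
      _ = _ := by ring
  rw [abs_le] at h2
  nlinarith [h2.2, sq_nonneg M]

lemma mean_add' {α : Type} (J : Finset α) (p : ℕ) (f : α → ℤ → ℝ) : ∑ j ∈ J, mean p (f j) = mean p (fun n => ∑ j ∈ J, f j n) := by
  unfold mean
  rw [← sum_div, sum_comm]

open Classical in
/-- the second moment with the diagonal -/
theorem vvar2 {ι : Type} (Ω : Finset ι) (w : ι → ℝ) (hw : ∀ i ∈ Ω, 0 ≤ w i) (hw1 : ∑ i ∈ Ω, w i = 1) (v : ι → ℤ)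
    (x : ℕ) (P : Finset ℕ) (hP : ∀ p ∈ P, p.Prime ∧ p ≤ x) {α : Type} (J : Finset α) (f : α → ℕ → ℤ → ℝ)
    (hf : ∀ p ∈ P, ∀ n, ∑ j ∈ J, (f j p n) ^ 2 ≤ 1)
    (hper : ∀ j ∈ J, ∀ p ∈ P, Per p (f j p)) (τ : ℝ) (hτ0 : 0 ≤ τ) (S : Set ℕ)
    (hS : ∀ p ∈ P, ∀ q ∈ P, p ≠ q → p * q ∉ S → ∀ a : ℕ, Nat.Coprime a (p * q) →
      ‖∑ i ∈ Ω, (w i : ℂ) * ee ((v i : ℝ) * ((a : ℝ) / ((p * q : ℕ) : ℝ)))‖ ≤ τ)
    (hS1 : ∀ p ∈ P, p ∉ S → ∀ a : ℕ, Nat.Coprime a p →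
      ‖∑ i ∈ Ω, (w i : ℂ) * ee ((v i : ℝ) * ((a : ℝ) / (p : ℝ)))‖ ≤ τ) :
    ∑ j ∈ J, ∑ i ∈ Ω, w i * (∑ p ∈ P, (f j p (v i) - mean p (f j p))) ^ 2 ≤ ∑ p ∈ P, mean p (fun n => ∑ j ∈ J, (f j p n) ^ 2) +
      4 * ((P.filter (fun p => p ∈ S)).card : ℝ) + 8 * (((Icc 1 (x ^ 2)).filter (fun m => m ∈ S)).card : ℝ) +
      J.card * ((P.card : ℝ) ^ 2 * (x : ℝ) ^ 2 * τ + 3 * (P.card * x * τ)) := by
  have h1 : ∀ j ∈ J, ∑ i ∈ Ω, w i * (∑ p ∈ P, (f j p (v i) - mean p (f j p))) ^ 2 =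
      ∑ p ∈ P, ∑ q ∈ P, ∑ i ∈ Ω, w i * ((f j p (v i) - mean p (f j p)) * (f j q (v i) - mean q (f j q))) := by
    intro j _
    have e0 : ∀ i ∈ Ω, w i * (∑ p ∈ P, (f j p (v i) - mean p (f j p))) ^ 2 =
        ∑ p ∈ P, ∑ q ∈ P, w i * ((f j p (v i) - mean p (f j p)) * (f j q (v i) - mean q (f j q))) := by
      intro i _
      rw [sq, sum_mul_sum, mul_sum]
      apply sum_congr rfl
      intro p _
      rw [mul_sum]
    rw [sum_congr rfl e0, sum_comm]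
    apply sum_congr rfl
    intro p _
    rw [sum_comm]
  rw [sum_congr rfl h1]
  rw [sum_comm]
  have e5 : ∀ p ∈ P, ∑ j ∈ J, ∑ q ∈ P, ∑ i ∈ Ω, w i * ((f j p (v i) - mean p (f j p)) * (f j q (v i) - mean q (f j q))) =
      ∑ q ∈ P, ∑ j ∈ J, ∑ i ∈ Ω, w i * ((f j p (v i) - mean p (f j p)) * (f j q (v i) - mean q (f j q))) := by
    intro p _
    rw [sum_comm]
  rw [sum_congr rfl e5]
  have htriv : ∀ p ∈ P, ∀ q ∈ P, ∑ j ∈ J, ∑ i ∈ Ω, w i * ((f j p (v i) - mean p (f j p)) * (f j q (v i) - mean q (f j q))) ≤ 4 := by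
    intro p hp q hq
    rw [sum_comm]
    have h2 : ∀ i ∈ Ω, ∑ j ∈ J, w i * ((f j p (v i) - mean p (f j p)) * (f j q (v i) - mean q (f j q))) ≤ w i * 4 := by
      intro i hi
      rw [← mul_sum]
      apply mul_le_mul_of_nonneg_left _ (hw i hi)
      have h3 := cent_sq J p (hP p hp).1.one_le (fun j => f j p) 1 (by intro n; rw [one_pow]; exact hf p hp n) (v i)
      have h4 := cent_sq J q (hP q hq).1.one_le (fun j => f j q) 1 (by intro n; rw [one_pow]; exact hf q hq n) (v i)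
      have h5 := sum_mul_sq_le_sq_mul_sq J (fun j => f j p (v i) - mean p (f j p)) (fun j => f j q (v i) - mean q (f j q))
      have h6 : (∑ j ∈ J, (f j p (v i) - mean p (f j p)) * (f j q (v i) - mean q (f j q))) ^ 2 ≤ (4 : ℝ) ^ 2 := by
        refine h5.trans ?_
        calc _ ≤ (4 * (1 : ℝ) ^ 2) * (4 * 1 ^ 2) := mul_le_mul h3 h4 (sum_nonneg fun j _ => sq_nonneg _) (by positivity)
          _ = _ := by ring
      exact (le_abs_self _).trans (abs_le_of_sq_le_sq h6 (by norm_num))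
    refine (sum_le_sum h2).trans ?_
    rw [← sum_mul, hw1, one_mul]
  have hf1 : ∀ j ∈ J, ∀ p ∈ P, ∀ n, |f j p n| ≤ 1 := by
    intro j hj p hp n
    have h2 : (f j p n) ^ 2 ≤ ∑ j ∈ J, (f j p n) ^ 2 := single_le_sum (f := fun j => (f j p n) ^ 2) (fun j _ => sq_nonneg _) hj
    have h3 := hf p hp n
    exact abs_le_one_iff_mul_self_le_one.2 (by nlinarith)
  have hterm : ∀ p ∈ P, ∀ q ∈ P, ∑ j ∈ J, ∑ i ∈ Ω, w i * ((f j p (v i) - mean p (f j p)) * (f j q (v i) - mean q (f j q))) ≤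
      (if p = q then (mean p (fun n => ∑ j ∈ J, (f j p n) ^ 2) + 4 * (if p ∈ S then 1 else 0) + J.card * (3 * (x * τ))) else 0) +
        4 * (if p ≠ q ∧ p * q ∈ S then 1 else 0) + J.card * ((x : ℝ) ^ 2 * τ) := by
    intro p hp q hq
    have hnn : 0 ≤ (J.card : ℝ) * ((x : ℝ) ^ 2 * τ) := by positivity
    have hnn' : 0 ≤ (J.card : ℝ) * (3 * (x * τ)) := by positivity
    have hm0 : 0 ≤ mean p (fun n => ∑ j ∈ J, (f j p n) ^ 2) := by
      unfold mean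
      exact div_nonneg (sum_nonneg fun t _ => sum_nonneg fun j _ => sq_nonneg _) (Nat.cast_nonneg _)
    by_cases hpq : p = q
    · rw [if_pos hpq, if_neg (show ¬ (p ≠ q ∧ p * q ∈ S) from fun h => h.1 hpq), mul_zero]
      by_cases hin : p ∈ S
      · rw [if_pos hin]
        linarith [htriv p hp q hq]
      · rw [if_neg hin]
        rw [← hpq]
        have h2 : ∀ j ∈ J, ∑ i ∈ Ω, w i * ((f j p (v i) - mean p (f j p)) * (f j p (v i) - mean p (f j p))) ≤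
            mean p (fun n => (f j p n) ^ 2) + 3 * (x * τ) := by
          intro j hj
          have h3 := var_one Ω w hw1 v p (hP p hp).1 (f j p) (hf1 j hj p hp) (hper j hj p hp) τ hτ0 (hS1 p hp hin)
          have h4 : (p : ℝ) * τ ≤ x * τ := mul_le_mul_of_nonneg_right (by exact_mod_cast (hP p hp).2) hτ0
          simp only [← sq]
          linarith
        refine (sum_le_sum h2).trans ?_
        rw [sum_add_distrib, mean_add', sum_const, nsmul_eq_mul]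
        linarith
    · by_cases hin : p * q ∈ S
      · rw [if_neg hpq, if_pos ⟨hpq, hin⟩]
        linarith [htriv p hp q hq]
      · rw [if_neg hpq, if_neg (fun h => hin h.2), zero_add, mul_zero, zero_add]
        rw [← nsmul_eq_mul]
        apply sum_le_card_nsmul
        intro j hj
        refine (le_abs_self _).trans ?_
        refine (cov Ω w v p q (hP p hp).1 (hP q hq).1 hpq (f j p) (f j q) (hf1 j hj p hp) (hf1 j hj q hq)
          (hper j hj p hp) (hper j hj q hq) τ (hS p hp q hq hpq hin)).trans ?_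
        apply mul_le_mul_of_nonneg_right _ hτ0
        rw [sq]
        exact mul_le_mul (by exact_mod_cast (hP p hp).2) (by exact_mod_cast (hP q hq).2) (Nat.cast_nonneg _) (Nat.cast_nonneg _)
  refine (sum_le_sum fun p hp => sum_le_sum fun q hq => hterm p hp q hq).trans ?_
  simp only [sum_add_distrib]
  have e1 : ∑ p ∈ P, ∑ q ∈ P, (if p = q then (mean p (fun n => ∑ j ∈ J, (f j p n) ^ 2) + 4 * (if p ∈ S then (1 : ℝ) else 0) +
      J.card * (3 * (x * τ))) else 0) = ∑ p ∈ P, mean p (fun n => ∑ j ∈ J, (f j p n) ^ 2) +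
      4 * ((P.filter (fun p => p ∈ S)).card : ℝ) + J.card * (3 * (P.card * x * τ)) := by
    rw [sum_congr rfl (fun p hp => by rw [sum_ite_eq, if_pos hp]), sum_add_distrib, sum_add_distrib, ← mul_sum, sum_const, nsmul_eq_mul,
      sum_boole]
    ring
  have e2 : ∑ p ∈ P, ∑ q ∈ P, (J.card : ℝ) * ((x : ℝ) ^ 2 * τ) = J.card * ((P.card : ℝ) ^ 2 * (x : ℝ) ^ 2 * τ) := by
    rw [sum_const, sum_const, nsmul_eq_mul, nsmul_eq_mul]
    ring
  have e3 : ∑ p ∈ P, ∑ q ∈ P, 4 * (if p ≠ q ∧ p * q ∈ S then (1 : ℝ) else 0) ≤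
      8 * (((Icc 1 (x ^ 2)).filter (fun m => m ∈ S)).card : ℝ) := by
    have h2 := pairs_le x P hP S (fun _ => 1) (fun _ => zero_le_one)
    rw [sum_const, nsmul_eq_mul, mul_one] at h2
    have h3 : ∑ p ∈ P, ∑ q ∈ P, 4 * (if p ≠ q ∧ p * q ∈ S then (1 : ℝ) else 0) =
        4 * ∑ p ∈ P, ∑ q ∈ P, (if p ≠ q ∧ p * q ∈ S then (1 : ℝ) else 0) := by
      rw [mul_sum]
      apply sum_congr rfl
      intro p _
      rw [mul_sum]
    rw [h3]
    linarith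
  rw [e1, e2]
  linarith

open Classical in
/-- the second moment for the digit families, with the diagonal -/
theorem vms2 (b : ℕ) (hb : 2 ≤ b) (A : ℕ) (γ : ℝ) (hγ0 : 0 < γ) (hγ1 : γ < 1) (D B : ℕ) (hD : 1 ≤ D) (hB : 2 ≤ B) : ∃ W : ℕ, 1 ≤ W ∧
    ∀ (F : ℕ) (κ : ℤ), 1 ≤ F → κ ≠ 0 → ∃ C : ℝ, 0 < C ∧ ∀ (k x : ℕ), b ≤ x → x ^ W ≤ b ^ k →
    ∀ (ι : Type) (Ω : Finset ι) (w : ι → ℝ) (v : ι → ℤ), Decays b F A k γ κ Ω w v →
    ∀ P : Finset ℕ, (∀ p ∈ P, p.Prime ∧ p ≤ x ∧ ¬ p ∣ b) → ∀ {α : Type} (J : Finset α) (f : α → ℕ → ℤ → ℝ),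
      (∀ p ∈ P, ∀ n, ∑ j ∈ J, (f j p n) ^ 2 ≤ 1) → (∀ j ∈ J, ∀ p ∈ P, Per p (f j p)) →
      ∑ j ∈ J, ∑ i ∈ Ω, w i * (∑ p ∈ P, (f j p (v i) - mean p (f j p))) ^ 2 ≤
        ∑ p ∈ P, mean p (fun n => ∑ j ∈ J, (f j p n) ^ 2) + C * (x : ℝ) ^ (2 / (D : ℝ)) + J.card * (4 * (x : ℝ) ^ 4) / (x : ℝ) ^ B := by
  obtain ⟨W, hW, H⟩ := good b hb A γ hγ0 hγ1 D B hD
  refine ⟨W, hW, fun F κ hF hκ => ?_⟩
  obtain ⟨S, C, hC, hcount, hgood⟩ := H F κ hF hκ
  refine ⟨12 * C, by positivity, fun k x hbx hxW ι Ω w v hdec P hP α J f hf hper => ?_⟩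
  have hx1 : 1 ≤ x := by omega
  have hx0 : (0 : ℝ) < x := by exact_mod_cast hx1
  have hx1r : (1 : ℝ) ≤ x := by exact_mod_cast hx1
  have hDr : (0 : ℝ) < D := by exact_mod_cast hD
  have h1 := vvar2 Ω w hdec.nonneg hdec.sum v x P (fun p hp => ⟨(hP p hp).1, (hP p hp).2.1⟩) J f
    hf hper (1 / (x : ℝ) ^ B) (by positivity) S
    (by
      intro p hp q hq hpq hin a ha
      have hpp := (hP p hp).1
      have hqp := (hP q hq).1
      refine hgood k x hbx hxW ι Ω w v hdec (p * q) (Nat.mul_pos hpp.pos hqp.pos) ?_ hin ?_ a ha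
      · calc p * q ≤ x * x := Nat.mul_le_mul (hP p hp).2.1 (hP q hq).2.1
          _ = x ^ 2 := by ring
          _ ≤ x ^ B := Nat.pow_le_pow_right (by omega) hB
      · apply Nat.Coprime.mul_right
        · exact ((Nat.Prime.coprime_iff_not_dvd hpp).2 (hP p hp).2.2).symm
        · exact ((Nat.Prime.coprime_iff_not_dvd hqp).2 (hP q hq).2.2).symm)
    (by
      intro p hp hin a ha
      have hpp := (hP p hp).1
      refine hgood k x hbx hxW ι Ω w v hdec p hpp.pos ?_ hin ?_ a ha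
      · calc p ≤ x := (hP p hp).2.1
          _ = x ^ 1 := by ring
          _ ≤ x ^ B := Nat.pow_le_pow_right (by omega) (by omega)
      · exact ((Nat.Prime.coprime_iff_not_dvd hpp).2 (hP p hp).2.2).symm)
  refine h1.trans ?_
  have h3 : (((Icc 1 (x ^ 2)).filter (fun m => m ∈ S)).card : ℝ) ≤ C * (x : ℝ) ^ (2 / (D : ℝ)) := by
    refine (hcount (x ^ 2) _ (by
      intro m hm
      rw [mem_filter, mem_Icc] at hm
      exact ⟨hm.2, hm.1.1, hm.1.2⟩)).trans (le_of_eq ?_)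
    congr 1
    push_cast
    rw [← Real.rpow_natCast, ← Real.rpow_mul hx0.le]
    congr 1
    push_cast
    ring
  have h5 : ((P.filter (fun p => p ∈ S)).card : ℝ) ≤ C * (x : ℝ) ^ (2 / (D : ℝ)) := by
    refine (hcount x _ (by
      intro m hm
      rw [mem_filter] at hm
      exact ⟨hm.2, (hP m hm.1).1.one_le, (hP m hm.1).2.1⟩)).trans ?_
    apply mul_le_mul_of_nonneg_left _ hC.le
    apply Real.rpow_le_rpow_of_exponent_le hx1r
    apply div_le_div_of_nonneg_right _ hDr.le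
    norm_num
  have hPc : (P.card : ℝ) ≤ x := by
    have h1 : P ⊆ Icc 1 x := by
      intro p hp
      rw [mem_Icc]
      exact ⟨(hP p hp).1.one_le, (hP p hp).2.1⟩
    have h2 := card_le_card h1
    rw [Nat.card_Icc, Nat.add_sub_cancel] at h2
    exact_mod_cast h2
  have h4 : (J.card : ℝ) * ((P.card : ℝ) ^ 2 * (x : ℝ) ^ 2 * (1 / (x : ℝ) ^ B) + 3 * (P.card * x * (1 / (x : ℝ) ^ B))) ≤
      J.card * (4 * (x : ℝ) ^ 4) / (x : ℝ) ^ B := by
    rw [mul_div_assoc]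
    apply mul_le_mul_of_nonneg_left _ (Nat.cast_nonneg _)
    have e : (P.card : ℝ) ^ 2 * (x : ℝ) ^ 2 * (1 / (x : ℝ) ^ B) + 3 * (P.card * x * (1 / (x : ℝ) ^ B)) =
        ((P.card : ℝ) ^ 2 * (x : ℝ) ^ 2 + 3 * (P.card * x)) / (x : ℝ) ^ B := by ring
    rw [e]
    apply div_le_div_of_nonneg_right _ (by positivity)
    have h6 : (P.card : ℝ) ^ 2 * (x : ℝ) ^ 2 ≤ (x : ℝ) ^ 2 * (x : ℝ) ^ 2 :=
      mul_le_mul_of_nonneg_right (pow_le_pow_left₀ (Nat.cast_nonneg _) hPc _) (by positivity)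
    have h7 : (P.card : ℝ) * x ≤ x * x := mul_le_mul_of_nonneg_right hPc hx0.le
    have h8 : (x : ℝ) * x ≤ x ^ 4 := by
      rw [← sq]
      exact pow_le_pow_right₀ hx1r (by norm_num)
    nlinarith
  linarith

/-- the sum of the mean squares -/
noncomputable def Vs (g : ℕ → ℤ → ℝ) (x : ℕ) : ℝ := ∑ p ∈ pri x, mean p (fun n => (g p n) ^ 2)

lemma mean_sq_nonneg (p : ℕ) (f : ℤ → ℝ) : 0 ≤ mean p (fun n => (f n) ^ 2) := by
  unfold mean
  exact div_nonneg (sum_nonneg fun t _ => sq_nonneg _) (Nat.cast_nonneg _)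

lemma Vs_nonneg (g : ℕ → ℤ → ℝ) (x : ℕ) : 0 ≤ Vs g x := sum_nonneg fun p _ => mean_sq_nonneg p _

lemma pri_mono {x y : ℕ} (h : x ≤ y) : pri x ⊆ pri y := by
  intro p hp
  rw [mem_pri] at hp ⊢
  exact ⟨hp.1.trans h, hp.2⟩

lemma Vs_mono (g : ℕ → ℤ → ℝ) {x y : ℕ} (h : x ≤ y) : Vs g x ≤ Vs g y :=
  sum_le_sum_of_subset_of_nonneg (pri_mono h) fun p _ _ => mean_sq_nonneg p _

lemma mean_mono (p : ℕ) (f g : ℤ → ℝ) (h : ∀ t : ℕ, t < p → f t ≤ g t) : mean p f ≤ mean p g := by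
  unfold mean
  apply div_le_div_of_nonneg_right _ (Nat.cast_nonneg _)
  apply sum_le_sum
  intro t ht
  exact h t (mem_range.1 ht)

/-- the mean square of the maximal deviation, with the diagonal -/
theorem fine_scale (b : ℕ) (hb : 2 ≤ b) (A : ℕ) (γ : ℝ) (hγ0 : 0 < γ) (hγ1 : γ < 1) (D : ℕ) (hD : 1 ≤ D) : ∃ W : ℕ, 1 ≤ W ∧
    ∀ (F : ℕ) (κ : ℤ), 1 ≤ F → κ ≠ 0 → ∃ C : ℝ, 0 < C ∧ ∀ (k L : ℕ), b ≤ 2 ^ L → (2 ^ L) ^ W ≤ b ^ k →
    ∀ (ι : Type) (Ω : Finset ι) (w : ι → ℝ) (v : ι → ℤ), Decays b F A k γ κ Ω w v →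
    ∀ g : ℕ → ℤ → ℝ, Sysb g →
      ∃ Q : ι → ℝ, (∀ i ∈ Ω, 0 ≤ Q i) ∧ ∑ i ∈ Ω, w i * Q i ≤ (L + 1) ^ 2 * (Vs g (2 ^ L) + C * (2 : ℝ) ^ ((L : ℝ) * (2 / (D : ℝ)))) ∧
        ∀ i ∈ Ω, ∀ t : ℕ, t ≤ 2 ^ L →
          (∑ p ∈ ((pri (2 ^ L)).filter (fun p => ¬ p ∣ b)).filter (fun p => p ≤ t), (g p (v i) - mean p (g p))) ^ 2 ≤ Q i := by
  classical
  obtain ⟨W, hW, H⟩ := vms2 b hb A γ hγ0 hγ1 D 5 hD (by norm_num)
  refine ⟨W, hW, fun F κ hF hκ => ?_⟩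
  obtain ⟨C, hC, hmain⟩ := H F κ hF hκ
  refine ⟨4 + C, by positivity, fun k L hbL hxW ι Ω w v hdec g hg => ?_⟩
  obtain ⟨P, hPd⟩ : ∃ P : Finset ℕ, P = (pri (2 ^ L)).filter (fun p => ¬ p ∣ b) := ⟨_, rfl⟩
  rw [← hPd]
  have hP : ∀ p ∈ P, p.Prime ∧ p ≤ 2 ^ L ∧ ¬ p ∣ b := by
    intro p hp
    rw [hPd, mem_filter, mem_pri] at hp
    exact ⟨hp.1.2, hp.1.1, hp.2⟩
  obtain ⟨f, hf⟩ : ∃ f : ℕ → ℕ → ℕ → ℤ → ℝ, f = fun l i p n => if i * 2 ^ l < p ∧ p ≤ (i + 1) * 2 ^ l then g p n else 0 := ⟨_, rfl⟩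
  have hLr : (0 : ℝ) ≤ L := Nat.cast_nonneg _
  have hfs : ∀ l, ∀ p ∈ P, ∀ n, ∑ z ∈ range (2 ^ (L - l)), (f l z p n) ^ 2 ≤ (g p n) ^ 2 := by
    intro l p hp n
    have h2 : ∀ z ∈ range (2 ^ (L - l)), (f l z p n) ^ 2 ≤ if (p - 1) / 2 ^ l = z then (g p n) ^ 2 else 0 := by
      intro z _
      rw [hf]
      simp only
      by_cases h : z * 2 ^ l < p ∧ p ≤ (z + 1) * 2 ^ l
      · rw [if_pos h, if_pos]
        apply Nat.div_eq_of_lt_le
        · omega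
        · omega
      · rw [if_neg h]
        split_ifs
        · rw [zero_pow (by norm_num)]
          exact sq_nonneg _
        · norm_num
    refine (sum_le_sum h2).trans ?_
    rw [sum_ite_eq]
    split_ifs
    · exact le_rfl
    · exact sq_nonneg _
  have hlev : ∀ l, ∑ z ∈ range (2 ^ (L - l)), ∑ i ∈ Ω, w i * (∑ p ∈ P, (f l z p (v i) - mean p (f l z p))) ^ 2 ≤
      Vs g (2 ^ L) + (4 + C) * (2 : ℝ) ^ ((L : ℝ) * (2 / (D : ℝ))) := by
    intro l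
    have h1 := hmain k (2 ^ L) hbL hxW ι Ω w v hdec P hP (range (2 ^ (L - l))) (f l) (by
      intro p hp n
      refine (hfs l p hp n).trans ?_
      rw [← sq_abs]
      exact pow_le_one₀ (abs_nonneg _) (hg.2 p (hP p hp).1 n)) (by
      intro z _ p hp m' n' hmn
      rw [hf]
      simp only
      rw [hg.1 p (hP p hp).1 m' n' hmn])
    refine h1.trans ?_
    have e1 : ((2 ^ L : ℕ) : ℝ) ^ (2 / (D : ℝ)) = (2 : ℝ) ^ ((L : ℝ) * (2 / (D : ℝ))) := by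
      push_cast
      rw [← Real.rpow_natCast, ← Real.rpow_mul (by norm_num)]
    have e0 : (1 : ℝ) ≤ (2 : ℝ) ^ ((L : ℝ) * (2 / (D : ℝ))) := Real.one_le_rpow (by norm_num) (by positivity)
    have e2 : ((range (2 ^ (L - l))).card : ℝ) * (4 * ((2 ^ L : ℕ) : ℝ) ^ 4) / ((2 ^ L : ℕ) : ℝ) ^ 5 ≤ 4 := by
      have h3 : ((range (2 ^ (L - l))).card : ℝ) ≤ 2 ^ L := by
        rw [card_range]
        push_cast
        exact pow_le_pow_right₀ (by norm_num) (by omega)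
      rw [div_le_iff₀ (by positivity)]
      push_cast at h3 ⊢
      calc ((range (2 ^ (L - l))).card : ℝ) * (4 * (2 ^ L) ^ 4) ≤ 2 ^ L * (4 * (2 ^ L) ^ 4) := mul_le_mul_of_nonneg_right h3 (by positivity)
        _ = 4 * (2 ^ L) ^ 5 := by ring
    have e3 : ∑ p ∈ P, mean p (fun n => ∑ z ∈ range (2 ^ (L - l)), (f l z p n) ^ 2) ≤ Vs g (2 ^ L) := by
      unfold Vs
      calc _ ≤ ∑ p ∈ P, mean p (fun n => (g p n) ^ 2) := by
            apply sum_le_sum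
            intro p hp
            apply mean_mono
            intro t _
            exact hfs l p hp t
        _ ≤ _ := by
            rw [hPd]
            exact sum_le_sum_of_subset_of_nonneg (filter_subset _ _) fun p _ _ => mean_sq_nonneg p _
    rw [e1]
    nlinarith
  refine ⟨fun i => (L + 1) * ∑ l ∈ range (L + 1), ∑ z ∈ range (2 ^ (L - l)),
    (∑ p ∈ P, (f l z p (v i) - mean p (f l z p))) ^ 2, ?_, ?_, ?_⟩
  · intro i _
    have : 0 ≤ ∑ l ∈ range (L + 1), ∑ z ∈ range (2 ^ (L - l)), (∑ p ∈ P, (f l z p (v i) - mean p (f l z p))) ^ 2 :=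
      sum_nonneg fun l _ => sum_nonneg fun z _ => sq_nonneg _
    positivity
  · have e1 : ∑ i ∈ Ω, w i * ((L + 1) * ∑ l ∈ range (L + 1), ∑ z ∈ range (2 ^ (L - l)),
        (∑ p ∈ P, (f l z p (v i) - mean p (f l z p))) ^ 2) =
        (L + 1) * ∑ l ∈ range (L + 1), ∑ z ∈ range (2 ^ (L - l)),
          ∑ i ∈ Ω, w i * (∑ p ∈ P, (f l z p (v i) - mean p (f l z p))) ^ 2 := by
      have e2 : ∀ i ∈ Ω, w i * ((L + 1) * ∑ l ∈ range (L + 1), ∑ z ∈ range (2 ^ (L - l)),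
          (∑ p ∈ P, (f l z p (v i) - mean p (f l z p))) ^ 2) =
          (L + 1) * ∑ l ∈ range (L + 1), ∑ z ∈ range (2 ^ (L - l)),
          w i * (∑ p ∈ P, (f l z p (v i) - mean p (f l z p))) ^ 2 := by
        intro i _
        rw [mul_left_comm]
        congr 1
        rw [mul_sum]
        apply sum_congr rfl
        intro l _
        rw [mul_sum]
      rw [sum_congr rfl e2, ← mul_sum]
      congr 1
      rw [sum_comm]
      apply sum_congr rfl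
      intro l _
      rw [sum_comm]
    rw [e1]
    have h2 : ∑ l ∈ range (L + 1), ∑ z ∈ range (2 ^ (L - l)),
          ∑ i ∈ Ω, w i * (∑ p ∈ P, (f l z p (v i) - mean p (f l z p))) ^ 2 ≤
          (L + 1) * (Vs g (2 ^ L) + (4 + C) * (2 : ℝ) ^ ((L : ℝ) * (2 / (D : ℝ)))) := by
      refine (sum_le_card_nsmul _ _ _ fun l _ => hlev l).trans ?_
      rw [card_range, nsmul_eq_mul]
      push_cast
      exact le_refl _
    calc _ ≤ ((L : ℝ) + 1) * ((L + 1) * (Vs g (2 ^ L) + (4 + C) * (2 : ℝ) ^ ((L : ℝ) * (2 / (D : ℝ))))) :=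
          mul_le_mul_of_nonneg_left h2 (by positivity)
      _ = _ := by ring
  · intro i _ t ht
    obtain ⟨s, hs⟩ : ∃ s : ℕ → ℝ, s = fun t => ∑ p ∈ P.filter (fun p => p ≤ t), (g p (v i) - mean p (g p)) := ⟨_, rfl⟩
    have h0 : s 0 = 0 := by
      rw [hs]
      simp only
      have : P.filter (fun p => p ≤ 0) = ∅ := by
        rw [filter_eq_empty_iff]
        intro p hp
        have := (hP p hp).1.pos
        omega
      rw [this, sum_empty]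
    have h1 := chain L s t ht
    rw [h0, sub_zero] at h1
    have h2 : ∀ l z, s ((z + 1) * 2 ^ l) - s (z * 2 ^ l) = ∑ p ∈ P, (f l z p (v i) - mean p (f l z p)) := by
      intro l z
      have hle : z * 2 ^ l ≤ (z + 1) * 2 ^ l := Nat.mul_le_mul_right _ (by omega)
      rw [hs, hf]
      simp only
      rw [sum_filter, sum_filter, ← sum_sub_distrib]
      apply sum_congr rfl
      intro p _
      by_cases k1 : p ≤ z * 2 ^ l
      · have k2 : p ≤ (z + 1) * 2 ^ l := k1.trans hle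
        have k3 : ¬ (z * 2 ^ l < p ∧ p ≤ (z + 1) * 2 ^ l) := by omega
        rw [if_pos k1, if_pos k2]
        unfold mean
        simp [k3]
      · by_cases k2 : p ≤ (z + 1) * 2 ^ l
        · have k3 : (z * 2 ^ l < p ∧ p ≤ (z + 1) * 2 ^ l) := by omega
          rw [if_neg k1, if_pos k2]
          unfold mean
          simp [k3]
        · have k3 : ¬ (z * 2 ^ l < p ∧ p ≤ (z + 1) * 2 ^ l) := by omega
          rw [if_neg k1, if_neg k2]
          unfold mean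
          simp [k3]
    simp only [h2] at h1
    have h3 : s t = ∑ p ∈ P.filter (fun p => p ≤ t), (g p (v i) - mean p (g p)) := by rw [hs]
    rw [← h3]
    exact h1

end Pool.Agent.R459.Eq
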