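import Pool.Agent.R459.Eq15

/-! Many systems at all `x`, with the error of the size of the square root of the expected number. -/

set_option autoImplicit false

namespace Pool.Agent.R459.Eq
open Finset
open Pool.Agent.H807R2.Dav

/-- all scales, with general thresholds -/
theorem scales (b : ℕ) (hb : 2 ≤ b) (A : ℕ) (γ : ℝ) (hγ0 : 0 < γ) (hγ1 : γ < 1) (D : ℕ) (hD : 1 ≤ D) : ∃ W : ℕ, 1 ≤ W ∧
    ∀ (F : ℕ) (κ : ℤ), 1 ≤ F → κ ≠ 0 → ∃ C : ℝ, 0 < C ∧ ∀ X : ℕ, b ≤ X → ∀ k : ℕ,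
    ∀ (ι : Type) (Ω : Finset ι) (w : ι → ℝ) (v : ι → ℤ), Decays b F A k γ κ Ω w v →
    ∀ g : ℕ → ℕ → ℤ → ℝ, (∀ j, Sysb (g j)) → ∀ (JJ : ℕ → Finset ℕ) (y : ℕ → ℕ → ℝ), (∀ L j, 0 < y L j) →
    ∀ E : Finset ι, E ⊆ Ω → (∀ i ∈ E, ∃ x : ℕ, X ≤ x ∧ x ^ W ≤ b ^ k ∧ ∃ j ∈ JJ (Nat.clog 2 x),
      y (Nat.clog 2 x) j + 2 * b < |∑ p ∈ pri x, (g j p (v i) - mean p (g j p))|) →
    ∃ I : Finset ℕ, (∀ L ∈ I, Nat.clog 2 X ≤ L) ∧ ∑ i ∈ E, w i ≤
      ∑ L ∈ I, ((L : ℝ) + 1) ^ 2 * ∑ j ∈ JJ L, (Vs (g j) (2 ^ L) + C * (2 : ℝ) ^ ((L : ℝ) * (2 / (D : ℝ)))) / (y L j) ^ 2 := by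
  classical
  obtain ⟨W, hW, H⟩ := fine_scale b hb A γ hγ0 hγ1 D hD
  refine ⟨2 * W, by omega, fun F κ hF hκ => ?_⟩
  obtain ⟨C, hC, hmain⟩ := H F κ hF hκ
  refine ⟨C, hC, fun X hX k ι Ω w v hdec g hg JJ y hy E hE hbad => ?_⟩
  obtain ⟨L₁, hL₁⟩ : ∃ L₁, L₁ = Nat.clog 2 X := ⟨_, rfl⟩
  obtain ⟨I, hI⟩ : ∃ I : Finset ℕ, I = (range (b * k + 1)).filter (fun L => L₁ ≤ L ∧ b ≤ 2 ^ L ∧ (2 ^ L) ^ W ≤ b ^ k) := ⟨_, rfl⟩
  obtain ⟨PP, hPP⟩ : ∃ PP : ℕ → Finset ℕ, PP = fun L => (pri (2 ^ L)).filter (fun p => ¬ p ∣ b) := ⟨_, rfl⟩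
  have hun := wunion' w E (fun i hi => hdec.nonneg i (hE hi)) I
    (fun L i => ∃ j ∈ JJ L, ∃ x : ℕ, x ≤ 2 ^ L ∧ y L j < |∑ p ∈ (PP L).filter (fun p => p ≤ x), (g j p (v i) - mean p (g j p))|) (by
      intro i hi
      obtain ⟨x, hXx, hxW, j, hj, hdev⟩ := hbad i hi
      obtain ⟨L, hL⟩ : ∃ L, L = Nat.clog 2 x := ⟨_, rfl⟩
      rw [← hL] at hj hdev
      have hxL : x ≤ 2 ^ L := by rw [hL]; exact Nat.le_pow_clog (by norm_num) x
      have hx2 : 2 ≤ x := by omega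
      have hL1 : 1 ≤ L := by
        rcases Nat.eq_zero_or_pos L with h | h
        · rw [h, pow_zero] at hxL
          omega
        · exact h
      have hLx : 2 ^ L ≤ 2 * x := by
        have h1 := Nat.pow_pred_clog_lt_self (by norm_num : 1 < 2) (by omega : 1 < x)
        rw [← hL] at h1
        have h2 : 2 ^ L = 2 * 2 ^ (L.pred) := by
          rw [← pow_succ', Nat.pred_eq_sub_one, Nat.sub_add_cancel hL1]
        omega
      have hLW : (2 ^ L) ^ W ≤ b ^ k := by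
        calc (2 ^ L) ^ W ≤ (x ^ 2) ^ W := Nat.pow_le_pow_left (by nlinarith) _
          _ = x ^ (2 * W) := by rw [← pow_mul]
          _ ≤ b ^ k := hxW
      have hLk : L < b * k + 1 := by
        have h1 : 2 ^ L ≤ 2 ^ (b * k) := by
          calc 2 ^ L ≤ (2 ^ L) ^ W := Nat.le_self_pow (by omega) _
            _ ≤ b ^ k := hLW
            _ ≤ (2 ^ b) ^ k := Nat.pow_le_pow_left (Nat.lt_two_pow_self).le _
            _ = 2 ^ (b * k) := by rw [← pow_mul]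
        have := (Nat.pow_le_pow_iff_right (by norm_num : 1 < 2)).1 h1
        omega
      refine ⟨L, ?_, j, hj, x, hxL, ?_⟩
      · rw [hI, mem_filter, mem_range]
        refine ⟨hLk, ?_, by omega, hLW⟩
        rw [hL₁, hL]
        exact Nat.clog_mono_right 2 hXx
      · have e1 : (pri x).filter (fun p => ¬ p ∣ b) = (PP L).filter (fun p => p ≤ x) := by
          ext p
          rw [hPP]
          simp only [mem_filter, mem_pri]
          constructor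
          · rintro ⟨⟨h4, h5⟩, h6⟩
            exact ⟨⟨⟨h4.trans hxL, h5⟩, h6⟩, h4⟩
          · rintro ⟨⟨⟨h4, h5⟩, h6⟩, h7⟩
            exact ⟨⟨h7, h5⟩, h6⟩
        have h6 : |∑ p ∈ pri x, (g j p (v i) - mean p (g j p))| ≤ |∑ p ∈ (PP L).filter (fun p => p ≤ x), (g j p (v i) - mean p (g j p))| + 2 * b := by
          rw [← sum_filter_add_sum_filter_not (pri x) (fun p => ¬ p ∣ b), e1]
          refine (abs_add_le _ _).trans ?_
          have h7 : |∑ p ∈ (pri x).filter (fun p => ¬ ¬ p ∣ b), (g j p (v i) - mean p (g j p))| ≤ 2 * b := by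
            refine (abs_sum_le_sum_abs _ _).trans ?_
            have h10 : ∀ p ∈ (pri x).filter (fun p => ¬ ¬ p ∣ b), |g j p (v i) - mean p (g j p)| ≤ 2 := by
              intro p hp
              rw [mem_filter, mem_pri] at hp
              have h11 := (hg j).2 p hp.1.2 (v i)
              have h12 := mean_abs p hp.1.2.one_le (g j p) ((hg j).2 p hp.1.2)
              refine (abs_sub _ _).trans ?_
              linarith
            refine (sum_le_card_nsmul _ _ 2 h10).trans ?_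
            rw [nsmul_eq_mul, mul_comm]
            have h8 : ((pri x).filter (fun p => ¬ ¬ p ∣ b)) ⊆ Icc 1 b := by
              intro p hp
              rw [mem_filter, mem_pri, not_not] at hp
              rw [mem_Icc]
              exact ⟨hp.1.2.one_le, Nat.le_of_dvd (by omega) hp.2⟩
            have h9 := card_le_card h8
            rw [Nat.card_Icc, Nat.add_sub_cancel] at h9
            have h13 : (((pri x).filter (fun p => ¬ ¬ p ∣ b)).card : ℝ) ≤ b := by exact_mod_cast h9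
            linarith
          linarith
        linarith)
    (fun L => ((L : ℝ) + 1) ^ 2 * ∑ j ∈ JJ L, (Vs (g j) (2 ^ L) + C * (2 : ℝ) ^ ((L : ℝ) * (2 / (D : ℝ)))) / (y L j) ^ 2) (by
      intro L hL E' hE' hE''
      rw [hI, mem_filter] at hL
      have hex : ∀ j, ∃ Q : ι → ℝ, (∀ i ∈ Ω, 0 ≤ Q i) ∧ ∑ i ∈ Ω, w i * Q i ≤ (L + 1) ^ 2 * (Vs (g j) (2 ^ L) + C * (2 : ℝ) ^ ((L : ℝ) * (2 / (D : ℝ)))) ∧
          ∀ i ∈ Ω, ∀ t : ℕ, t ≤ 2 ^ L →
            (∑ p ∈ ((pri (2 ^ L)).filter (fun p => ¬ p ∣ b)).filter (fun p => p ≤ t), (g j p (v i) - mean p (g j p))) ^ 2 ≤ Q i :=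
        fun j => hmain k L hL.2.2.1 hL.2.2.2 ι Ω w v hdec (g j) (hg j)
      choose Q hQ0 hQ1 hQ2 using hex
      calc ∑ i ∈ E', w i ≤ ∑ i ∈ E', w i * ∑ j ∈ JJ L, Q j i / (y L j) ^ 2 := by
            apply sum_le_sum
            intro i hi
            have hiΩ := hE (hE' hi)
            obtain ⟨j, hj, x, hx, hdev⟩ := hE'' i hi
            have h1 := hQ2 j i hiΩ x hx
            have h2 : (y L j) ^ 2 ≤ Q j i := by
              refine le_trans ?_ h1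
              rw [← sq_abs (∑ p ∈ _, _)]
              have h3 : y L j < |∑ p ∈ ((pri (2 ^ L)).filter (fun p => ¬ p ∣ b)).filter (fun p => p ≤ x), (g j p (v i) - mean p (g j p))| := by
                rw [hPP] at hdev
                exact hdev
              exact pow_le_pow_left₀ (hy L j).le h3.le 2
            have h3 : 1 ≤ Q j i / (y L j) ^ 2 := by
              rw [one_le_div (pow_pos (hy L j) 2)]
              exact h2
            have h4 : Q j i / (y L j) ^ 2 ≤ ∑ j ∈ JJ L, Q j i / (y L j) ^ 2 :=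
              single_le_sum (f := fun j => Q j i / (y L j) ^ 2) (fun j' _ => div_nonneg (hQ0 j' i hiΩ) (sq_nonneg _)) hj
            calc w i = w i * 1 := (mul_one _).symm
              _ ≤ _ := mul_le_mul_of_nonneg_left (h3.trans h4) (hdec.nonneg i hiΩ)
        _ ≤ ∑ i ∈ Ω, w i * ∑ j ∈ JJ L, Q j i / (y L j) ^ 2 :=
            sum_le_sum_of_subset_of_nonneg (hE'.trans hE) fun i hi _ => mul_nonneg (hdec.nonneg i hi)
              (sum_nonneg fun j _ => div_nonneg (hQ0 j i hi) (sq_nonneg _))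
        _ = ∑ j ∈ JJ L, (∑ i ∈ Ω, w i * Q j i) / (y L j) ^ 2 := by
            simp only [mul_sum]
            rw [sum_comm]
            apply sum_congr rfl
            intro j _
            rw [sum_div]
            apply sum_congr rfl
            intro i _
            rw [mul_div_assoc]
        _ ≤ ∑ j ∈ JJ L, ((L + 1) ^ 2 * (Vs (g j) (2 ^ L) + C * (2 : ℝ) ^ ((L : ℝ) * (2 / (D : ℝ))))) / (y L j) ^ 2 := by
            apply sum_le_sum
            intro j _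
            exact div_le_div_of_nonneg_right (hQ1 j) (sq_nonneg _)
        _ = _ := by
            rw [mul_sum]
            apply sum_congr rfl
            intro j _
            rw [mul_div_assoc])
  refine ⟨I, ?_, hun⟩
  intro L hL
  rw [hI, mem_filter] at hL
  rw [← hL₁]
  exact hL.2.1

/-- the systems have a small sum of squares -/
def Few (g : ℕ → ℕ → ℤ → ℝ) : Prop := ∀ p : ℕ, p.Prime → ∀ n : ℤ, ∀ M : ℕ, ∑ j ∈ range M, (g j p n) ^ 2 ≤ Nat.log 2 p + 3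

lemma few_Vs (g : ℕ → ℕ → ℤ → ℝ) (hg : Few g) (L M : ℕ) : ∑ j ∈ range M, Vs (g j) (2 ^ L) ≤ 2 ^ L * (L + 3) := by
  unfold Vs
  rw [sum_comm]
  have h1 : ∀ p ∈ pri (2 ^ L), ∑ j ∈ range M, mean p (fun n => (g j p n) ^ 2) ≤ L + 3 := by
    intro p hp
    rw [mem_pri] at hp
    have hp0 : (0 : ℝ) < p := by exact_mod_cast hp.2.pos
    rw [mean_add' (range M) p (fun j n => (g j p n) ^ 2)]
    unfold mean
    rw [div_le_iff₀ hp0]
    have h2 : (Nat.log 2 p : ℝ) ≤ L := by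
      have : Nat.log 2 p ≤ L := by
        calc Nat.log 2 p ≤ Nat.log 2 (2 ^ L) := Nat.log_mono_right hp.1
          _ = L := Nat.log_pow (by norm_num) L
      exact_mod_cast this
    refine (sum_le_card_nsmul (range p) (fun t : ℕ => ∑ j ∈ range M, g j p (t : ℤ) ^ 2) ((L : ℝ) + 3) fun t _ => ?_).trans ?_
    · have := hg p hp.2 (t : ℤ) M
      linarith
    · rw [card_range, nsmul_eq_mul, mul_comm]
  refine (sum_le_card_nsmul _ _ _ h1).trans ?_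
  rw [nsmul_eq_mul]
  apply mul_le_mul_of_nonneg_right _ (by positivity)
  have h1 : pri (2 ^ L) ⊆ Icc 1 (2 ^ L) := by
    intro p hp
    rw [mem_pri] at hp
    rw [mem_Icc]
    exact ⟨hp.2.one_le, hp.1⟩
  have h2 := card_le_card h1
  rw [Nat.card_Icc, Nat.add_sub_cancel] at h2
  exact_mod_cast h2

/-- the tail of the series, for the exceptional sets -/
lemma tail2 (C δ : ℝ) (e : ℕ) (hC : 0 ≤ C) (hδ : 0 < δ) : ∃ X₀ : ℕ, ∀ X : ℕ, X₀ ≤ X → ∀ I : Finset ℕ, (∀ L ∈ I, Nat.clog 2 X ≤ L) →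
    ∑ L ∈ I, C * ((L : ℝ) + 1) ^ e * (2 : ℝ) ^ (-(δ * L)) ≤ (X : ℝ) ^ (-(δ / 2)) := by
  obtain ⟨r, hr⟩ : ∃ r : ℝ, r = (2 : ℝ) ^ (-(δ / 2)) := ⟨_, rfl⟩
  have hr0 : 0 < r := by rw [hr]; positivity
  have hr1 : r < 1 := by
    rw [hr]
    exact Real.rpow_lt_one_of_one_lt_of_neg (by norm_num) (by linarith)
  obtain ⟨L₀, hL₀⟩ := tail_sum C r e hC hr0 hr1
  refine ⟨2 ^ L₀ + 1, fun X hX I hI => ?_⟩
  have hpo : 1 ≤ 2 ^ L₀ := Nat.one_le_two_pow
  have hXr : (0 : ℝ) < X := by exact_mod_cast (by omega : 0 < X)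
  obtain ⟨L₁, hL₁⟩ : ∃ L₁, L₁ = Nat.clog 2 X := ⟨_, rfl⟩
  have hXL₁ : X ≤ 2 ^ L₁ := by rw [hL₁]; exact Nat.le_pow_clog (by norm_num) X
  have hL₀₁ : L₀ ≤ L₁ := by
    have : 2 ^ L₀ ≤ 2 ^ L₁ := by omega
    exact (Nat.pow_le_pow_iff_right (by norm_num)).1 this
  have h1 := hL₀ L₁ hL₀₁ I (by rw [hL₁]; exact hI)
  have e1 : ∀ L ∈ I, C * ((L : ℝ) + 1) ^ e * (2 : ℝ) ^ (-(δ * L)) = C * ((L : ℝ) + 1) ^ e * r ^ (2 * L) := by
    intro L _
    congr 1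
    rw [hr, ← Real.rpow_natCast, ← Real.rpow_mul (by norm_num)]
    congr 1
    push_cast
    ring
  rw [sum_congr rfl e1]
  refine h1.trans ?_
  rw [hr, ← Real.rpow_natCast, ← Real.rpow_mul (by norm_num), mul_comm, Real.rpow_mul (by norm_num), Real.rpow_natCast]
  rw [Real.rpow_neg (by positivity), Real.rpow_neg hXr.le]
  apply inv_anti₀ (by positivity)
  apply Real.rpow_le_rpow hXr.le _ (by linarith)
  exact_mod_cast hXL₁

/-- many systems, with the error `x ^ (1 / 2 + δ)`, and few systems, with the error of the size of the square root of the expected number -/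
theorem fine_all (b : ℕ) (hb : 2 ≤ b) (A : ℕ) (γ : ℝ) (hγ0 : 0 < γ) (hγ1 : γ < 1) (δ : ℝ) (hδ : 0 < δ) (hδ1 : δ ≤ 1 / 2) : ∃ W : ℕ, 1 ≤ W ∧
    ∀ (F : ℕ) (κ : ℤ), 1 ≤ F → κ ≠ 0 → ∃ X₀ : ℕ, ∀ X : ℕ, X₀ ≤ X → ∀ k : ℕ,
    ∀ (ι : Type) (Ω : Finset ι) (w : ι → ℝ) (v : ι → ℤ), Decays b F A k γ κ Ω w v →
    ∀ g : ℕ → ℕ → ℤ → ℝ, (∀ j, Sysb (g j)) → Few g →
    ∀ E : Finset ι, E ⊆ Ω → (
      (∀ i ∈ E, ∃ x : ℕ, X ≤ x ∧ x ^ W ≤ b ^ k ∧ ∃ j : ℕ, j ≤ x ∧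
        (x : ℝ) ^ (1 / 2 + δ) < |∑ p ∈ pri x, (g j p (v i) - mean p (g j p))|) ∨
      (∀ i ∈ E, ∃ x : ℕ, X ≤ x ∧ x ^ W ≤ b ^ k ∧ ∃ j : ℕ, (j : ℝ) ≤ (x : ℝ) ^ (δ / 2) ∧
        √(max 1 (Vs (g j) (2 * x))) * (x : ℝ) ^ δ < |∑ p ∈ pri x, (g j p (v i) - mean p (g j p))|)) →
      ∑ i ∈ E, w i ≤ (X : ℝ) ^ (-(δ / 2)) := by
  classical
  obtain ⟨D, hD⟩ : ∃ D : ℕ, 4 / δ ≤ D := exists_nat_ge _
  have hD0 : (0 : ℝ) < D := lt_of_lt_of_le (by positivity) hD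
  have hD1 : 1 ≤ D := by exact_mod_cast hD0
  have hDδ : 2 / (D : ℝ) ≤ δ / 2 := by
    rw [div_le_div_iff₀ hD0 (by norm_num)]
    rw [div_le_iff₀ hδ] at hD
    linarith
  obtain ⟨W, hW, H⟩ := scales b hb A γ hγ0 hγ1 D hD1
  refine ⟨W, hW, fun F κ hF hκ => ?_⟩
  obtain ⟨C, hC, hmain⟩ := H F κ hF hκ
  obtain ⟨X₁, hX₁⟩ := tail2 (64 * (3 + 2 * C)) δ 3 (by positivity) hδ
  obtain ⟨X₂, hX₂⟩ := tail2 (32 * (1 + C)) δ 2 (by positivity) hδ
  obtain ⟨X₃, hX₃⟩ : ∃ X₃ : ℕ, ((8 : ℝ) * b) ^ (1 / δ) ≤ X₃ := exists_nat_ge _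
  refine ⟨X₁ + X₂ + X₃ + b + 2, fun X hX k ι Ω w v hdec g hg hfew E hE hbad => ?_⟩
  -- facts on the scale
  have hscale : ∀ x : ℕ, X ≤ x → x ≤ 2 ^ (Nat.clog 2 x) ∧ 2 ^ (Nat.clog 2 x) ≤ 2 * x := by
    intro x hXx
    have hxL : x ≤ 2 ^ (Nat.clog 2 x) := Nat.le_pow_clog (by norm_num) x
    have hL1 : 1 ≤ Nat.clog 2 x := by
      rcases Nat.eq_zero_or_pos (Nat.clog 2 x) with h | h
      · rw [h, pow_zero] at hxL
        omega
      · exact h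
    refine ⟨hxL, ?_⟩
    have h1 := Nat.pow_pred_clog_lt_self (by norm_num : 1 < 2) (by omega : 1 < x)
    have h2 : 2 ^ (Nat.clog 2 x) = 2 * 2 ^ ((Nat.clog 2 x).pred) := by
      rw [← pow_succ', Nat.pred_eq_sub_one, Nat.sub_add_cancel hL1]
    omega
  have h8b : ∀ x : ℕ, X ≤ x → (8 : ℝ) * b ≤ (x : ℝ) ^ δ := by
    intro x hXx
    have h1 : (8 : ℝ) * b = (((8 : ℝ) * b) ^ (1 / δ)) ^ δ := by
      rw [← Real.rpow_mul (by positivity), one_div_mul_cancel hδ.ne', Real.rpow_one]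
    rw [h1]
    apply Real.rpow_le_rpow (by positivity) _ hδ.le
    exact hX₃.trans (by exact_mod_cast (by omega : X₃ ≤ x))
  rcases hbad with hbad | hbad
  · obtain ⟨I, hI, hsum⟩ := hmain X (by omega) k ι Ω w v hdec g hg (fun L => range (2 ^ L + 1)) (fun L _ => ((2 : ℝ) ^ L) ^ (1 / 2 + δ) / 8)
      (by intro L j; positivity) E hE (by
        intro i hi
        obtain ⟨x, hXx, hxW, j, hj, hdev⟩ := hbad i hi
        refine ⟨x, hXx, hxW, j, ?_, lt_of_le_of_lt ?_ hdev⟩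
        · rw [mem_range]
          have := (hscale x hXx).1
          omega
        · have hx1 : (1 : ℝ) ≤ x := by exact_mod_cast (by omega : 1 ≤ x)
          have h2 : ((2 : ℝ) ^ (Nat.clog 2 x)) ≤ 2 * x := by exact_mod_cast (hscale x hXx).2
          have h3 : ((2 : ℝ) ^ (Nat.clog 2 x)) ^ (1 / 2 + δ) ≤ 2 * (x : ℝ) ^ (1 / 2 + δ) := by
            calc ((2 : ℝ) ^ (Nat.clog 2 x)) ^ (1 / 2 + δ) ≤ (2 * x) ^ (1 / 2 + δ) := Real.rpow_le_rpow (by positivity) h2 (by linarith)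
              _ = 2 ^ (1 / 2 + δ) * (x : ℝ) ^ (1 / 2 + δ) := Real.mul_rpow (by norm_num) (by linarith)
              _ ≤ 2 ^ (1 : ℝ) * (x : ℝ) ^ (1 / 2 + δ) := by
                  apply mul_le_mul_of_nonneg_right _ (by positivity)
                  exact Real.rpow_le_rpow_of_exponent_le (by norm_num) (by linarith)
              _ = _ := by rw [Real.rpow_one]
          have h4 := h8b x hXx
          have h5 : (x : ℝ) ^ δ ≤ (x : ℝ) ^ (1 / 2 + δ) := Real.rpow_le_rpow_of_exponent_le hx1 (by linarith)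
          linarith)
    refine hsum.trans (le_trans ?_ (hX₁ X (by omega) I hI))
    apply sum_le_sum
    intro L _
    obtain ⟨z, hz⟩ : ∃ z : ℝ, z = ((2 : ℝ) ^ L) := ⟨_, rfl⟩
    have hz1 : 1 ≤ z := by rw [hz]; exact one_le_pow₀ (by norm_num)
    have hz0 : 0 < z := by linarith
    have hsq : (z ^ (1 / 2 + δ) / 8) ^ 2 = z * (2 : ℝ) ^ (2 * δ * L) / 64 := by
      rw [div_pow, ← Real.rpow_natCast (z ^ (1 / 2 + δ)) 2, ← Real.rpow_mul hz0.le]
      have e : (1 / 2 + δ) * ((2 : ℕ) : ℝ) = 1 + 2 * δ := by push_cast; ring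
      rw [e, Real.rpow_add hz0, Real.rpow_one]
      have e2 : z ^ (2 * δ) = (2 : ℝ) ^ (2 * δ * L) := by
        rw [hz, ← Real.rpow_natCast, ← Real.rpow_mul (by norm_num)]
        congr 1
        ring
      rw [e2]
      norm_num
    rw [← hz, hsq]
    have hpos : 0 < z * (2 : ℝ) ^ (2 * δ * L) / 64 := by positivity
    rw [← sum_div, sum_add_distrib, sum_const, card_range, nsmul_eq_mul]
    have h1 := few_Vs g hfew L (2 ^ L + 1)
    rw [← hz] at h1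
    obtain ⟨u, hu⟩ : ∃ u : ℝ, u = (2 : ℝ) ^ ((L : ℝ) * (2 / (D : ℝ))) := ⟨_, rfl⟩
    have hu1 : 1 ≤ u := by rw [hu]; exact Real.one_le_rpow (by norm_num) (by positivity)
    rw [← hu]
    have hL0 : (0 : ℝ) ≤ L := Nat.cast_nonneg _
    have h2 : ∑ j ∈ range (2 ^ L + 1), Vs (g j) (2 ^ L) + ((2 ^ L + 1 : ℕ) : ℝ) * (C * u) ≤ (3 + 2 * C) * (L + 1) * (z * u) := by
      have e : ((2 ^ L + 1 : ℕ) : ℝ) = z + 1 := by rw [hz]; push_cast; ring
      rw [e]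
      have h3 : (z + 1) * (C * u) ≤ 2 * C * (z * u) := by
        have : z + 1 ≤ 2 * z := by linarith
        calc (z + 1) * (C * u) ≤ (2 * z) * (C * u) := mul_le_mul_of_nonneg_right this (by positivity)
          _ = _ := by ring
      have h4 : z * ((L : ℝ) + 3) ≤ 3 * (L + 1) * (z * u) := by
        have h5 : z ≤ z * u := le_mul_of_one_le_right hz0.le hu1
        calc z * ((L : ℝ) + 3) ≤ z * (3 * (L + 1)) := mul_le_mul_of_nonneg_left (by linarith) hz0.le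
          _ ≤ (z * u) * (3 * (L + 1)) := mul_le_mul_of_nonneg_right h5 (by positivity)
          _ = _ := by ring
      have h6 : 2 * C * (z * u) ≤ 2 * C * (L + 1) * (z * u) := by
        have : 2 * C * (z * u) * 1 ≤ 2 * C * (z * u) * (L + 1) := mul_le_mul_of_nonneg_left (by linarith) (by positivity)
        linarith
      linarith
    rw [← mul_div_assoc, div_le_iff₀ hpos]
    have h3 : u ≤ (2 : ℝ) ^ (δ * L) := by
      rw [hu]
      apply Real.rpow_le_rpow_of_exponent_le (by norm_num)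
      calc (L : ℝ) * (2 / (D : ℝ)) ≤ L * (δ / 2) := mul_le_mul_of_nonneg_left hDδ hL0
        _ ≤ δ * L := by nlinarith
    calc ((L : ℝ) + 1) ^ 2 * (∑ j ∈ range (2 ^ L + 1), Vs (g j) (2 ^ L) + ((2 ^ L + 1 : ℕ) : ℝ) * (C * u)) ≤
          (L + 1) ^ 2 * ((3 + 2 * C) * (L + 1) * (z * u)) := mul_le_mul_of_nonneg_left h2 (by positivity)
      _ ≤ (L + 1) ^ 2 * ((3 + 2 * C) * (L + 1) * (z * (2 : ℝ) ^ (δ * L))) := by
          apply mul_le_mul_of_nonneg_left _ (by positivity)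
          apply mul_le_mul_of_nonneg_left _ (by positivity)
          exact mul_le_mul_of_nonneg_left h3 hz0.le
      _ = 64 * (3 + 2 * C) * ((L : ℝ) + 1) ^ 3 * (2 : ℝ) ^ (-(δ * L)) * (z * (2 : ℝ) ^ (2 * δ * L) / 64) := by
          have e : (2 : ℝ) ^ (2 * δ * L) = (2 : ℝ) ^ (δ * L) * (2 : ℝ) ^ (δ * L) := by
            rw [← Real.rpow_add (by norm_num)]
            congr 1
            ring
          rw [e, Real.rpow_neg (by norm_num)]
          field_simp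
  · obtain ⟨I, hI, hsum⟩ := hmain X (by omega) k ι Ω w v hdec g hg (fun L => range (⌊(2 : ℝ) ^ (δ / 2 * L)⌋₊ + 1))
      (fun L j => √(max 1 (Vs (g j) (2 ^ L))) * (2 : ℝ) ^ (δ * L) / 4)
      (by
        intro L j
        have : 0 < √(max 1 (Vs (g j) (2 ^ L))) := Real.sqrt_pos.2 (lt_of_lt_of_le zero_lt_one (le_max_left _ _))
        positivity) E hE (by
        intro i hi
        obtain ⟨x, hXx, hxW, j, hj, hdev⟩ := hbad i hi
        have hx1 : (1 : ℝ) ≤ x := by exact_mod_cast (by omega : 1 ≤ x)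
        have hxL : (x : ℝ) ≤ (2 : ℝ) ^ (Nat.clog 2 x) := by exact_mod_cast (hscale x hXx).1
        have h2 : ((2 : ℝ) ^ (Nat.clog 2 x)) ≤ 2 * x := by exact_mod_cast (hscale x hXx).2
        refine ⟨x, hXx, hxW, j, ?_, lt_of_le_of_lt ?_ hdev⟩
        · rw [mem_range, Nat.lt_succ_iff]
          apply Nat.le_floor
          refine hj.trans ?_
          calc (x : ℝ) ^ (δ / 2) ≤ ((2 : ℝ) ^ (Nat.clog 2 x)) ^ (δ / 2) := Real.rpow_le_rpow (by linarith) hxL (by linarith)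
            _ = (2 : ℝ) ^ (δ / 2 * (Nat.clog 2 x)) := by
                rw [← Real.rpow_natCast, ← Real.rpow_mul (by norm_num)]
                congr 1
                ring
        · have h3 : √(max 1 (Vs (g j) (2 ^ (Nat.clog 2 x)))) ≤ √(max 1 (Vs (g j) (2 * x))) := by
            apply Real.sqrt_le_sqrt
            exact max_le_max le_rfl (Vs_mono (g j) (hscale x hXx).2)
          have h4 : (2 : ℝ) ^ (δ * (Nat.clog 2 x)) ≤ 2 * (x : ℝ) ^ δ := by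
            calc (2 : ℝ) ^ (δ * (Nat.clog 2 x)) = ((2 : ℝ) ^ (Nat.clog 2 x)) ^ δ := by
                  rw [← Real.rpow_natCast, ← Real.rpow_mul (by norm_num)]
                  congr 1
                  ring
              _ ≤ (2 * x) ^ δ := Real.rpow_le_rpow (by positivity) h2 hδ.le
              _ = 2 ^ δ * (x : ℝ) ^ δ := Real.mul_rpow (by norm_num) (by linarith)
              _ ≤ 2 ^ (1 : ℝ) * (x : ℝ) ^ δ := by
                  apply mul_le_mul_of_nonneg_right _ (by positivity)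
                  exact Real.rpow_le_rpow_of_exponent_le (by norm_num) (by linarith)
              _ = _ := by rw [Real.rpow_one]
          have h5 := h8b x hXx
          have h6 : 1 ≤ √(max 1 (Vs (g j) (2 * x))) := by
            rw [Real.one_le_sqrt]
            exact le_max_left _ _
          have h7 : √(max 1 (Vs (g j) (2 ^ (Nat.clog 2 x)))) * (2 : ℝ) ^ (δ * (Nat.clog 2 x)) / 4 ≤
              √(max 1 (Vs (g j) (2 * x))) * (x : ℝ) ^ δ / 2 := by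
            have := mul_le_mul h3 h4 (by positivity) (Real.sqrt_nonneg _)
            linarith
          have h8 : (x : ℝ) ^ δ ≤ √(max 1 (Vs (g j) (2 * x))) * (x : ℝ) ^ δ :=
            le_mul_of_one_le_left (by positivity) h6
          linarith)
    refine hsum.trans (le_trans ?_ (hX₂ X (by omega) I hI))
    apply sum_le_sum
    intro L _
    have hL0 : (0 : ℝ) ≤ L := Nat.cast_nonneg _
    obtain ⟨u, hu⟩ : ∃ u : ℝ, u = (2 : ℝ) ^ ((L : ℝ) * (2 / (D : ℝ))) := ⟨_, rfl⟩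
    have hu1 : 1 ≤ u := by rw [hu]; exact Real.one_le_rpow (by norm_num) (by positivity)
    have h3 : u ≤ (2 : ℝ) ^ (δ / 2 * L) := by
      rw [hu]
      apply Real.rpow_le_rpow_of_exponent_le (by norm_num)
      rw [mul_comm]
      exact mul_le_mul_of_nonneg_right hDδ hL0
    rw [← hu]
    have h1 : ∀ j ∈ range (⌊(2 : ℝ) ^ (δ / 2 * L)⌋₊ + 1), (Vs (g j) (2 ^ L) + C * u) / (√(max 1 (Vs (g j) (2 ^ L))) * (2 : ℝ) ^ (δ * L) / 4) ^ 2 ≤
        16 * (1 + C) * u * (2 : ℝ) ^ (-(2 * δ * L)) := by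
      intro j _
      obtain ⟨V, hV⟩ : ∃ V, V = Vs (g j) (2 ^ L) := ⟨_, rfl⟩
      have hV0 : 0 ≤ V := by rw [hV]; exact Vs_nonneg _ _
      rw [← hV]
      have hm : 0 < max 1 V := lt_of_lt_of_le zero_lt_one (le_max_left _ _)
      have e : (√(max 1 V) * (2 : ℝ) ^ (δ * L) / 4) ^ 2 = max 1 V * (2 : ℝ) ^ (2 * δ * L) / 16 := by
        rw [div_pow, mul_pow, Real.sq_sqrt hm.le, ← Real.rpow_natCast ((2 : ℝ) ^ (δ * L)) 2, ← Real.rpow_mul (by norm_num)]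
        have e3 : δ * L * ((2 : ℕ) : ℝ) = 2 * δ * L := by push_cast; ring
        rw [e3]
        norm_num
      rw [e, div_le_iff₀ (by positivity)]
      have h5 : V + C * u ≤ (1 + C) * u * max 1 V := by
        have h6 : V ≤ u * max 1 V := by
          calc V ≤ max 1 V := le_max_right _ _
            _ ≤ u * max 1 V := le_mul_of_one_le_left hm.le hu1
        have h7 : C * u ≤ C * u * max 1 V := le_mul_of_one_le_right (by positivity) (le_max_left _ _)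
        calc V + C * u ≤ u * max 1 V + C * u * max 1 V := add_le_add h6 h7
          _ = _ := by ring
      have e2 : 16 * (1 + C) * u * (2 : ℝ) ^ (-(2 * δ * L)) * (max 1 V * (2 : ℝ) ^ (2 * δ * L) / 16) =
          (1 + C) * u * max 1 V * ((2 : ℝ) ^ (-(2 * δ * L)) * (2 : ℝ) ^ (2 * δ * L)) := by ring
      rw [e2, ← Real.rpow_add (by norm_num), neg_add_cancel, Real.rpow_zero, mul_one]
      exact h5
    have h2 : ((⌊(2 : ℝ) ^ (δ / 2 * L)⌋₊ + 1 : ℕ) : ℝ) ≤ 2 * (2 : ℝ) ^ (δ / 2 * L) := by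
      have h4 : (⌊(2 : ℝ) ^ (δ / 2 * L)⌋₊ : ℝ) ≤ (2 : ℝ) ^ (δ / 2 * L) := Nat.floor_le (by positivity)
      have h5 : (1 : ℝ) ≤ (2 : ℝ) ^ (δ / 2 * L) := Real.one_le_rpow (by norm_num) (by positivity)
      push_cast
      linarith
    calc ((L : ℝ) + 1) ^ 2 * ∑ j ∈ range (⌊(2 : ℝ) ^ (δ / 2 * L)⌋₊ + 1), (Vs (g j) (2 ^ L) + C * u) / (√(max 1 (Vs (g j) (2 ^ L))) * (2 : ℝ) ^ (δ * L) / 4) ^ 2 ≤
          (L + 1) ^ 2 * (((⌊(2 : ℝ) ^ (δ / 2 * L)⌋₊ + 1 : ℕ) : ℝ) * (16 * (1 + C) * u * (2 : ℝ) ^ (-(2 * δ * L)))) := by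
            apply mul_le_mul_of_nonneg_left _ (by positivity)
            refine (sum_le_card_nsmul _ _ _ h1).trans ?_
            rw [card_range, nsmul_eq_mul]
      _ ≤ (L + 1) ^ 2 * ((2 * (2 : ℝ) ^ (δ / 2 * L)) * (16 * (1 + C) * (2 : ℝ) ^ (δ / 2 * L) * (2 : ℝ) ^ (-(2 * δ * L)))) := by
            apply mul_le_mul_of_nonneg_left _ (by positivity)
            apply mul_le_mul h2 _ (by positivity) (by positivity)
            apply mul_le_mul_of_nonneg_right _ (by positivity)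
            exact mul_le_mul_of_nonneg_left h3 (by positivity)
      _ = 32 * (1 + C) * ((L : ℝ) + 1) ^ 2 * ((2 : ℝ) ^ (δ / 2 * L) * (2 : ℝ) ^ (δ / 2 * L) * (2 : ℝ) ^ (-(2 * δ * L))) := by ring
      _ = 32 * (1 + C) * ((L : ℝ) + 1) ^ 2 * (2 : ℝ) ^ (-(δ * L)) := by
            congr 1
            rw [← Real.rpow_add (by norm_num), ← Real.rpow_add (by norm_num)]
            congr 1
            ring

/-- many systems, for almost all members of the families -/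
theorem fine_many (b : ℕ) (hb : 2 ≤ b) (η : ℝ) (hη : 0 < η) (δ : ℝ) (hδ : 0 < δ) (hδ1 : δ ≤ 1 / 2) : ∃ W : ℕ, 1 ≤ W ∧
    ∀ κ : ℤ, κ ≠ 0 → ∃ X₀ : ℕ, ∀ X : ℕ, X₀ ≤ X → ∀ k : ℕ, 2 ≤ k → ∀ c : ℤ, ∀ g : ℕ → ℕ → ℤ → ℝ, (∀ j, Sysb (g j)) → Few g →
    Almost b k κ c η (2 * (X : ℝ) ^ (-(δ / 2))) (fun n => ∀ x : ℕ, X ≤ x → x ^ W ≤ b ^ k →
      (∀ j : ℕ, j ≤ x → |∑ p ∈ pri x, (g j p n - mean p (g j p))| ≤ (x : ℝ) ^ (1 / 2 + δ)) ∧
      (∀ j : ℕ, (j : ℝ) ≤ (x : ℝ) ^ (δ / 2) →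
        |∑ p ∈ pri x, (g j p n - mean p (g j p))| ≤ √(max 1 (Vs (g j) (2 * x))) * (x : ℝ) ^ δ)) := by
  classical
  obtain ⟨A₁, A₂, γ₁, γ₂, h1, h2, h3, h4, H⟩ := almost_of b hb η hη
  obtain ⟨W₁, hW₁, K₁⟩ := fine_all b hb A₁ γ₁ h1 h2 δ hδ hδ1
  obtain ⟨W₂, hW₂, K₂⟩ := fine_all b hb A₂ γ₂ h3 h4 δ hδ hδ1
  obtain ⟨W, hW⟩ : ∃ W, W = max W₁ W₂ := ⟨_, rfl⟩
  have hWW₁ : W₁ ≤ W := by rw [hW]; exact le_max_left _ _
  have hWW₂ : W₂ ≤ W := by rw [hW]; exact le_max_right _ _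
  refine ⟨W, hW₁.trans hWW₁, fun κ hκ => ?_⟩
  obtain ⟨X₁, J₁⟩ := K₁ (Pool.Agent.TH872.An.GG b) κ (Pool.Agent.TH872.An.GG_pos b hb) hκ
  obtain ⟨X₂, J₂⟩ := K₂ (b ^ 4).factorial κ (Nat.factorial_pos _) hκ
  refine ⟨X₁ + X₂ + 1, fun X hX k hk c g hg hfew => ?_⟩
  refine H k hk κ c _ _ (by positivity) fun F₀ A' γ hFA ι Ω w v hdec E hE hbad => ?_
  obtain ⟨E₁, hE₁⟩ : ∃ E₁ : Finset ι, E₁ = E.filter (fun i => ∃ x : ℕ, X ≤ x ∧ x ^ W ≤ b ^ k ∧ ∃ j : ℕ, j ≤ x ∧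
        (x : ℝ) ^ (1 / 2 + δ) < |∑ p ∈ pri x, (g j p (v i) - mean p (g j p))|) := ⟨_, rfl⟩
  obtain ⟨E₂, hE₂⟩ : ∃ E₂ : Finset ι, E₂ = E.filter (fun i => ∃ x : ℕ, X ≤ x ∧ x ^ W ≤ b ^ k ∧ ∃ j : ℕ, (j : ℝ) ≤ (x : ℝ) ^ (δ / 2) ∧
        √(max 1 (Vs (g j) (2 * x))) * (x : ℝ) ^ δ < |∑ p ∈ pri x, (g j p (v i) - mean p (g j p))|) := ⟨_, rfl⟩
  have hsplit : E ⊆ E₁ ∪ E₂ := by
    intro i hi
    have h5 := hbad i hi
    push Not at h5
    obtain ⟨x, hXx, hxW, hu⟩ := h5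
    rw [mem_union, hE₁, hE₂, mem_filter, mem_filter]
    by_cases h6 : ∃ j : ℕ, j ≤ x ∧ (x : ℝ) ^ (1 / 2 + δ) < |∑ p ∈ pri x, (g j p (v i) - mean p (g j p))|
    · left
      exact ⟨hi, x, hXx, hxW, h6⟩
    · right
      push Not at h6
      exact ⟨hi, x, hXx, hxW, hu h6⟩
  have hE₁' : E₁ ⊆ Ω := by
    rw [hE₁]
    exact (filter_subset _ _).trans hE
  have hE₂' : E₂ ⊆ Ω := by
    rw [hE₂]
    exact (filter_subset _ _).trans hE
  have hsum : ∑ i ∈ E, w i ≤ ∑ i ∈ E₁, w i + ∑ i ∈ E₂, w i := by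
    calc ∑ i ∈ E, w i ≤ ∑ i ∈ E₁ ∪ E₂, w i :=
          sum_le_sum_of_subset_of_nonneg hsplit fun i hi _ => hdec.nonneg i ((union_subset hE₁' hE₂') hi)
      _ ≤ ∑ i ∈ E₁ ∪ E₂, w i + ∑ i ∈ E₁ ∩ E₂, w i := by
          have : 0 ≤ ∑ i ∈ E₁ ∩ E₂, w i := sum_nonneg fun i hi => hdec.nonneg i (hE₁' (mem_inter.1 hi).1)
          linarith
      _ = _ := sum_union_inter
  have hb1 : ∀ W' ≤ W, ∀ i ∈ E₁, ∃ x : ℕ, X ≤ x ∧ x ^ W' ≤ b ^ k ∧ ∃ j : ℕ, j ≤ x ∧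
        (x : ℝ) ^ (1 / 2 + δ) < |∑ p ∈ pri x, (g j p (v i) - mean p (g j p))| := by
    intro W' hW' i hi
    rw [hE₁, mem_filter] at hi
    obtain ⟨x, hXx, hxW, hu⟩ := hi.2
    exact ⟨x, hXx, (Nat.pow_le_pow_right (by omega) hW').trans hxW, hu⟩
  have hb2 : ∀ W' ≤ W, ∀ i ∈ E₂, ∃ x : ℕ, X ≤ x ∧ x ^ W' ≤ b ^ k ∧ ∃ j : ℕ, (j : ℝ) ≤ (x : ℝ) ^ (δ / 2) ∧
        √(max 1 (Vs (g j) (2 * x))) * (x : ℝ) ^ δ < |∑ p ∈ pri x, (g j p (v i) - mean p (g j p))| := by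
    intro W' hW' i hi
    rw [hE₂, mem_filter] at hi
    obtain ⟨x, hXx, hxW, hu⟩ := hi.2
    exact ⟨x, hXx, (Nat.pow_le_pow_right (by omega) hW').trans hxW, hu⟩
  rcases hFA with h | h
  · simp only [Prod.mk.injEq] at h
    obtain ⟨rfl, rfl, rfl⟩ := h
    have k1 := J₁ X (by omega) k ι Ω w v hdec g hg hfew E₁ hE₁' (Or.inl (hb1 _ hWW₁))
    have k2 := J₁ X (by omega) k ι Ω w v hdec g hg hfew E₂ hE₂' (Or.inr (hb2 _ hWW₁))
    linarith
  · simp only [Prod.mk.injEq] at h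
    obtain ⟨rfl, rfl, rfl⟩ := h
    have k1 := J₂ X (by omega) k ι Ω w v hdec g hg hfew E₁ hE₁' (Or.inl (hb1 _ hWW₂))
    have k2 := J₂ X (by omega) k ι Ω w v hdec g hg hfew E₂ hE₂' (Or.inr (hb2 _ hWW₂))
    linarith

end Pool.Agent.R459.Eq
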