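import Pool.Agent.R459.Eq16

/-! Two parameters. -/

set_option autoImplicit false

namespace Pool.Agent.R459.Eq
open Finset
open Pool.Agent.H807R2.Dav

/-- a system of functions of two parameters with values in `[0, 1]` -/
def Sys2 (g : ℕ → ℤ → ℤ → ℝ) : Prop :=
  (∀ p : ℕ, p.Prime → ∀ a a' n n' : ℤ, (p : ℤ) ∣ a - a' → (p : ℤ) ∣ n - n' → g p a n = g p a' n') ∧
  (∀ p : ℕ, p.Prime → ∀ a n : ℤ, 0 ≤ g p a n ∧ g p a n ≤ 1)

/-- the mean over the second parameter -/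
noncomputable def Av (g : ℕ → ℤ → ℤ → ℝ) (p : ℕ) (a : ℤ) : ℝ := mean p (g p a)

lemma sys2_fst (g : ℕ → ℤ → ℤ → ℝ) (hg : Sys2 g) (a : ℤ) : Sysb (fun p n => g p a n) := by
  refine ⟨fun p hp m n h => hg.1 p hp a a m n (by simp) h, fun p hp n => ?_⟩
  have := hg.2 p hp a n
  rw [abs_le]
  constructor <;> linarith [this.1, this.2]

lemma Av_mem (g : ℕ → ℤ → ℤ → ℝ) (hg : Sys2 g) (p : ℕ) (hp : p.Prime) (a : ℤ) : 0 ≤ Av g p a ∧ Av g p a ≤ 1 :=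
  mean_mem p hp.one_le (g p a) (hg.2 p hp a)

lemma Av_sysb (g : ℕ → ℤ → ℤ → ℝ) (hg : Sys2 g) : Sysb (Av g) := by
  constructor
  · intro p hp m n h
    unfold Av mean
    congr 1
    apply sum_congr rfl
    intro t _
    exact hg.1 p hp m n t t h (by simp)
  · intro p hp n
    have := Av_mem g hg p hp n
    rw [abs_le]
    constructor <;> linarith [this.1, this.2]

lemma mean_sq_le (p : ℕ) (hp : 1 ≤ p) (f : ℤ → ℝ) : (mean p f) ^ 2 ≤ mean p (fun n => (f n) ^ 2) := by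
  have hp0 : (0 : ℝ) < p := by exact_mod_cast hp
  unfold mean
  rw [div_pow, div_le_div_iff₀ (by positivity) hp0]
  have h3 := sq_sum_le_card_mul_sum_sq (s := range p) (f := fun t : ℕ => f t)
  rw [card_range] at h3
  calc (∑ t ∈ range p, f t) ^ 2 * p ≤ (p * ∑ t ∈ range p, (f t) ^ 2) * p := mul_le_mul_of_nonneg_right h3 hp0.le
    _ = _ := by ring

lemma Av_few (g : ℕ → ℕ → ℤ → ℤ → ℝ) (hf : ∀ a, Few (fun j p n => g j p a n)) : Few (fun j => Av (g j)) := by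
  intro p hp a M
  have hp0 : (0 : ℝ) < p := by exact_mod_cast hp.pos
  calc ∑ j ∈ range M, (Av (g j) p a) ^ 2 ≤ ∑ j ∈ range M, mean p (fun n => (g j p a n) ^ 2) :=
        sum_le_sum fun j _ => mean_sq_le p hp.one_le _
    _ = mean p (fun n => ∑ j ∈ range M, (g j p a n) ^ 2) := mean_add' _ _ _
    _ ≤ _ := by
        unfold mean
        rw [div_le_iff₀ hp0]
        refine (sum_le_card_nsmul (range p) (fun t : ℕ => ∑ j ∈ range M, g j p a (t : ℤ) ^ 2) ((Nat.log 2 p : ℝ) + 3) fun t _ => ?_).trans ?_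
        · exact hf a p hp (t : ℤ) M
        · rw [card_range, nsmul_eq_mul, mul_comm]

lemma Vs_le (g : ℕ → ℤ → ℝ) (hg : ∀ p : ℕ, p.Prime → ∀ n, 0 ≤ g p n ∧ g p n ≤ 1) (x : ℕ) : Vs g x ≤ ∑ p ∈ pri x, mean p (g p) := by
  unfold Vs
  apply sum_le_sum
  intro p hp
  apply mean_mono
  intro t _
  have h := hg p (mem_pri.1 hp).2 (t : ℤ)
  nlinarith [h.1, h.2]

/-- both parameters -/
theorem two_param (b : ℕ) (hb : 2 ≤ b) (η : ℝ) (hη : 0 < η) (δ : ℝ) (hδ : 0 < δ) (hδ1 : δ ≤ 1 / 2) : ∃ W : ℕ, 1 ≤ W ∧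
    ∀ κ : ℤ, κ ≠ 0 → ∃ X₀ : ℕ, ∀ X : ℕ, X₀ ≤ X → ∀ k : ℕ, 2 ≤ k → ∀ c : ℤ, ∀ g : ℕ → ℕ → ℤ → ℤ → ℝ, (∀ j, Sys2 (g j)) →
    (∀ a, Few (fun j p n => g j p a n)) →
    (∀ a : ℤ, Almost b k κ c η (2 * (X : ℝ) ^ (-(δ / 2))) (fun n => ∀ x : ℕ, X ≤ x → x ^ W ≤ b ^ k →
      (∀ j : ℕ, j ≤ x → |∑ p ∈ pri x, g j p a n - ∑ p ∈ pri x, Av (g j) p a| ≤ (x : ℝ) ^ (1 / 2 + δ)) ∧
      (∀ j : ℕ, (j : ℝ) ≤ (x : ℝ) ^ (δ / 2) → |∑ p ∈ pri x, g j p a n - ∑ p ∈ pri x, Av (g j) p a| ≤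
        √(max 1 (∑ p ∈ pri (2 * x), Av (g j) p a)) * (x : ℝ) ^ δ))) ∧
    Almost b k κ c η (2 * (X : ℝ) ^ (-(δ / 2))) (fun a => ∀ x : ℕ, X ≤ x → x ^ W ≤ b ^ k →
      (∀ j : ℕ, j ≤ x → |∑ p ∈ pri x, Av (g j) p a - ∑ p ∈ pri x, mean p (Av (g j) p)| ≤ (x : ℝ) ^ (1 / 2 + δ)) ∧
      (∀ j : ℕ, (j : ℝ) ≤ (x : ℝ) ^ (δ / 2) → |∑ p ∈ pri x, Av (g j) p a - ∑ p ∈ pri x, mean p (Av (g j) p)| ≤
        √(max 1 (∑ p ∈ pri (2 * x), mean p (Av (g j) p))) * (x : ℝ) ^ δ)) := by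
  obtain ⟨W, hW, H⟩ := fine_many b hb η hη δ hδ hδ1
  refine ⟨W, hW, fun κ hκ => ?_⟩
  obtain ⟨X₀, J⟩ := H κ hκ
  refine ⟨X₀, fun X hX k hk c g hg hfew => ⟨fun a => ?_, ?_⟩⟩
  · have h1 := J X hX k hk c (fun j p n => g j p a n) (fun j => sys2_fst (g j) (hg j) a) (hfew a)
    refine Almost.mono h1 ?_
    intro n hn x hXx hxW
    obtain ⟨h2, h3⟩ := hn x hXx hxW
    constructor
    · intro j hj
      rw [← sum_sub_distrib]
      exact h2 j hj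
    · intro j hj
      rw [← sum_sub_distrib]
      refine (h3 j hj).trans ?_
      apply mul_le_mul_of_nonneg_right _ (by positivity)
      apply Real.sqrt_le_sqrt
      apply max_le_max le_rfl
      exact Vs_le (fun p n => g j p a n) (fun p hp n => (hg j).2 p hp a n) (2 * x)
  · have h1 := J X hX k hk c (fun j => Av (g j)) (fun j => Av_sysb (g j) (hg j)) (Av_few g hfew)
    refine Almost.mono h1 ?_
    intro a hn x hXx hxW
    obtain ⟨h2, h3⟩ := hn x hXx hxW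
    constructor
    · intro j hj
      rw [← sum_sub_distrib]
      exact h2 j hj
    · intro j hj
      rw [← sum_sub_distrib]
      refine (h3 j hj).trans ?_
      apply mul_le_mul_of_nonneg_right _ (by positivity)
      apply Real.sqrt_le_sqrt
      apply max_le_max le_rfl
      exact Vs_le (Av (g j)) (fun p hp n => Av_mem (g j) (hg j) p hp n) (2 * x)

end Pool.Agent.R459.Eq
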