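import Pool.Agent.R459.Eq4

/-! Primitive roots: all `x` at once. -/

set_option autoImplicit false

namespace Pool.Agent.R459.Eq
open Finset Filter
open Pool.Agent.H730R2.AA
open Pool.Agent.H730R2.AA.Grid

lemma core (D n : ℤ) {ε ε₁ ρ : ℝ} (hε₁ : 0 < ε₁) (hε₁1 : ε₁ ≤ 1)
    (hε : (|dens D| + 3) * ε₁ ≤ ε) (hρ : 1 < ρ) (hρ2 : ρ ≤ 2) {X J0 : ℕ}
    (hpi : ∀ x y : ℕ, X ≤ x → x ≤ y → (y : ℝ) ≤ ρ ^ 2 * x →
      (Nat.primeCounting y : ℝ) ≤ (1 + ε₁) * Nat.primeCounting x)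
    (hmain : ∀ x : ℕ, X ≤ x → |mainT D x - dens D * Nat.primeCounting x| ≤
      ε₁ / 2 * Nat.primeCounting x)
    (hJ0 : X ≤ g ρ J0) (hJ1 : 1 ≤ (ρ ^ 2 - ρ) * g ρ J0) (x : ℕ) (hxX : g ρ J0 ≤ x)
    (hx : ε * (Nat.primeCounting x : ℝ) < |(cnt n x : ℝ) - dens D * (Nat.primeCounting x : ℝ)|) :
    ∃ j : ℕ, J0 ≤ j ∧ g ρ j ≤ 4 * x ∧
      ε₁ / 2 * (Nat.primeCounting (g ρ j) : ℝ) < |(cnt n (g ρ j) : ℝ) - mainT D (g ρ j)| := by
  classical
  have hρ0 : 0 < ρ := by linarith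
  have hg1 := g_one_le hρ J0
  have hx1 : (1 : ℝ) ≤ x := hg1.trans (by exact_mod_cast hxX)
  obtain ⟨j, hj1, hj2⟩ := exists_nat_pow_near hx1 hρ
  have hJj : J0 ≤ j := by
    have h1 : ρ ^ J0 < ρ ^ (j + 1) := (g_ge J0).trans_lt (lt_of_le_of_lt (by exact_mod_cast hxX) hj2)
    have := (pow_lt_pow_iff_right₀ hρ).1 h1
    omega
  have hgx : g ρ j ≤ x := Nat.ceil_le.2 hj1
  have hxg : x ≤ g ρ (j + 1) := by
    have : (x : ℝ) ≤ g ρ (j + 1) := hj2.le.trans (g_ge _)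
    exact_mod_cast this
  have hgg : g ρ J0 ≤ g ρ j := g_mono hρ hJj
  have hρρ : 0 < ρ ^ 2 - ρ := by nlinarith
  have hstep : (g ρ (j + 1) : ℝ) ≤ ρ ^ 2 * g ρ j := by
    refine g_step (hJ1.trans ?_) hρ
    have : (g ρ J0 : ℝ) ≤ g ρ j := by exact_mod_cast hgg
    gcongr
  have hgx' : (g ρ j : ℝ) ≤ x := by exact_mod_cast hgx
  have hgY1 : (g ρ (j + 1) : ℝ) ≤ 4 * x := by
    refine hstep.trans ?_
    have h4 : ρ ^ 2 ≤ 4 := by nlinarith
    exact mul_le_mul h4 hgx' (Nat.cast_nonneg _) (by norm_num)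
  by_contra hcon
  push Not at hcon
  have hn0' := hcon j hJj (by omega)
  have hn1' := hcon (j + 1) (by omega) (by exact_mod_cast hgY1)
  have hmj := hmain (g ρ j) (hJ0.trans hgg)
  have hmj1 := hmain (g ρ (j + 1)) (hJ0.trans (g_mono hρ (by omega)))
  have ha0 : |(cnt n (g ρ j) : ℝ) - dens D * Nat.primeCounting (g ρ j)| ≤
      ε₁ * Nat.primeCounting (g ρ j) := by
    have := abs_sub_le (cnt n (g ρ j) : ℝ) (mainT D (g ρ j))
      (dens D * Nat.primeCounting (g ρ j))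
    linarith
  have ha1 : |(cnt n (g ρ (j + 1)) : ℝ) -
      dens D * Nat.primeCounting (g ρ (j + 1))| ≤ ε₁ * Nat.primeCounting (g ρ (j + 1)) := by
    have := abs_sub_le (cnt n (g ρ (j + 1)) : ℝ) (mainT D (g ρ (j + 1)))
      (dens D * Nat.primeCounting (g ρ (j + 1)))
    linarith
  have hpij : (Nat.primeCounting (g ρ (j + 1)) : ℝ) ≤ (1 + ε₁) * Nat.primeCounting (g ρ j) :=
    hpi _ _ (hJ0.trans hgg) (hgx.trans hxg) hstep
  have hfin := interp (δ := dens D) (e := ε₁) (P0 := (Nat.primeCounting (g ρ j) : ℝ))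
    (P := (Nat.primeCounting x : ℝ)) (P1 := (Nat.primeCounting (g ρ (j + 1)) : ℝ))
    (A0 := (cnt n (g ρ j) : ℝ)) (A := (cnt n x : ℝ))
    (A1 := (cnt n (g ρ (j + 1)) : ℝ)) hε₁ hε₁1 (Nat.cast_nonneg _)
    (by exact_mod_cast Nat.monotone_primeCounting hgx)
    (by exact_mod_cast Nat.monotone_primeCounting hxg) hpij
    (by exact_mod_cast cnt_mono _ hgx) (by exact_mod_cast cnt_mono _ hxg) ha0 ha1
  have hlast : (|dens D| + 3) * ε₁ * (Nat.primeCounting x : ℝ) ≤ ε * (Nat.primeCounting x : ℝ) := by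
    gcongr
  linarith

/-- the sum over the points of the grid -/
lemma grid_sum (ρ : ℝ) (hρ : 1 < ρ) (hρ2 : ρ ≤ 2) : ∃ S : ℝ, 0 < S ∧ ∀ (J0 : ℕ) (I : Finset ℕ), (∀ j ∈ I, J0 ≤ j) →
    ∑ j ∈ I, Real.log (g ρ j) / (g ρ j) ≤ S * ((1 + J0) * (1 / ρ) ^ J0) := by
  have hρ0 : 0 < ρ := by linarith
  have hr0 : 0 < 1 / ρ := by positivity
  have hr1 : 1 / ρ < 1 := by rw [div_lt_one hρ0]; exact hρ
  have hsum : Summable (fun i : ℕ => (1 + (i : ℝ)) * (1 / ρ) ^ i) := by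
    have h1 := summable_pow_mul_geometric_of_norm_lt_one 1 (r := 1 / ρ) (by rw [Real.norm_of_nonneg hr0.le]; exact hr1)
    have h2 := summable_geometric_of_lt_one hr0.le hr1
    refine (h2.add h1).congr fun i => ?_
    rw [pow_one]
    ring
  refine ⟨∑' i : ℕ, (1 + (i : ℝ)) * (1 / ρ) ^ i, ?_, fun J0 I hI => ?_⟩
  · refine lt_of_lt_of_le ?_ (hsum.sum_le_tsum {0} fun i _ => by positivity)
    simp
  · have hterm : ∀ j ∈ I, Real.log (g ρ j) / (g ρ j) ≤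
        ((1 + J0) * (1 / ρ) ^ J0) * ((1 + ((j - J0 : ℕ) : ℝ)) * (1 / ρ) ^ (j - J0)) := by
      intro j hj
      have hJ := hI j hj
      have hpow : 1 ≤ ρ ^ j := one_le_pow₀ hρ.le
      have h1 := g_ge (ρ := ρ) j
      have h2 : (g ρ j : ℝ) ≤ 2 * ρ ^ j := by
        have : (g ρ j : ℝ) < ρ ^ j + 1 := Nat.ceil_lt_add_one (by positivity)
        linarith
      have hg0 : (0 : ℝ) < g ρ j := by linarith
      have h3 : Real.log (g ρ j) ≤ 1 + j := by
        have h4 : Real.log (g ρ j) ≤ Real.log (2 * ρ ^ j) := Real.log_le_log hg0 h2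
        rw [Real.log_mul (by norm_num) (by positivity), Real.log_pow] at h4
        have h5 : Real.log 2 ≤ 1 := by linarith [Real.log_two_lt_d9]
        have h6 : Real.log ρ ≤ 1 := by
          have := Real.log_le_sub_one_of_pos hρ0
          linarith
        have h7 : (j : ℝ) * Real.log ρ ≤ j * 1 := mul_le_mul_of_nonneg_left h6 (Nat.cast_nonneg _)
        linarith
      have e1 : (1 / ρ) ^ J0 * (1 / ρ) ^ (j - J0) = 1 / ρ ^ j := by
        rw [← pow_add, Nat.add_sub_cancel' hJ, div_pow, one_pow]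
      calc Real.log (g ρ j) / (g ρ j) ≤ (1 + j) / ρ ^ j := div_le_div₀ (by positivity) h3 (by positivity) h1
        _ = (1 + j) * (1 / ρ ^ j) := by ring
        _ ≤ ((1 + J0) * (1 + ((j - J0 : ℕ) : ℝ))) * (1 / ρ ^ j) := by
            apply mul_le_mul_of_nonneg_right _ (by positivity)
            rw [Nat.cast_sub hJ]
            have h8 : (J0 : ℝ) ≤ j := by exact_mod_cast hJ
            have h9 : (0 : ℝ) ≤ J0 := Nat.cast_nonneg _
            nlinarith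
        _ = _ := by rw [← e1]; ring
    refine (sum_le_sum hterm).trans ?_
    rw [← mul_sum, mul_comm]
    apply mul_le_mul_of_nonneg_right _ (by positivity)
    have hinj : Set.InjOn (fun j => j - J0) (I : Set ℕ) := by
      intro a ha b hb hab
      have h1 := hI a ha
      have h2 := hI b hb
      simp only at hab
      omega
    rw [← sum_image (f := fun i : ℕ => (1 + (i : ℝ)) * (1 / ρ) ^ i) hinj]
    exact hsum.sum_le_tsum _ fun i _ => by positivity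

theorem artin_all (b : ℕ) (hb : 2 ≤ b) (A : ℕ) (γ : ℝ) (hγ0 : 0 < γ) (hγ1 : γ < 1) : ∃ W : ℕ, 1 ≤ W ∧
    ∀ (F : ℕ) (κ : ℤ), 1 ≤ F → κ ≠ 0 → ∀ D : ℤ, Squarefree D → D % 4 = 1 → D ≠ 1 → ∀ ε : ℝ, 0 < ε →
    ∃ (C : ℝ) (X₀ : ℕ), 0 < C ∧ 2 ≤ X₀ ∧ ∀ (k X : ℕ), X₀ ≤ X →
    ∀ (ι : Type) (Ω : Finset ι) (w : ι → ℝ) (v : ι → ℤ), Decays b F A k γ κ Ω w v → ∀ E : Finset ι, E ⊆ Ω →
      (∀ i ∈ E, ∃ x : ℕ, X ≤ x ∧ x ^ W ≤ b ^ k ∧ ε * (Nat.primeCounting x : ℝ) <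
        |(cnt (D * v i ^ 2) x : ℝ) - dens D * (Nat.primeCounting x : ℝ)|) →
      ∑ i ∈ E, w i ≤ C * (Real.log X / X) := by
  classical
  obtain ⟨W, hW, h⟩ := artin_one b hb A γ hγ0 hγ1
  refine ⟨2 * W, by omega, fun F κ hF hκ D hD hD1 hD2 ε hε => ?_⟩
  have hD0 : D ≠ 0 := by rintro rfl; norm_num at hD1
  have hd := abs_nonneg (dens D)
  obtain ⟨ε₁, hε₁def⟩ : ∃ ε₁ : ℝ, ε₁ = min 1 (ε / (|dens D| + 3)) := ⟨_, rfl⟩
  have hε₁ : 0 < ε₁ := by rw [hε₁def]; exact lt_min one_pos (by positivity)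
  have hε₁1 : ε₁ ≤ 1 := by rw [hε₁def]; exact min_le_left _ _
  have hεε : (|dens D| + 3) * ε₁ ≤ ε := by
    have : ε₁ ≤ ε / (|dens D| + 3) := by rw [hε₁def]; exact min_le_right _ _
    rw [le_div_iff₀ (by positivity)] at this
    linarith
  obtain ⟨C, X1, hC, hX1, h1⟩ := h F κ hF hκ D hD0 (ε₁ / 2) (by positivity)
  obtain ⟨ρ, hρ, hρ2, X2, hX2, hpi⟩ := pi_ratio ε₁ hε₁
  have hml := main_lim D hD hD1 hD2
  rw [Metric.tendsto_atTop] at hml
  obtain ⟨X3, hX3⟩ := hml (ε₁ / 2) (by positivity)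
  have hρ0 : 0 < ρ := by linarith
  have hρρ : 0 < ρ ^ 2 - ρ := by nlinarith
  have hlρ : 0 < Real.log ρ := Real.log_pos hρ
  obtain ⟨X, hX⟩ : ∃ X, X = max (max X1 X2) X3 := ⟨_, rfl⟩
  have hXX1 : X1 ≤ X := by rw [hX]; exact (le_max_left _ _).trans (le_max_left _ _)
  have hXX2 : X2 ≤ X := by rw [hX]; exact (le_max_right _ _).trans (le_max_left _ _)
  have hXX3 : X3 ≤ X := by rw [hX]; exact le_max_right _ _
  obtain ⟨S, hS, hgrid⟩ := grid_sum ρ hρ hρ2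
  obtain ⟨Q, hQ⟩ := exists_nat_ge (1 / (ρ ^ 2 - ρ))
  have hmain : ∀ x : ℕ, X ≤ x → |mainT D x - dens D * Nat.primeCounting x| ≤
      ε₁ / 2 * Nat.primeCounting x := by
    intro x hx
    have hx4 : 4 ≤ x := by omega
    have hpos := (pi_lower' x hx4).1
    have h2 := hX3 x (hXX3.trans hx)
    rw [Real.dist_eq] at h2
    have h3 : mainT D x - dens D * Nat.primeCounting x =
        (mainT D x / Nat.primeCounting x - dens D) * Nat.primeCounting x := by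
      field_simp
    rw [h3, abs_mul, abs_of_pos hpos]
    gcongr
  refine ⟨C * (S * ((1 / Real.log ρ + 1) * 2)), 2 * (X + Q) + 4, by positivity, by omega, ?_⟩
  intro k Y hY ι Ω w v hdec E hE hbad
  have hY4 : 4 ≤ Y := by omega
  have hY1 : (1 : ℝ) ≤ Y := by exact_mod_cast (by omega : 1 ≤ Y)
  have hY0 : (0 : ℝ) < Y := by linarith
  obtain ⟨J0, hJ1, hJ2⟩ := exists_nat_pow_near hY1 hρ
  have hlogY : 1 ≤ Real.log Y := by
    rw [Real.le_log_iff_exp_le hY0]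
    have : (4 : ℝ) ≤ Y := by exact_mod_cast hY4
    linarith [Real.exp_one_lt_d9]
  have hhalf : (Y : ℝ) / 2 ≤ ρ ^ J0 := by
    rw [pow_succ] at hJ2
    have h2 : ρ ^ J0 * ρ ≤ ρ ^ J0 * 2 := mul_le_mul_of_nonneg_left hρ2 (by positivity)
    linarith
  have hYr : 2 * ((X : ℝ) + Q) + 4 ≤ Y := by exact_mod_cast hY
  have hXQ : (X : ℝ) + Q ≤ g ρ J0 := by
    have := g_ge (ρ := ρ) J0
    linarith
  have hgJ0X : X ≤ g ρ J0 := by
    have h2 : (X : ℝ) ≤ g ρ J0 := by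
      have : (0 : ℝ) ≤ Q := Nat.cast_nonneg _
      linarith
    exact_mod_cast h2
  have hgJ01 : 1 ≤ (ρ ^ 2 - ρ) * g ρ J0 := by
    have h2 : 1 / (ρ ^ 2 - ρ) ≤ g ρ J0 := by
      have : (0 : ℝ) ≤ X := Nat.cast_nonneg _
      linarith
    rw [div_le_iff₀ hρρ] at h2
    linarith
  have hgY : g ρ J0 ≤ Y := Nat.ceil_le.2 hJ1
  obtain ⟨L, hL⟩ := pow_unbounded_of_one_lt ((b : ℝ) ^ k) hρ
  obtain ⟨I, hI⟩ : ∃ I : Finset ℕ, I = (range L).filter (fun j => J0 ≤ j ∧ (g ρ j) ^ W ≤ b ^ k) := ⟨_, rfl⟩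
  obtain ⟨EE, hEE⟩ : ∃ EE : ℕ → Finset ι, EE = fun j => E.filter (fun i =>
    ε₁ / 2 * (Nat.primeCounting (g ρ j) : ℝ) < |(cnt (D * v i ^ 2) (g ρ j) : ℝ) - mainT D (g ρ j)|) := ⟨_, rfl⟩
  have hcover : E ⊆ I.biUnion EE := by
    intro i hi
    obtain ⟨x, hx1, hx2, hx3⟩ := hbad i hi
    obtain ⟨j, hj1, hj2, hj3⟩ := core D (D * v i ^ 2) hε₁ hε₁1 hεε hρ hρ2 (fun x y hx => hpi x y (hXX2.trans hx)) hmain
      hgJ0X hgJ01 x (hgY.trans hx1) hx3
    rw [mem_biUnion]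
    have hgW : (g ρ j) ^ W ≤ b ^ k := by
      calc (g ρ j) ^ W ≤ (x * x) ^ W := by
            apply Nat.pow_le_pow_left
            exact hj2.trans (Nat.mul_le_mul_right _ (by omega))
        _ = x ^ (2 * W) := by rw [← sq, ← pow_mul]
        _ ≤ b ^ k := hx2
    refine ⟨j, ?_, ?_⟩
    · rw [hI, mem_filter, mem_range]
      refine ⟨?_, hj1, hgW⟩
      by_contra hcon
      push Not at hcon
      have h2 : ρ ^ L ≤ ρ ^ j := pow_le_pow_right₀ hρ.le hcon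
      have h3 := g_ge (ρ := ρ) j
      have h4 : g ρ j ≤ (g ρ j) ^ W := Nat.le_self_pow (by omega) _
      have h5 : (g ρ j : ℝ) ≤ (b : ℝ) ^ k := by exact_mod_cast h4.trans hgW
      linarith
    · rw [hEE, mem_filter]
      exact ⟨hi, hj3⟩
  have hw0 : ∀ i ∈ E, 0 ≤ w i := fun i hi => hdec.nonneg i (hE hi)
  have h2 : ∑ i ∈ E, w i ≤ ∑ j ∈ I, ∑ i ∈ EE j, w i := by
    calc ∑ i ∈ E, w i ≤ ∑ i ∈ I.biUnion EE, w i := by
          apply sum_le_sum_of_subset_of_nonneg hcover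
          intro i hi _
          rw [mem_biUnion] at hi
          obtain ⟨j, _, hj⟩ := hi
          rw [hEE, mem_filter] at hj
          exact hw0 i hj.1
      _ ≤ _ := by
          have h3 : ∀ (s : Finset ℕ), ∑ i ∈ s.biUnion EE, w i ≤ ∑ j ∈ s, ∑ i ∈ EE j, w i := by
            intro s
            induction s using Finset.induction_on with
            | empty => simp
            | insert a s ha ih =>
              rw [biUnion_insert, sum_insert ha]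
              have h4 := sum_union_inter (s₁ := EE a) (s₂ := s.biUnion EE) (f := w)
              have h5 : 0 ≤ ∑ i ∈ EE a ∩ s.biUnion EE, w i := by
                apply sum_nonneg
                intro i hi
                rw [mem_inter] at hi
                have := hi.1
                rw [hEE, mem_filter] at this
                exact hw0 i this.1
              linarith
          exact h3 I
  have h3 : ∀ j ∈ I, ∑ i ∈ EE j, w i ≤ C * (Real.log (g ρ j) / (g ρ j)) := by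
    intro j hj
    rw [hI, mem_filter] at hj
    have hgj : X1 ≤ g ρ j := hXX1.trans (hgJ0X.trans (g_mono hρ hj.2.1))
    apply h1 k (g ρ j) hgj hj.2.2 ι Ω w v hdec (EE j)
    · rw [hEE]
      exact (filter_subset _ _).trans hE
    · intro i hi
      rw [hEE, mem_filter] at hi
      exact hi.2
  refine h2.trans ((sum_le_sum h3).trans ?_)
  rw [← mul_sum, mul_assoc]
  apply mul_le_mul_of_nonneg_left _ hC.le
  refine (hgrid J0 I (fun j hj => by rw [hI, mem_filter] at hj; exact hj.2.1)).trans ?_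
  rw [mul_assoc]
  apply mul_le_mul_of_nonneg_left _ hS.le
  have h4 : (1 / ρ) ^ J0 ≤ 2 / Y := by
    rw [div_pow, one_pow, div_le_div_iff₀ (by positivity) hY0]
    linarith
  have h5 : (1 : ℝ) + J0 ≤ (1 / Real.log ρ + 1) * Real.log Y := by
    have h6 : (J0 : ℝ) * Real.log ρ ≤ Real.log Y := by
      rw [← Real.log_pow]
      exact Real.log_le_log (by positivity) hJ1
    have h7 : (J0 : ℝ) ≤ Real.log Y / Real.log ρ := by
      rw [le_div_iff₀ hlρ]
      exact h6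
    have h8 : (1 / Real.log ρ + 1) * Real.log Y = Real.log Y / Real.log ρ + Real.log Y := by ring
    rw [h8]
    linarith
  calc (1 + (J0 : ℝ)) * (1 / ρ) ^ J0 ≤ ((1 / Real.log ρ + 1) * Real.log Y) * (2 / Y) :=
        mul_le_mul h5 h4 (by positivity) (by positivity)
    _ = _ := by ring

end Pool.Agent.R459.Eq
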