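import Pool.Agent.R459.Eq5
import Pool.Agent.H771R4.SE.Datum

/-! General counting problems modulo primes: digit families. -/

set_option autoImplicit false

namespace Pool.Agent.R459.EqD
open Finset Filter
open Pool.Agent.R459.Eq hiding PP
open Pool.Agent.H771R4.SE (Dat)
open Pool.Agent.H386R2.Artin (PP Good hL)
open Pool.Agent.H730R2.AA.Grid

/-- the indicator function of the condition at `p` -/
noncomputable def indD (d : Dat) (p : ℕ) (n : ℤ) : ℝ := by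
  classical
  exact if d.Q p (n : ZMod p) then 1 else 0

/-- the number of the primes `p ≤ x` with the condition -/
noncomputable def cntZ (d : Dat) (n : ℤ) (x : ℕ) : ℕ := by
  classical
  exact ((PP x).filter (fun p => d.Q p (n : ZMod p))).card

lemma mem_PPx (x p : ℕ) : p ∈ PP x ↔ p ≤ x ∧ p.Prime := by
  unfold PP
  rw [mem_filter, mem_range, Nat.lt_succ_iff]

lemma indD_mem (d : Dat) (p : ℕ) (n : ℤ) : 0 ≤ indD d p n ∧ indD d p n ≤ 1 := by
  unfold indD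
  split_ifs <;> norm_num

lemma indD_per (d : Dat) (p : ℕ) : Per p (indD d p) := by
  intro m n h
  unfold indD
  have h1 : (n : ZMod p) = (m : ZMod p) := (ZMod.intCast_eq_intCast_iff_dvd_sub n m p).2 h
  rw [h1]

lemma mean_indD (d : Dat) (p : ℕ) (hpp : p.Prime) (hp : d.p0 ≤ p) : |mean p (indD d p) - d.G p| ≤ 4 * (1 / (p : ℝ)) := by
  classical
  have : Fact p.Prime := ⟨hpp⟩
  have hp0 : (0 : ℝ) < p := by exact_mod_cast hpp.pos
  have h1 := d.loc p hpp hp (Ico 1 p) 0 p hpp.two_le (by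
    intro q hq h0
    rw [mem_Ico] at hq
    rw [ZMod.natCast_eq_zero_iff] at h0
    have := Nat.le_of_dvd (by omega) h0
    omega) le_rfl (by
    intro χ hχ
    have h2 := sum_char p χ hχ
    rw [range_eq_Ico, sum_eq_sum_Ico_succ_bot hpp.pos] at h2
    have h3 : χ ((0 : ℕ) : ZMod p) = 0 := by
      rw [Nat.cast_zero]
      exact MulChar.map_nonunit χ (by simp)
    rw [h3, zero_add, zero_add] at h2
    rw [h2, norm_zero])
  have h2 : hL p (p - 1) = 0 := by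
    unfold hL
    rw [filter_eq_empty_iff.2, sum_empty]
    intro l hl
    have := Nat.le_of_mem_primeFactors hl
    omega
  rw [h2, Nat.card_Ico] at h1
  simp only [mul_zero, add_zero] at h1
  obtain ⟨T, hT⟩ : ∃ T : ℕ, T = ((Ico 1 p).filter (fun q : ℕ => d.Q p ((q : ℕ) : ZMod p))).card := ⟨_, rfl⟩
  have h1' : |(T : ℝ) - ((p - 1 : ℕ) : ℝ) * d.G p| ≤ 1 := by
    rw [hT]
    refine le_trans (le_of_eq ?_) h1
    congr!
  have h3 : ∑ t ∈ range p, indD d p t = indD d p ((0 : ℕ) : ℤ) + T := by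
    rw [range_eq_Ico, sum_eq_sum_Ico_succ_bot hpp.pos, hT]
    congr 1
    unfold indD
    rw [← sum_filter, sum_const, nsmul_eq_mul, mul_one]
    simp only [Int.cast_natCast, zero_add]
  have h4 := indD_mem d p ((0 : ℕ) : ℤ)
  have h5 := d.G0 p
  have h6 := d.G1 p
  rw [Nat.cast_sub hpp.one_le, Nat.cast_one, abs_le] at h1'
  have e1 : mean p (indD d p) - d.G p = ((∑ t ∈ range p, indD d p t) - p * d.G p) / p := by
    unfold mean
    field_simp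
  rw [e1, abs_div, abs_of_pos hp0, mul_one_div, div_le_div_iff_of_pos_right hp0, h3, abs_le]
  constructor <;> nlinarith [h1'.1, h1'.2, h4.1, h4.2]

/-- the good primes -/
noncomputable def PD (b : ℕ) (d : Dat) (x : ℕ) : Finset ℕ := (PP x).filter (fun p => d.p0 ≤ p ∧ ¬ p ∣ b)

lemma mem_PD (b : ℕ) (d : Dat) (x p : ℕ) : p ∈ PD b d x ↔ p ≤ x ∧ p.Prime ∧ d.p0 ≤ p ∧ ¬ p ∣ b := by
  unfold PD
  rw [mem_filter, mem_PPx]
  tauto

lemma rest_card (b : ℕ) (hb : 2 ≤ b) (d : Dat) (x : ℕ) :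
    (((PP x).filter (fun p => ¬ (d.p0 ≤ p ∧ ¬ p ∣ b))).card : ℝ) ≤ ((d.p0 + b + 1 : ℕ) : ℝ) := by
  have h : (PP x).filter (fun p => ¬ (d.p0 ≤ p ∧ ¬ p ∣ b)) ⊆ range (d.p0 + b + 1) := by
    intro p hp
    rw [mem_filter] at hp
    rw [mem_range]
    by_contra hcon
    apply hp.2
    refine ⟨by omega, fun h => ?_⟩
    have := Nat.le_of_dvd (by omega) h
    omega
  have h2 := card_le_card h
  rw [card_range] at h2
  exact_mod_cast h2

lemma cnt_diffD (b : ℕ) (hb : 2 ≤ b) (d : Dat) (n : ℤ) (x : ℕ) :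
    |(cntZ d n x : ℝ) - ∑ p ∈ PD b d x, indD d p n| ≤ ((d.p0 + b + 1 : ℕ) : ℝ) := by
  classical
  have h1 : (cntZ d n x : ℝ) = ∑ p ∈ PP x, indD d p n := by
    unfold cntZ indD
    rw [← sum_filter, sum_const, nsmul_eq_mul, mul_one]
  have h2 : ∑ p ∈ PP x, indD d p n = ∑ p ∈ PD b d x, indD d p n +
      ∑ p ∈ (PP x).filter (fun p => ¬ (d.p0 ≤ p ∧ ¬ p ∣ b)), indD d p n := by
    unfold PD
    rw [sum_filter_add_sum_filter_not]
  rw [h1, h2, add_sub_cancel_left, abs_of_nonneg (sum_nonneg fun p _ => (indD_mem d p n).1)]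
  refine (sum_le_card_nsmul _ _ 1 fun p _ => (indD_mem d p n).2).trans ?_
  rw [nsmul_eq_mul, mul_one]
  exact rest_card b hb d x

lemma main_diffD (b : ℕ) (hb : 2 ≤ b) (d : Dat) (x : ℕ) (hx : 1 ≤ x) :
    |∑ p ∈ PD b d x, mean p (indD d p) - ∑ p ∈ PP x, d.G p| ≤ 2 * ((d.p0 + b + 1 : ℕ) : ℝ) + 4 * (1 + Real.log x) := by
  classical
  have h2 : ∑ p ∈ PP x, d.G p = ∑ p ∈ PD b d x, d.G p +
      ∑ p ∈ (PP x).filter (fun p => ¬ (d.p0 ≤ p ∧ ¬ p ∣ b)), d.G p := by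
    unfold PD
    rw [sum_filter_add_sum_filter_not]
  have h3 : |∑ p ∈ (PP x).filter (fun p => ¬ (d.p0 ≤ p ∧ ¬ p ∣ b)), d.G p| ≤ 2 * ((d.p0 + b + 1 : ℕ) : ℝ) := by
    rw [abs_of_nonneg (sum_nonneg fun p _ => d.G0 p)]
    refine (sum_le_card_nsmul _ _ 2 fun p _ => d.G1 p).trans ?_
    rw [nsmul_eq_mul, mul_comm]
    exact mul_le_mul_of_nonneg_left (rest_card b hb d x) (by norm_num)
  have h4 : |∑ p ∈ PD b d x, (mean p (indD d p) - d.G p)| ≤ 4 * (1 + Real.log x) := by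
    refine (abs_sum_le_sum_abs _ _).trans ?_
    calc ∑ p ∈ PD b d x, |mean p (indD d p) - d.G p| ≤ ∑ p ∈ PD b d x, 4 * (1 / (p : ℝ)) := by
          apply sum_le_sum
          intro p hp
          rw [mem_PD] at hp
          exact mean_indD d p hp.2.1 hp.2.2.1
      _ ≤ ∑ p ∈ Icc 1 x, 4 * (1 / (p : ℝ)) := by
          apply sum_le_sum_of_subset_of_nonneg
          · intro p hp
            rw [mem_PD] at hp
            rw [mem_Icc]
            exact ⟨hp.2.1.one_le, hp.1⟩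
          · intro p _ _
            positivity
      _ = 4 * ∑ p ∈ Icc 1 x, (1 / (p : ℝ)) := by rw [mul_sum]
      _ ≤ 4 * (1 + Real.log x) := by
          apply mul_le_mul_of_nonneg_left _ (by norm_num)
          have h7 := harmonic_le_one_add_log x
          rw [harmonic_eq_sum_Icc] at h7
          push_cast at h7
          simpa [one_div] using h7
  have e1 : ∑ p ∈ PD b d x, mean p (indD d p) - ∑ p ∈ PP x, d.G p =
      ∑ p ∈ PD b d x, (mean p (indD d p) - d.G p) - ∑ p ∈ (PP x).filter (fun p => ¬ (d.p0 ≤ p ∧ ¬ p ∣ b)), d.G p := by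
    rw [h2, sum_sub_distrib]
    ring
  rw [e1]
  refine (abs_sub _ _).trans ?_
  linarith

/-- one `x` -/
theorem dat_one (b : ℕ) (hb : 2 ≤ b) (A : ℕ) (γ : ℝ) (hγ0 : 0 < γ) (hγ1 : γ < 1) : ∃ W : ℕ, 1 ≤ W ∧
    ∀ (F : ℕ) (κ : ℤ), 1 ≤ F → κ ≠ 0 → ∀ d : Dat, ∀ ε : ℝ, 0 < ε →
    ∃ (C : ℝ) (X₀ : ℕ), 0 < C ∧ 4 ≤ X₀ ∧ ∀ (k x : ℕ), X₀ ≤ x → x ^ W ≤ b ^ k →
    ∀ (ι : Type) (Ω : Finset ι) (w : ι → ℝ) (v : ι → ℤ), Decays b F A k γ κ Ω w v → ∀ E : Finset ι, E ⊆ Ω →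
      (∀ i ∈ E, ε * (Nat.primeCounting x : ℝ) < |(cntZ d (v i) x : ℝ) - ∑ p ∈ PP x, d.G p|) →
      ∑ i ∈ E, w i ≤ C * (Real.log x / x) := by
  classical
  obtain ⟨W, hW, h⟩ := ms b hb A γ hγ0 hγ1
  refine ⟨W, hW, fun F κ hF hκ d ε hε => ?_⟩
  obtain ⟨C, hC, h1⟩ := h F κ hF hκ
  obtain ⟨X, hX4, hX⟩ := small_ev (3 * ((d.p0 + b + 1 : ℕ) : ℝ)) (ε / 4) (by positivity)
  refine ⟨16 * (1 + 8 * C) / ε ^ 2, X + b, by positivity, by omega, fun k x hx hxW ι Ω w v hdec E hE hbig => ?_⟩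
  have hx4 : 4 ≤ x := by omega
  have hxb : b ≤ x := by omega
  obtain ⟨hpi, hsq, hinv⟩ := pi_lower' x hx4
  have h2 := h1 k x hxb hxW ι Ω w v hdec (PD b d x) (by
    intro p hp
    rw [mem_PD] at hp
    exact ⟨hp.2.1, hp.1, hp.2.2.2⟩) (indD d) (fun p n => indD_mem d p n) (fun p _ => indD_per d p)
  have hlog : 0 ≤ Real.log x := Real.log_nonneg (by exact_mod_cast (by omega : 1 ≤ x))
  have hS : ∀ i ∈ E, (ε / 2 * (Nat.primeCounting x : ℝ)) ^ 2 ≤ (∑ p ∈ PD b d x, (indD d p (v i) - mean p (indD d p))) ^ 2 := by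
    intro i hi
    rw [← sq_abs (∑ p ∈ PD b d x, (indD d p (v i) - mean p (indD d p)))]
    apply pow_le_pow_left₀ (by positivity)
    have h3 := hbig i hi
    have h4 := cnt_diffD b hb d (v i) x
    have h5 := main_diffD b hb d x (by omega)
    have h6 := hX x (by omega)
    rw [sum_sub_distrib]
    have h7 : |(cntZ d (v i) x : ℝ) - ∑ p ∈ PP x, d.G p| ≤ |(cntZ d (v i) x : ℝ) - ∑ p ∈ PD b d x, indD d p (v i)| +
        |∑ p ∈ PD b d x, indD d p (v i) - ∑ p ∈ PD b d x, mean p (indD d p)| +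
        |∑ p ∈ PD b d x, mean p (indD d p) - ∑ p ∈ PP x, d.G p| := by
      have e : (cntZ d (v i) x : ℝ) - ∑ p ∈ PP x, d.G p = ((cntZ d (v i) x : ℝ) - ∑ p ∈ PD b d x, indD d p (v i)) +
        (∑ p ∈ PD b d x, indD d p (v i) - ∑ p ∈ PD b d x, mean p (indD d p)) +
        (∑ p ∈ PD b d x, mean p (indD d p) - ∑ p ∈ PP x, d.G p) := by ring
      rw [e]
      exact (abs_add_le _ _).trans (add_le_add (abs_add_le _ _) le_rfl)
    have h8 : (0 : ℝ) ≤ ((d.p0 + b + 1 : ℕ) : ℝ) := Nat.cast_nonneg _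
    linarith
  have hcheb : (∑ i ∈ E, w i) * (ε / 2 * (Nat.primeCounting x : ℝ)) ^ 2 ≤ (PD b d x).card + C * √x := by
    refine le_trans ?_ h2
    rw [sum_mul]
    refine (sum_le_sum fun i hi => mul_le_mul_of_nonneg_left (hS i hi) (hdec.nonneg i (hE hi))).trans ?_
    apply sum_le_sum_of_subset_of_nonneg hE
    intro i hi _
    exact mul_nonneg (hdec.nonneg i hi) (sq_nonneg _)
  have hcard : ((PD b d x).card : ℝ) ≤ Nat.primeCounting x := by
    have h3 : (PD b d x).card ≤ Nat.primeCounting x := by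
      rw [Nat.primeCounting, Nat.primeCounting', Nat.count_eq_card_filter_range]
      apply card_le_card
      intro p hp
      rw [mem_PD] at hp
      rw [mem_filter, mem_range]
      exact ⟨by omega, hp.2.1⟩
    exact_mod_cast h3
  have h3 : (∑ i ∈ E, w i) * (ε / 2 * (Nat.primeCounting x : ℝ)) ^ 2 ≤ (1 + 8 * C) * Nat.primeCounting x := by
    refine hcheb.trans ?_
    have := mul_le_mul_of_nonneg_left hsq hC.le
    linarith
  have h4 : (∑ i ∈ E, w i) ≤ 4 * (1 + 8 * C) / ε ^ 2 * (1 / (Nat.primeCounting x : ℝ)) := by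
    have e1 : 4 * (1 + 8 * C) / ε ^ 2 * (1 / (Nat.primeCounting x : ℝ)) =
        ((1 + 8 * C) * Nat.primeCounting x) / (ε / 2 * (Nat.primeCounting x : ℝ)) ^ 2 := by
      field_simp
      ring
    rw [e1, le_div_iff₀ (by positivity)]
    exact h3
  refine h4.trans ?_
  calc 4 * (1 + 8 * C) / ε ^ 2 * (1 / (Nat.primeCounting x : ℝ)) ≤ 4 * (1 + 8 * C) / ε ^ 2 * (4 * Real.log x / x) :=
        mul_le_mul_of_nonneg_left hinv (by positivity)
    _ = _ := by ring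

lemma core' (cf : ℕ → ℕ) (hcf : Monotone cf) (mf : ℕ → ℝ) (A : ℝ) {ε ε₁ ρ : ℝ} (hε₁ : 0 < ε₁) (hε₁1 : ε₁ ≤ 1)
    (hε : (|A| + 3) * ε₁ ≤ ε) (hρ : 1 < ρ) (hρ2 : ρ ≤ 2) {X J0 : ℕ}
    (hpi : ∀ x y : ℕ, X ≤ x → x ≤ y → (y : ℝ) ≤ ρ ^ 2 * x →
      (Nat.primeCounting y : ℝ) ≤ (1 + ε₁) * Nat.primeCounting x)
    (hmain : ∀ x : ℕ, X ≤ x → |mf x - A * Nat.primeCounting x| ≤ ε₁ / 2 * Nat.primeCounting x)
    (hJ0 : X ≤ g ρ J0) (hJ1 : 1 ≤ (ρ ^ 2 - ρ) * g ρ J0) (x : ℕ) (hxX : g ρ J0 ≤ x)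
    (hx : ε * (Nat.primeCounting x : ℝ) < |(cf x : ℝ) - A * (Nat.primeCounting x : ℝ)|) :
    ∃ j : ℕ, J0 ≤ j ∧ g ρ j ≤ 4 * x ∧
      ε₁ / 2 * (Nat.primeCounting (g ρ j) : ℝ) < |(cf (g ρ j) : ℝ) - mf (g ρ j)| := by
  classical
  have hρ0 : 0 < ρ := by linarith
  have hg1 := g_one_le hρ J0
  have hx1 : (1 : ℝ) ≤ x := hg1.trans (by exact_mod_cast hxX)
  obtain ⟨j, hj1, hj2⟩ := exists_nat_pow_near hx1 hρ
  have hJj : J0 ≤ j := by
    have h1 : ρ ^ J0 < ρ ^ (j + 1) := (g_ge J0).trans_lt (lt_of_le_of_lt (by exact_mod_cast hxX) hj2)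
    have := (pow_lt_pow_iff_right₀ hρ).1 h1
    omega
  have hgx : g ρ j ≤ x := Nat.ceil_le.2 hj1
  have hxg : x ≤ g ρ (j + 1) := by
    have : (x : ℝ) ≤ g ρ (j + 1) := hj2.le.trans (g_ge _)
    exact_mod_cast this
  have hgg : g ρ J0 ≤ g ρ j := g_mono hρ hJj
  have hρρ : 0 < ρ ^ 2 - ρ := by nlinarith
  have hstep : (g ρ (j + 1) : ℝ) ≤ ρ ^ 2 * g ρ j := by
    refine g_step (hJ1.trans ?_) hρ
    have : (g ρ J0 : ℝ) ≤ g ρ j := by exact_mod_cast hgg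
    gcongr
  have hgx' : (g ρ j : ℝ) ≤ x := by exact_mod_cast hgx
  have hgY1 : (g ρ (j + 1) : ℝ) ≤ 4 * x := by
    refine hstep.trans ?_
    have h4 : ρ ^ 2 ≤ 4 := by nlinarith
    exact mul_le_mul h4 hgx' (Nat.cast_nonneg _) (by norm_num)
  by_contra hcon
  push Not at hcon
  have hn0' := hcon j hJj (by omega)
  have hn1' := hcon (j + 1) (by omega) (by exact_mod_cast hgY1)
  have hmj := hmain (g ρ j) (hJ0.trans hgg)
  have hmj1 := hmain (g ρ (j + 1)) (hJ0.trans (g_mono hρ (by omega)))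
  have ha0 : |(cf (g ρ j) : ℝ) - A * Nat.primeCounting (g ρ j)| ≤
      ε₁ * Nat.primeCounting (g ρ j) := by
    have := abs_sub_le (cf (g ρ j) : ℝ) (mf (g ρ j)) (A * Nat.primeCounting (g ρ j))
    linarith
  have ha1 : |(cf (g ρ (j + 1)) : ℝ) -
      A * Nat.primeCounting (g ρ (j + 1))| ≤ ε₁ * Nat.primeCounting (g ρ (j + 1)) := by
    have := abs_sub_le (cf (g ρ (j + 1)) : ℝ) (mf (g ρ (j + 1))) (A * Nat.primeCounting (g ρ (j + 1)))
    linarith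
  have hpij : (Nat.primeCounting (g ρ (j + 1)) : ℝ) ≤ (1 + ε₁) * Nat.primeCounting (g ρ j) :=
    hpi _ _ (hJ0.trans hgg) (hgx.trans hxg) hstep
  have hfin := interp (δ := A) (e := ε₁) (P0 := (Nat.primeCounting (g ρ j) : ℝ))
    (P := (Nat.primeCounting x : ℝ)) (P1 := (Nat.primeCounting (g ρ (j + 1)) : ℝ))
    (A0 := (cf (g ρ j) : ℝ)) (A := (cf x : ℝ))
    (A1 := (cf (g ρ (j + 1)) : ℝ)) hε₁ hε₁1 (Nat.cast_nonneg _)
    (by exact_mod_cast Nat.monotone_primeCounting hgx)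
    (by exact_mod_cast Nat.monotone_primeCounting hxg) hpij
    (by exact_mod_cast hcf hgx) (by exact_mod_cast hcf hxg) ha0 ha1
  have hlast : (|A| + 3) * ε₁ * (Nat.primeCounting x : ℝ) ≤ ε * (Nat.primeCounting x : ℝ) := by
    gcongr
  linarith

lemma cntZ_mono (d : Dat) (n : ℤ) : Monotone (cntZ d n) := by
  classical
  intro x y h
  unfold cntZ
  apply card_le_card
  intro p hp
  rw [mem_filter, mem_PPx] at hp ⊢
  exact ⟨⟨hp.1.1.trans h, hp.1.2⟩, hp.2⟩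

theorem dat_all (b : ℕ) (hb : 2 ≤ b) (A : ℕ) (γ : ℝ) (hγ0 : 0 < γ) (hγ1 : γ < 1) : ∃ W : ℕ, 1 ≤ W ∧
    ∀ (F : ℕ) (κ : ℤ), 1 ≤ F → κ ≠ 0 → ∀ d : Dat, ∀ ε : ℝ, 0 < ε →
    ∃ (C : ℝ) (X₀ : ℕ), 0 < C ∧ 2 ≤ X₀ ∧ ∀ (k X : ℕ), X₀ ≤ X →
    ∀ (ι : Type) (Ω : Finset ι) (w : ι → ℝ) (v : ι → ℤ), Decays b F A k γ κ Ω w v → ∀ E : Finset ι, E ⊆ Ω →
      (∀ i ∈ E, ∃ x : ℕ, X ≤ x ∧ x ^ W ≤ b ^ k ∧ ε * (Nat.primeCounting x : ℝ) <
        |(cntZ d (v i) x : ℝ) - d.A * (Nat.primeCounting x : ℝ)|) →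
      ∑ i ∈ E, w i ≤ C * (Real.log X / X) := by
  classical
  obtain ⟨W, hW, h⟩ := dat_one b hb A γ hγ0 hγ1
  refine ⟨2 * W, by omega, fun F κ hF hκ d ε hε => ?_⟩
  have hd := abs_nonneg d.A
  obtain ⟨ε₁, hε₁def⟩ : ∃ ε₁ : ℝ, ε₁ = min 1 (ε / (|d.A| + 3)) := ⟨_, rfl⟩
  have hε₁ : 0 < ε₁ := by rw [hε₁def]; exact lt_min one_pos (by positivity)
  have hε₁1 : ε₁ ≤ 1 := by rw [hε₁def]; exact min_le_left _ _
  have hεε : (|d.A| + 3) * ε₁ ≤ ε := by
    have : ε₁ ≤ ε / (|d.A| + 3) := by rw [hε₁def]; exact min_le_right _ _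
    rw [le_div_iff₀ (by positivity)] at this
    linarith
  obtain ⟨C, X1, hC, hX1, h1⟩ := h F κ hF hκ d (ε₁ / 2) (by positivity)
  obtain ⟨ρ, hρ, hρ2, X2, hX2, hpi⟩ := pi_ratio ε₁ hε₁
  have hml := d.lim
  rw [Metric.tendsto_atTop] at hml
  obtain ⟨X3, hX3⟩ := hml (ε₁ / 2) (by positivity)
  have hρ0 : 0 < ρ := by linarith
  have hρρ : 0 < ρ ^ 2 - ρ := by nlinarith
  have hlρ : 0 < Real.log ρ := Real.log_pos hρ
  obtain ⟨X, hX⟩ : ∃ X, X = max (max X1 X2) X3 := ⟨_, rfl⟩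
  have hXX1 : X1 ≤ X := by rw [hX]; exact (le_max_left _ _).trans (le_max_left _ _)
  have hXX2 : X2 ≤ X := by rw [hX]; exact (le_max_right _ _).trans (le_max_left _ _)
  have hXX3 : X3 ≤ X := by rw [hX]; exact le_max_right _ _
  obtain ⟨S, hS, hgrid⟩ := grid_sum ρ hρ hρ2
  obtain ⟨Q, hQ⟩ := exists_nat_ge (1 / (ρ ^ 2 - ρ))
  have hmain : ∀ x : ℕ, X ≤ x → |(∑ p ∈ PP x, d.G p) - d.A * Nat.primeCounting x| ≤
      ε₁ / 2 * Nat.primeCounting x := by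
    intro x hx
    have hx4 : 4 ≤ x := by omega
    have hpos := (pi_lower' x hx4).1
    have h2 := hX3 x (hXX3.trans hx)
    rw [Real.dist_eq] at h2
    have h3 : (∑ p ∈ PP x, d.G p) - d.A * Nat.primeCounting x =
        ((∑ p ∈ PP x, d.G p) / Nat.primeCounting x - d.A) * Nat.primeCounting x := by
      field_simp
    rw [h3, abs_mul, abs_of_pos hpos]
    gcongr
  refine ⟨C * (S * ((1 / Real.log ρ + 1) * 2)), 2 * (X + Q) + 4, by positivity, by omega, ?_⟩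
  intro k Y hY ι Ω w v hdec E hE hbad
  have hY4 : 4 ≤ Y := by omega
  have hY1 : (1 : ℝ) ≤ Y := by exact_mod_cast (by omega : 1 ≤ Y)
  have hY0 : (0 : ℝ) < Y := by linarith
  obtain ⟨J0, hJ1, hJ2⟩ := exists_nat_pow_near hY1 hρ
  have hlogY : 1 ≤ Real.log Y := by
    rw [Real.le_log_iff_exp_le hY0]
    have : (4 : ℝ) ≤ Y := by exact_mod_cast hY4
    linarith [Real.exp_one_lt_d9]
  have hhalf : (Y : ℝ) / 2 ≤ ρ ^ J0 := by
    rw [pow_succ] at hJ2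
    have h2 : ρ ^ J0 * ρ ≤ ρ ^ J0 * 2 := mul_le_mul_of_nonneg_left hρ2 (by positivity)
    linarith
  have hYr : 2 * ((X : ℝ) + Q) + 4 ≤ Y := by exact_mod_cast hY
  have hXQ : (X : ℝ) + Q ≤ g ρ J0 := by
    have := g_ge (ρ := ρ) J0
    linarith
  have hgJ0X : X ≤ g ρ J0 := by
    have h2 : (X : ℝ) ≤ g ρ J0 := by
      have : (0 : ℝ) ≤ Q := Nat.cast_nonneg _
      linarith
    exact_mod_cast h2
  have hgJ01 : 1 ≤ (ρ ^ 2 - ρ) * g ρ J0 := by
    have h2 : 1 / (ρ ^ 2 - ρ) ≤ g ρ J0 := by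
      have : (0 : ℝ) ≤ X := Nat.cast_nonneg _
      linarith
    rw [div_le_iff₀ hρρ] at h2
    linarith
  have hgY : g ρ J0 ≤ Y := Nat.ceil_le.2 hJ1
  obtain ⟨L, hL⟩ := pow_unbounded_of_one_lt ((b : ℝ) ^ k) hρ
  obtain ⟨I, hI⟩ : ∃ I : Finset ℕ, I = (range L).filter (fun j => J0 ≤ j ∧ (g ρ j) ^ W ≤ b ^ k) := ⟨_, rfl⟩
  obtain ⟨EE, hEE⟩ : ∃ EE : ℕ → Finset ι, EE = fun j => E.filter (fun i =>
    ε₁ / 2 * (Nat.primeCounting (g ρ j) : ℝ) < |(cntZ d (v i) (g ρ j) : ℝ) - ∑ p ∈ PP (g ρ j), d.G p|) := ⟨_, rfl⟩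
  have hcover : E ⊆ I.biUnion EE := by
    intro i hi
    obtain ⟨x, hx1, hx2, hx3⟩ := hbad i hi
    obtain ⟨j, hj1, hj2, hj3⟩ := core' (cntZ d (v i)) (cntZ_mono d (v i)) (fun x => ∑ p ∈ PP x, d.G p) d.A hε₁ hε₁1 hεε hρ
      hρ2 (fun x y hx => hpi x y (hXX2.trans hx)) hmain hgJ0X hgJ01 x (hgY.trans hx1) hx3
    rw [mem_biUnion]
    have hgW : (g ρ j) ^ W ≤ b ^ k := by
      calc (g ρ j) ^ W ≤ (x * x) ^ W := by
            apply Nat.pow_le_pow_left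
            exact hj2.trans (Nat.mul_le_mul_right _ (by omega))
        _ = x ^ (2 * W) := by rw [← sq, ← pow_mul]
        _ ≤ b ^ k := hx2
    refine ⟨j, ?_, ?_⟩
    · rw [hI, mem_filter, mem_range]
      refine ⟨?_, hj1, hgW⟩
      by_contra hcon
      push Not at hcon
      have h2 : ρ ^ L ≤ ρ ^ j := pow_le_pow_right₀ hρ.le hcon
      have h3 := g_ge (ρ := ρ) j
      have h4 : g ρ j ≤ (g ρ j) ^ W := Nat.le_self_pow (by omega) _
      have h5 : (g ρ j : ℝ) ≤ (b : ℝ) ^ k := by exact_mod_cast h4.trans hgW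
      linarith
    · rw [hEE, mem_filter]
      exact ⟨hi, hj3⟩
  have hw0 : ∀ i ∈ E, 0 ≤ w i := fun i hi => hdec.nonneg i (hE hi)
  have h2 : ∑ i ∈ E, w i ≤ ∑ j ∈ I, ∑ i ∈ EE j, w i := by
    calc ∑ i ∈ E, w i ≤ ∑ i ∈ I.biUnion EE, w i := by
          apply sum_le_sum_of_subset_of_nonneg hcover
          intro i hi _
          rw [mem_biUnion] at hi
          obtain ⟨j, _, hj⟩ := hi
          rw [hEE, mem_filter] at hj
          exact hw0 i hj.1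
      _ ≤ _ := by
          have h3 : ∀ (s : Finset ℕ), ∑ i ∈ s.biUnion EE, w i ≤ ∑ j ∈ s, ∑ i ∈ EE j, w i := by
            intro s
            induction s using Finset.induction_on with
            | empty => simp
            | insert a s ha ih =>
              rw [biUnion_insert, sum_insert ha]
              have h4 := sum_union_inter (s₁ := EE a) (s₂ := s.biUnion EE) (f := w)
              have h5 : 0 ≤ ∑ i ∈ EE a ∩ s.biUnion EE, w i := by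
                apply sum_nonneg
                intro i hi
                rw [mem_inter] at hi
                have := hi.1
                rw [hEE, mem_filter] at this
                exact hw0 i this.1
              linarith
          exact h3 I
  have h3 : ∀ j ∈ I, ∑ i ∈ EE j, w i ≤ C * (Real.log (g ρ j) / (g ρ j)) := by
    intro j hj
    rw [hI, mem_filter] at hj
    have hgj : X1 ≤ g ρ j := hXX1.trans (hgJ0X.trans (g_mono hρ hj.2.1))
    apply h1 k (g ρ j) hgj hj.2.2 ι Ω w v hdec (EE j)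
    · rw [hEE]
      exact (filter_subset _ _).trans hE
    · intro i hi
      rw [hEE, mem_filter] at hi
      exact hi.2
  refine h2.trans ((sum_le_sum h3).trans ?_)
  rw [← mul_sum, mul_assoc]
  apply mul_le_mul_of_nonneg_left _ hC.le
  refine (hgrid J0 I (fun j hj => by rw [hI, mem_filter] at hj; exact hj.2.1)).trans ?_
  rw [mul_assoc]
  apply mul_le_mul_of_nonneg_left _ hS.le
  have h4 : (1 / ρ) ^ J0 ≤ 2 / Y := by
    rw [div_pow, one_pow, div_le_div_iff₀ (by positivity) hY0]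
    linarith
  have h5 : (1 : ℝ) + J0 ≤ (1 / Real.log ρ + 1) * Real.log Y := by
    have h6 : (J0 : ℝ) * Real.log ρ ≤ Real.log Y := by
      rw [← Real.log_pow]
      exact Real.log_le_log (by positivity) hJ1
    have h7 : (J0 : ℝ) ≤ Real.log Y / Real.log ρ := by
      rw [le_div_iff₀ hlρ]
      exact h6
    have h8 : (1 / Real.log ρ + 1) * Real.log Y = Real.log Y / Real.log ρ + Real.log Y := by ring
    rw [h8]
    linarith
  calc (1 + (J0 : ℝ)) * (1 / ρ) ^ J0 ≤ ((1 / Real.log ρ + 1) * Real.log Y) * (2 / Y) :=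
        mul_le_mul h5 h4 (by positivity) (by positivity)
    _ = _ := by ring

end Pool.Agent.R459.EqD
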