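import Pool.Agent.R459.Eq3

/-! A sparse set of moduli outside of which the characteristic function of a digit family is small at every fraction. -/

set_option autoImplicit false

namespace Pool.Agent.R459.Eq
open Finset
open Pool.Agent.H807R2.Dav
open Pool.Agent.TH872.Mir (Far farCount)

/-- the scale of a modulus -/
def scl (b m : ℕ) : ℕ := Nat.clog b (m ^ 2 + 1)

lemma scl_lt (b : ℕ) (hb : 2 ≤ b) (m : ℕ) : m ^ 2 < b ^ scl b m := by
  have := Nat.le_pow_clog (by omega : 1 < b) (m ^ 2 + 1)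
  unfold scl
  omega

lemma scl_le (b : ℕ) (hb : 2 ≤ b) (m n : ℕ) (h : m ^ 2 + 1 ≤ b ^ n) : scl b m ≤ n := by
  unfold scl
  exact Nat.clog_le_of_le_pow h

lemma scl_pos (b : ℕ) (hb : 2 ≤ b) (m : ℕ) (hm : 1 ≤ m) : 1 ≤ scl b m := by
  rcases Nat.eq_zero_or_pos (scl b m) with h | h
  · have := scl_lt b hb m
    rw [h, pow_zero] at this
    have : 1 ≤ m ^ 2 := Nat.one_le_pow _ _ hm
    omega
  · exact h

/-- **few bad moduli**: the characteristic function is small at all fractions whose denominator is not in a sparse set -/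
theorem good (b : ℕ) (hb : 2 ≤ b) (A : ℕ) (γ : ℝ) (hγ0 : 0 < γ) (hγ1 : γ < 1) (D B : ℕ) (hD : 1 ≤ D) : ∃ W : ℕ, 1 ≤ W ∧
    ∀ (F : ℕ) (κ : ℤ), 1 ≤ F → κ ≠ 0 → ∃ (S : Set ℕ) (C : ℝ), 0 < C ∧
    (∀ (M : ℕ) (T : Finset ℕ), (∀ m ∈ T, m ∈ S ∧ 1 ≤ m ∧ m ≤ M) → (T.card : ℝ) ≤ C * (M : ℝ) ^ (1 / (D : ℝ))) ∧
    ∀ (k x : ℕ), b ≤ x → x ^ W ≤ b ^ k →
    ∀ (ι : Type) (Ω : Finset ι) (w : ι → ℝ) (v : ι → ℤ), Decays b F A k γ κ Ω w v →
    ∀ m : ℕ, 1 ≤ m → m ≤ x ^ B → m ∉ S → Nat.Coprime b m → ∀ a : ℕ, Nat.Coprime a m →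
      ‖∑ i ∈ Ω, (w i : ℂ) * ee ((v i : ℝ) * ((a : ℝ) / (m : ℝ)))‖ ≤ 1 / (x : ℝ) ^ B := by
  classical
  have hb0 : (0 : ℝ) < b := by exact_mod_cast (by omega : 0 < b)
  have hb1 : (1 : ℝ) < b := by exact_mod_cast (by omega : 1 < b)
  have hDr : (0 : ℝ) < D := by exact_mod_cast hD
  obtain ⟨β, hβ1, hβ⟩ : ∃ β : ℝ, 1 < β ∧ β ^ (4 * D) = b := by
    refine ⟨(b : ℝ) ^ (1 / (4 * D) : ℝ), Real.one_lt_rpow hb1 (by positivity), ?_⟩
    rw [← Real.rpow_natCast, ← Real.rpow_mul hb0.le]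
    push_cast
    rw [one_div_mul_cancel (by positivity), Real.rpow_one]
  have hβ0 : 0 < β := by linarith
  have hβb : β ≤ b := by
    rw [← hβ]
    exact le_self_pow₀ hβ1.le (by omega)
  obtain ⟨z, hz⟩ : ∃ z : ℝ, z = (β - 1) / (2 * b) := ⟨_, rfl⟩
  have hz0 : 0 < z := by rw [hz]; exact div_pos (by linarith) (by linarith)
  have hz1 : z ≤ 1 := by
    rw [hz, div_le_one (by linarith)]
    linarith
  have hz2 : 1 + 2 * b * z = β := by
    rw [hz]
    field_simp
    ring
  obtain ⟨R, hR⟩ := pow_unbounded_of_one_lt (1 / z) hβ1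
  have hR1 : 1 ≤ z * β ^ (R + 1) := by
    have h1 : β ^ R ≤ β ^ (R + 1) := pow_le_pow_right₀ hβ1.le (by omega)
    have h2 : 1 / z < β ^ (R + 1) := lt_of_lt_of_le hR h1
    rw [div_lt_iff₀ hz0] at h2
    linarith
  obtain ⟨g, hg⟩ := exists_pow_lt_of_lt_one (show (0 : ℝ) < (1 / b) ^ B by positivity) hγ1
  obtain ⟨V, hV⟩ : ∃ V, V = 2 * (2 * B + 1) + 2 * (A + 1) * (g + 1) * (R + 1) := ⟨_, rfl⟩
  refine ⟨2 * V, by omega, fun F κ hF hκ => ?_⟩
  obtain ⟨G, hG⟩ : ∃ G : ℤ, G = F * κ := ⟨_, rfl⟩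
  have hG0 : G ≠ 0 := by
    rw [hG]
    exact mul_ne_zero (by exact_mod_cast (by omega : F ≠ 0)) hκ
  have hGn : (0 : ℝ) < ((2 * |G| + 1 : ℤ) : ℝ) := by
    have : (0 : ℤ) < 2 * |G| + 1 := by positivity
    exact_mod_cast this
  obtain ⟨S, hS⟩ : ∃ S : Set ℕ, S = {m | Bad b G (scl b m) (scl b m / (R + 1)) m} := ⟨_, rfl⟩
  have hβ2 : 1 < β ^ 2 := one_lt_pow₀ hβ1 (by norm_num)
  obtain ⟨C, hC⟩ : ∃ C : ℝ, C = ((2 * |G| + 1 : ℤ) : ℝ) * (β ^ 2 / (β ^ 2 - 1)) * (2 * b) := ⟨_, rfl⟩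
  have hC0 : 0 < C := by
    rw [hC]
    have : 0 < β ^ 2 - 1 := by linarith
    positivity
  refine ⟨S, C, hC0, ?_, ?_⟩
  · intro M T hT
    -- the elements of a given scale
    have hone : ∀ K : ℕ, (((T.filter (fun m => scl b m = K)).card : ℕ) : ℝ) ≤ ((2 * |G| + 1 : ℤ) : ℝ) * (β ^ 2) ^ K := by
      intro K
      rcases Finset.eq_empty_or_nonempty (T.filter (fun m => scl b m = K)) with h | h
      · rw [h, card_empty, Nat.cast_zero]
        positivity
      · obtain ⟨m₀, hm₀, hmax⟩ := exists_max_image _ (fun m => m) h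
        rw [mem_filter] at hm₀
        have h1 := bad_card b hb G hG0 K (K / (R + 1)) m₀ (by rw [← hm₀.2]; exact scl_lt b hb m₀) z hz0 hz1
          (T.filter (fun m => scl b m = K)) (by
            intro m hm
            have hm' := hm
            rw [mem_filter] at hm'
            refine ⟨(hT m hm'.1).2.1, hmax m hm, ?_⟩
            have h2 := (hT m hm'.1).1
            rw [hS] at h2
            have h3 : Bad b G (scl b m) (scl b m / (R + 1)) m := h2
            rw [hm'.2] at h3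
            exact h3)
        rw [hz2] at h1
        have h2 : 1 ≤ z ^ (K / (R + 1)) * β ^ K := by
          calc (1 : ℝ) ≤ (z * β ^ (R + 1)) ^ (K / (R + 1)) := one_le_pow₀ hR1
            _ = z ^ (K / (R + 1)) * β ^ ((R + 1) * (K / (R + 1))) := by rw [mul_pow, ← pow_mul]
            _ ≤ z ^ (K / (R + 1)) * β ^ K :=
                mul_le_mul_of_nonneg_left (pow_le_pow_right₀ hβ1.le (Nat.mul_div_le K (R + 1))) (by positivity)
        obtain ⟨c, hc⟩ : ∃ c : ℝ, c = (((T.filter (fun m => scl b m = K)).card : ℕ) : ℝ) := ⟨_, rfl⟩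
        rw [← hc] at h1 ⊢
        have hc0 : 0 ≤ c := by rw [hc]; exact Nat.cast_nonneg _
        calc c = c * 1 := by ring
          _ ≤ c * (z ^ (K / (R + 1)) * β ^ K) := mul_le_mul_of_nonneg_left h2 hc0
          _ = (c * z ^ (K / (R + 1))) * β ^ K := by ring
          _ ≤ (((2 * |G| + 1 : ℤ) : ℝ) * β ^ K) * β ^ K := mul_le_mul_of_nonneg_right h1 (by positivity)
          _ = _ := by
            rw [← pow_mul, mul_assoc, ← pow_add]
            congr 2
            ring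
    rcases Nat.eq_zero_or_pos M with hM0 | hM0
    · have : T = ∅ := by
        rw [eq_empty_iff_forall_notMem]
        intro m hm
        have := hT m hm
        omega
      rw [this, card_empty, Nat.cast_zero]
      positivity
    · have hMr : (1 : ℝ) ≤ M := by exact_mod_cast hM0
      obtain ⟨N, hN⟩ : ∃ N, N = scl b M := ⟨_, rfl⟩
      have hN1 : 1 ≤ N := by rw [hN]; exact scl_pos b hb M hM0
      have hsub : ∀ m ∈ T, scl b m ∈ range (N + 1) := by
        intro m hm
        rw [mem_range]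
        have h1 : scl b m ≤ N := by
          apply scl_le b hb
          rw [hN]
          have h2 := scl_lt b hb M
          have h3 : m ^ 2 ≤ M ^ 2 := Nat.pow_le_pow_left (hT m hm).2.2 2
          omega
        omega
      have h1 : (T.card : ℝ) = ∑ K ∈ range (N + 1), (((T.filter (fun m => scl b m = K)).card : ℕ) : ℝ) := by
        rw [← Nat.cast_sum]
        congr 1
        exact card_eq_sum_card_fiberwise hsub
      have h2 : ∑ K ∈ range (N + 1), (β ^ 2) ^ K ≤ (β ^ 2 / (β ^ 2 - 1)) * (β ^ 2) ^ N := by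
        rw [geom_sum_eq (ne_of_gt hβ2)]
        have h3 : 0 < β ^ 2 - 1 := by linarith
        rw [div_mul_eq_mul_div, div_le_div_iff_of_pos_right h3, pow_succ']
        linarith
      have h3 : (β ^ 2) ^ N ≤ 2 * b * (M : ℝ) ^ (1 / (D : ℝ)) := by
        have h4 : b ^ N ≤ b * (2 * M ^ 2) := by
          have h5 := Nat.pow_pred_clog_lt_self (by omega : 1 < b) (show 1 < M ^ 2 + 1 by
            have : 1 ≤ M ^ 2 := Nat.one_le_pow _ _ hM0
            omega)
          have h6 : b ^ N = b * b ^ (N.pred) := by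
            rw [← pow_succ', Nat.pred_eq_sub_one, Nat.sub_add_cancel hN1]
          rw [h6]
          apply Nat.mul_le_mul_left
          rw [hN]
          unfold scl
          have : 1 ≤ M ^ 2 := Nat.one_le_pow _ _ hM0
          omega
        have h5 : ((b : ℝ)) ^ N ≤ b * (2 * (M : ℝ) ^ 2) := by exact_mod_cast h4
        have h6 : (β ^ 2) ^ N ^ 1 = (β ^ 2) ^ N := by rw [pow_one]
        have hMp : (0 : ℝ) < (M : ℝ) ^ (1 / (D : ℝ)) := Real.rpow_pos_of_pos (by linarith) _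
        apply le_of_pow_le_pow_left₀ (show 2 * D ≠ 0 by omega) (by positivity)
        have e1 : ((β ^ 2) ^ N) ^ (2 * D) = (b : ℝ) ^ N := by
          rw [← hβ, ← pow_mul, ← pow_mul, ← pow_mul]
          congr 1
          ring
        have e2 : ((M : ℝ) ^ (1 / (D : ℝ))) ^ (2 * D) = (M : ℝ) ^ 2 := by
          rw [← Real.rpow_natCast, ← Real.rpow_mul (by linarith)]
          rw [← Real.rpow_natCast]
          congr 1
          push_cast
          field_simp
        rw [e1, mul_pow, e2]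
        refine h5.trans ?_
        have e3 : (b : ℝ) * (2 * (M : ℝ) ^ 2) = (2 * b) * (M : ℝ) ^ 2 := by ring
        rw [e3]
        apply mul_le_mul_of_nonneg_right _ (by positivity)
        exact le_self_pow₀ (by linarith) (by omega)
      rw [h1, hC]
      calc ∑ K ∈ range (N + 1), (((T.filter (fun m => scl b m = K)).card : ℕ) : ℝ) ≤
          ∑ K ∈ range (N + 1), ((2 * |G| + 1 : ℤ) : ℝ) * (β ^ 2) ^ K := sum_le_sum fun K _ => hone K
        _ = ((2 * |G| + 1 : ℤ) : ℝ) * ∑ K ∈ range (N + 1), (β ^ 2) ^ K := by rw [mul_sum]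
        _ ≤ ((2 * |G| + 1 : ℤ) : ℝ) * ((β ^ 2 / (β ^ 2 - 1)) * (β ^ 2) ^ N) := mul_le_mul_of_nonneg_left h2 hGn.le
        _ ≤ ((2 * |G| + 1 : ℤ) : ℝ) * ((β ^ 2 / (β ^ 2 - 1)) * (2 * b * (M : ℝ) ^ (1 / (D : ℝ)))) := by
            apply mul_le_mul_of_nonneg_left _ hGn.le
            apply mul_le_mul_of_nonneg_left h3
            have h3 : 0 < β ^ 2 - 1 := by linarith
            positivity
        _ = _ := by ring
  · intro k x hbx hxW ι Ω w v hdec m hm hmx hmS hbm a ha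
    obtain ⟨Q, hQ⟩ : ∃ Q, Q = Nat.clog b x := ⟨_, rfl⟩
    have hx2 : 2 ≤ x := by omega
    have hQx : x ≤ b ^ Q := by rw [hQ]; exact Nat.le_pow_clog (by omega) x
    have hQ1 : 1 ≤ Q := by
      rcases Nat.eq_zero_or_pos Q with h | h
      · rw [h, pow_zero] at hQx
        omega
      · exact h
    have hQ2 : b ^ Q ≤ x ^ 2 := by
      have h1 := Nat.pow_pred_clog_lt_self (by omega : 1 < b) (by omega : 1 < x)
      rw [← hQ] at h1
      have h2 : b ^ Q = b * b ^ (Q.pred) := by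
        rw [← pow_succ', Nat.pred_eq_sub_one, Nat.sub_add_cancel hQ1]
      rw [h2, sq]
      exact Nat.mul_le_mul hbx h1.le
    have hVQ : V * Q ≤ k := by
      have h1 : b ^ (V * Q) ≤ b ^ k := by
        calc b ^ (V * Q) = (b ^ Q) ^ V := by rw [← pow_mul, mul_comm]
          _ ≤ (x ^ 2) ^ V := Nat.pow_le_pow_left hQ2 _
          _ = x ^ (2 * V) := by rw [← pow_mul]
          _ ≤ b ^ k := hxW
      exact (Nat.pow_le_pow_iff_right (by omega)).1 h1
    obtain ⟨K, hK⟩ : ∃ K, K = scl b m := ⟨_, rfl⟩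
    have hK1 : 1 ≤ K := by rw [hK]; exact scl_pos b hb m hm
    have hKQ : K ≤ (2 * B + 1) * Q := by
      rw [hK]
      apply scl_le b hb
      have h1 : m ^ 2 ≤ b ^ (2 * B * Q) := by
        calc m ^ 2 ≤ (x ^ B) ^ 2 := Nat.pow_le_pow_left hmx 2
          _ ≤ ((b ^ Q) ^ B) ^ 2 := Nat.pow_le_pow_left (Nat.pow_le_pow_left hQx B) 2
          _ = b ^ (2 * B * Q) := by rw [← pow_mul, ← pow_mul]; congr 1; ring
      have h2 : 1 ≤ b ^ (2 * B * Q) := Nat.one_le_pow _ _ (by omega)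
      have h3 : b ^ ((2 * B + 1) * Q) = b ^ (2 * B * Q) * b ^ Q := by rw [← pow_add]; congr 1; ring
      have h4 : 2 ≤ b ^ Q := hx2.trans hQx
      rw [h3]
      nlinarith
    obtain ⟨L, hL⟩ : ∃ L, L = K / (R + 1) := ⟨_, rfl⟩
    have hL1 : K ≤ (R + 1) * (L + 1) := by
      rw [hL]
      exact (Nat.lt_mul_div_succ K (by omega : 0 < R + 1)).le
    have hnb : ¬ Bad b G K L m := by
      intro h
      apply hmS
      rw [hS]
      show Bad b G (scl b m) (scl b m / (R + 1)) m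
      rw [← hK, ← hL]
      exact h
    have h1 := far_many b G K L (k / K) k m hm hbm hnb (Nat.div_mul_le_self k K) a ha
    rw [hG, far_eq] at h1
    obtain ⟨f, hf⟩ : ∃ f, f = farCount b F k (κ * ((a : ℝ) / m)) := ⟨_, rfl⟩
    rw [← hf] at h1
    have h2 : k ≤ (R + 1) * f + K := by
      have h3 : k < (k / K) * K + K := by
        have := Nat.lt_div_mul_add (a := k) (b := K) (by omega)
        linarith
      have h4 : (k / K) * K ≤ (R + 1) * f := by
        calc (k / K) * K ≤ (k / K) * ((R + 1) * (L + 1)) := Nat.mul_le_mul_left _ hL1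
          _ = (R + 1) * ((k / K) * (L + 1)) := by ring
          _ ≤ _ := Nat.mul_le_mul_left _ h1
      omega
    have hkey : A * (g * Q + 1) ≤ f := by
      have h3 : (A + 1) * ((g + 1) * Q) * (R + 1) ≤ (R + 1) * f := by
        have h4 : V * Q = 2 * ((2 * B + 1) * Q) + 2 * ((A + 1) * ((g + 1) * Q) * (R + 1)) := by
          rw [hV]; ring
        have h5 : (2 * B + 1) * Q + (A + 1) * ((g + 1) * Q) * (R + 1) ≤ k := by
          have : 0 ≤ (2 * B + 1) * Q := Nat.zero_le _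
          omega
        omega
      have h4 : (A + 1) * ((g + 1) * Q) ≤ f := by
        rw [mul_comm] at h3
        exact Nat.le_of_mul_le_mul_left h3 (by omega)
      refine le_trans ?_ h4
      apply Nat.mul_le_mul (by omega)
      nlinarith
    have hkey2 : A * (g * Q) ≤ k := by
      refine le_trans ?_ hVQ
      rw [hV]
      have h3 : A * (g * Q) ≤ (A + 1) * ((g + 1) * Q) := Nat.mul_le_mul (by omega) (Nat.mul_le_mul_right _ (by omega))
      have h4 : (2 * (2 * B + 1) + 2 * (A + 1) * (g + 1) * (R + 1)) * Q =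
          2 * ((2 * B + 1) * Q) + 2 * ((A + 1) * ((g + 1) * Q) * (R + 1)) := by ring
      rw [h4]
      have h5 : (A + 1) * ((g + 1) * Q) ≤ (A + 1) * ((g + 1) * Q) * (R + 1) := Nat.le_mul_of_pos_right _ (by omega)
      omega
    have h3 := hdec.char ((a : ℝ) / m) (g * Q) (by rw [← hf]; exact hkey) hkey2
    refine h3.trans ?_
    rw [pow_mul]
    calc (γ ^ g) ^ Q ≤ ((1 / (b : ℝ)) ^ B) ^ Q := pow_le_pow_left₀ (by positivity) hg.le _
      _ = 1 / ((b : ℝ) ^ Q) ^ B := by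
          rw [div_pow, one_pow, div_pow, one_pow, ← pow_mul, ← pow_mul, mul_comm]
      _ ≤ _ := by
          apply one_div_le_one_div_of_le
          · have : (0 : ℝ) < x := by exact_mod_cast (by omega : 0 < x)
            positivity
          · apply pow_le_pow_left₀ (Nat.cast_nonneg _)
            exact_mod_cast hQx

end Pool.Agent.R459.Eq
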