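import Pool.Agent.R459.Eq8

/-! The second moment of weighted sums over primes, for vectors of functions. -/

set_option autoImplicit false

namespace Pool.Agent.R459.Eq
open Finset
open Pool.Agent.H807R2.Dav

open Classical in
/-- pairs of primes with product in a set -/
lemma pairs_le (x : ℕ) (P : Finset ℕ) (hP : ∀ p ∈ P, p.Prime ∧ p ≤ x) (S : Set ℕ) (h : ℕ → ℝ) (h0 : ∀ m, 0 ≤ h m) :
    ∑ p ∈ P, ∑ q ∈ P, (if p ≠ q ∧ p * q ∈ S then h (p * q) else 0) ≤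
      2 * ∑ m ∈ (Icc 1 (x ^ 2)).filter (fun m => m ∈ S), h m := by
  rw [← sum_product', ← sum_filter]
  obtain ⟨Q, hQ⟩ : ∃ Q : Finset (ℕ × ℕ), Q = (P ×ˢ P).filter (fun z => z.1 ≠ z.2 ∧ z.1 * z.2 ∈ S) := ⟨_, rfl⟩
  rw [← hQ]
  obtain ⟨T, hT⟩ : ∃ T : Finset ℕ, T = (Icc 1 (x ^ 2)).filter (fun m => m ∈ S) := ⟨_, rfl⟩
  rw [← hT]
  have hmaps : ∀ z ∈ Q, z.1 * z.2 ∈ T := by
    intro z hz
    rw [hQ, mem_filter, mem_product] at hz
    rw [hT, mem_filter, mem_Icc]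
    refine ⟨⟨Nat.mul_pos (hP _ hz.1.1).1.pos (hP _ hz.1.2).1.pos, ?_⟩, hz.2.2⟩
    rw [sq]
    exact Nat.mul_le_mul (hP _ hz.1.1).2 (hP _ hz.1.2).2
  rw [← sum_fiberwise_of_maps_to hmaps (fun z => h (z.1 * z.2)), mul_sum]
  apply sum_le_sum
  intro m hm
  rw [sum_congr rfl (fun z hz => by rw [(mem_filter.1 hz).2]), sum_const, nsmul_eq_mul]
  apply mul_le_mul_of_nonneg_right _ (h0 m)
  have h2 : (Q.filter (fun z => z.1 * z.2 = m)).card ≤ (univ : Finset Bool).card := by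
    apply card_le_card_of_injOn (fun z => decide (z.1 < z.2))
    · intro z _
      exact mem_coe.2 (mem_univ _)
    · intro z hz z' hz' h4
      rw [mem_coe, mem_filter, hQ, mem_filter, mem_product] at hz hz'
      simp only [decide_eq_decide] at h4
      have h3 : z.1 * z.2 = z'.1 * z'.2 := by rw [hz.2, hz'.2]
      have p1 := (hP _ hz.1.1.1).1
      have p2 := (hP _ hz.1.1.2).1
      have p3 := (hP _ hz'.1.1.1).1
      have p4 := (hP _ hz'.1.1.2).1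
      have h5 : z.1 ∣ z'.1 * z'.2 := ⟨z.2, h3.symm⟩
      rcases (Nat.Prime.dvd_mul p1).1 h5 with h6 | h6
      · have h7 : z.1 = z'.1 := (Nat.prime_dvd_prime_iff_eq p1 p3).1 h6
        rw [h7] at h3
        have h8 : z.2 = z'.2 := Nat.eq_of_mul_eq_mul_left p3.pos h3
        exact Prod.ext h7 h8
      · have h7 : z.1 = z'.2 := (Nat.prime_dvd_prime_iff_eq p1 p4).1 h6
        have h8 : z.2 = z'.1 := by
          rw [h7, mul_comm] at h3
          exact Nat.eq_of_mul_eq_mul_right p4.pos h3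
        rw [h7, h8] at h4
        have h9 := hz'.1.2.1
        omega
  have h3 : (univ : Finset Bool).card = 2 := rfl
  rw [h3] at h2
  exact_mod_cast h2

/-- the sum of the squares of the centered functions -/
lemma cent_sq {α : Type} (J : Finset α) (p : ℕ) (hp : 1 ≤ p) (f : α → ℤ → ℝ) (c : ℝ)
    (hf : ∀ n, ∑ j ∈ J, (f j n) ^ 2 ≤ c ^ 2) (n : ℤ) : ∑ j ∈ J, (f j n - mean p (f j)) ^ 2 ≤ 4 * c ^ 2 := by
  have hp0 : (0 : ℝ) < p := by exact_mod_cast hp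
  have h1 : ∑ j ∈ J, (mean p (f j)) ^ 2 ≤ c ^ 2 := by
    have h2 : ∀ j ∈ J, (mean p (f j)) ^ 2 ≤ (∑ t ∈ range p, (f j t) ^ 2) / p := by
      intro j _
      unfold mean
      rw [div_pow, div_le_div_iff₀ (by positivity) hp0]
      have h3 := sq_sum_le_card_mul_sum_sq (s := range p) (f := fun t : ℕ => f j t)
      rw [card_range] at h3
      calc (∑ t ∈ range p, f j t) ^ 2 * p ≤ (p * ∑ t ∈ range p, (f j t) ^ 2) * p := mul_le_mul_of_nonneg_right h3 hp0.le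
        _ = _ := by ring
    refine (sum_le_sum h2).trans ?_
    rw [← sum_div, sum_comm, div_le_iff₀ hp0]
    refine (sum_le_card_nsmul (range p) (fun t : ℕ => ∑ j ∈ J, f j (t : ℤ) ^ 2) (c ^ 2) fun t _ => hf (t : ℤ)).trans ?_
    rw [card_range, nsmul_eq_mul, mul_comm]
  have h2 : ∀ j ∈ J, (f j n - mean p (f j)) ^ 2 ≤ 2 * (f j n) ^ 2 + 2 * (mean p (f j)) ^ 2 := by
    intro j _
    nlinarith [sq_nonneg (f j n + mean p (f j))]
  refine (sum_le_sum h2).trans ?_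
  rw [sum_add_distrib, ← mul_sum, ← mul_sum]
  linarith [hf n]

open Classical in
/-- the second moment -/
theorem vvar {ι : Type} (Ω : Finset ι) (w : ι → ℝ) (hw : ∀ i ∈ Ω, 0 ≤ w i) (hw1 : ∑ i ∈ Ω, w i = 1) (v : ι → ℤ)
    (x : ℕ) (P : Finset ℕ) (hP : ∀ p ∈ P, p.Prime ∧ p ≤ x) {α : Type} (J : Finset α) (f : α → ℕ → ℤ → ℝ) (c : ℕ → ℝ)
    (hc : ∀ p, 0 ≤ c p ∧ c p ≤ 1) (hf : ∀ p ∈ P, ∀ n, ∑ j ∈ J, (f j p n) ^ 2 ≤ (c p) ^ 2)
    (hper : ∀ j ∈ J, ∀ p ∈ P, Per p (f j p)) (τ : ℝ) (hτ0 : 0 ≤ τ) (S : Set ℕ) (h : ℕ → ℝ) (h0 : ∀ m, 0 ≤ h m)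
    (hh : ∀ p ∈ P, ∀ q ∈ P, c p * c q ≤ h (p * q))
    (hS : ∀ p ∈ P, ∀ q ∈ P, p ≠ q → p * q ∉ S → ∀ a : ℕ, Nat.Coprime a (p * q) →
      ‖∑ i ∈ Ω, (w i : ℂ) * ee ((v i : ℝ) * ((a : ℝ) / ((p * q : ℕ) : ℝ)))‖ ≤ τ) :
    ∑ j ∈ J, ∑ i ∈ Ω, w i * (∑ p ∈ P, (f j p (v i) - mean p (f j p))) ^ 2 ≤ 4 * ∑ p ∈ P, (c p) ^ 2 +
      8 * ∑ m ∈ (Icc 1 (x ^ 2)).filter (fun m => m ∈ S), h m + J.card * ((P.card : ℝ) ^ 2 * (x : ℝ) ^ 2 * τ) := by
  have h1 : ∀ j ∈ J, ∑ i ∈ Ω, w i * (∑ p ∈ P, (f j p (v i) - mean p (f j p))) ^ 2 =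
      ∑ p ∈ P, ∑ q ∈ P, ∑ i ∈ Ω, w i * ((f j p (v i) - mean p (f j p)) * (f j q (v i) - mean q (f j q))) := by
    intro j _
    have e0 : ∀ i ∈ Ω, w i * (∑ p ∈ P, (f j p (v i) - mean p (f j p))) ^ 2 =
        ∑ p ∈ P, ∑ q ∈ P, w i * ((f j p (v i) - mean p (f j p)) * (f j q (v i) - mean q (f j q))) := by
      intro i _
      rw [sq, sum_mul_sum, mul_sum]
      apply sum_congr rfl
      intro p _
      rw [mul_sum]
    rw [sum_congr rfl e0, sum_comm]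
    apply sum_congr rfl
    intro p _
    rw [sum_comm]
  rw [sum_congr rfl h1]
  rw [sum_comm]
  have e5 : ∀ p ∈ P, ∑ j ∈ J, ∑ q ∈ P, ∑ i ∈ Ω, w i * ((f j p (v i) - mean p (f j p)) * (f j q (v i) - mean q (f j q))) =
      ∑ q ∈ P, ∑ j ∈ J, ∑ i ∈ Ω, w i * ((f j p (v i) - mean p (f j p)) * (f j q (v i) - mean q (f j q))) := by
    intro p _
    rw [sum_comm]
  rw [sum_congr rfl e5]
  have htriv : ∀ p ∈ P, ∀ q ∈ P, ∑ j ∈ J, ∑ i ∈ Ω, w i * ((f j p (v i) - mean p (f j p)) * (f j q (v i) - mean q (f j q))) ≤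
      4 * (c p * c q) := by
    intro p hp q hq
    rw [sum_comm]
    have h2 : ∀ i ∈ Ω, ∑ j ∈ J, w i * ((f j p (v i) - mean p (f j p)) * (f j q (v i) - mean q (f j q))) ≤ w i * (4 * (c p * c q)) := by
      intro i hi
      rw [← mul_sum]
      apply mul_le_mul_of_nonneg_left _ (hw i hi)
      have h3 := cent_sq J p (hP p hp).1.one_le (fun j => f j p) (c p) (hf p hp) (v i)
      have h4 := cent_sq J q (hP q hq).1.one_le (fun j => f j q) (c q) (hf q hq) (v i)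
      have h5 := sum_mul_sq_le_sq_mul_sq J (fun j => f j p (v i) - mean p (f j p)) (fun j => f j q (v i) - mean q (f j q))
      have h6 : (∑ j ∈ J, (f j p (v i) - mean p (f j p)) * (f j q (v i) - mean q (f j q))) ^ 2 ≤ (4 * (c p * c q)) ^ 2 := by
        refine h5.trans ?_
        calc _ ≤ (4 * c p ^ 2) * (4 * c q ^ 2) := mul_le_mul h3 h4 (sum_nonneg fun j _ => sq_nonneg _) (by positivity)
          _ = _ := by ring
      have h7 : 0 ≤ 4 * (c p * c q) := by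
        have := mul_nonneg (hc p).1 (hc q).1
        linarith
      exact (le_abs_self _).trans (abs_le_of_sq_le_sq h6 h7)
    refine (sum_le_sum h2).trans ?_
    rw [← sum_mul, hw1, one_mul]
  have hf1 : ∀ j ∈ J, ∀ p ∈ P, ∀ n, |f j p n| ≤ 1 := by
    intro j hj p hp n
    have h2 : (f j p n) ^ 2 ≤ ∑ j ∈ J, (f j p n) ^ 2 := single_le_sum (f := fun j => (f j p n) ^ 2) (fun j _ => sq_nonneg _) hj
    have h3 := hf p hp n
    have h4 : (c p) ^ 2 ≤ 1 := pow_le_one₀ (hc p).1 (hc p).2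
    exact abs_le_one_iff_mul_self_le_one.2 (by nlinarith)
  have hterm : ∀ p ∈ P, ∀ q ∈ P, ∑ j ∈ J, ∑ i ∈ Ω, w i * ((f j p (v i) - mean p (f j p)) * (f j q (v i) - mean q (f j q))) ≤
      (if p = q then 4 * (c p) ^ 2 else 0) + 4 * (if p ≠ q ∧ p * q ∈ S then h (p * q) else 0) + J.card * ((x : ℝ) ^ 2 * τ) := by
    intro p hp q hq
    have hnn : 0 ≤ (J.card : ℝ) * ((x : ℝ) ^ 2 * τ) := by positivity
    by_cases hpq : p = q
    · rw [if_pos hpq, if_neg (fun h => h.1 hpq), mul_zero]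
      have := htriv p hp q hq
      rw [← hpq] at this ⊢
      have e : c p * c p = c p ^ 2 := by ring
      rw [e] at this
      linarith
    · by_cases hin : p * q ∈ S
      · rw [if_neg hpq, if_pos ⟨hpq, hin⟩]
        linarith [htriv p hp q hq, hh p hp q hq]
      · rw [if_neg hpq, if_neg (fun h => hin h.2), zero_add, mul_zero, zero_add]
        rw [← nsmul_eq_mul]
        apply sum_le_card_nsmul
        intro j hj
        refine (le_abs_self _).trans ?_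
        refine (cov Ω w v p q (hP p hp).1 (hP q hq).1 hpq (f j p) (f j q) (hf1 j hj p hp) (hf1 j hj q hq)
          (hper j hj p hp) (hper j hj q hq) τ (hS p hp q hq hpq hin)).trans ?_
        apply mul_le_mul_of_nonneg_right _ hτ0
        rw [sq]
        exact mul_le_mul (by exact_mod_cast (hP p hp).2) (by exact_mod_cast (hP q hq).2) (Nat.cast_nonneg _) (Nat.cast_nonneg _)
  refine (sum_le_sum fun p hp => sum_le_sum fun q hq => hterm p hp q hq).trans ?_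
  simp only [sum_add_distrib]
  have e1 : ∑ p ∈ P, ∑ q ∈ P, (if p = q then 4 * (c p) ^ 2 else (0 : ℝ)) = 4 * ∑ p ∈ P, (c p) ^ 2 := by
    rw [sum_congr rfl (fun p hp => by rw [sum_ite_eq, if_pos hp]), mul_sum]
  have e2 : ∑ p ∈ P, ∑ q ∈ P, (J.card : ℝ) * ((x : ℝ) ^ 2 * τ) = J.card * ((P.card : ℝ) ^ 2 * (x : ℝ) ^ 2 * τ) := by
    rw [sum_const, sum_const, nsmul_eq_mul, nsmul_eq_mul]
    ring
  have e3 : ∑ p ∈ P, ∑ q ∈ P, 4 * (if p ≠ q ∧ p * q ∈ S then h (p * q) else 0) ≤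
      8 * ∑ m ∈ (Icc 1 (x ^ 2)).filter (fun m => m ∈ S), h m := by
    have h2 := pairs_le x P hP S h h0
    have h3 : ∑ p ∈ P, ∑ q ∈ P, 4 * (if p ≠ q ∧ p * q ∈ S then h (p * q) else 0) =
        4 * ∑ p ∈ P, ∑ q ∈ P, (if p ≠ q ∧ p * q ∈ S then h (p * q) else 0) := by
      rw [mul_sum]
      apply sum_congr rfl
      intro p _
      rw [mul_sum]
    rw [h3]
    linarith
  rw [e1, e2]
  linarith

open Classical in
/-- the second moment for the digit families, for the counting weights -/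
theorem vms (b : ℕ) (hb : 2 ≤ b) (A : ℕ) (γ : ℝ) (hγ0 : 0 < γ) (hγ1 : γ < 1) (D B : ℕ) (hD : 1 ≤ D) (hB : 2 ≤ B) : ∃ W : ℕ, 1 ≤ W ∧
    ∀ (F : ℕ) (κ : ℤ), 1 ≤ F → κ ≠ 0 → ∃ C : ℝ, 0 < C ∧ ∀ (k x : ℕ), b ≤ x → x ^ W ≤ b ^ k →
    ∀ (ι : Type) (Ω : Finset ι) (w : ι → ℝ) (v : ι → ℤ), Decays b F A k γ κ Ω w v →
    ∀ P : Finset ℕ, (∀ p ∈ P, p.Prime ∧ p ≤ x ∧ ¬ p ∣ b) → ∀ {α : Type} (J : Finset α) (f : α → ℕ → ℤ → ℝ),
      (∀ p ∈ P, ∀ n, ∑ j ∈ J, (f j p n) ^ 2 ≤ 1) → (∀ j ∈ J, ∀ p ∈ P, Per p (f j p)) →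
      ∑ j ∈ J, ∑ i ∈ Ω, w i * (∑ p ∈ P, (f j p (v i) - mean p (f j p))) ^ 2 ≤
        4 * P.card + C * (x : ℝ) ^ (2 / (D : ℝ)) + J.card * (x : ℝ) ^ 4 / (x : ℝ) ^ B := by
  obtain ⟨W, hW, H⟩ := good b hb A γ hγ0 hγ1 D B hD
  refine ⟨W, hW, fun F κ hF hκ => ?_⟩
  obtain ⟨S, C, hC, hcount, hgood⟩ := H F κ hF hκ
  refine ⟨8 * C, by positivity, fun k x hbx hxW ι Ω w v hdec P hP α J f hf hper => ?_⟩
  have hx1 : 1 ≤ x := by omega
  have hx0 : (0 : ℝ) < x := by exact_mod_cast hx1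
  have h1 := vvar Ω w hdec.nonneg hdec.sum v x P (fun p hp => ⟨(hP p hp).1, (hP p hp).2.1⟩) J f (fun _ => 1)
    (fun p => ⟨zero_le_one, le_refl _⟩) (by intro p hp n; rw [one_pow]; exact hf p hp n) hper (1 / (x : ℝ) ^ B) (by positivity) S
    (fun _ => 1) (fun _ => zero_le_one) (by intro p _ q _; norm_num) (by
      intro p hp q hq hpq hin a ha
      have hpp := (hP p hp).1
      have hqp := (hP q hq).1
      refine hgood k x hbx hxW ι Ω w v hdec (p * q) (Nat.mul_pos hpp.pos hqp.pos) ?_ hin ?_ a ha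
      · calc p * q ≤ x * x := Nat.mul_le_mul (hP p hp).2.1 (hP q hq).2.1
          _ = x ^ 2 := by ring
          _ ≤ x ^ B := Nat.pow_le_pow_right (by omega) hB
      · apply Nat.Coprime.mul_right
        · exact ((Nat.Prime.coprime_iff_not_dvd hpp).2 (hP p hp).2.2).symm
        · exact ((Nat.Prime.coprime_iff_not_dvd hqp).2 (hP q hq).2.2).symm)
  refine h1.trans ?_
  have h2 : ∑ p ∈ P, ((1 : ℝ)) ^ 2 = P.card := by simp
  have h3 : ∑ m ∈ (Icc 1 (x ^ 2)).filter (fun m => m ∈ S), (1 : ℝ) ≤ C * (x : ℝ) ^ (2 / (D : ℝ)) := by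
    rw [sum_const, nsmul_eq_mul, mul_one]
    refine (hcount (x ^ 2) _ (by
      intro m hm
      rw [mem_filter, mem_Icc] at hm
      exact ⟨hm.2, hm.1.1, hm.1.2⟩)).trans (le_of_eq ?_)
    congr 1
    push_cast
    rw [← Real.rpow_natCast, ← Real.rpow_mul hx0.le]
    congr 1
    push_cast
    ring
  have hPc : (P.card : ℝ) ≤ x := by
    have h1 : P ⊆ Icc 1 x := by
      intro p hp
      rw [mem_Icc]
      exact ⟨(hP p hp).1.one_le, (hP p hp).2.1⟩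
    have h2 := card_le_card h1
    rw [Nat.card_Icc, Nat.add_sub_cancel] at h2
    exact_mod_cast h2
  have h4 : (J.card : ℝ) * ((P.card : ℝ) ^ 2 * (x : ℝ) ^ 2 * (1 / (x : ℝ) ^ B)) ≤ J.card * (x : ℝ) ^ 4 / (x : ℝ) ^ B := by
    rw [mul_div_assoc]
    apply mul_le_mul_of_nonneg_left _ (Nat.cast_nonneg _)
    rw [mul_one_div]
    apply div_le_div_of_nonneg_right _ (by positivity)
    calc (P.card : ℝ) ^ 2 * (x : ℝ) ^ 2 ≤ (x : ℝ) ^ 2 * (x : ℝ) ^ 2 :=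
          mul_le_mul_of_nonneg_right (pow_le_pow_left₀ (Nat.cast_nonneg _) hPc _) (by positivity)
      _ = _ := by ring
  rw [h2]
  linarith

end Pool.Agent.R459.Eq
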