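import Pool.Agent.R459.Mir2
import Pool.Agent.R459.Shift

/-! Products of consecutive values of the Liouville function and correlations with a displaced factor. -/

set_option autoImplicit false

namespace Pool.Agent.R459.Half
open Finset

/-- The product `λ(a n + e) λ(a (n + 1) + e) ... λ(a (n + k - 1) + e)` of the values of the Liouville function at
`k` consecutive terms of a progression. For `a = 1` and `e = 0` it is `λ(n) λ(n + 1) ... λ(n + k - 1)`. -/
noncomputable def prodL (a e k n : ℕ) : ℝ := ∏ j ∈ range k, (-1 : ℝ) ^ ArithmeticFunction.cardFactors (a * (n + j) + e)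

/-- the Liouville function -/
noncomputable def lr (n : ℕ) : ℝ := (-1 : ℝ) ^ ArithmeticFunction.cardFactors n

lemma lr_sq (n : ℕ) : lr n * lr n = 1 := by
  unfold lr
  rw [← mul_pow]
  norm_num

lemma lr_abs (n : ℕ) : |lr n| = 1 := by
  unfold lr
  rw [abs_pow, abs_neg, abs_one, one_pow]

lemma prodL_sq (a e k n : ℕ) : prodL a e k n * prodL a e k n = 1 := by
  unfold prodL
  rw [← prod_mul_distrib]
  apply prod_eq_one
  intro j _
  exact lr_sq _

lemma prodL_abs (a e k n : ℕ) : |prodL a e k n| = 1 := by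
  unfold prodL
  rw [abs_prod]
  apply prod_eq_one
  intro j _
  exact lr_abs _

/-- the quotient of neighbouring products -/
noncomputable def ww (a e k n : ℕ) : ℝ := lr (a * n + e) * lr (a * (n + k) + e)

lemma ww_abs (a e k n : ℕ) : |ww a e k n| = 1 := by
  unfold ww
  rw [abs_mul, lr_abs, lr_abs, one_mul]

lemma step (a e k n : ℕ) : prodL a e k (n + 1) = prodL a e k n * ww a e k n := by
  have h1 : prodL a e (k + 1) n = prodL a e k n * lr (a * (n + k) + e) := by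
    unfold prodL lr
    rw [prod_range_succ]
  have h2 : prodL a e (k + 1) n = prodL a e k (n + 1) * lr (a * n + e) := by
    unfold prodL lr
    rw [prod_range_succ', add_zero]
    congr 1
    apply prod_congr rfl
    intro j _
    rw [show n + (j + 1) = n + 1 + j by ring]
  calc prodL a e k (n + 1) = prodL a e k (n + 1) * (lr (a * n + e) * lr (a * n + e)) := by rw [lr_sq, mul_one]
    _ = (prodL a e k (n + 1) * lr (a * n + e)) * lr (a * n + e) := by ring
    _ = (prodL a e k n * lr (a * (n + k) + e)) * lr (a * n + e) := by rw [← h2, h1]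
    _ = _ := by unfold ww; ring

/-- the coefficient of the pair -/
noncomputable def bb (ξ : ℕ → ℝ) (n : ℕ) : ℝ := (|ξ n + ξ (n + 1)| - |ξ n - ξ (n + 1)|) / 2

lemma bb_abs (ξ : ℕ → ℝ) (hξ : ∀ n, |ξ n| ≤ 1) (n : ℕ) : |bb ξ n| ≤ 1 := by
  unfold bb
  have h1 := hξ n
  have h2 := hξ (n + 1)
  rw [abs_le] at h1 h2 ⊢
  rcases abs_cases (ξ n + ξ (n + 1)) with h3 | h3 <;> rcases abs_cases (ξ n - ξ (n + 1)) with h4 | h4 <;>
    constructor <;> linarith

lemma pair_le (ξ : ℕ → ℝ) (hξ : ∀ n, |ξ n| ≤ 1) (n : ℕ) (w : ℝ) (hw : |w| = 1) :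
    |ξ n + ξ (n + 1) * w| ≤ 1 + bb ξ n * w := by
  unfold bb
  have h1 := hξ n
  have h2 := hξ (n + 1)
  rw [abs_le] at h1 h2
  have h5 : w = 1 ∨ w = -1 := by
    rcases abs_cases w with h | h
    · left; linarith
    · right; linarith
  rcases h5 with rfl | rfl
  · rw [mul_one, mul_one]
    rcases abs_cases (ξ n + ξ (n + 1)) with h3 | h3 <;> rcases abs_cases (ξ n - ξ (n + 1)) with h4 | h4 <;> linarith
  · have e1 : ξ n + ξ (n + 1) * -1 = ξ n - ξ (n + 1) := by ring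
    rw [e1]
    rcases abs_cases (ξ n + ξ (n + 1)) with h3 | h3 <;> rcases abs_cases (ξ n - ξ (n + 1)) with h4 | h4 <;> linarith

/-- the weights -/
noncomputable def gw (a e : ℕ) (ξ : ℕ → ℝ) (par n : ℕ) : ℝ := if n % 2 = par then bb ξ n * lr (a * n + e) else 0

lemma pairs (a e k : ℕ) (ξ : ℕ → ℝ) (hξ : ∀ n, |ξ n| ≤ 1) (Y M : ℕ) :
    |∑ n ∈ Ioc Y (Y + 2 * M), ξ n * prodL a e k n| ≤
      M + ∑ n ∈ Ioc Y (Y + 2 * M), gw a e ξ ((Y + 1) % 2) n * lr (a * (n + k) + e) := by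
  induction M with
  | zero => simp
  | succ M ih =>
    have e1 : Y + 2 * (M + 1) = Y + 2 * M + 1 + 1 := by ring
    rw [e1, sum_Ioc_succ_top (by omega), sum_Ioc_succ_top (by omega), sum_Ioc_succ_top (by omega),
      sum_Ioc_succ_top (by omega)]
    have h1 : gw a e ξ ((Y + 1) % 2) (Y + 2 * M + 1) = bb ξ (Y + 2 * M + 1) * lr (a * (Y + 2 * M + 1) + e) := by
      unfold gw
      rw [if_pos (by omega)]
    have h2 : gw a e ξ ((Y + 1) % 2) (Y + 2 * M + 1 + 1) = 0 := by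
      unfold gw
      rw [if_neg (by omega)]
    rw [h1, h2, zero_mul, add_zero, step a e k (Y + 2 * M + 1)]
    have h3 := pair_le ξ hξ (Y + 2 * M + 1) (ww a e k (Y + 2 * M + 1)) (ww_abs _ _ _ _)
    have h4 : |ξ (Y + 2 * M + 1) * prodL a e k (Y + 2 * M + 1) +
        ξ (Y + 2 * M + 1 + 1) * (prodL a e k (Y + 2 * M + 1) * ww a e k (Y + 2 * M + 1))| =
        |ξ (Y + 2 * M + 1) + ξ (Y + 2 * M + 1 + 1) * ww a e k (Y + 2 * M + 1)| := by
      have e2 : ξ (Y + 2 * M + 1) * prodL a e k (Y + 2 * M + 1) +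
        ξ (Y + 2 * M + 1 + 1) * (prodL a e k (Y + 2 * M + 1) * ww a e k (Y + 2 * M + 1)) =
        prodL a e k (Y + 2 * M + 1) * (ξ (Y + 2 * M + 1) + ξ (Y + 2 * M + 1 + 1) * ww a e k (Y + 2 * M + 1)) := by ring
      rw [e2, abs_mul, prodL_abs, one_mul]
    have h5 : bb ξ (Y + 2 * M + 1) * lr (a * (Y + 2 * M + 1) + e) * lr (a * (Y + 2 * M + 1 + k) + e) =
        bb ξ (Y + 2 * M + 1) * ww a e k (Y + 2 * M + 1) := by
      unfold ww
      ring
    rw [h5]
    have h6 := abs_add_le (∑ n ∈ Ioc Y (Y + 2 * M), ξ n * prodL a e k n) (ξ (Y + 2 * M + 1) * prodL a e k (Y + 2 * M + 1) +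
        ξ (Y + 2 * M + 1 + 1) * (prodL a e k (Y + 2 * M + 1) * ww a e k (Y + 2 * M + 1)))
    rw [← add_assoc] at h6
    rw [h4] at h6
    push_cast
    linarith

theorem half (a e k : ℕ) (ξ : ℕ → ℝ) (hξ : ∀ n, |ξ n| ≤ 1) (Z : ℕ) (E : ℝ)
    (hE : ∀ par < 2, ∀ X ≤ Z, |∑ n ∈ Icc 1 X, gw a e ξ par n * lr (a * (n + k) + e)| ≤ E) (Y X : ℕ) (hYX : Y ≤ X)
    (hX : X ≤ Z) : |∑ n ∈ Ioc Y X, ξ n * prodL a e k n| ≤ ((X : ℝ) - Y) / 2 + 1 / 2 + 2 * E := by
  obtain ⟨M, hM⟩ : ∃ M, M = (X - Y) / 2 := ⟨_, rfl⟩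
  have h1 := pairs a e k ξ hξ Y M
  have hsub : ∑ n ∈ Ioc Y (Y + 2 * M), gw a e ξ ((Y + 1) % 2) n * lr (a * (n + k) + e) =
      ∑ n ∈ Icc 1 (Y + 2 * M), gw a e ξ ((Y + 1) % 2) n * lr (a * (n + k) + e) -
      ∑ n ∈ Icc 1 Y, gw a e ξ ((Y + 1) % 2) n * lr (a * (n + k) + e) := by
    have h2 : Icc 1 (Y + 2 * M) = Icc 1 Y ∪ Ioc Y (Y + 2 * M) := by
      ext n
      simp only [mem_Icc, mem_union, mem_Ioc]
      omega
    rw [h2, sum_union (by
      rw [disjoint_left]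
      intro d hd
      simp only [mem_Icc, mem_Ioc] at hd ⊢
      omega)]
    ring
  have h3 := hE ((Y + 1) % 2) (Nat.mod_lt _ (by norm_num)) (Y + 2 * M) (by omega)
  have h4 := hE ((Y + 1) % 2) (Nat.mod_lt _ (by norm_num)) Y (by omega)
  rw [hsub] at h1
  rw [abs_le] at h3 h4
  have h5 : |∑ n ∈ Ioc Y (Y + 2 * M), ξ n * prodL a e k n| ≤ M + 2 * E := by linarith
  rcases Nat.even_or_odd (X - Y) with h6 | h6
  · obtain ⟨j, hj⟩ := h6
    have h7 : Y + 2 * M = X := by omega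
    have h8 : (M : ℝ) = ((X : ℝ) - Y) / 2 := by
      have : (Y : ℝ) + 2 * M = X := by exact_mod_cast h7
      linarith
    rw [h7] at h5
    linarith
  · obtain ⟨j, hj⟩ := h6
    have h7 : X = Y + 2 * M + 1 := by omega
    have h8 : (M : ℝ) + 1 = ((X : ℝ) - Y) / 2 + 1 / 2 := by
      have : (X : ℝ) = Y + 2 * M + 1 := by exact_mod_cast h7
      linarith
    rw [h7, sum_Ioc_succ_top (by omega)]
    have h9 := abs_add_le (∑ n ∈ Ioc Y (Y + 2 * M), ξ n * prodL a e k n) (ξ (Y + 2 * M + 1) * prodL a e k (Y + 2 * M + 1))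
    rw [abs_mul (ξ (Y + 2 * M + 1)), prodL_abs, mul_one] at h9
    have h10 := hξ (Y + 2 * M + 1)
    rw [h7] at h8
    linarith

end Pool.Agent.R459.Half
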