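import Pool.Agent.R459.Half

/-! Products of consecutive values of the Liouville function: the lengths near the members of structured families. -/

set_option autoImplicit false

namespace Pool.Agent.R459.Half
open Finset
open Pool.Agent.H373R2.T7 (exI liR liR_norm)

/-- The integer `v` is good: for ALL the lengths `k` at a distance of at most `R ^ W` from `v`, all the weights `ξ l`
and all the intervals `(Y, X]` with `X ≤ B N`, the sum of the products of `k` consecutive values of the Liouville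
function along the progression `a n + e`, with the weights `ξ l n`, over the `n` in the interval is at most half of the
length of the interval plus `N / R ^ U`. -/
def Good (B W U N : ℕ) (R : ℝ) (a e : ℕ) {L : ℕ} (ξ : Fin L → ℕ → ℝ) (v : ℤ) : Prop :=
  ∀ k : ℕ, |(k : ℝ) - v| ≤ R ^ W → ∀ l, ∀ Y X : ℕ, Y ≤ X → X ≤ B * N →
    |∑ n ∈ Ioc Y X, ξ l n * prodL a e k n| ≤ ((X : ℝ) - Y) / 2 + N / R ^ U

/-- the weights for the displaced factor -/
noncomputable def GG (a e : ℕ) {L : ℕ} (ξ : Fin L → ℕ → ℝ) (l n : ℕ) : ℂ :=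
  if h : l / 2 < L then ((gw a e (ξ ⟨l / 2, h⟩) (l % 2) n : ℝ) : ℂ) else 0

lemma GG_norm (a e : ℕ) {L : ℕ} (ξ : Fin L → ℕ → ℝ) (hξ : ∀ l n, |ξ l n| ≤ 1) (l n : ℕ) : ‖GG a e ξ l n‖ ≤ 1 := by
  unfold GG
  split_ifs with h
  · rw [Complex.norm_real, Real.norm_eq_abs]
    unfold gw
    split_ifs
    · rw [abs_mul, lr_abs, mul_one]
      exact bb_abs _ (hξ _) _
    · simp
  · simp

/-- a large sum with a shift near `y` -/
def BigR (f : ℕ → ℂ) (B W U N : ℕ) (R : ℝ) (L : ℕ) (α : ℕ → ℕ) (g : ℕ → ℕ → ℂ) (y : ℤ) : Prop :=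
  ∃ t : ℤ, |(t : ℝ)| ≤ R ^ W ∧ ∃ l < L, ∃ X : ℕ, α l * X ≤ B * N ∧
    (N : ℝ) / R ^ U < ‖∑ n ∈ Icc 1 X, g l n * exI f (((α l * n : ℕ) : ℤ) + (y + t))‖

lemma to_bigR (B W U N : ℕ) (R : ℝ) (a e : ℕ) (ha : 1 ≤ a) {L : ℕ} (ξ : Fin L → ℕ → ℝ) (hξ : ∀ l n, |ξ l n| ≤ 1) (v : ℤ)
    (hR4 : 4 ≤ R) (hRa : (a : ℝ) ≤ R) (hRN : R ^ U ≤ N) (h : ¬ Good B W U N R a e ξ v) :
    BigR liR (a * B) (W + 1) (U + 1) N R (L * 2) (fun _ => a) (GG a e ξ) (a * v + e) := by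
  by_contra hno
  apply h
  intro k hk l Y X hYX hX
  have hRU : 0 < R ^ U := by positivity
  have key := half a e k (ξ l) (hξ l) (B * N) (N / R ^ (U + 1)) (by
    intro par hpar Z hZ
    by_contra hcon
    push Not at hcon
    apply hno
    refine ⟨a * ((k : ℤ) - v), ?_, l * 2 + par, ?_, Z, ?_, ?_⟩
    · push_cast
      rw [abs_mul, Nat.abs_cast, pow_succ, mul_comm]
      exact mul_le_mul hk hRa (Nat.cast_nonneg _) (by positivity)
    · have := l.2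
      omega
    · calc a * Z ≤ a * (B * N) := Nat.mul_le_mul_left _ hZ
        _ = a * B * N := by ring
    · refine lt_of_lt_of_eq hcon ?_
      rw [← Real.norm_eq_abs, ← Complex.norm_real]
      push_cast
      congr 1
      apply sum_congr rfl
      intro n hn
      rw [mem_Icc] at hn
      have h1 : ((l : ℕ) * 2 + par) / 2 = l := by omega
      have h2 : ((l : ℕ) * 2 + par) % 2 = par := by omega
      have h3 : GG a e ξ ((l : ℕ) * 2 + par) n = ((gw a e (ξ l) par n : ℝ) : ℂ) := by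
        unfold GG
        simp only [h1, h2]
        rw [dif_pos l.2]
      rw [h3]
      congr 1
      have h4 : (a : ℤ) * n + ((a : ℤ) * v + e + a * ((k : ℤ) - v)) = ((a * (n + k) + e : ℕ) : ℤ) := by
        push_cast
        ring
      rw [h4]
      unfold exI lr liR
      have h5 : 1 ≤ a * (n + k) + e := by
        have : 1 * 1 ≤ a * (n + k) := Nat.mul_le_mul ha (by omega)
        omega
      rw [if_pos (by exact_mod_cast h5), Int.toNat_natCast]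
      push_cast
      rfl) Y X hYX hX
  have h1 : (1 : ℝ) / 2 ≤ (N / R ^ U) / 2 := by
    rw [div_le_div_iff_of_pos_right (by norm_num), le_div_iff₀ hRU, one_mul]
    exact hRN
  have h2 : 2 * (N / R ^ (U + 1)) ≤ (N / R ^ U) / 2 := by
    have h3 : 0 ≤ (N : ℝ) / R ^ U := by positivity
    rw [pow_succ, ← div_div]
    have h4 : (N : ℝ) / R ^ U / R ≤ (N : ℝ) / R ^ U / 4 := div_le_div_of_nonneg_left h3 (by norm_num) hR4
    linarith
  linarith

lemma bigR_big (B W U N k L : ℕ) (α : ℕ → ℕ) (g : ℕ → ℕ → ℂ) (y : ℤ) (h : BigR liR B W U N k L α g y) :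
    Big liR B W U N k L α g y := by
  obtain ⟨t, ht, h1⟩ := h
  refine ⟨t, ?_, h1⟩
  have : ((|t| : ℤ) : ℝ) ≤ (((k : ℤ) ^ W : ℤ) : ℝ) := by
    push_cast
    exact ht
  exact_mod_cast this

lemma GG_wts (B T N k : ℕ) (hk : 2 ≤ k) (a e : ℕ) (ha : 1 ≤ a) {L : ℕ} (ξ : Fin L → ℕ → ℝ) (hξ : ∀ l n, |ξ l n| ≤ 1)
    (hL : (L : ℝ) ≤ (k : ℝ) ^ T) : Wts B (T + 1) N k (L * 2) (fun _ => a) (GG a e ξ) := by
  have hk2 : (2 : ℝ) ≤ k := by exact_mod_cast hk
  refine ⟨?_, fun _ _ => ha, fun l _ n _ _ => (GG_norm a e ξ hξ l n).trans (one_le_pow₀ (by linarith))⟩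
  push_cast
  rw [pow_succ]
  exact mul_le_mul hL hk2 (by norm_num) (by positivity)

section perm
open Pool.Agent.TH872.An

theorem perm_half (b B T W U a : ℕ) (hb : 2 ≤ b) (ha : 1 ≤ a) (κ : ℤ) (hκ : κ ≠ 0) (η : ℝ) (hη : 0 < η) :
    ∃ k₀ : ℕ, ∀ k : ℕ, k₀ ≤ k → ∀ d : Fin k → ℕ, Spread b k η d → ∀ c : ℤ, |c| ≤ B * (b : ℤ) ^ k →
    ∀ e : ℕ, e ≤ B * b ^ k → ∀ (L : ℕ) (ξ : Fin L → ℕ → ℝ), (L : ℝ) ≤ (k : ℝ) ^ T → (∀ l n, |ξ l n| ≤ 1) →
    ∀ E : Equiv.Perm (Fin k) → Prop, [DecidablePred E] →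
    (∀ σ, E σ → ¬ Good B W U (b ^ k) k a e ξ (c + κ * (V b d σ : ℕ))) →
    ((univ.filter E).card : ℝ) ≤ k.factorial / (k : ℝ) ^ U := by
  classical
  obtain ⟨k1, h1⟩ := perm_corr b hb liR Pool.Agent.W93.LM.nice_liR (a * κ) (mul_ne_zero (by exact_mod_cast (by omega : a ≠ 0)) hκ)
    η hη ((a + 1) * B) (T + 1) (W + 1) (U + 1)
  obtain ⟨k2, h2⟩ := Pool.Agent.R459.Ell.pow_le_exp b U 1 hb le_rfl
  refine ⟨k1 + k2 + a + 4, fun k hk d hd c hc e he L ξ hL hξ E _ hE => ?_⟩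
  have hk4 : (4 : ℝ) ≤ k := by exact_mod_cast (by omega : 4 ≤ k)
  have hka : (a : ℝ) ≤ k := by exact_mod_cast (by omega : a ≤ k)
  have hkN : (k : ℝ) ^ U ≤ ((b ^ k : ℕ) : ℝ) := by
    have := h2 k (by omega)
    rw [one_mul] at this
    exact_mod_cast this
  have hc' : |(a : ℤ) * c + e| ≤ ((a + 1) * B : ℕ) * (b : ℤ) ^ k := by
    have h3 : (e : ℤ) ≤ B * (b : ℤ) ^ k := by exact_mod_cast he
    calc |(a : ℤ) * c + e| ≤ |(a : ℤ) * c| + |(e : ℤ)| := abs_add_le _ _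
      _ = a * |c| + e := by rw [abs_mul, Nat.abs_cast, Nat.abs_cast]
      _ ≤ a * (B * (b : ℤ) ^ k) + B * (b : ℤ) ^ k := add_le_add (mul_le_mul_of_nonneg_left hc (Nat.cast_nonneg _)) h3
      _ = _ := by push_cast; ring
  have key := h1 k (by omega) d hd (a * c + e) hc' (L * 2) (fun _ => a) (GG a e ξ)
    (GG_wts _ T _ k (by omega) a e ha ξ hξ hL) E (by
      intro σ hσ
      have h4 := bigR_big _ _ _ _ _ _ _ _ _ (to_bigR B W U (b ^ k) k a e ha ξ hξ _ hk4 hka hkN (hE σ hσ))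
      obtain ⟨t, ht, l, hl, X, hX, h5⟩ := h4
      refine ⟨t, ht, l, hl, X, hX.trans ?_, lt_of_lt_of_eq h5 ?_⟩
      · apply Nat.mul_le_mul_right
        nlinarith
      · congr 1
        apply sum_congr rfl
        intro n _
        congr 2
        ring)
  refine key.trans ?_
  exact div_le_div_of_nonneg_left (Nat.cast_nonneg _) (by positivity) (pow_le_pow_right₀ (by linarith) (by omega))

end perm

section mir
open Pool.Agent.TH872.Mir Pool.Agent.TH872.Tr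

theorem mir_half (b B T W U a : ℕ) (hb : 2 ≤ b) (ha : 1 ≤ a) (κ : ℤ) (hκ : κ ≠ 0) (η : ℝ) (hη : 0 < η) :
    ∃ k₀ : ℕ, ∀ k : ℕ, k₀ ≤ k → ∀ c : ℤ, |c| ≤ B * (b : ℤ) ^ k →
    ∀ e : ℕ, e ≤ B * b ^ k → ∀ (L : ℕ) (ξ : Fin L → ℕ → ℝ), (L : ℝ) ≤ (k : ℝ) ^ T → (∀ l n, |ξ l n| ≤ 1) →
      (∀ (w : ℕ → ℕ × ℕ → ℝ) (u : ℕ → ℝ), Pairs b k η w → (∀ a, 0 ≤ u a) → ∑ a ∈ range b, u a = 1 →
        Prob b k w u (fun d z => ¬ Good B W U (b ^ k) k a e ξ (value b k κ c d z)) ≤ 1 / (k : ℝ) ^ U) ∧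
      (num b k (fun v => ¬ Good B W U (b ^ k) k a e ξ (c + κ * v)) : ℝ) ≤ num b k (fun _ => True) / (k : ℝ) ^ U := by
  classical
  obtain ⟨k1, h1⟩ := transfer b ((a + 1) * B) (U + 1) hb (a * κ) _ (mir_corr b ((a + 1) * B) (T + 1) (W + 1) (U + 1) hb liR
    Pool.Agent.W93.LM.nice_liR (a * κ) (mul_ne_zero (by exact_mod_cast (by omega : a ≠ 0)) hκ)) η hη
  obtain ⟨k2, h2⟩ := Pool.Agent.R459.Ell.pow_le_exp b U 1 hb le_rfl
  refine ⟨k1 + k2 + a + 4, fun k hk c hc e he L ξ hL hξ => ?_⟩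
  have hk4 : (4 : ℝ) ≤ k := by exact_mod_cast (by omega : 4 ≤ k)
  have hka : (a : ℝ) ≤ k := by exact_mod_cast (by omega : a ≤ k)
  have hkN : (k : ℝ) ^ U ≤ ((b ^ k : ℕ) : ℝ) := by
    have := h2 k (by omega)
    rw [one_mul] at this
    exact_mod_cast this
  have hc' : |(a : ℤ) * c + e| ≤ ((a + 1) * B : ℕ) * (b : ℤ) ^ k := by
    have h3 : (e : ℤ) ≤ B * (b : ℤ) ^ k := by exact_mod_cast he
    calc |(a : ℤ) * c + e| ≤ |(a : ℤ) * c| + |(e : ℤ)| := abs_add_le _ _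
      _ = a * |c| + e := by rw [abs_mul, Nat.abs_cast, Nat.abs_cast]
      _ ≤ a * (B * (b : ℤ) ^ k) + B * (b : ℤ) ^ k := add_le_add (mul_le_mul_of_nonneg_left hc (Nat.cast_nonneg _)) h3
      _ = _ := by push_cast; ring
  have hbig : ∀ v : ℤ, ¬ Good B W U (b ^ k) k a e ξ v →
      Big liR ((a + 1) * B) (W + 1) (U + 1) (b ^ k) k (L * 2) (fun _ => a) (GG a e ξ) (a * v + e) := by
    intro v hv
    obtain ⟨t, ht, l, hl, X, hX, h5⟩ := bigR_big _ _ _ _ _ _ _ _ _ (to_bigR B W U (b ^ k) k a e ha ξ hξ _ hk4 hka hkN hv)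
    refine ⟨t, ht, l, hl, X, hX.trans ?_, h5⟩
    apply Nat.mul_le_mul_right
    nlinarith
  obtain ⟨h6, h7⟩ := h1 k (by omega) (a * c + e) hc'
    (fun y => ∃ v : ℤ, y = a * v + e ∧ ¬ Good B W U (b ^ k) k a e ξ v)
    ⟨L * 2, fun _ => a, GG a e ξ, GG_wts _ T _ k (by omega) a e ha ξ hξ hL, by
      rintro y ⟨v, rfl, hv⟩
      exact hbig v hv⟩
  have hkU : (k : ℝ) ^ U ≤ (k : ℝ) ^ (U + 1) := pow_le_pow_right₀ (by linarith) (by omega)
  have ha0 : (a : ℤ) ≠ 0 := by exact_mod_cast (by omega : a ≠ 0)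
  have hinj : ∀ v v' : ℤ, (a : ℤ) * v + e = a * v' + e → v = v' := by
    intro v v' h
    exact mul_left_cancel₀ ha0 (by linarith)
  refine ⟨fun w u hw hu hu1 => ?_, ?_⟩
  · refine le_trans (le_of_eq ?_) ((h6 w u hw hu hu1).trans
      (div_le_div_of_nonneg_left zero_le_one (by positivity) hkU))
    unfold Prob
    refine sum_congr rfl fun d _ => sum_congr rfl fun z _ => ?_
    have e1 : value b k (a * κ) (a * c + e) d z = a * value b k κ c d z + e := by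
      unfold value
      ring
    have e2 : (¬ Good B W U (b ^ k) k a e ξ (value b k κ c d z)) ↔
        ∃ v : ℤ, value b k (a * κ) (a * c + e) d z = a * v + e ∧ ¬ Good B W U (b ^ k) k a e ξ v := by
      rw [e1]
      constructor
      · intro h
        exact ⟨_, rfl, h⟩
      · rintro ⟨v, hv, h⟩
        rw [hinj _ _ hv]
        exact h
    simp only [e2]
  · have hE : (fun v : ℕ => ¬ Good B W U (b ^ k) k a e ξ (c + κ * v)) = fun v : ℕ =>
        ∃ v' : ℤ, (a : ℤ) * c + e + a * κ * v = a * v' + e ∧ ¬ Good B W U (b ^ k) k a e ξ v' := by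
      funext v
      apply propext
      constructor
      · intro h
        exact ⟨_, by ring, h⟩
      · rintro ⟨v', hv, h⟩
        have : c + κ * v = v' := hinj _ _ (by rw [← hv]; ring)
        rw [this]
        exact h
    rw [hE]
    exact h7.trans (div_le_div_of_nonneg_left (Nat.cast_nonneg _) (by positivity) hkU)

end mir

section quad
open Pool.Agent.TH872.GQ

theorem quad_half (b B T W U a : ℕ) (hb : 2 ≤ b) (ha : 1 ≤ a) (κ β : ℤ) (hκ : κ ≠ 0) :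
    ∃ k₀ : ℕ, ∀ k : ℕ, k₀ ≤ k → ∀ D : ℕ → Finset ℕ, (∀ i < k, D i ⊆ range b ∧ 2 ≤ (D i).card) →
    ∀ c : ℤ, |c| ≤ B * (b : ℤ) ^ (2 * k) →
    ∀ e : ℕ, e ≤ B * b ^ (2 * k) → ∀ (L : ℕ) (ξ : Fin L → ℕ → ℝ), (L : ℝ) ≤ (k : ℝ) ^ T → (∀ l n, |ξ l n| ≤ 1) →
    ∀ P : ℕ → Prop, [DecidablePred P] →
    (∀ m, P m → ¬ Good B W U (b ^ (2 * k)) k a e ξ (value κ β c m)) →
    (((S b D k).filter P).card : ℝ) ≤ (S b D k).card / (k : ℝ) ^ U := by
  classical
  obtain ⟨k1, h1⟩ := quad_corr b hb liR liR_norm Pool.Agent.H373R2.T7.sup_liou (a * κ) (a * β)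
    (mul_ne_zero (by exact_mod_cast (by omega : a ≠ 0)) hκ) ((a + 1) * B) (T + 1) (W + 1) (U + 1)
  obtain ⟨k2, h2⟩ := Pool.Agent.R459.Ell.pow_le_exp b U 2 hb (by norm_num)
  refine ⟨k1 + k2 + a + 4, fun k hk D hD c hc e he L ξ hL hξ P _ hP => ?_⟩
  have hk4 : (4 : ℝ) ≤ k := by exact_mod_cast (by omega : 4 ≤ k)
  have hka : (a : ℝ) ≤ k := by exact_mod_cast (by omega : a ≤ k)
  have hkN : (k : ℝ) ^ U ≤ ((b ^ (2 * k) : ℕ) : ℝ) := by
    have := h2 k (by omega)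
    exact_mod_cast this
  have hc' : |(a : ℤ) * c + e| ≤ ((a + 1) * B : ℕ) * (b : ℤ) ^ (2 * k) := by
    have h3 : (e : ℤ) ≤ B * (b : ℤ) ^ (2 * k) := by exact_mod_cast he
    calc |(a : ℤ) * c + e| ≤ |(a : ℤ) * c| + |(e : ℤ)| := abs_add_le _ _
      _ = a * |c| + e := by rw [abs_mul, Nat.abs_cast, Nat.abs_cast]
      _ ≤ a * (B * (b : ℤ) ^ (2 * k)) + B * (b : ℤ) ^ (2 * k) :=
          add_le_add (mul_le_mul_of_nonneg_left hc (Nat.cast_nonneg _)) h3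
      _ = _ := by push_cast; ring
  have key := h1 k (by omega) D hD (a * c + e) hc' (L * 2) (fun _ => a) (GG a e ξ)
    (GG_wts _ T _ k (by omega) a e ha ξ hξ hL) P (by
      intro m hm
      have h4 := bigR_big _ _ _ _ _ _ _ _ _ (to_bigR B W U (b ^ (2 * k)) k a e ha ξ hξ _ hk4 hka hkN (hP m hm))
      obtain ⟨t, ht, l, hl, X, hX, h5⟩ := h4
      refine ⟨t, ht, l, hl, X, hX.trans ?_, lt_of_lt_of_eq h5 ?_⟩
      · apply Nat.mul_le_mul_right
        nlinarith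
      · congr 1
        apply sum_congr rfl
        intro n _
        unfold value
        congr 2
        ring)
  refine key.trans ?_
  exact div_le_div_of_nonneg_left (Nat.cast_nonneg _) (by positivity) (pow_le_pow_right₀ (by linarith) (by omega))

end quad

end Pool.Agent.R459.Half
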