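import Pool.Agent.R459.Half2

/-! Products of consecutive values of the Liouville function: the lengths near the members of thin families. -/

set_option autoImplicit false

namespace Pool.Agent.R459.Half
open Finset
open Pool.Agent.H373R2.T7 (exI liR liR_norm ev_L' ev_log')

/-- The additive energy of order `p` of the family `s 1, ..., s x`: the number of the solutions of
`s (v 1) + ... + s (v p) = s (w 1) + ... + s (w p)` with all `v i`, `w i` in `{1, ..., x}`. -/
def energy (p x : ℕ) (s : ℕ → ℤ) : ℕ :=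
  (((Fintype.piFinset fun _ : Fin p => Icc 1 x) ×ˢ (Fintype.piFinset fun _ : Fin p => Icc 1 x)).filter
    (fun q => ∑ i, s (q.1 i) = ∑ i, s (q.2 i))).card

lemma energy_affine (p x a e : ℕ) (ha : 1 ≤ a) (s : ℕ → ℤ) : energy p x (fun m => a * s m + e) = energy p x s := by
  unfold energy
  congr 1
  apply filter_congr
  intro q _
  simp only [sum_add_distrib, ← mul_sum]
  have ha0 : (a : ℤ) ≠ 0 := by exact_mod_cast (by omega : a ≠ 0)
  constructor
  · intro h
    exact mul_left_cancel₀ ha0 (by linarith)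
  · intro h
    rw [h]

theorem fam_half (B C T W U a p : ℕ) (ha : 1 ≤ a) : ∃ N₀ : ℕ, ∀ N : ℕ, N₀ ≤ N → ∀ (x : ℕ) (s : ℕ → ℤ),
    (∀ m ∈ Icc 1 x, |s m| ≤ B * N) → (energy p x s : ℝ) * N ≤ Real.log N ^ C * (x : ℝ) ^ (2 * p) →
    ∀ e : ℕ, e ≤ B * N → ∀ (L : ℕ) (ξ : Fin L → ℕ → ℝ), (L : ℝ) ≤ Real.log N ^ T → (∀ l n, |ξ l n| ≤ 1) →
    ∀ E : ℕ → Prop, [DecidablePred E] → (∀ m, E m → ¬ Good B W U N (Real.log N) a e ξ (s m)) →
    (((Icc 1 x).filter E).card : ℝ) ≤ x / Real.log N ^ U := by
  classical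
  obtain ⟨n1, h1⟩ := Pool.Agent.R459.fam_near liR liR_norm Pool.Agent.H373R2.T7.sup_liou p ((a + 1) * B) C (T + 1) (W + 1)
    (U + 1)
  obtain ⟨n2, h2⟩ := ev_L' (a + 4)
  obtain ⟨n3, h3⟩ := ev_log' U 1
  refine ⟨n1 + n2 + n3, fun N hN x s hs hE e he L ξ hL hξ E _ hEm => ?_⟩
  have hlog := h2 N (by omega)
  have hlog4 : 4 ≤ Real.log (N : ℝ) := by
    have : (0 : ℝ) ≤ a := Nat.cast_nonneg a
    linarith
  have hloga : (a : ℝ) ≤ Real.log (N : ℝ) := by linarith
  have hNU : Real.log (N : ℝ) ^ U ≤ N := by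
    have h4 := h3 N (by omega)
    rw [one_mul] at h4
    have h5 : 1 ≤ N := by
      by_contra hcon
      have : N = 0 := by omega
      rw [this] at hlog4
      simp at hlog4
      linarith
    have h6 : (1 : ℝ) ≤ N := by exact_mod_cast h5
    have h7 : √(N : ℝ) ≤ N := by
      rw [Real.sqrt_le_left (by linarith)]
      nlinarith
    exact h4.trans h7
  have key := h1 N (by omega) x (fun m => a * s m + e) (by
      intro m hm
      have h4 := hs m hm
      have h5 : (e : ℤ) ≤ B * (N : ℤ) := by exact_mod_cast he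
      calc |(a : ℤ) * s m + e| ≤ |(a : ℤ) * s m| + |(e : ℤ)| := abs_add_le _ _
        _ = a * |s m| + e := by rw [abs_mul, Nat.abs_cast, Nat.abs_cast]
        _ ≤ a * (B * (N : ℤ)) + B * (N : ℤ) := add_le_add (mul_le_mul_of_nonneg_left h4 (Nat.cast_nonneg _)) h5
        _ = _ := by push_cast; ring) (by
      have h6 : energy p x (fun m => a * s m + e) = energy p x s := energy_affine p x a e ha s
      refine le_trans (le_of_eq ?_) hE
      rw [← h6]
      rfl) (L * 2) (by
      push_cast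
      rw [pow_succ]
      exact mul_le_mul hL (by linarith) (by norm_num) (by positivity)) (fun _ => a) (GG a e ξ) (fun _ _ => ha)
    (fun l _ n _ _ => (GG_norm a e ξ hξ l n).trans (one_le_pow₀ (by linarith))) E (by
      intro m _ hm
      obtain ⟨t, ht, l, hl, X, hX, h5⟩ := to_bigR B W U N (Real.log N) a e ha ξ hξ _ hlog4 hloga hNU (hEm m hm)
      refine ⟨t, ht, l, hl, X, hX.trans ?_, h5⟩
      apply Nat.mul_le_mul_right
      nlinarith)
  refine key.trans ?_
  exact div_le_div_of_nonneg_left (Nat.cast_nonneg _) (by positivity) (pow_le_pow_right₀ (by linarith) (by omega))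

end Pool.Agent.R459.Half
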