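import Pool.Agent.R459.Eq13

/-! Mean values over the digit families. -/

set_option autoImplicit false

namespace Pool.Agent.R459.Eq
open Finset
open Pool.Agent.R459.Fams
open Pool.Agent.TH872.An (V Spread)

open Classical in
lemma card_ind {α : Type} (s : Finset α) (Q : α → Prop) :
    ((s.filter (fun a => ¬ Q a)).card : ℝ) = ∑ a ∈ s, (if Q a then (0 : ℝ) else 1) := by
  rw [card_filter]
  push_cast
  apply sum_congr rfl
  intro a _
  by_cases h : Q a
  · rw [if_pos h, if_neg (not_not.2 h)]
  · rw [if_neg h, if_pos h]

open Classical in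
open Pool.Agent.TH872.Tr (num Prob Pairs value IsPalindrome) in
/-- The mean value of `f (c + κ v)` is at most `M`, if `v` runs through the following families of integers with `k`
digits in base `b`.
* The integers with the digits `d`, in an arbitrary order, where `d` are arbitrary `k` digits none of which is taken at
  more than `(1 - η) k` places. (`V b d σ` is the integer with the digit `d (σ i)` at the place `i`.)
* The palindromes with exactly `k` digits. (`num b k (fun _ => True)` is their number.)
* The random integers whose pairs of digits at the places `i` and `k - 1 - i` are independent of each other for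
  different `i < k / 2`, with arbitrary distributions `w i` such that, for `i ≥ 1`, two independent copies of the pair
  differ in both digits with a probability of at least `η` (if `k` is odd, `u` is the distribution of the middle digit,
  which is also independent of the pairs). (`value b k κ c d z` is `c + κ v`, where `v` has the pairs of digits `d i`
  and the middle digit `z`; the sum is the expectation.) -/
def Mean (b k : ℕ) (κ c : ℤ) (η M : ℝ) (f : ℤ → ℝ) : Prop :=
  (∀ d : Fin k → ℕ, Spread b k η d → ∑ σ : Equiv.Perm (Fin k), f (c + κ * (V b d σ : ℕ)) ≤ M * k.factorial) ∧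
  (∑ v ∈ (range (b ^ k)).filter (fun v => IsPalindrome b k v), f (c + κ * v) ≤ M * num b k (fun _ => True)) ∧
  (∀ (w : ℕ → ℕ × ℕ → ℝ) (u : ℕ → ℝ), Pairs b k η w → (∀ a, 0 ≤ u a) → ∑ a ∈ range b, u a = 1 →
    ∑ d ∈ Fintype.piFinset (fun _ : Fin (k / 2) => range b ×ˢ range b), ∑ z ∈ range b,
      f (value b k κ c d z) * ((∏ i : Fin (k / 2), w i (d i)) * u z) ≤ M)

open Classical in
open Pool.Agent.TH872.Tr (num Prob Pairs value IsPalindrome) in
/-- means from proportions -/
theorem mean_of {b k : ℕ} {κ c : ℤ} {η : ℝ} (f : ℤ → ℝ) (M₀ : ℝ) {α : Type} (R : Finset α) (G τ : α → ℝ)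
    (P : α → ℤ → Prop) (hG : ∀ r ∈ R, 0 ≤ G r) (hP : ∀ r ∈ R, Almost b k κ c η (τ r) (P r))
    (hf : ∀ v, f v ≤ M₀ + ∑ r ∈ R, G r * (if P r v then 0 else 1)) :
    Mean b k κ c η (M₀ + ∑ r ∈ R, G r * τ r) f := by
  refine ⟨fun d hd => ?_, ?_, fun w u hw hu hu1 => ?_⟩
  · calc ∑ σ : Equiv.Perm (Fin k), f (c + κ * (V b d σ : ℕ)) ≤
          ∑ σ : Equiv.Perm (Fin k), (M₀ + ∑ r ∈ R, G r * (if P r (c + κ * (V b d σ : ℕ)) then 0 else 1)) :=
            sum_le_sum fun σ _ => hf _
      _ = M₀ * k.factorial + ∑ r ∈ R, G r * count univ (fun σ : Equiv.Perm (Fin k) => ¬ P r (c + κ * (V b d σ : ℕ))) := by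
          rw [sum_add_distrib, sum_const, card_univ, Fintype.card_perm, Fintype.card_fin, nsmul_eq_mul, mul_comm (k.factorial : ℝ), sum_comm]
          congr 1
          apply sum_congr rfl
          intro r _
          rw [← mul_sum, count_eq, card_ind univ (fun σ : Equiv.Perm (Fin k) => P r (c + κ * (V b d σ : ℕ)))]
      _ ≤ M₀ * k.factorial + ∑ r ∈ R, G r * (τ r * k.factorial) := by
          have : ∑ r ∈ R, G r * count univ (fun σ : Equiv.Perm (Fin k) => ¬ P r (c + κ * (V b d σ : ℕ))) ≤ ∑ r ∈ R, G r * (τ r * k.factorial) :=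
            sum_le_sum fun r hr => mul_le_mul_of_nonneg_left ((hP r hr).1 d hd) (hG r hr)
          linarith
      _ = _ := by
          rw [add_mul, sum_mul]
          congr 1
          apply sum_congr rfl
          intro r _
          ring
  · calc ∑ v ∈ (range (b ^ k)).filter (fun v => IsPalindrome b k v), f (c + κ * v) ≤
          ∑ v ∈ (range (b ^ k)).filter (fun v => IsPalindrome b k v), (M₀ + ∑ r ∈ R, G r * (if P r (c + κ * v) then 0 else 1)) :=
            sum_le_sum fun v _ => hf _
      _ = M₀ * num b k (fun _ => True) + ∑ r ∈ R, G r * num b k (fun v => ¬ P r (c + κ * v)) := by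
          rw [sum_add_distrib, sum_const, nsmul_eq_mul, mul_comm _ M₀, sum_comm]
          congr 1
          · unfold num
            simp
          · apply sum_congr rfl
            intro r _
            rw [← mul_sum]
            unfold num
            rw [← filter_filter]
            congr 1
            convert (card_ind _ (fun v : ℕ => P r (c + κ * v))).symm
      _ ≤ M₀ * num b k (fun _ => True) + ∑ r ∈ R, G r * (τ r * num b k (fun _ => True)) := by
          have : ∑ r ∈ R, G r * (num b k (fun v => ¬ P r (c + κ * v)) : ℝ) ≤ ∑ r ∈ R, G r * (τ r * num b k (fun _ => True)) :=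
            sum_le_sum fun r hr => mul_le_mul_of_nonneg_left ((hP r hr).2.1) (hG r hr)
          linarith
      _ = _ := by
          rw [add_mul, sum_mul]
          congr 1
          apply sum_congr rfl
          intro r _
          ring
  · have hmass : ∑ d ∈ Fintype.piFinset (fun _ : Fin (k / 2) => range b ×ˢ range b), ∑ z ∈ range b,
        ((∏ i : Fin (k / 2), w i (d i)) * u z) = 1 := by
      have h1 : ∀ d ∈ Fintype.piFinset (fun _ : Fin (k / 2) => range b ×ˢ range b), ∑ z ∈ range b,
          ((∏ i : Fin (k / 2), w i (d i)) * u z) = ∏ i : Fin (k / 2), w i (d i) := by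
        intro d _
        rw [← mul_sum, hu1, mul_one]
      rw [sum_congr rfl h1, ← Finset.prod_univ_sum]
      apply prod_eq_one
      intro i _
      exact hw.sum i i.2
    have hnn : ∀ (d : Fin (k / 2) → ℕ × ℕ) (z : ℕ), 0 ≤ (∏ i : Fin (k / 2), w i (d i)) * u z := fun d z =>
      mul_nonneg (prod_nonneg fun i _ => hw.nonneg i i.2 _) (hu z)
    calc _ ≤ ∑ d ∈ Fintype.piFinset (fun _ : Fin (k / 2) => range b ×ˢ range b), ∑ z ∈ range b,
          (M₀ + ∑ r ∈ R, G r * (if P r (value b k κ c d z) then 0 else 1)) * ((∏ i : Fin (k / 2), w i (d i)) * u z) :=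
            sum_le_sum fun d _ => sum_le_sum fun z _ => mul_le_mul_of_nonneg_right (hf _) (hnn d z)
      _ = M₀ * (∑ d ∈ Fintype.piFinset (fun _ : Fin (k / 2) => range b ×ˢ range b), ∑ z ∈ range b,
        ((∏ i : Fin (k / 2), w i (d i)) * u z)) + ∑ r ∈ R, G r * Prob b k w u (fun d z => ¬ P r (value b k κ c d z)) := by
          unfold Prob
          simp only [mul_sum, add_mul, sum_add_distrib, sum_mul]
          congr 1
          have h2 : ∀ d ∈ Fintype.piFinset (fun _ : Fin (k / 2) => range b ×ˢ range b),
              ∑ z ∈ range b, ∑ r ∈ R, G r * (if P r (value b k κ c d z) then 0 else 1) * ((∏ i : Fin (k / 2), w i (d i)) * u z) =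
              ∑ r ∈ R, ∑ z ∈ range b, G r * (if P r (value b k κ c d z) then 0 else 1) * ((∏ i : Fin (k / 2), w i (d i)) * u z) := by
            intro d _
            rw [sum_comm]
          rw [sum_congr rfl h2, sum_comm]
          apply sum_congr rfl
          intro r _
          apply sum_congr rfl
          intro d _
          apply sum_congr rfl
          intro z _
          by_cases h : P r (value b k κ c d z)
          · rw [if_pos h, if_neg (not_not.2 h)]
            ring
          · rw [if_neg h, if_pos h]
            ring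
      _ ≤ M₀ * 1 + ∑ r ∈ R, G r * τ r := by
          rw [hmass]
          have : ∑ r ∈ R, G r * Prob b k w u (fun d z => ¬ P r (value b k κ c d z)) ≤ ∑ r ∈ R, G r * τ r :=
            sum_le_sum fun r hr => mul_le_mul_of_nonneg_left ((hP r hr).2.2 w u hw hu hu1) (hG r hr)
          linarith
      _ = _ := by rw [mul_one]

end Pool.Agent.R459.Eq
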