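import Pool.Agent.TH935.GF
import Pool.Agent.TH935.GF2

/-! Thin families: from the members to all the integers which are close to a member. -/

set_option autoImplicit false

namespace Pool.Agent.R459
open Finset
open Pool.Agent.TH935.GF (En)

lemma En_shift (h : ℕ) {ι : Type} [Fintype ι] (v : ι → ℤ) (s : ℤ) : En h (fun i => v i + s) = En h v := by
  unfold En
  congr 1
  simp only [sum_add_distrib, add_left_inj]

theorem nbhd (h B C W U : ℕ) (P : ℕ → Prop)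
    (H : ∀ B U : ℕ, ∃ N₀ : ℕ, ∀ N : ℕ, N₀ ≤ N → ∀ (ι : Type) [Fintype ι] (v : ι → ℤ),
      (∀ i, v i ≤ B * N) →
      (En h v : ℝ) * N ≤ Real.log N ^ C * (Fintype.card ι : ℝ) ^ (2 * h) →
      ∀ S : Finset ι, (∀ i ∈ S, 0 < v i ∧ Even (v i) ∧ ¬ P (v i).toNat) →
      (S.card : ℝ) ≤ Fintype.card ι / Real.log N ^ U) :
    ∃ N₀ : ℕ, ∀ N : ℕ, N₀ ≤ N → ∀ (ι : Type) [Fintype ι] (v : ι → ℤ),
      (∀ i, v i ≤ B * N) →
      (En h v : ℝ) * N ≤ Real.log N ^ C * (Fintype.card ι : ℝ) ^ (2 * h) →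
      ∀ S : Finset ι, (∀ i ∈ S, ∃ m : ℕ, 0 < m ∧ Even m ∧ |(((m : ℤ) - v i : ℤ) : ℝ)| ≤ Real.log N ^ W ∧ ¬ P m) →
      (S.card : ℝ) ≤ Fintype.card ι / Real.log N ^ U := by
  classical
  obtain ⟨n0, h0⟩ := H (B + 1) (U + W + 1)
  obtain ⟨n1, h1⟩ := Pool.Agent.H373R2.T7.ev_L' 3
  obtain ⟨n2, h2⟩ := Pool.Agent.H373R2.T7.ev_log' W 1
  refine ⟨n0 + n1 + n2 + 3, fun N hN ι _ v hv hE S hS => ?_⟩
  have hL := h1 N (by omega)
  have hW := h2 N (by omega)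
  have hN3 : (3 : ℝ) ≤ N := by exact_mod_cast (by omega : 3 ≤ N)
  obtain ⟨L, hLd⟩ : ∃ L, L = Real.log (N : ℝ) := ⟨_, rfl⟩
  have c0 := h0 N (by omega)
  rw [← hLd] at hL hW hE hS c0 ⊢
  rw [one_mul] at hW
  have hL0 : 0 < L := by linarith
  obtain ⟨Q, hQ⟩ : ∃ Q, Q = ⌊L ^ W⌋₊ := ⟨_, rfl⟩
  have hQ1 : (Q : ℝ) ≤ L ^ W := by rw [hQ]; exact Nat.floor_le (by positivity)
  have hsN : √(N : ℝ) ≤ N := by
    rw [Real.sqrt_le_left (by linarith)]
    nlinarith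
  have hQN : Q ≤ N := by exact_mod_cast hQ1.trans (hW.trans hsN)
  have key : ∀ s : ℤ, |s| ≤ Q → ∀ T : Finset ι, (∀ i ∈ T, 0 < v i + s ∧ Even (v i + s) ∧ ¬ P (v i + s).toNat) →
      (T.card : ℝ) ≤ Fintype.card ι / L ^ (U + W + 1) := by
    intro s hs T hT
    have hs' := abs_le.1 hs
    refine c0 ι (fun i => v i + s) (fun i => ?_) (by rw [En_shift]; exact hE) T hT
    have h3 := hv i
    have h4 : (Q : ℤ) ≤ N := by exact_mod_cast hQN
    push_cast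
    linarith [hs'.2]
  have hsub : S ⊆ (Icc (-(Q : ℤ)) Q).biUnion (fun s => S.filter (fun i => 0 < v i + s ∧ Even (v i + s) ∧
      ¬ P (v i + s).toNat)) := by
    intro i hi
    obtain ⟨m, m1, m2, m3, m4⟩ := hS i hi
    rw [mem_biUnion]
    have hms : |(m : ℤ) - v i| ≤ Q := by
      have h5 : (((|(m : ℤ) - v i|).toNat : ℕ) : ℝ) ≤ L ^ W := by
        refine le_trans (le_of_eq ?_) m3
        have h6 : (((|(m : ℤ) - v i|).toNat : ℕ) : ℤ) = |(m : ℤ) - v i| := Int.toNat_of_nonneg (abs_nonneg _)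
        have h7 := congrArg (Int.cast (R := ℝ)) h6
        rw [Int.cast_natCast] at h7
        rw [h7, Int.cast_abs]
      have h6 : (|(m : ℤ) - v i|).toNat ≤ Q := by rw [hQ]; exact Nat.le_floor h5
      omega
    refine ⟨(m : ℤ) - v i, ?_, ?_⟩
    · rw [mem_Icc]
      exact abs_le.1 hms
    · rw [mem_filter]
      have e : v i + ((m : ℤ) - v i) = m := by ring
      rw [e]
      refine ⟨hi, by exact_mod_cast m1, by exact_mod_cast m2, ?_⟩
      simpa using m4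
  have hc1 : (S.card : ℝ) ≤ ∑ s ∈ Icc (-(Q : ℤ)) Q, (Fintype.card ι / L ^ (U + W + 1) : ℝ) := by
    have h7 : S.card ≤ ∑ s ∈ Icc (-(Q : ℤ)) Q, (S.filter (fun i => 0 < v i + s ∧ Even (v i + s) ∧
        ¬ P (v i + s).toNat)).card := (card_le_card hsub).trans card_biUnion_le
    have h8 : (S.card : ℝ) ≤ ∑ s ∈ Icc (-(Q : ℤ)) Q, ((S.filter (fun i => 0 < v i + s ∧ Even (v i + s) ∧
        ¬ P (v i + s).toNat)).card : ℝ) := by exact_mod_cast h7
    refine h8.trans (sum_le_sum fun s hs => ?_)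
    rw [mem_Icc] at hs
    exact key s (abs_le.2 hs) _ (fun i hi => (mem_filter.1 hi).2)
  refine hc1.trans ?_
  rw [sum_const, nsmul_eq_mul]
  have hcard : ((Icc (-(Q : ℤ)) Q).card : ℝ) ≤ L ^ W * L := by
    rw [Int.card_Icc]
    have h9 : (((Q : ℤ) + 1 - -(Q : ℤ)).toNat : ℝ) = 2 * Q + 1 := by
      have : ((Q : ℤ) + 1 - -(Q : ℤ)).toNat = 2 * Q + 1 := by omega
      rw [this]
      push_cast
      ring
    rw [h9]
    have h10 : (1 : ℝ) ≤ L ^ W := one_le_pow₀ (by linarith)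
    nlinarith
  have hι : (0 : ℝ) ≤ Fintype.card ι := Nat.cast_nonneg _
  have hLU : 0 < L ^ (U + W + 1) := by positivity
  calc ((Icc (-(Q : ℤ)) Q).card : ℝ) * (Fintype.card ι / L ^ (U + W + 1))
      ≤ (L ^ W * L) * (Fintype.card ι / L ^ (U + W + 1)) := mul_le_mul_of_nonneg_right hcard (by positivity)
    _ = Fintype.card ι / L ^ U := by
        rw [pow_succ, pow_add]
        field_simp

lemma En_mul (h : ℕ) {ι : Type} [Fintype ι] (v : ι → ℤ) (c : ℤ) (hc : c ≠ 0) : En h (fun i => c * v i) = En h v := by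
  unfold En
  congr 1
  simp only [← mul_sum, mul_right_inj' hc]

/-- Goldbach pairs in windows for all the even integers `2 n`, `n` close to a member of a thin family -/
theorem near_double (h A B C W U m₀ : ℕ) (hh : 1 ≤ h) (ε : ℝ) (hε : 0 < ε) (P : ℕ → Prop)
    (hP : ∀ n : ℕ, m₀ ≤ 2 * n → Pool.Agent.W93.PG.WinP ε A (2 * n) → P n) :
    ∃ N₀ : ℕ, ∀ N : ℕ, N₀ ≤ N → ∀ (ι : Type) [Fintype ι] (v : ι → ℤ),
      (∀ i, v i ≤ B * N) →
      (En h v : ℝ) * N ≤ Real.log N ^ C * (Fintype.card ι : ℝ) ^ (2 * h) →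
      ∀ S : Finset ι, (∀ i ∈ S, ∃ n : ℕ, 0 < n ∧ |(((n : ℤ) - v i : ℤ) : ℝ)| ≤ Real.log N ^ W ∧ ¬ P n) →
      (S.card : ℝ) ≤ Fintype.card ι / Real.log N ^ U := by
  classical
  obtain ⟨N₀, h0⟩ := nbhd h (2 * B) C (W + 1) U (fun m => P (m / 2)) (by
    intro B U
    obtain ⟨N₀, h0⟩ := Pool.Agent.TH935.GF.transfer h B C U (fun m => P (m / 2)) (by
      intro B C U
      refine Pool.Agent.TH935.GF.fam_win h B C A U m₀ hh ε hε (fun m => P (m / 2)) ?_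
      intro m hm hm2 hw
      obtain ⟨n, rfl⟩ := hm2
      have : 2 * n / 2 = n := by omega
      simp only [this]
      exact hP n hm hw)
    exact ⟨N₀, h0⟩)
  obtain ⟨N₁, h1⟩ := Pool.Agent.H373R2.T7.ev_L' 2
  refine ⟨N₀ + N₁, fun N hN ι _ v hv hE S hS => ?_⟩
  have hL := h1 N (by omega)
  refine h0 N (by omega) ι (fun i => 2 * v i) (fun i => ?_) ?_ S ?_
  · have := hv i
    push_cast
    linarith
  · rw [En_mul h v 2 (by norm_num)]
    exact hE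
  · intro i hi
    obtain ⟨n, h2, h3, h4⟩ := hS i hi
    refine ⟨2 * n, by omega, even_two_mul n, ?_, ?_⟩
    · have e : (((2 * n : ℕ) : ℤ) - 2 * v i : ℤ) = 2 * ((n : ℤ) - v i) := by push_cast; ring
      rw [e, Int.cast_mul, abs_mul, pow_succ]
      have h5 : |((2 : ℤ) : ℝ)| = 2 := by norm_num
      rw [h5, mul_comm]
      have h6 : 0 ≤ Real.log (N : ℝ) ^ W := by positivity
      exact mul_le_mul h3 hL (by norm_num) h6
    · have : 2 * n / 2 = n := by omega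
      simp only [this]
      exact h4

/-- Goldbach pairs in all windows for all the even integers close to a member of a thin family -/
theorem near_even (h A B C W U m₀ : ℕ) (hh : 1 ≤ h) (ε : ℝ) (hε : 0 < ε) (P : ℕ → Prop)
    (hP : ∀ m : ℕ, m₀ ≤ m → 2 ∣ m → Pool.Agent.W93.PG.WinP ε A m → P m) :
    ∃ N₀ : ℕ, ∀ N : ℕ, N₀ ≤ N → ∀ (ι : Type) [Fintype ι] (v : ι → ℤ),
      (∀ i, v i ≤ B * N) →
      (En h v : ℝ) * N ≤ Real.log N ^ C * (Fintype.card ι : ℝ) ^ (2 * h) →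
      ∀ S : Finset ι, (∀ i ∈ S, ∃ m : ℕ, 0 < m ∧ Even m ∧ |(((m : ℤ) - v i : ℤ) : ℝ)| ≤ Real.log N ^ W ∧ ¬ P m) →
      (S.card : ℝ) ≤ Fintype.card ι / Real.log N ^ U :=
  nbhd h B C W U P (fun B U => Pool.Agent.TH935.GF.transfer h B C U P (fun B C U =>
    Pool.Agent.TH935.GF.fam_win h B C A U m₀ hh ε hε P hP))

end Pool.Agent.R459
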