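import Pool.Agent.R459.Tor1
import Pool.Agent.R459.Eq6

/-! The primes modulo which `F(x) = j v` has a simple solution. -/

set_option autoImplicit false

namespace Pool.Agent.R459.Tor
open Polynomial Finset
open Pool.Agent.R459.Eq

/-- `F(x) ≡ j v` has a simple solution modulo `p` -/
def Hit (F : ℤ[X]) (j : ℤ) (p : ℕ) (v : ℤ) : Prop :=
  ∃ a : ℤ, (p : ℤ) ∣ F.eval a - j * v ∧ ¬ (p : ℤ) ∣ F.derivative.eval a

open scoped Classical in
/-- the indicator function -/
noncomputable def hit (F : ℤ[X]) (j : ℤ) (p : ℕ) (v : ℤ) : ℝ := if Hit F j p v then 1 else 0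

lemma hit_mem (F : ℤ[X]) (j : ℤ) (p : ℕ) (v : ℤ) : 0 ≤ hit F j p v ∧ hit F j p v ≤ 1 := by
  unfold hit
  split_ifs <;> norm_num

lemma hit_per (F : ℤ[X]) (j : ℤ) (p : ℕ) : Per p (hit F j p) := by
  intro m n h
  have key : ∀ m n : ℤ, (p : ℤ) ∣ m - n → Hit F j p m → Hit F j p n := by
    rintro m n ⟨c, hc⟩ ⟨a, ⟨d, hd⟩, ha⟩
    refine ⟨a, ⟨d + j * c, ?_⟩, ha⟩
    linear_combination hd + j * hc
  have e : Hit F j p m ↔ Hit F j p n :=
    ⟨key m n h, key n m (by rw [← neg_sub]; exact (dvd_neg.2 h))⟩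
  unfold hit
  by_cases h1 : Hit F j p m
  · rw [if_pos h1, if_pos (e.1 h1)]
  · rw [if_neg h1, if_neg fun h2 => h1 (e.2 h2)]

lemma eval_map_int (F : ℤ[X]) (p : ℕ) (a : ℤ) : (F.map (Int.castRingHom (ZMod p))).eval (a : ZMod p) = ((F.eval a : ℤ) : ZMod p) := by
  rw [eval_intCast_map, Int.cast_id]
  rfl

theorem mean_hit (F : ℤ[X]) (hF : F.Monic) (n : ℕ) (hn : F.natDegree = n) (hn1 : 1 ≤ n) (j : ℤ) (p : ℕ) (hp : p.Prime)
    (hpn : 2 * n ≤ p) (hj : ¬ (p : ℤ) ∣ j) : 1 / (2 * (n : ℝ)) ≤ mean p (hit F j p) := by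
  classical
  have : Fact p.Prime := ⟨hp⟩
  obtain ⟨G, hG⟩ : ∃ G : (ZMod p)[X], G = F.map (Int.castRingHom (ZMod p)) := ⟨_, rfl⟩
  have hGm : G.Monic := by rw [hG]; exact hF.map _
  have hGn : G.natDegree = n := by rw [hG, hF.natDegree_map, hn]
  have hj0 : (j : ZMod p) ≠ 0 := by
    intro h
    exact hj ((ZMod.intCast_zmod_eq_zero_iff_dvd j p).1 h)
  have hd0 : derivative G ≠ 0 := by
    intro h
    have h1 : (derivative G).coeff (n - 1) = 0 := by rw [h, coeff_zero]
    rw [coeff_derivative, Nat.sub_add_cancel hn1, ← hGn, hGm.coeff_natDegree, one_mul, hGn] at h1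
    have h2 : ((n : ℕ) : ZMod p) = 0 := by
      have : ((n - 1 : ℕ) : ZMod p) + 1 = ((n : ℕ) : ZMod p) := by
        exact_mod_cast congrArg (Nat.cast : ℕ → ZMod p) (Nat.sub_add_cancel hn1)
      rw [← this]
      exact h1
    rw [ZMod.natCast_eq_zero_iff] at h2
    have := Nat.le_of_dvd (by omega) h2
    omega
  obtain ⟨A, hA⟩ : ∃ A : Finset (ZMod p), A = univ.filter (fun a => (derivative G).eval a ≠ 0) := ⟨_, rfl⟩
  obtain ⟨S, hS⟩ : ∃ S : Finset (ZMod p), S = univ.filter (fun v => ∃ a, G.eval a = (j : ZMod p) * v ∧ (derivative G).eval a ≠ 0) :=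
    ⟨_, rfl⟩
  have hA1 : p ≤ A.card + (n - 1) := by
    have h1 : (univ.filter (fun a : ZMod p => (derivative G).eval a = 0)).card ≤ n - 1 := by
      calc (univ.filter (fun a : ZMod p => (derivative G).eval a = 0)).card ≤ (derivative G).roots.toFinset.card := by
            apply card_le_card
            intro a ha
            rw [Finset.mem_filter] at ha
            rw [Multiset.mem_toFinset, mem_roots hd0]
            exact ha.2
        _ ≤ Multiset.card (derivative G).roots := Multiset.toFinset_card_le _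
        _ ≤ (derivative G).natDegree := card_roots' _
        _ ≤ n - 1 := by rw [← hGn]; exact natDegree_derivative_le G
    have h2 := Finset.card_filter_add_card_filter_not (s := (univ : Finset (ZMod p))) (fun a : ZMod p => (derivative G).eval a = 0)
    rw [card_univ, ZMod.card] at h2
    rw [hA]
    simp only [ne_eq]
    omega
  have hAS : A.card ≤ n * S.card := by
    apply card_le_mul_card_image_of_maps_to (f := fun a => (j : ZMod p)⁻¹ * G.eval a)
    · intro a ha
      rw [hA, Finset.mem_filter] at ha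
      rw [hS, Finset.mem_filter]
      refine ⟨mem_univ _, a, ?_, ha.2⟩
      field_simp
    · intro v _
      have hpol : G - C ((j : ZMod p) * v) ≠ 0 := by
        intro h
        have h1 : G = C ((j : ZMod p) * v) := sub_eq_zero.1 h
        have h2 : G.natDegree = 0 := by rw [h1, natDegree_C]
        omega
      calc (A.filter (fun a => (j : ZMod p)⁻¹ * G.eval a = v)).card ≤ (G - C ((j : ZMod p) * v)).roots.toFinset.card := by
            apply card_le_card
            intro a ha
            rw [Finset.mem_filter] at ha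
            rw [Multiset.mem_toFinset, mem_roots hpol, IsRoot, eval_sub, eval_C, ← ha.2]
            field_simp
            ring
        _ ≤ Multiset.card (G - C ((j : ZMod p) * v)).roots := Multiset.toFinset_card_le _
        _ ≤ (G - C ((j : ZMod p) * v)).natDegree := card_roots' _
        _ = n := by rw [natDegree_sub_C, hGn]
  have hS2 : S.card ≤ ((range p).filter (fun t : ℕ => Hit F j p (t : ℤ))).card := by
    apply card_le_card_of_injOn (fun v : ZMod p => v.val)
    · intro v hv
      rw [hS, Finset.coe_filter, Set.mem_ofPred_eq] at hv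
      obtain ⟨_, a, ha1, ha2⟩ := hv
      rw [Finset.coe_filter, Set.mem_ofPred_eq, Finset.mem_range]
      refine ⟨ZMod.val_lt v, (a.val : ℤ), ?_, ?_⟩
      · rw [← ZMod.intCast_zmod_eq_zero_iff_dvd, Int.cast_sub, ← eval_map_int, ← hG]
        push_cast
        rw [ZMod.natCast_zmod_val, ZMod.natCast_zmod_val, ha1, sub_self]
      · rw [← ZMod.intCast_zmod_eq_zero_iff_dvd, ← eval_map_int, ← derivative_map, ← hG]
        push_cast
        rw [ZMod.natCast_zmod_val]
        exact ha2
    · intro u _ v _ huv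
      exact ZMod.val_injective p huv
  have hsum : ∑ t ∈ range p, hit F j p t = (((range p).filter (fun t : ℕ => Hit F j p (t : ℤ))).card : ℝ) := by
    unfold hit
    rw [← sum_filter, sum_const, nsmul_eq_mul, mul_one]
  have hp0 : (0 : ℝ) < p := by exact_mod_cast hp.pos
  have hn0 : (0 : ℝ) < n := by exact_mod_cast (by omega : 0 < n)
  unfold mean
  rw [hsum, div_le_div_iff₀ (by positivity) hp0, one_mul]
  have h1 : p ≤ n * ((range p).filter (fun t : ℕ => Hit F j p (t : ℤ))).card + (n - 1) := by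
    have := Nat.mul_le_mul_left n hS2
    omega
  have h2 : p ≤ 2 * (n * ((range p).filter (fun t : ℕ => Hit F j p (t : ℤ))).card) := by omega
  have h3 : (p : ℝ) ≤ 2 * (n * (((range p).filter (fun t : ℕ => Hit F j p (t : ℤ))).card : ℝ)) := by exact_mod_cast h2
  linarith

end Pool.Agent.R459.Tor
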