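import Pool.Agent.R459.Tor3

/-! All polynomials of small height, all multipliers and all ranges at once. -/

set_option autoImplicit false

namespace Pool.Agent.R459.Tor
open Polynomial Finset
open Pool.Agent.R459.Eq
open Pool.Agent.H730R2.AA

/-- monic of degree `n` with coefficients of absolute value at most `H` -/
def Small (n : ℕ) (H : ℤ) (F : ℤ[X]) : Prop := F.Monic ∧ F.natDegree = n ∧ ∀ i, |F.coeff i| ≤ H

/-- for all the polynomials `F` and all `j` there are many primes modulo which `F(x) = j v` has a simple solution -/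
def Many (b n T A W k : ℕ) (v : ℤ) : Prop :=
  ∀ F : ℤ[X], Small n ((k : ℤ) ^ T) F → ∀ j : ℤ, j ≠ 0 → |j| ≤ (k : ℤ) ^ T → ∀ r : ℕ, k ^ A ≤ 2 ^ r →
    (2 ^ r) ^ W ≤ b ^ k → (Nat.primeCounting (2 ^ r) : ℝ) / (8 * n) ≤ (cntH F j (2 ^ r) v : ℝ)

lemma log_div_le (x : ℝ) (hx : 0 < x) (y : ℝ) (hy : 0 < y) (h : y ^ 2 ≤ x) : Real.log x / x ≤ 2 / y := by
  have hs : 0 < √x := Real.sqrt_pos.2 hx
  have hss : √x * √x = x := Real.mul_self_sqrt hx.le
  have hl : Real.log x ≤ 2 * √x := by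
    have h2 : Real.log x = 2 * Real.log (√x) := by rw [Real.log_sqrt hx.le]; ring
    have h3 := Real.log_le_sub_one_of_pos hs
    rw [h2]
    linarith
  have hy' : y ≤ √x := Real.le_sqrt_of_sq_le h
  rw [div_le_div_iff₀ hx hy]
  calc Real.log x * y ≤ (2 * √x) * √x := by
        apply mul_le_mul hl hy' hy.le (by positivity)
    _ = 2 * x := by rw [mul_assoc, hss]

theorem all_scale (b : ℕ) (hb : 2 ≤ b) (A₀ : ℕ) (γ : ℝ) (hγ0 : 0 < γ) (hγ1 : γ < 1) : ∃ W : ℕ, 1 ≤ W ∧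
    ∀ (F₀ : ℕ) (κ : ℤ), 1 ≤ F₀ → κ ≠ 0 → ∀ n : ℕ, 1 ≤ n → ∀ T U : ℕ,
    ∃ A k₀ : ℕ, 4 ≤ A ∧ 1 ≤ k₀ ∧ ∀ k : ℕ, k₀ ≤ k →
    ∀ (ι : Type) (Ω : Finset ι) (w : ι → ℝ) (v : ι → ℤ), Decays b F₀ A₀ k γ κ Ω w v →
    ∀ E : Finset ι, E ⊆ Ω → (∀ i ∈ E, ¬ Many b n T A W k (v i)) → ∑ i ∈ E, w i ≤ 1 / (k : ℝ) ^ U := by
  classical
  obtain ⟨W, hW, h⟩ := one_scale b hb A₀ γ hγ0 hγ1
  refine ⟨W, hW, fun F₀ κ hF₀ hκ n hn T U => ?_⟩
  obtain ⟨C₁, X₀, hC, hX₀, h1⟩ := h F₀ κ hF₀ hκ n hn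
  obtain ⟨a, ha⟩ : ∃ a, a = T * (n + 1) + U + 2 := ⟨_, rfl⟩
  obtain ⟨K, hK⟩ := exists_nat_ge (3 ^ (n + 1) * 4 * b * C₁)
  refine ⟨2 * a, X₀ + K + 1, by omega, by omega, fun k hk ι Ω w v hdec E hE hbad => ?_⟩
  have hk1 : 1 ≤ k := by omega
  have hkR : (1 : ℝ) ≤ k := by exact_mod_cast hk1
  have hk0 : (0 : ℝ) < k := by linarith
  obtain ⟨H, hH⟩ : ∃ H : ℤ, H = (k : ℤ) ^ T := ⟨_, rfl⟩
  have hH1 : 1 ≤ H := by rw [hH]; exact one_le_pow₀ (by exact_mod_cast hk1)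
  obtain ⟨Q, hQ⟩ : ∃ Q : Finset ((Fin n → ℤ) × ℤ × ℕ), Q = (Fintype.piFinset fun _ : Fin n => Icc (-H) H) ×ˢ
    (Icc (-H) H) ×ˢ (range (b * k + 1)) := ⟨_, rfl⟩
  obtain ⟨P, hP⟩ : ∃ P : (Fin n → ℤ) → ℤ[X], P = fun c => X ^ n + ∑ i : Fin n, C (c i) * X ^ (i : ℕ) := ⟨_, rfl⟩
  have hcov := wunion w E (fun i hi => hdec.nonneg i (hE hi)) Q
    (fun q i => Small n H (P q.1) ∧ q.2.1 ≠ 0 ∧ |q.2.1| ≤ H ∧ k ^ (2 * a) ≤ 2 ^ q.2.2 ∧ (2 ^ q.2.2) ^ W ≤ b ^ k ∧
      (cntH (P q.1) q.2.1 (2 ^ q.2.2) (v i) : ℝ) < (Nat.primeCounting (2 ^ q.2.2) : ℝ) / (8 * n)) (by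
      intro i hi
      have h2 := hbad i hi
      unfold Many at h2
      push Not at h2
      obtain ⟨F, hF, j, hj0, hjH, r, hr1, hr2, hr3⟩ := h2
      rw [← hH] at hF hjH
      have hPF : P (fun i : Fin n => F.coeff i) = F := by
        rw [hP]
        simp only
        rw [Fin.sum_univ_eq_sum_range (fun i => C (F.coeff i) * X ^ i) n]
        have := hF.1.as_sum
        rw [hF.2.1] at this
        exact this.symm
      refine ⟨(fun i : Fin n => F.coeff i, j, r), ?_, ?_⟩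
      · rw [hQ, Finset.mem_product, Finset.mem_product]
        refine ⟨?_, ?_, ?_⟩
        · rw [Fintype.mem_piFinset]
          intro i
          rw [Finset.mem_Icc]
          exact abs_le.1 (hF.2.2 i)
        · rw [Finset.mem_Icc]
          exact abs_le.1 hjH
        · rw [Finset.mem_range]
          show r < b * k + 1
          have h3 : 2 ^ r ≤ b ^ k := le_trans (Nat.le_self_pow (by omega) _) hr2
          have h4 : b ^ k ≤ 2 ^ (b * k) := by
            rw [pow_mul]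
            exact Nat.pow_le_pow_left Nat.lt_two_pow_self.le k
          have h5 := (Nat.pow_le_pow_iff_right (a := 2) (by norm_num)).1 (h3.trans h4)
          omega
      · simp only [hPF]
        exact ⟨hF, hj0, hjH, hr1, hr2, hr3⟩) (C₁ * (2 / (k : ℝ) ^ a)) (by
      rintro ⟨c, j, r⟩ _ E' hE' hE''
      rcases E'.eq_empty_or_nonempty with rfl | ⟨i0, hi0⟩
      · rw [sum_empty]
        positivity
      obtain ⟨hF, hj0, hjH, hr1, hr2, _⟩ := hE'' i0 hi0
      simp only at hF hj0 hjH hr1 hr2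
      have hka : k ^ (2 * a) ≤ 2 ^ r := hr1
      have hx1 : X₀ ≤ 2 ^ r := by
        have h3 : k ≤ k ^ (2 * a) := Nat.le_self_pow (by omega) k
        omega
      have hjj : j.natAbs * j.natAbs ≤ 2 ^ r := by
        have h3 : j.natAbs ≤ k ^ T := by
          have h4 : (j.natAbs : ℤ) ≤ ((k ^ T : ℕ) : ℤ) := by
            rw [Int.natCast_natAbs]
            push_cast
            rw [← hH]
            exact hjH
          exact_mod_cast h4
        calc j.natAbs * j.natAbs ≤ k ^ T * k ^ T := Nat.mul_le_mul h3 h3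
          _ = k ^ (2 * T) := by rw [← pow_add]; ring_nf
          _ ≤ k ^ (2 * a) := Nat.pow_le_pow_right hk1 (by
            have : T ≤ T * (n + 1) := Nat.le_mul_of_pos_right _ (by omega)
            omega)
          _ ≤ 2 ^ r := hka
      have h5 := h1 k (2 ^ r) hx1 hr2 ι Ω w v hdec (P c) j hF.1 hF.2.1 hj0 hjj E' (hE'.trans hE) (fun i hi => (hE'' i hi).2.2.2.2.2)
      refine h5.trans (mul_le_mul_of_nonneg_left ?_ hC.le)
      apply log_div_le _ (by positivity) _ (by positivity)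
      rw [← pow_mul, mul_comm a 2]
      exact_mod_cast hka)
  refine hcov.trans ?_
  have hcard : (Q.card : ℝ) ≤ (3 * (k : ℝ) ^ T) ^ (n + 1) * (2 * b * k) := by
    have h3 : (Icc (-H) H).card = (2 * H + 1).toNat := by
      rw [Int.card_Icc]
      congr 1
      ring
    have h4 : (((Icc (-H) H).card : ℕ) : ℝ) ≤ 3 * (k : ℝ) ^ T := by
      have h5 : (((2 * H + 1).toNat : ℕ) : ℤ) = 2 * H + 1 := Int.toNat_of_nonneg (by omega)
      have h6 : (((Icc (-H) H).card : ℕ) : ℝ) = 2 * (H : ℝ) + 1 := by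
        rw [h3]
        exact_mod_cast h5
      rw [h6]
      have h7 : (H : ℝ) = (k : ℝ) ^ T := by rw [hH]; push_cast; ring
      have h8 : (1 : ℝ) ≤ (k : ℝ) ^ T := one_le_pow₀ hkR
      rw [h7]
      linarith
    rw [hQ, card_product, card_product, Fintype.card_piFinset]
    simp only [prod_const, card_univ, Fintype.card_fin, card_range]
    push_cast
    have hb1 : (1 : ℝ) ≤ b := by exact_mod_cast (by omega : 1 ≤ b)
    calc ((Icc (-H) H).card : ℝ) ^ n * (((Icc (-H) H).card : ℝ) * (b * k + 1))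
        ≤ (3 * (k : ℝ) ^ T) ^ n * ((3 * (k : ℝ) ^ T) * (2 * b * k)) := by
          apply mul_le_mul (pow_le_pow_left₀ (Nat.cast_nonneg _) h4 _) _ (by positivity) (by positivity)
          apply mul_le_mul h4 _ (by positivity) (by positivity)
          nlinarith
      _ = _ := by rw [pow_succ]; ring
  have hUa : (k : ℝ) ^ a = (k : ℝ) ^ (T * (n + 1)) * (k : ℝ) ^ U * k * k := by
    rw [ha, pow_add, pow_add]
    ring
  calc (Q.card : ℝ) * (C₁ * (2 / (k : ℝ) ^ a)) ≤ ((3 * (k : ℝ) ^ T) ^ (n + 1) * (2 * b * k)) * (C₁ * (2 / (k : ℝ) ^ a)) :=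
        mul_le_mul_of_nonneg_right hcard (by positivity)
    _ = (3 ^ (n + 1) * 4 * b * C₁) / k * (1 / (k : ℝ) ^ U) := by
        rw [hUa, mul_pow, ← pow_mul]
        field_simp
        ring
    _ ≤ 1 * (1 / (k : ℝ) ^ U) := by
        apply mul_le_mul_of_nonneg_right _ (by positivity)
        rw [div_le_one hk0]
        refine hK.trans ?_
        exact_mod_cast (by omega : K ≤ k)
    _ = _ := one_mul _

end Pool.Agent.R459.Tor
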