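import Pool.Agent.R459.Tor4
import Pool.Agent.TH847.LG.Disc
import Pool.Agent.Results.MP_695920_nt.LogSavingAllDegrees

/-! From the primes to the class group. -/

set_option autoImplicit false

namespace Pool.Agent.R459.Tor
open Polynomial Finset NumberField
open Pool.Agent.R459.Eq
open Pool.Agent.H730R2.AA

lemma place_bound {K : Type} [Field K] [NumberField K] (F : ℤ[X]) (n : ℕ) (hn : 1 ≤ n) (H : ℤ) (hF : Small n H F) (α : K)
    (t : ℤ) (h : aeval α F = (t : K)) (w : InfinitePlace K) : w α ≤ 1 + n * H + |(t : ℝ)| := by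
  obtain ⟨hm, hd, hc⟩ := hF
  have hH0 : (0 : ℝ) ≤ H := by
    have := (abs_nonneg (F.coeff 0)).trans (hc 0)
    exact_mod_cast this
  have hw : ∀ m : ℤ, w (m : K) = |(m : ℝ)| := by
    intro m
    have h1 : w ((m : ℚ) : K) = |((m : ℚ) : ℝ)| := by
      rw [← InfinitePlace.norm_embedding_eq]
      simp
    simpa using h1
  by_cases hs : w α ≤ 1
  · have : 0 ≤ (n : ℝ) * H + |(t : ℝ)| := by positivity
    linarith
  push Not at hs
  have e1 : α ^ n = (t : K) - ∑ i ∈ range n, (F.coeff i : K) * α ^ i := by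
    have h2 : F = X ^ n + ∑ i ∈ range n, C (F.coeff i) * X ^ i := by
      have := hm.as_sum
      rwa [hd] at this
    have h3 : aeval α F = α ^ n + ∑ i ∈ range n, (F.coeff i : K) * α ^ i := by
      conv_lhs => rw [h2]
      simp [map_sum]
    rw [← h, h3]
    ring
  have hpos : 0 < w α := by linarith
  have h2 : (w α) ^ n ≤ (|(t : ℝ)| + n * H) * (w α) ^ (n - 1) := by
    have hge : (1 : ℝ) ≤ (w α) ^ (n - 1) := one_le_pow₀ hs.le
    have hsum : w (∑ i ∈ range n, (F.coeff i : K) * α ^ i) ≤ (n * H) * (w α) ^ (n - 1) := by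
      have h3 : w (∑ i ∈ range n, (F.coeff i : K) * α ^ i) ≤ ∑ i ∈ range n, w ((F.coeff i : K) * α ^ i) := by
        have := w.1.sum_le (range n) (fun i => (F.coeff i : K) * α ^ i)
        exact this
      refine h3.trans ?_
      calc ∑ i ∈ range n, w ((F.coeff i : K) * α ^ i) ≤ ∑ _i ∈ range n, (H : ℝ) * (w α) ^ (n - 1) := by
            apply sum_le_sum
            intro i hi
            rw [Finset.mem_range] at hi
            rw [map_mul, map_pow, hw]
            apply mul_le_mul _ (pow_le_pow_right₀ hs.le (by omega)) (by positivity) hH0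
            have := hc i
            exact_mod_cast this
        _ = _ := by rw [sum_const, card_range, nsmul_eq_mul]; ring
    calc (w α) ^ n = w (α ^ n) := (map_pow w α n).symm
      _ = w ((t : K) - ∑ i ∈ range n, (F.coeff i : K) * α ^ i) := by rw [e1]
      _ ≤ w (t : K) + w (∑ i ∈ range n, (F.coeff i : K) * α ^ i) := by
          have := w.1.sub_le_add (t : K) (∑ i ∈ range n, (F.coeff i : K) * α ^ i)
          exact this
      _ ≤ |(t : ℝ)| * (w α) ^ (n - 1) + (n * H) * (w α) ^ (n - 1) := by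
          rw [hw]
          apply add_le_add _ hsum
          exact le_mul_of_one_le_right (abs_nonneg _) hge
      _ = _ := by ring
  have h3 : (w α) ^ n = w α * (w α) ^ (n - 1) := by
    rw [← pow_succ', Nat.sub_add_cancel hn]
  rw [h3] at h2
  have h4 := le_of_mul_le_mul_right h2 (pow_pos hpos _)
  linarith

lemma primes_dvd (D : ℕ) (hD : D ≠ 0) (S : Finset ℕ) (hS : ∀ p ∈ S, p.Prime ∧ p ∣ D) : 2 ^ S.card ≤ D := by
  have h1 : S ⊆ D.primeFactors := by
    intro p hp
    rw [Nat.mem_primeFactors]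
    exact ⟨(hS p hp).1, (hS p hp).2, hD⟩
  calc 2 ^ S.card ≤ 2 ^ D.primeFactors.card := Nat.pow_le_pow_right (by norm_num) (card_le_card h1)
    _ ≤ ∏ p ∈ D.primeFactors, p := Finset.pow_card_le_prod _ _ _ fun p hp => (Nat.prime_of_mem_primeFactors hp).two_le
    _ ≤ D := Nat.le_of_dvd (Nat.pos_of_ne_zero hD) (Nat.prod_primeFactors_dvd D)

lemma log_pow_le (n : ℕ) (u : ℝ) (hu : 1 ≤ u) : (Real.log (u + 2)) ^ n / u ≤ 3 * n.factorial := by
  have h1 : 0 ≤ Real.log (u + 2) := Real.log_nonneg (by linarith)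
  have h2 := Real.pow_div_factorial_le_exp _ h1 n
  rw [Real.exp_log (by linarith), div_le_iff₀ (by positivity)] at h2
  rw [div_le_iff₀ (by linarith)]
  have h3 : (0 : ℝ) < n.factorial := by exact_mod_cast n.factorial_pos
  calc (Real.log (u + 2)) ^ n ≤ (u + 2) * n.factorial := h2
    _ ≤ (3 * u) * n.factorial := by
        apply mul_le_mul_of_nonneg_right _ h3.le
        linarith
    _ = _ := by ring

end Pool.Agent.R459.Tor
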