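import Pool.Agent.R459.Tor6

/-! The bound for the torsion of the class group, with one scale. -/

set_option autoImplicit false

namespace Pool.Agent.R459.Tor
open Polynomial Finset NumberField Filter
open Pool.Agent.R459.Eq
open Pool.Agent.H730R2.AA
open Pool.Agent.Results.MP_695920_nt.LogSavingAllDegrees (smallNorms)

theorem class_bound1 (b : ℕ) (hb : 2 ≤ b) (n : ℕ) (hn : 2 ≤ n) (T A W V : ℕ) (hA : 4 ≤ A) (hW : 1 ≤ W) :
    ∃ B k₀ : ℕ, 1 ≤ k₀ ∧ ∀ k : ℕ, k₀ ≤ k → ∀ v : ℤ, |v| ≤ (b : ℤ) ^ (V * k) →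
    ∀ F : ℤ[X], Small n ((k : ℤ) ^ T) F → ∀ j : ℤ, j ≠ 0 → |j| ≤ (k : ℤ) ^ T → ∀ ℓ : ℕ, 1 ≤ ℓ → ℓ ≤ k ^ T →
    ∀ (K : Type) [Field K] [NumberField K] (α : K), Module.finrank ℚ K = n → IntermediateField.adjoin ℚ {α} = ⊤ →
      aeval α F = ((j * v : ℤ) : K) →
      (Nat.card {c : ClassGroup (𝓞 K) // c ^ ℓ = 1} : ℝ) ≤ (k : ℝ) ^ B * √|(discr K : ℝ)| ∧
      ((∀ r : ℕ, k ^ A ≤ 2 ^ r → (2 ^ r) ^ W ≤ b ^ k →
        600 * (2 : ℝ) ^ r ≤ |(discr K : ℝ)| ^ (1 / ((n * (n - 1) * ℓ : ℕ) : ℝ)) →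
        min (|(discr K : ℝ)| ^ (1 / ((n * (n - 1) * ℓ : ℕ) : ℝ)) / 600) ((b : ℝ) ^ ((k : ℝ) / W)) < 2 * (2 : ℝ) ^ r →
        (Nat.primeCounting (2 ^ r) : ℝ) / (8 * n) ≤ (cntH F j (2 ^ r) v : ℝ)) →
      (Nat.card {c : ClassGroup (𝓞 K) // c ^ ℓ = 1} : ℝ) ≤ (k : ℝ) ^ B * √|(discr K : ℝ)| *
        max (|(discr K : ℝ)| ^ (-(1 / ((n * (n - 1) * ℓ : ℕ) : ℝ)))) ((b : ℝ) ^ (-((k : ℝ) / W)))) := by
  classical
  obtain ⟨C₁, hC, hmain⟩ := Pool.Agent.Results.MP_695920_nt.LogSavingAllDegrees.result n hn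
  have hn0 : (0 : ℝ) < n := by exact_mod_cast (by omega : 0 < n)
  have hbR : (2 : ℝ) ≤ b := by exact_mod_cast hb
  have hWR : (1 : ℝ) ≤ W := by exact_mod_cast hW
  obtain ⟨E, hE⟩ : ∃ E : ℕ, E = b * (V + 2) * (n * (n - 1)) := ⟨_, rfl⟩
  obtain ⟨k1, hk1⟩ := ev_pow (2 * ((n : ℝ) + 2)) (by positivity) T 2 (by norm_num)
  obtain ⟨k2, hk2⟩ := ev_pow 2 (by norm_num) A ((2 : ℝ) ^ (1 / (W : ℝ))) (Real.one_lt_rpow (by norm_num) (by positivity))
  obtain ⟨c1, hc1⟩ : ∃ c1 : ℝ, c1 = C₁ * (3 * n.factorial) * ((E : ℝ) + 2) ^ n * (16 * n) * (4 * b) * 1200 := ⟨_, rfl⟩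
  obtain ⟨c2, hc2⟩ : ∃ c2 : ℝ, c2 = C₁ * (3 * n.factorial) * 1200 := ⟨_, rfl⟩
  have hfac : (0 : ℝ) < n.factorial := by exact_mod_cast n.factorial_pos
  have hc1p : 0 < c1 := by rw [hc1]; positivity
  have hc2p : 0 < c2 := by rw [hc2]; positivity
  obtain ⟨k3, hk3⟩ := exists_nat_ge (c1 + c2)
  refine ⟨T * n + n + A + 3, k1 + k2 + k3 + 128 * n * E + 4, by omega, fun k hk v hv F hF j hj0 hj ℓ hℓ hℓT K _ _ α hfin hα h => ?_⟩
  have hk1' : 1 ≤ k := by omega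
  have hkR : (1 : ℝ) ≤ k := by exact_mod_cast hk1'
  have hk0 : (0 : ℝ) < k := by linarith
  have hDle := disc_le b n T V k hb hn hk1' (hk1 k (by omega)) v hv F hF j hj K α hfin hα h
  rw [← hE] at hDle
  have hD2 : 2 < |discr K| := abs_discr_gt_two (by omega)
  have hDn : |(discr K : ℝ)| = ((discr K).natAbs : ℝ) := by
    rw [Nat.cast_natAbs, Int.cast_abs]
  have hD3 : 3 ≤ (discr K).natAbs := by
    have : (2 : ℤ) < ((discr K).natAbs : ℤ) := by rw [Int.natCast_natAbs]; exact hD2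
    omega
  obtain ⟨D, hD⟩ : ∃ D : ℕ, D = (discr K).natAbs := ⟨_, rfl⟩
  rw [← hD] at hDle hDn hD3
  have hDR : (3 : ℝ) ≤ D := by exact_mod_cast hD3
  have hD0 : (0 : ℝ) < D := by linarith
  have hu : 1 ≤ Real.log (D : ℝ) := by
    rw [Real.le_log_iff_exp_le hD0]
    linarith [Real.exp_one_lt_d9]
  have hres := (hmain ℓ hℓ K hfin).2
  rw [hDn] at hres
  rw [← hD] at hres
  have hℓn : (ℓ : ℝ) ^ n ≤ (k : ℝ) ^ (T * n) := by
    rw [pow_mul]
    apply pow_le_pow_left₀ (Nat.cast_nonneg _)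
    exact_mod_cast hℓT
  have hlp := log_pow_le n _ hu
  have hll0 : 0 ≤ Real.log (Real.log (D : ℝ) + 2) := Real.log_nonneg (by linarith)
  have hu0 : 0 < Real.log (D : ℝ) := by linarith
  have hck20 : c2 ≤ k := by
    have h1 : (k3 : ℝ) ≤ k := by exact_mod_cast (by omega : k3 ≤ k)
    linarith
  refine ⟨?_, fun hgood => ?_⟩
  · rw [hDn]
    calc (Nat.card {c : ClassGroup (𝓞 K) // c ^ ℓ = 1} : ℝ)
        ≤ C₁ * (ℓ : ℝ) ^ n * (Real.log (Real.log (D : ℝ) + 2)) ^ n * (√(D : ℝ) / Real.log (D : ℝ)) := hres.1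
      _ = C₁ * (ℓ : ℝ) ^ n * ((Real.log (Real.log (D : ℝ) + 2)) ^ n / Real.log (D : ℝ)) * √(D : ℝ) := by ring
      _ ≤ C₁ * (k : ℝ) ^ (T * n) * (3 * n.factorial) * √(D : ℝ) := by gcongr
      _ ≤ c2 * (k : ℝ) ^ (T * n) * √(D : ℝ) := by
          rw [hc2]
          have h0 : 0 ≤ C₁ * (3 * n.factorial) * (k : ℝ) ^ (T * n) * √(D : ℝ) := by positivity
          linarith
      _ ≤ k * (k : ℝ) ^ (T * n) * √(D : ℝ) := by gcongr
      _ = (k : ℝ) ^ (T * n + 1) * √(D : ℝ) := by rw [pow_succ]; ring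
      _ ≤ (k : ℝ) ^ (T * n + n + A + 3) * √(D : ℝ) := by
          apply mul_le_mul_of_nonneg_right _ (by positivity)
          exact pow_le_pow_right₀ hkR (by omega)
  simp only [hDn] at hgood
  have hM : 0 < n * (n - 1) * ℓ := by
    have : 0 < n - 1 := by omega
    positivity
  have hMR : (0 : ℝ) < ((n * (n - 1) * ℓ : ℕ) : ℝ) := by exact_mod_cast hM
  rw [hDn]
  obtain ⟨y, hy⟩ : ∃ y : ℝ, y = (D : ℝ) ^ (1 / ((n * (n - 1) * ℓ : ℕ) : ℝ)) := ⟨_, rfl⟩
  have hy0 : 0 < y := by rw [hy]; positivity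
  have hyM : y ^ (n * (n - 1) * ℓ) = D := by
    rw [hy, ← Real.rpow_natCast, ← Real.rpow_mul hD0.le, one_div, inv_mul_cancel₀ hMR.ne', Real.rpow_one]
  have hyinv : (D : ℝ) ^ (-(1 / ((n * (n - 1) * ℓ : ℕ) : ℝ))) = 1 / y := by
    rw [Real.rpow_neg hD0.le, ← hy, one_div]
  obtain ⟨β, hβ⟩ : ∃ β : ℝ, β = (b : ℝ) ^ ((k : ℝ) / W) := ⟨_, rfl⟩
  have hβ0 : 0 < β := by rw [hβ]; positivity
  have hβinv : (b : ℝ) ^ (-((k : ℝ) / W)) = 1 / β := by
    rw [Real.rpow_neg (by linarith), hβ, one_div]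
  have hβW : β ^ W = (b : ℝ) ^ k := by
    rw [hβ, ← Real.rpow_natCast, ← Real.rpow_mul (by linarith), div_mul_cancel₀ _ (by positivity), Real.rpow_natCast]
  rw [hyinv, hβinv]
  have hβA : 2 * (k : ℝ) ^ A ≤ β := by
    refine (hk2 k (by omega)).trans ?_
    rw [hβ, ← Real.rpow_natCast, ← Real.rpow_mul (by norm_num)]
    have e : 1 / (W : ℝ) * (k : ℝ) = (k : ℝ) / W := by ring
    rw [e]
    exact Real.rpow_le_rpow (by norm_num) hbR (by positivity)
  have hck1 : c1 ≤ k := by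
    have h1 : (k3 : ℝ) ≤ k := by exact_mod_cast (by omega : k3 ≤ k)
    linarith
  have hck2 : c2 ≤ k := by
    have h1 : (k3 : ℝ) ≤ k := by exact_mod_cast (by omega : k3 ≤ k)
    linarith
  obtain ⟨μ, hμ⟩ : ∃ μ : ℝ, μ = max (1 / y) (1 / β) := ⟨_, rfl⟩
  have hμ0 : 0 < μ := by rw [hμ]; exact lt_max_of_lt_left (by positivity)
  rw [← hμ]
  by_cases hcase : y < 1200 * (k : ℝ) ^ A
  · -- small discriminants
    have h1 := hres.1
    have h2 : (1 : ℝ) ≤ 1200 * (k : ℝ) ^ A * μ := by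
      have h3 : 1 / y ≤ μ := by rw [hμ]; exact le_max_left _ _
      have h4 : 1 ≤ 1200 * (k : ℝ) ^ A * (1 / y) := by
        rw [mul_one_div, le_div_iff₀ hy0]
        linarith
      exact h4.trans (mul_le_mul_of_nonneg_left h3 (by positivity))
    calc (Nat.card {c : ClassGroup (𝓞 K) // c ^ ℓ = 1} : ℝ)
        ≤ C₁ * (ℓ : ℝ) ^ n * (Real.log (Real.log (D : ℝ) + 2)) ^ n * (√(D : ℝ) / Real.log (D : ℝ)) := h1
      _ = C₁ * (ℓ : ℝ) ^ n * ((Real.log (Real.log (D : ℝ) + 2)) ^ n / Real.log (D : ℝ)) * √(D : ℝ) := by ring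
      _ ≤ C₁ * (k : ℝ) ^ (T * n) * (3 * n.factorial) * √(D : ℝ) := by gcongr
      _ ≤ C₁ * (k : ℝ) ^ (T * n) * (3 * n.factorial) * √(D : ℝ) * (1200 * (k : ℝ) ^ A * μ) :=
          le_mul_of_one_le_right (by positivity) h2
      _ = c2 * (k : ℝ) ^ (T * n + A) * (√(D : ℝ) * μ) := by rw [hc2, pow_add]; ring
      _ ≤ k * (k : ℝ) ^ (T * n + A) * (√(D : ℝ) * μ) := by gcongr
      _ = (k : ℝ) ^ (T * n + A + 1) * (√(D : ℝ) * μ) := by rw [pow_succ]; ring
      _ ≤ (k : ℝ) ^ (T * n + n + A + 3) * (√(D : ℝ) * μ) := by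
          apply mul_le_mul_of_nonneg_right _ (by positivity)
          exact pow_le_pow_right₀ hkR (by omega)
      _ = _ := by ring
  · push Not at hcase
    obtain ⟨z, hz⟩ : ∃ z : ℝ, z = min (y / 600) β := ⟨_, rfl⟩
    have hzA : 2 * (k : ℝ) ^ A ≤ z := by
      rw [hz]
      exact le_min (by linarith) hβA
    have hkA : (1 : ℝ) ≤ (k : ℝ) ^ A := one_le_pow₀ hkR
    have hz0 : 0 < z := by linarith
    obtain ⟨r, hr⟩ : ∃ r : ℕ, r = Nat.log 2 ⌊z⌋₊ := ⟨_, rfl⟩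
    have hfl : ⌊z⌋₊ ≠ 0 := by
      have : 0 < ⌊z⌋₊ := Nat.floor_pos.2 (by linarith)
      omega
    have hr1 : ((2 ^ r : ℕ) : ℝ) ≤ z := by
      have h1 : 2 ^ r ≤ ⌊z⌋₊ := by rw [hr]; exact Nat.pow_log_le_self 2 hfl
      exact (Nat.cast_le.2 h1).trans (Nat.floor_le hz0.le)
    have hr2 : z < 2 * ((2 ^ r : ℕ) : ℝ) := by
      have h1 : ⌊z⌋₊ < 2 ^ (r + 1) := by rw [hr]; exact Nat.lt_pow_succ_log_self (by norm_num) _
      have h2 : ((⌊z⌋₊ + 1 : ℕ) : ℝ) ≤ ((2 ^ (r + 1) : ℕ) : ℝ) := Nat.cast_le.2 h1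
      have h3 := Nat.lt_floor_add_one z
      rw [pow_succ] at h2
      push_cast at h2 ⊢
      linarith
    obtain ⟨x, hx⟩ : ∃ x : ℕ, x = 2 ^ r := ⟨_, rfl⟩
    have hxA : k ^ A ≤ 2 ^ r := by
      have h1 : ((k ^ A : ℕ) : ℝ) ≤ ((2 ^ r : ℕ) : ℝ) := by
        push_cast at hr2 ⊢
        linarith
      exact_mod_cast h1
    have hxβ : ((2 ^ r : ℕ) : ℝ) ≤ β := hr1.trans (by rw [hz]; exact min_le_right _ _)
    have hxy : 600 * ((2 ^ r : ℕ) : ℝ) ≤ y := by
      have h1 : ((2 ^ r : ℕ) : ℝ) ≤ y / 600 := hr1.trans (by rw [hz]; exact min_le_left _ _)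
      linarith
    have hxW : (2 ^ r) ^ W ≤ b ^ k := by
      have h1 : (((2 ^ r) ^ W : ℕ) : ℝ) ≤ ((b ^ k : ℕ) : ℝ) := by
        push_cast
        rw [← hβW]
        apply pow_le_pow_left₀ (by positivity)
        push_cast at hxβ
        exact hxβ
      exact_mod_cast h1
    have hcnt := hgood r hxA hxW (by
      rw [← hy]
      push_cast at hxy
      exact hxy) (by
      rw [← hy, ← hβ, ← hz]
      push_cast at hr2
      exact hr2)
    rw [← hx] at hxA hxβ hxy hxW hcnt hr2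
    have hx4 : 4 ≤ x := by
      have h1 : 4 ^ 1 ≤ 4 ^ A := Nat.pow_le_pow_right (by norm_num) (by omega)
      have h2 : 4 ^ A ≤ k ^ A := Nat.pow_le_pow_left (by omega) A
      omega
    have hx0 : (0 : ℝ) < x := by exact_mod_cast (by omega : 0 < x)
    obtain ⟨hpi, hsq, hinv⟩ := pi_lower' x hx4
    have hpiE : 16 * (n : ℝ) * (E * k) ≤ Nat.primeCounting x := by
      have h1 : (k : ℝ) ^ 2 ≤ √x := by
        apply Real.le_sqrt_of_sq_le
        have h2 : (k : ℝ) ^ A ≤ x := by exact_mod_cast hxA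
        calc ((k : ℝ) ^ 2) ^ 2 = (k : ℝ) ^ 4 := by ring
          _ ≤ (k : ℝ) ^ A := pow_le_pow_right₀ hkR hA
          _ ≤ x := h2
      have h2 : 128 * (n : ℝ) * E ≤ k := by exact_mod_cast (by omega : 128 * n * E ≤ k)
      have h3 : 128 * (n : ℝ) * E * k ≤ k * k := mul_le_mul_of_nonneg_right h2 hk0.le
      nlinarith
    obtain ⟨S, hS⟩ : ∃ S : Finset ℕ, S = (PR x).filter (fun p => Hit F j p v) := ⟨_, rfl⟩
    have hScard : (Nat.primeCounting x : ℝ) / (8 * n) ≤ S.card := by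
      have : cntH F j x v = S.card := by
        rw [hS]
        unfold cntH
        congr 1
      rw [← this]
      exact hcnt
    have hS1 : (S.filter (fun p => p ∣ D)).card ≤ E * k := by
      have h1 := primes_dvd D (by omega) (S.filter (fun p => p ∣ D)) (by
        intro p hp
        rw [Finset.mem_filter, hS, Finset.mem_filter, mem_PR] at hp
        exact ⟨hp.1.1.2.1, hp.2⟩)
      exact (Nat.pow_le_pow_iff_right (a := 2) (by norm_num)).1 (h1.trans hDle)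
    have hS2 : (Nat.primeCounting x : ℝ) / (16 * n) ≤ (S.filter (fun p => ¬ p ∣ D)).card := by
      have h1 := Finset.card_filter_add_card_filter_not (s := S) (fun p => p ∣ D)
      have h2 : (S.card : ℝ) ≤ E * k + (S.filter (fun p => ¬ p ∣ D)).card := by
        exact_mod_cast (by omega : S.card ≤ E * k + (S.filter (fun p => ¬ p ∣ D)).card)
      have h3 : (E : ℝ) * k ≤ (Nat.primeCounting x : ℝ) / (16 * n) := by
        rw [le_div_iff₀ (by positivity)]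
        linarith
      have h4 : (Nat.primeCounting x : ℝ) / (8 * n) = 2 * ((Nat.primeCounting x : ℝ) / (16 * n)) := by
        field_simp
        ring
      linarith
    obtain ⟨SS, hSS⟩ : ∃ SS : Set ℕ, SS = {p ∈ smallNorms K n ℓ | ¬ p ∣ D} := ⟨_, rfl⟩
    have hsub : ((S.filter (fun p => ¬ p ∣ D) : Finset ℕ) : Set ℕ) ⊆ SS := by
      intro p hp
      rw [Finset.mem_coe, Finset.mem_filter, hS, Finset.mem_filter, mem_PR] at hp
      obtain ⟨⟨⟨hpx, hpp, _⟩, a, ha1, ha2⟩, hpD⟩ := hp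
      have : Fact p.Prime := ⟨hpp⟩
      rw [hSS]
      refine ⟨⟨hpp, ?_, ?_⟩, hpD⟩
      · rw [← hD]
        have h1 : (((2 * (150 * p) ^ ℓ) ^ (n * (n - 1)) : ℕ) : ℝ) < ((D : ℕ) : ℝ) := by
          rw [← hyM]
          push_cast
          have hp0 : (0 : ℝ) < p := by exact_mod_cast hpp.pos
          have hpx' : (p : ℝ) ≤ x := by exact_mod_cast hpx
          calc (2 * (150 * (p : ℝ)) ^ ℓ) ^ (n * (n - 1)) ≤ ((300 * (p : ℝ)) ^ ℓ) ^ (n * (n - 1)) := by
                apply pow_le_pow_left₀ (by positivity)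
                have h5 : (2 : ℝ) ≤ 2 ^ ℓ := le_self_pow₀ (by norm_num) (by omega)
                calc 2 * (150 * (p : ℝ)) ^ ℓ ≤ 2 ^ ℓ * (150 * (p : ℝ)) ^ ℓ :=
                      mul_le_mul_of_nonneg_right h5 (by positivity)
                  _ = (300 * (p : ℝ)) ^ ℓ := by rw [← mul_pow]; ring
            _ = (300 * (p : ℝ)) ^ (n * (n - 1) * ℓ) := by rw [← pow_mul, mul_comm ℓ]
            _ < y ^ (n * (n - 1) * ℓ) := by
                apply pow_lt_pow_left₀ _ (by positivity) (by omega)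
                linarith
        exact_mod_cast h1
      · exact norm_of_root K F hF.1 (by rw [hF.2.1]; omega) α (j * v) hα (by rw [hfin, hF.2.1]) h p a ha1 ha2
    have hSSr : SS ⊆ ((range D : Finset ℕ) : Set ℕ) := by
      intro p hp
      rw [hSS] at hp
      obtain ⟨⟨hpp, h1, _⟩, _⟩ := hp
      rw [← hD] at h1
      rw [Finset.mem_coe, Finset.mem_range]
      refine lt_of_le_of_lt ?_ h1
      have hnn : n * (n - 1) ≠ 0 := by
        have : 0 < n - 1 := by omega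
        positivity
      calc p ≤ 150 * p := by omega
        _ ≤ (150 * p) ^ ℓ := Nat.le_self_pow (by omega) _
        _ ≤ 2 * (150 * p) ^ ℓ := by omega
        _ ≤ _ := Nat.le_self_pow hnn _
    have hfinite : SS.Finite := (range D).finite_toSet.subset hSSr
    have hk'1 : (Nat.primeCounting x : ℝ) / (16 * n) ≤ SS.ncard := by
      refine hS2.trans ?_
      have h1 := Set.ncard_le_ncard hsub hfinite
      rw [Set.ncard_coe_finset] at h1
      exact_mod_cast h1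
    have hk'2 : (SS.ncard : ℝ) ≤ D := by
      have h1 := Set.ncard_le_ncard hSSr (range D).finite_toSet
      rw [Set.ncard_coe_finset, card_range] at h1
      exact_mod_cast h1
    have hlogk : Real.log ((SS.ncard : ℝ) + 2) ≤ ((E : ℝ) + 2) * k := by
      have h1 : Real.log ((SS.ncard : ℝ) + 2) ≤ Real.log ((2 : ℝ) ^ (E * k + 2)) := by
        apply Real.log_le_log (by positivity)
        have h2 : (D : ℝ) ≤ (2 : ℝ) ^ (E * k) := by exact_mod_cast hDle
        have h3 : (1 : ℝ) ≤ (2 : ℝ) ^ (E * k) := one_le_pow₀ (by norm_num)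
        rw [pow_add]
        linarith
      rw [Real.log_pow] at h1
      have h4 := Real.log_two_lt_d9
      have h5 : ((E * k + 2 : ℕ) : ℝ) * Real.log 2 ≤ (E * k + 2 : ℕ) * 1 :=
        mul_le_mul_of_nonneg_left (by linarith) (Nat.cast_nonneg _)
      push_cast at h1 h5
      nlinarith
    have hlogx : Real.log x ≤ k * b := by
      have h1 : x ≤ b ^ k := (Nat.le_self_pow (by omega) _).trans hxW
      have h2 : Real.log x ≤ Real.log ((b : ℝ) ^ k) := Real.log_le_log hx0 (by exact_mod_cast h1)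
      rw [Real.log_pow] at h2
      have h3 : Real.log (b : ℝ) ≤ b := by
        have := Real.log_le_sub_one_of_pos (show (0 : ℝ) < b by linarith)
        linarith
      exact h2.trans (mul_le_mul_of_nonneg_left h3 hk0.le)
    have hxμ : 1 / (x : ℝ) ≤ 1200 * μ := by
      have h1 : 1 / z ≤ 600 * μ := by
        rw [hz]
        rcases min_choice (y / 600) β with h2 | h2
        · rw [h2]
          have h3 : 1 / y ≤ μ := by rw [hμ]; exact le_max_left _ _
          have h4 : 1 / (y / 600) = 600 * (1 / y) := by field_simp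
          rw [h4]
          linarith
        · rw [h2]
          have h3 : 1 / β ≤ μ := by rw [hμ]; exact le_max_right _ _
          linarith
      have h2 : 1 / (x : ℝ) ≤ 2 * (1 / z) := by
        rw [mul_one_div, div_le_div_iff₀ hx0 hz0]
        linarith
      linarith
    have hk'3 : 1 / ((SS.ncard : ℝ) + 1) ≤ 16 * n * (4 * b * k * (1200 * μ)) := by
      have h1 : 1 / ((SS.ncard : ℝ) + 1) ≤ 1 / ((Nat.primeCounting x : ℝ) / (16 * n)) := by
        apply one_div_le_one_div_of_le (by positivity)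
        linarith
      have h2 : 1 / ((Nat.primeCounting x : ℝ) / (16 * n)) = 16 * n * (1 / (Nat.primeCounting x : ℝ)) := by
        field_simp
      rw [h2] at h1
      refine h1.trans (mul_le_mul_of_nonneg_left (hinv.trans ?_) (by positivity))
      calc 4 * Real.log x / x = 4 * Real.log x * (1 / (x : ℝ)) := by ring
        _ ≤ 4 * (k * b) * (1200 * μ) := by gcongr
        _ = _ := by ring
    have hlk0 : 0 ≤ Real.log ((SS.ncard : ℝ) + 2) := Real.log_nonneg (by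
      have : (0 : ℝ) ≤ SS.ncard := Nat.cast_nonneg _
      linarith)
    have h1 := hres.2
    rw [← hSS] at h1
    calc (Nat.card {c : ClassGroup (𝓞 K) // c ^ ℓ = 1} : ℝ)
        ≤ C₁ * (ℓ : ℝ) ^ n * (Real.log (Real.log (D : ℝ) + 2)) ^ n *
          ((Real.log ((SS.ncard : ℝ) + 2)) ^ n / ((SS.ncard : ℝ) + 1)) * (√(D : ℝ) / Real.log (D : ℝ)) := h1
      _ = C₁ * (ℓ : ℝ) ^ n * ((Real.log (Real.log (D : ℝ) + 2)) ^ n / Real.log (D : ℝ)) *
          ((Real.log ((SS.ncard : ℝ) + 2)) ^ n * (1 / ((SS.ncard : ℝ) + 1))) * √(D : ℝ) := by ring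
      _ ≤ C₁ * (k : ℝ) ^ (T * n) * (3 * n.factorial) *
          ((((E : ℝ) + 2) * k) ^ n * (16 * n * (4 * b * k * (1200 * μ)))) * √(D : ℝ) := by gcongr
      _ = c1 * (k : ℝ) ^ (T * n + n + 1) * (√(D : ℝ) * μ) := by
          rw [hc1, pow_add, pow_add, mul_pow]
          ring
      _ ≤ k * (k : ℝ) ^ (T * n + n + 1) * (√(D : ℝ) * μ) := by gcongr
      _ = (k : ℝ) ^ (T * n + n + 1 + 1) * (√(D : ℝ) * μ) := by rw [pow_succ (k : ℝ) (T * n + n + 1)]; ring
      _ ≤ (k : ℝ) ^ (T * n + n + A + 3) * (√(D : ℝ) * μ) := by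
          apply mul_le_mul_of_nonneg_right _ (by positivity)
          exact pow_le_pow_right₀ hkR (by omega)
      _ = _ := by ring

end Pool.Agent.R459.Tor
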