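import Pool.Agent.R459.Tor7
import Pool.Agent.R459.Mn

/-! The mean value of the torsion of the class group over the digit families. -/

set_option autoImplicit false

namespace Pool.Agent.R459.Tor
open Polynomial Finset NumberField Filter
open Pool.Agent.R459.Eq
open Pool.Agent.H730R2.AA

/-- one scale, for the families -/
theorem scale_almost (b : ℕ) (hb : 2 ≤ b) (η : ℝ) (hη : 0 < η) : ∃ W : ℕ, 1 ≤ W ∧
    ∀ κ : ℤ, κ ≠ 0 → ∀ n : ℕ, 1 ≤ n →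
    ∃ (C : ℝ) (X₀ : ℕ), 0 < C ∧ 2 ^ 20 ≤ X₀ ∧ ∀ (k x : ℕ), 2 ≤ k → X₀ ≤ x → x ^ W ≤ b ^ k → ∀ c : ℤ,
    ∀ (F : ℤ[X]) (j : ℤ), F.Monic → F.natDegree = n → j ≠ 0 → j.natAbs * j.natAbs ≤ x →
      Almost b k κ c η (C * (Real.log x / x)) (fun v => (Nat.primeCounting x : ℝ) / (8 * n) ≤ (cntH F j x v : ℝ)) := by
  obtain ⟨A₁, A₂, γ₁, γ₂, h1, h2, h3, h4, H⟩ := almost_of b hb η hη
  obtain ⟨W₁, hW₁, K₁⟩ := one_scale b hb A₁ γ₁ h1 h2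
  obtain ⟨W₂, hW₂, K₂⟩ := one_scale b hb A₂ γ₂ h3 h4
  obtain ⟨W, hW⟩ : ∃ W, W = max W₁ W₂ := ⟨_, rfl⟩
  have hWW₁ : W₁ ≤ W := by rw [hW]; exact le_max_left _ _
  have hWW₂ : W₂ ≤ W := by rw [hW]; exact le_max_right _ _
  refine ⟨W, hW₁.trans hWW₁, fun κ hκ n hn => ?_⟩
  obtain ⟨C₁, X₁, hC₁, hX₁, J₁⟩ := K₁ (Pool.Agent.TH872.An.GG b) κ (Pool.Agent.TH872.An.GG_pos b hb) hκ n hn
  obtain ⟨C₂, X₂, hC₂, hX₂, J₂⟩ := K₂ (b ^ 4).factorial κ (Nat.factorial_pos _) hκ n hn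
  refine ⟨C₁ + C₂, X₁ + X₂, by positivity, by omega, fun k x hk hx hxW c F j hF hFn hj hjx => ?_⟩
  have hx1 : 1 ≤ x := by
    have : 1 ≤ 2 ^ 20 := Nat.one_le_two_pow
    omega
  have hlog : 0 ≤ Real.log x / x := div_nonneg (Real.log_natCast_nonneg x) (Nat.cast_nonneg _)
  refine H k hk κ c _ _ (mul_nonneg (by positivity) hlog) fun F₀ A' γ hFA ι Ω w v hdec E hE hbad => ?_
  have hbad' : ∀ i ∈ E, (cntH F j x (v i) : ℝ) < (Nat.primeCounting x : ℝ) / (8 * n) := fun i hi => not_le.1 (hbad i hi)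
  have hp1 : C₁ * (Real.log x / x) ≤ (C₁ + C₂) * (Real.log x / x) := mul_le_mul_of_nonneg_right (by linarith) hlog
  have hp2 : C₂ * (Real.log x / x) ≤ (C₁ + C₂) * (Real.log x / x) := mul_le_mul_of_nonneg_right (by linarith) hlog
  rcases hFA with h | h
  · simp only [Prod.mk.injEq] at h
    obtain ⟨rfl, rfl, rfl⟩ := h
    exact (J₁ k x (by omega) ((Nat.pow_le_pow_right hx1 hWW₁).trans hxW) ι Ω w v hdec F j hF hFn hj hjx E hE hbad').trans hp1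
  · simp only [Prod.mk.injEq] at h
    obtain ⟨rfl, rfl, rfl⟩ := h
    exact (J₂ k x (by omega) ((Nat.pow_le_pow_right hx1 hWW₂).trans hxW) ι Ω w v hdec F j hF hFn hj hjx E hE hbad').trans hp2

end Pool.Agent.R459.Tor
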